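import Pool.Agent.Lib.MP_ed661f_ag.G.Defs

/-!
Independence of the conditions of contact: definitions.
-/

set_option autoImplicit false

open Polynomial

namespace Pool.Agent.Lib.MP_ed661f_ag.H

/-- the monomials `u ^ a g ^ b`, `(a, b) ∈ S`, separate the jets of order `s` at the points `q`:
the Taylor coefficients of order `a + b ≤ s` at the points can be prescribed -/
def MonSep {n : ℕ} (S : Finset (ℕ × ℕ)) (q : Fin n → ℂ × ℂ) (s : ℕ) : Prop :=
  ∀ t : Fin n → ℕ × ℕ → ℂ, ∃ c : ℕ × ℕ → ℂ, ∀ l, ∀ p ∈ G.simplex (s + 1),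
    ∑ σ ∈ S, c σ * ((σ.1.choose p.1 : ℂ) * (q l).1 ^ (σ.1 - p.1) *
      ((σ.2.choose p.2 : ℂ) * (q l).2 ^ (σ.2 - p.2))) = t l p

/-- the conditions `I` (on the exponents `(i, j)` of `τ ^ i w ^ j`) are independent on the sections
supported on `S` -/
def Sur {K : Type*} [Field K] (S : Finset (ℕ × ℕ)) (x ξ : K[X]) (I : Finset (ℕ × ℕ)) : Prop :=
  ∀ d : ℕ × ℕ → K, (∀ s ∈ S, ∑ p ∈ I,
    d p * ((C (x ^ s.1) * (C ξ + X) ^ s.2 : K[X][X]).coeff p.2).coeff p.1 = 0) → ∀ p ∈ I, d p = 0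

/-- the conditions of contact order `n` and multiplicity `m` -/
def I0 (n m : ℕ) : Finset (ℕ × ℕ) :=
  (Finset.range (n * m) ×ˢ Finset.range m).filter fun p => p.1 + n * p.2 < n * m

theorem mem_I0 {n m : ℕ} {p : ℕ × ℕ} : p ∈ I0 n m ↔ p.1 + n * p.2 < n * m := by
  rw [I0, Finset.mem_filter, Finset.mem_product, Finset.mem_range, Finset.mem_range]
  constructor
  · exact fun h => h.2
  · intro h
    refine ⟨⟨by omega, ?_⟩, h⟩
    by_contra hm
    have := Nat.mul_le_mul_left n (not_lt.1 hm)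
    omega

/-- the states reached by chains of contact orders, on a surface of degree `δ` -/
inductive RchD (δ : ℕ) : ℕ → ℝ → Prop
  | start (a : ℕ) : 2 ≤ a → RchD δ (a * δ) (a * √δ)
  | step {σ : ℕ} {x : ℝ} (σ' : ℕ) : RchD δ σ x → σ < σ' → x ^ 2 + 1 / 100 ≤ σ' →
      RchD δ σ' (σ' / x)

end Pool.Agent.Lib.MP_ed661f_ag.H
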