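import Pool.Agent.Lib.MP_ed661f_ag.H.PDefs
import Pool.Agent.Lib.MP_6b2d39_ag.Transfer

/-!
From a curvilinear scheme to distinct points, for independent conditions.
-/

set_option autoImplicit false

open Polynomial

namespace Pool.Agent.Lib.MP_ed661f_ag.H

open Pool.Agent.Lib.MP_6b2d39_ag

namespace PPoints

/-! ### Multiplicity `m` at a point of the curve -/

/-- the coefficient of order `j` is divisible by `p ^ (m - j)` -/
private def wt (p : ℂ[X]) (m : ℕ) : Ideal ℂ[X][X] where
  carrier := {g | ∀ j, p ^ (m - j) ∣ g.coeff j}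
  add_mem' {f g} hf hg j := by
    rw [coeff_add]
    exact dvd_add (hf j) (hg j)
  zero_mem' j := by simp
  smul_mem' c f hf j := by
    rw [smul_eq_mul, coeff_mul]
    refine Finset.dvd_sum fun q hq => ?_
    rw [Finset.HasAntidiagonal.mem_antidiagonal] at hq
    exact Dvd.dvd.mul_left ((pow_dvd_pow p (by omega)).trans (hf q.2)) _

private theorem mul_mem_wt {p : ℂ[X]} {m k : ℕ} {f g : ℂ[X][X]} (hf : f ∈ wt p m)
    (hg : g ∈ wt p k) : f * g ∈ wt p (m + k) := by
  intro j
  rw [coeff_mul]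
  refine Finset.dvd_sum fun q hq => ?_
  rw [Finset.HasAntidiagonal.mem_antidiagonal] at hq
  refine (pow_dvd_pow p (show m + k - j ≤ (m - q.1) + (k - q.2) by omega)).trans ?_
  rw [pow_add]
  exact mul_dvd_mul (hf q.1) (hg q.2)

private theorem pow_mem_wt {p : ℂ[X]} {f : ℂ[X][X]} (hf : f ∈ wt p 1) (m : ℕ) :
    f ^ m ∈ wt p m := by
  induction m with
  | zero =>
    intro j
    simp
  | succ m ih =>
    rw [pow_succ]
    exact mul_mem_wt ih hf

private theorem wt_mono {p : ℂ[X]} {m k : ℕ} (h : k ≤ m) {f : ℂ[X][X]} (hf : f ∈ wt p m) :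
    f ∈ wt p k := fun j => (pow_dvd_pow p (by omega)).trans (hf j)

/-- binomial expansion with a fixed range -/
private theorem add_pow' {R : Type*} [CommRing R] (u α : R) {s d : ℕ} (hs : s ≤ d) :
    (u + α) ^ s = ∑ a ∈ Finset.range (d + 1), u ^ a * (α ^ (s - a) * (s.choose a : R)) := by
  rw [add_pow]
  have h1 : Finset.range (s + 1) ⊆ Finset.range (d + 1) := by
    intro a
    simp only [Finset.mem_range]
    omega
  rw [← Finset.sum_subset h1]
  · refine Finset.sum_congr rfl fun a _ => ?_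
    ring
  · intro a _ ha
    rw [Finset.mem_range, not_lt] at ha
    rw [Nat.choose_eq_zero_of_lt (by omega)]
    simp

/-- the Taylor expansion along the curve -/
private theorem expand (x ξ : ℂ[X]) (x0 y0 : ℂ) {s t d : ℕ} (hs : s ≤ d) (ht : t ≤ d) :
    (C (x ^ s) * (C ξ + X) ^ t : ℂ[X][X]) =
      ∑ a ∈ Finset.range (d + 1), ∑ b ∈ Finset.range (d + 1),
        C (C (Transfer.entry x0 y0 a b s t)) *
          (C (x - C x0) ^ a * (C ξ + X - C (C y0)) ^ b) := by
  have h1 : (C (x ^ s) : ℂ[X][X]) = (C (x - C x0) + C (C x0)) ^ s := by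
    rw [← C_add, ← C_pow, sub_add_cancel]
  have h2 : (C ξ + X : ℂ[X][X]) = (C ξ + X - C (C y0)) + C (C y0) := by ring
  rw [h1]
  conv_lhs => rw [h2]
  rw [add_pow' _ _ hs, add_pow' _ _ ht, Finset.sum_mul_sum]
  refine Finset.sum_congr rfl fun a _ => Finset.sum_congr rfl fun b _ => ?_
  simp only [Transfer.entry, C_mul, C_pow, map_natCast]
  ring

/-- the conditions of multiplicity `m` at a point of the curve imply divisibility -/
private theorem dvd_of_conditions {m : ℕ} (S : Finset (ℕ × ℕ)) (x ξ : ℂ[X]) (τ : ℂ)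
    (c : S → ℂ)
    (h : ∀ a b, a + b < m →
      ∑ i : S, Transfer.entry (x.eval τ) (ξ.eval τ) a b i.1.1 i.1.2 * c i = 0)
    (j : ℕ) :
    (X - C τ) ^ (m - j) ∣
      ∑ i : S, C (c i) * (C (x ^ i.1.1) * (C ξ + X) ^ i.1.2 : ℂ[X][X]).coeff j := by
  obtain ⟨d, hd⟩ : ∃ d, ∀ i : S, i.1.1 ≤ d ∧ i.1.2 ≤ d := by
    refine ⟨S.sup Prod.fst + S.sup Prod.snd, fun i => ⟨?_, ?_⟩⟩
    · have := Finset.le_sup (f := Prod.fst) i.2
      omega
    · have := Finset.le_sup (f := Prod.snd) i.2
      omega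
  have hu : (C (x - C (x.eval τ)) : ℂ[X][X]) ∈ wt (X - C τ) 1 := by
    intro j
    rw [coeff_C]
    split_ifs with hj
    · subst hj
      rw [Nat.sub_zero, pow_one]
      exact X_sub_C_dvd_sub_C_eval
    · exact dvd_zero _
  have hv : (C ξ + X - C (C (ξ.eval τ)) : ℂ[X][X]) ∈ wt (X - C τ) 1 := by
    intro j
    rcases j with _ | j
    · simp only [coeff_sub, coeff_add, coeff_C_zero, coeff_X_zero, add_zero, Nat.sub_zero, pow_one]
      exact X_sub_C_dvd_sub_C_eval
    · rw [show 1 - (j + 1) = 0 by omega, pow_zero]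
      exact one_dvd _
  have key : (∑ i : S, C (C (c i)) *
      (C (x ^ i.1.1) * (C ξ + X) ^ i.1.2) : ℂ[X][X]) =
      ∑ a ∈ Finset.range (d + 1), ∑ b ∈ Finset.range (d + 1),
        C (C (∑ i : S,
          Transfer.entry (x.eval τ) (ξ.eval τ) a b i.1.1 i.1.2 * c i)) *
          (C (x - C (x.eval τ)) ^ a * (C ξ + X - C (C (ξ.eval τ))) ^ b) := by
    have h1 : ∀ i : S, (C (C (c i)) *
        (C (x ^ i.1.1) * (C ξ + X) ^ i.1.2) : ℂ[X][X]) =
        ∑ a ∈ Finset.range (d + 1), ∑ b ∈ Finset.range (d + 1),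
          C (C (Transfer.entry (x.eval τ) (ξ.eval τ) a b i.1.1 i.1.2 * c i)) *
          (C (x - C (x.eval τ)) ^ a * (C ξ + X - C (C (ξ.eval τ))) ^ b) := by
      intro i
      rw [expand x ξ (x.eval τ) (ξ.eval τ) (hd i).1 (hd i).2, Finset.mul_sum]
      refine Finset.sum_congr rfl fun a _ => ?_
      rw [Finset.mul_sum]
      refine Finset.sum_congr rfl fun b _ => ?_
      simp only [C_mul]
      ring
    rw [Finset.sum_congr rfl fun i _ => h1 i, Finset.sum_comm]
    refine Finset.sum_congr rfl fun a _ => ?_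
    rw [Finset.sum_comm]
    refine Finset.sum_congr rfl fun b _ => ?_
    rw [← Finset.sum_mul, map_sum, map_sum]
  have hmem : (∑ i : S, C (C (c i)) *
      (C (x ^ i.1.1) * (C ξ + X) ^ i.1.2) : ℂ[X][X]) ∈ wt (X - C τ) m := by
    rw [key]
    refine Ideal.sum_mem _ fun a _ => Ideal.sum_mem _ fun b _ => ?_
    by_cases hab : a + b < m
    · rw [h a b hab]
      simp
    · refine Ideal.mul_mem_left _ _ (wt_mono (not_lt.1 hab) ?_)
      exact mul_mem_wt (pow_mem_wt hu a) (pow_mem_wt hv b)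
  have h2 := hmem j
  rw [finsetSum_coeff] at h2
  simpa only [coeff_C_mul] using h2

/-! ### The specialisation -/

/-- the coefficients of the remainder modulo `X ^ k` -/
private theorem coeff_modByMonic_X_pow (p : ℂ[X]) {k i : ℕ} (hi : i < k) :
    (p %ₘ X ^ k).coeff i = p.coeff i := by
  have h1 := modByMonic_add_div p (X ^ k)
  conv_rhs => rw [← h1]
  rw [coeff_add, coeff_X_pow_mul', if_neg (by omega), add_zero]

/-- the polynomial of the points -/
private noncomputable def PP {R : Type*} [CommRing R] (n : ℕ) (s : R) : R[X] :=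
  ∏ v : Fin n, (X - C (s * ((v : ℕ) : R)))

private theorem monic_PP {R : Type*} [CommRing R] (n : ℕ) (s : R) : (PP n s).Monic :=
  monic_prod_of_monic _ _ fun _ _ => monic_X_sub_C _

private theorem map_PP {R R' : Type*} [CommRing R] [CommRing R'] (φ : R →+* R') (n : ℕ) (s : R) :
    (PP n s).map φ = PP n (φ s) := by
  simp [PP, Polynomial.map_prod]

private theorem PP_zero {R : Type*} [CommRing R] (n : ℕ) : PP n (0 : R) = X ^ n := by
  simp [PP]

/-- the matrix of conditions -/
private noncomputable def rw' {R : Type*} [CommRing R] (φ : ℂ →+* R) (n m : ℕ)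
    (x ξ : ℂ[X]) (s : R) (t : ℕ × ℕ) (i : ℕ × ℕ) : R :=
  (((C (x ^ i.1) * (C ξ + X) ^ i.2 : ℂ[X][X]).coeff t.2).map φ %ₘ
    (PP n s) ^ (m - t.2)).coeff t.1

private theorem map_rw' {R R' : Type*} [CommRing R] [CommRing R'] (φ : ℂ →+* R) (ψ : R →+* R')
    (n m : ℕ) (x ξ : ℂ[X]) (s : R) (t : ℕ × ℕ) (i : ℕ × ℕ) :
    ψ (rw' φ n m x ξ s t i) = rw' (ψ.comp φ) n m x ξ (ψ s) t i := by
  rw [rw', rw', ← coeff_map, map_modByMonic _ ((monic_PP n s).pow _), Polynomial.map_map,
    Polynomial.map_pow, map_PP]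

/-- linearity of the remainder -/
private theorem sum_rw' (S : Finset (ℕ × ℕ)) (n m : ℕ) (x ξ : ℂ[X]) (s : ℂ) (t : ℕ × ℕ)
    (c : S → ℂ) :
    ∑ i : S, rw' (RingHom.id ℂ) n m x ξ s t i * c i =
      ((∑ i : S, C (c i) * (C (x ^ i.1.1) * (C ξ + X) ^ i.1.2 :
        ℂ[X][X]).coeff t.2) %ₘ (PP n s) ^ (m - t.2)).coeff t.1 := by
  rw [← modByMonicHom_apply, map_sum, finsetSum_coeff]
  refine Finset.sum_congr rfl fun i _ => ?_
  rw [← smul_eq_C_mul, map_smul, coeff_smul, modByMonicHom_apply, rw', Polynomial.map_id,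
    smul_eq_mul, mul_comm]

theorem card_I0 (n m : ℕ) : (I0 n m).card = n * (G.simplex m).card := by
  have h1 : ((Finset.range n) ×ˢ (G.simplex m)).card = (I0 n m).card := by
    apply Finset.card_nbij' (i := fun u : ℕ × ℕ × ℕ => (n * u.2.1 + u.1, u.2.2))
      (j := fun p : ℕ × ℕ => (p.1 % n, (p.1 / n, p.2)))
    · rintro ⟨l, a, b⟩ hu
      simp only [Finset.coe_product, Set.mem_prod, Finset.mem_coe, Finset.mem_range,
        G.mem_simplex] at hu
      simp only [Finset.mem_coe, mem_I0]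
      have h2 : n * (a + b + 1) ≤ n * m := Nat.mul_le_mul_left n hu.2
      have h3 : n * (a + b + 1) = n * a + n * b + n := by ring
      omega
    · rintro ⟨i, j⟩ hp
      simp only [Finset.mem_coe, mem_I0] at hp
      simp only [Finset.coe_product, Set.mem_prod, Finset.mem_coe, Finset.mem_range,
        G.mem_simplex]
      have hn : 0 < n := by
        rcases Nat.eq_zero_or_pos n with h0 | h0
        · rw [h0] at hp
          omega
        · exact h0
      refine ⟨Nat.mod_lt _ hn, ?_⟩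
      by_contra hcon
      have h2 : n * m ≤ n * (i / n + j) := Nat.mul_le_mul_left n (not_lt.1 hcon)
      have h3 : n * (i / n + j) = n * (i / n) + n * j := by ring
      have h4 := Nat.div_add_mod i n
      omega
    · rintro ⟨l, a, b⟩ hu
      simp only [Finset.coe_product, Set.mem_prod, Finset.mem_coe, Finset.mem_range,
        G.mem_simplex] at hu
      have hn : 0 < n := by omega
      simp only [Prod.mk.injEq, and_true]
      constructor
      · rw [Nat.mul_add_mod, Nat.mod_eq_of_lt hu.1]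
      · rw [Nat.mul_add_div hn, Nat.div_eq_of_lt hu.1, add_zero]
    · rintro ⟨i, j⟩ _
      simp only [Prod.mk.injEq, and_true]
      exact Nat.div_add_mod i n
  rw [← h1, Finset.card_product, Finset.card_range]

end PPoints

open PPoints in
theorem monSep_of_sur {S : Finset (ℕ × ℕ)} {n m : ℕ} {μ : ℂ} {ξ : ℂ[X]} (hμ : μ ≠ 0)
    (h : Sur S (1 + C μ * X) ξ (I0 n (m + 1))) :
    ∃ q : Fin n → ℂ × ℂ, Function.Injective q ∧ MonSep S q m := by
  classical
  -- a nonzero minor at `s = 0`
  obtain ⟨a, ha⟩ := Transfer.exists_minor (K := ℂ) (I := I0 n (m + 1)) (J := S)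
    (fun σ p => rw' (RingHom.id ℂ) n (m + 1) (1 + C μ * X) ξ 0 p.1 σ.1) (by
      intro c hc
      have h1 := h (fun p => if hp : p ∈ I0 n (m + 1) then c ⟨p, hp⟩ else 0) (by
        intro s hs
        have h2 := hc ⟨s, hs⟩
        rw [← h2, ← Finset.sum_coe_sort]
        refine Finset.sum_congr rfl fun p _ => ?_
        rw [dif_pos p.2, mul_comm]
        congr 1
        have hp := mem_I0.1 p.2
        have hj : p.1.2 < m + 1 := by
          by_contra hj
          rw [not_lt] at hj
          have := Nat.mul_le_mul_left n hj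
          omega
        have hi : p.1.1 < n * (m + 1 - p.1.2) := by
          rw [Nat.mul_sub]
          omega
        rw [rw', PP_zero, ← pow_mul, Polynomial.map_id, coeff_modByMonic_X_pow _ hi])
      ext p
      have h2 := h1 p.1 p.2
      rw [dif_pos p.2] at h2
      exact h2)
  -- a nonzero `s` with a nonzero minor
  obtain ⟨s, hs0, hs⟩ : ∃ s : ℂ, s ≠ 0 ∧
      (Matrix.of fun p p' : I0 n (m + 1) =>
        rw' (RingHom.id ℂ) n (m + 1) (1 + C μ * X) ξ s p'.1 (a p).1).det ≠ 0 := by
    let D : ℂ[X] := (Matrix.of fun p p' : I0 n (m + 1) =>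
      rw' (C : ℂ →+* ℂ[X]) n (m + 1) (1 + C μ * X) ξ (X : ℂ[X]) p'.1 (a p).1).det
    have hD : ∀ s : ℂ, D.eval s = (Matrix.of fun p p' : I0 n (m + 1) =>
        rw' (RingHom.id ℂ) n (m + 1) (1 + C μ * X) ξ s p'.1 (a p).1).det := by
      intro s
      change (evalRingHom s) D = _
      rw [RingHom.map_det]
      congr 1
      ext p p'
      rw [RingHom.mapMatrix_apply, Matrix.map_apply, Matrix.of_apply, Matrix.of_apply, map_rw']
      have h6 : (evalRingHom s).comp (C : ℂ →+* ℂ[X]) = RingHom.id ℂ := by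
        ext z
        simp
      rw [h6, coe_evalRingHom, eval_X]
    have hD0 : D ≠ 0 := by
      intro h0
      apply ha
      rw [← hD 0, h0, eval_zero]
    have hDX : D * X ≠ 0 := mul_ne_zero hD0 X_ne_zero
    obtain ⟨s, hs⟩ : ∃ s : ℂ, (D * X).eval s ≠ 0 := by
      by_contra hne
      push Not at hne
      exact hDX (Polynomial.funext fun s => by rw [hne s, eval_zero])
    rw [eval_mul, eval_X] at hs
    refine ⟨s, right_ne_zero_of_mul hs, ?_⟩
    rw [← hD s]
    exact left_ne_zero_of_mul hs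
  have hsinj : Function.Injective (fun v : Fin n => s * ((v : ℕ) : ℂ)) := by
    intro v w hvw
    have h1 := mul_left_cancel₀ hs0 hvw
    exact Fin.ext (by exact_mod_cast h1)
  -- the points
  obtain ⟨x, hx⟩ : ∃ x : ℂ[X], x = 1 + C μ * X := ⟨_, rfl⟩
  rw [← hx] at hs
  refine ⟨fun v => (x.eval (s * ((v : ℕ) : ℂ)), ξ.eval (s * ((v : ℕ) : ℂ))), ?_, ?_⟩
  · intro v w hvw
    have h1 := (Prod.mk.inj hvw).1
    rw [hx] at h1
    simp only [eval_add, eval_one, eval_mul, eval_C, eval_X] at h1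
    have h2 := mul_left_cancel₀ hμ (add_left_cancel h1)
    exact hsinj h2
  -- the two linear maps
  let J : (S → ℂ) →ₗ[ℂ] (Fin n × G.simplex (m + 1) → ℂ) :=
    { toFun := fun c r => ∑ i : S, Transfer.entry (x.eval (s * ((r.1 : ℕ) : ℂ)))
        (ξ.eval (s * ((r.1 : ℕ) : ℂ))) r.2.1.1 r.2.1.2 i.1.1 i.1.2 * c i
      map_add' := by
        intro c c'
        ext r
        simp only [Pi.add_apply, mul_add, Finset.sum_add_distrib]
      map_smul' := by
        intro c c'
        ext r
        simp only [Pi.smul_apply, smul_eq_mul, RingHom.id_apply, Finset.mul_sum]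
        refine Finset.sum_congr rfl fun i _ => by ring }
  let W : (S → ℂ) →ₗ[ℂ] (I0 n (m + 1) → ℂ) :=
    { toFun := fun c p => ∑ i : S, rw' (RingHom.id ℂ) n (m + 1) x ξ s p.1 i.1 * c i
      map_add' := by
        intro c c'
        ext r
        simp only [Pi.add_apply, mul_add, Finset.sum_add_distrib]
      map_smul' := by
        intro c c'
        ext r
        simp only [Pi.smul_apply, smul_eq_mul, RingHom.id_apply, Finset.mul_sum]
        refine Finset.sum_congr rfl fun i _ => by ring }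
  have hWtop : LinearMap.range W = ⊤ := by
    rw [LinearMap.range_eq_top]
    -- the columns `a p` form an invertible matrix
    let A : Matrix (I0 n (m + 1)) (I0 n (m + 1)) ℂ := Matrix.of fun p p' =>
      rw' (RingHom.id ℂ) n (m + 1) x ξ s p'.1 (a p).1
    have hA : IsUnit A.det := isUnit_iff_ne_zero.2 hs
    intro y
    refine ⟨∑ p : I0 n (m + 1), (Matrix.vecMul y A⁻¹) p • Pi.single (a p) 1, ?_⟩
    rw [map_sum]
    ext p'
    rw [Finset.sum_apply]
    have h1 : ∀ p : I0 n (m + 1), W ((Matrix.vecMul y A⁻¹) p • Pi.single (a p) 1) p' =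
        (Matrix.vecMul y A⁻¹) p * A p p' := by
      intro p
      rw [map_smul, Pi.smul_apply, smul_eq_mul]
      congr 1
      change ∑ i : S, rw' (RingHom.id ℂ) n (m + 1) x ξ s p'.1 i.1 *
        (Pi.single (a p) (1 : ℂ) : S → ℂ) i = _
      rw [Finset.sum_eq_single (a p)]
      · rw [Pi.single_eq_same, mul_one]
        rfl
      · intro i _ hi
        rw [Pi.single_eq_of_ne hi, mul_zero]
      · intro hcon
        exact absurd (Finset.mem_univ _) hcon
    rw [Finset.sum_congr rfl fun p _ => h1 p]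
    have h2 : Matrix.vecMul (Matrix.vecMul y A⁻¹) A = y := by
      rw [Matrix.vecMul_vecMul, Matrix.nonsing_inv_mul _ hA, Matrix.vecMul_one]
    exact congrFun h2 p'
  have hker : LinearMap.ker J ≤ LinearMap.ker W := by
    intro c hc
    rw [LinearMap.mem_ker] at hc ⊢
    ext p
    change ∑ i : S, rw' (RingHom.id ℂ) n (m + 1) x ξ s p.1 i.1 * c i = 0
    rw [sum_rw']
    have hdvd : (PP n s) ^ (m + 1 - p.1.2) ∣ ∑ i : S, C (c i) *
        (C (x ^ i.1.1) * (C ξ + X) ^ i.1.2 : ℂ[X][X]).coeff p.1.2 := by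
      rw [PP, ← Finset.prod_pow]
      refine Finset.prod_dvd_of_coprime ?_ ?_
      · intro v _ w _ hvw
        exact (pairwise_coprime_X_sub_C hsinj hvw).pow
      · intro v _
        refine dvd_of_conditions S _ _ _ c ?_ _
        intro b b' hbb
        exact congrFun hc (v, ⟨(b, b'), G.mem_simplex.2 hbb⟩)
    rw [(modByMonic_eq_zero_iff_dvd ((monic_PP n s).pow _)).2 hdvd, coeff_zero]
  have hJ : LinearMap.range J = ⊤ := by
    apply Submodule.eq_top_of_finrank_eq
    have h1 := LinearMap.finrank_range_add_finrank_ker J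
    have h2 := LinearMap.finrank_range_add_finrank_ker W
    have h3 := Submodule.finrank_mono hker
    have h4 : Module.finrank ℂ (LinearMap.range W) = n * (G.simplex (m + 1)).card := by
      rw [hWtop, finrank_top, Module.finrank_fintype_fun_eq_card, Fintype.card_coe, card_I0]
    have h5 : Module.finrank ℂ (Fin n × G.simplex (m + 1) → ℂ) =
        n * (G.simplex (m + 1)).card := by
      rw [Module.finrank_fintype_fun_eq_card, Fintype.card_prod, Fintype.card_fin,
        Fintype.card_coe]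
    have h6 := Submodule.finrank_le (LinearMap.range J)
    omega
  -- conclusion
  intro t
  rw [LinearMap.range_eq_top] at hJ
  obtain ⟨c, hc⟩ := hJ (fun r => t r.1 r.2.1)
  refine ⟨fun σ => if hσ : σ ∈ S then c ⟨σ, hσ⟩ else 0, fun l p hp => ?_⟩
  have h1 := congrFun hc (l, ⟨p, hp⟩)
  simp only at h1
  rw [← h1, ← Finset.sum_coe_sort]
  change _ = ∑ i : S, Transfer.entry (x.eval (s * ((l : ℕ) : ℂ)))
        (ξ.eval (s * ((l : ℕ) : ℂ))) p.1 p.2 i.1.1 i.1.2 * c i
  refine Finset.sum_congr rfl fun i _ => ?_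
  beta_reduce
  rw [dif_pos i.2, Transfer.entry]
  ring

end Pool.Agent.Lib.MP_ed661f_ag.H
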