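import Pool.Agent.Lib.MP_ed661f_ag.G.ExistsChain
import Pool.Agent.Lib.MP_ed661f_ag.H.PDefs

/-!
Part H: number theory of the chains for a surface of degree `dl`: the start is `a ^ 2 * dl`.
-/

set_option autoImplicit false

namespace Pool.Agent.Lib.MP_ed661f_ag.H

open Pool.Agent.Lib.MP_ed661f_ag.G

/-- the first elementary move -/
theorem rchD_alpha {dl σ : ℕ} {x : ℝ} (h : RchD dl σ x) (hx : 0 < x) (z : ℕ)
    (hz : 1000 ≤ z) (hσ : σ ≤ z) (h1 : (z : ℝ) + 5 / 100 ≤ x ^ 2)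
    (h2 : x ^ 2 ≤ (z : ℝ) + 95 / 100) :
    RchD dl (z + 3) (x * (((z : ℝ) + 3) / (z + 1))) := by
  have hzr : (1000 : ℝ) ≤ z := by exact_mod_cast hz
  have s1 : RchD dl (z + 1) (((z + 1 : ℕ) : ℝ) / x) := by
    refine RchD.step (z + 1) h (by omega) ?_
    push_cast
    linarith
  have s2 : RchD dl (z + 3) (((z + 3 : ℕ) : ℝ) / (((z + 1 : ℕ) : ℝ) / x)) := by
    refine RchD.step (z + 3) s1 (by omega) ?_
    push_cast
    have : ((z : ℝ) + 1) ^ 2 / x ^ 2 ≤ z + 2 := by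
      rw [div_le_iff₀ (by positivity)]
      nlinarith
    rw [div_pow]
    linarith
  have e : ((z + 3 : ℕ) : ℝ) / (((z + 1 : ℕ) : ℝ) / x) = x * (((z : ℝ) + 3) / (z + 1)) := by
    push_cast
    field_simp
  rw [e] at s2
  exact s2

/-- the second elementary move -/
theorem rchD_beta {dl σ : ℕ} {x : ℝ} (h : RchD dl σ x) (hx : 0 < x) (z : ℕ)
    (hz : 1000 ≤ z) (hσ : σ ≤ z) (h1 : (z : ℝ) + 5 / 100 ≤ x ^ 2)
    (h2 : x ^ 2 ≤ (z : ℝ) + 95 / 100) :
    RchD dl (z + 4) (x * (((z : ℝ) + 4) / (z + 2))) := by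
  have hzr : (1000 : ℝ) ≤ z := by exact_mod_cast hz
  have s1 : RchD dl (z + 2) (((z + 2 : ℕ) : ℝ) / x) := by
    refine RchD.step (z + 2) h (by omega) ?_
    push_cast
    linarith
  have s2 : RchD dl (z + 4) (((z + 4 : ℕ) : ℝ) / (((z + 2 : ℕ) : ℝ) / x)) := by
    refine RchD.step (z + 4) s1 (by omega) ?_
    push_cast
    have : ((z : ℝ) + 2) ^ 2 / x ^ 2 ≤ z + 396 / 100 := by
      rw [div_le_iff₀ (by positivity)]
      nlinarith
    rw [div_pow]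
    linarith
  have e : ((z + 4 : ℕ) : ℝ) / (((z + 2 : ℕ) : ℝ) / x) = x * (((z : ℝ) + 4) / (z + 2)) := by
    push_cast
    field_simp
  rw [e] at s2
  exact s2

theorem word_rchD {dl σ : ℕ} {x : ℝ} (h : RchD dl σ x) (hx : 0 < x) (z0 nb : ℕ)
    (hz : 1000 ≤ z0) (hσ : σ ≤ z0) (h1 : (z0 : ℝ) + 45 / 100 ≤ x ^ 2)
    (h2 : x ^ 2 ≤ (z0 : ℝ) + 55 / 100) (hnb : 3 * (z0 + 4 * nb) ≤ 5 * z0) (E : Finset ℕ) :
    ∃ σ' : ℕ, RchD dl σ'
      (x * ∏ b ∈ Finset.range nb, (if b ∈ E then ((z0 : ℝ) + 4 * b + 3) / (z0 + 4 * b + 1)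
        else ((z0 : ℝ) + 4 * b + 4) / (z0 + 4 * b + 2))) ∧ σ' ≤ z0 + 4 * nb := by
  have hzr : (1000 : ℝ) ≤ z0 := by exact_mod_cast hz
  have key : ∀ m ≤ nb, ∃ σ' : ℕ, RchD dl σ'
      (x * ∏ b ∈ Finset.range m, (if b ∈ E then ((z0 : ℝ) + 4 * b + 3) / (z0 + 4 * b + 1)
        else ((z0 : ℝ) + 4 * b + 4) / (z0 + 4 * b + 2))) ∧ σ' ≤ z0 + 4 * m ∧
      0 < (x * ∏ b ∈ Finset.range m, (if b ∈ E then ((z0 : ℝ) + 4 * b + 3) / (z0 + 4 * b + 1)
        else ((z0 : ℝ) + 4 * b + 4) / (z0 + 4 * b + 2))) ∧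
      (x * ∏ b ∈ Finset.range m, (if b ∈ E then ((z0 : ℝ) + 4 * b + 3) / (z0 + 4 * b + 1)
        else ((z0 : ℝ) + 4 * b + 4) / (z0 + 4 * b + 2))) ^ 2 * z0 ≤
        x ^ 2 * (z0 + 4 * m) ∧
      x ^ 2 * ((z0 : ℝ) + 4 * m + 101 / 100) ≤
      (x * ∏ b ∈ Finset.range m, (if b ∈ E then ((z0 : ℝ) + 4 * b + 3) / (z0 + 4 * b + 1)
        else ((z0 : ℝ) + 4 * b + 4) / (z0 + 4 * b + 2))) ^ 2 * (z0 + 101 / 100) := by
    intro m
    induction m with
    | zero =>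
      intro _
      refine ⟨σ, by simpa using h, by simpa using hσ, by simpa using hx, by simp,
        by simp⟩
    | succ m ih =>
      intro hm
      obtain ⟨s, hr, hs, hpos, hup, hlo⟩ := ih (by omega)
      rw [Finset.prod_range_succ, ← mul_assoc]
      set w := x * ∏ b ∈ Finset.range m,
        (if b ∈ E then ((z0 : ℝ) + 4 * b + 3) / (z0 + 4 * b + 1)
        else ((z0 : ℝ) + 4 * b + 4) / (z0 + 4 * b + 2)) with hw
      set q : ℝ := (if m ∈ E then ((z0 : ℝ) + 4 * m + 3) / (z0 + 4 * m + 1)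
        else ((z0 : ℝ) + 4 * m + 4) / (z0 + 4 * m + 2)) with hq
      have hmr : (0 : ℝ) ≤ m := Nat.cast_nonneg m
      have h43 : 3 * ((z0 : ℝ) + 4 * m) ≤ 5 * z0 := by
        have : 3 * (z0 + 4 * m) ≤ 5 * z0 := by omega
        exact_mod_cast this
      have hz' : (1000 : ℝ) ≤ (z0 : ℝ) + 4 * m := by linarith
      have hyu : w ^ 2 ≤ ((z0 : ℝ) + 4 * m) + 95 / 100 := by
        have h3 : w ^ 2 * z0 ≤ (z0 + 55 / 100) * (z0 + 4 * m) :=
          hup.trans (mul_le_mul_of_nonneg_right h2 (by positivity))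
        have h4 : ((z0 : ℝ) + 55 / 100) * (z0 + 4 * m) ≤ ((z0 : ℝ) + 4 * m + 95 / 100) * z0 := by
          nlinarith
        exact le_of_mul_le_mul_right (h3.trans h4) (by linarith)
      have hyl : ((z0 : ℝ) + 4 * m) + 5 / 100 ≤ w ^ 2 := by
        have h3 : ((z0 : ℝ) + 45 / 100) * ((z0 : ℝ) + 4 * m + 101 / 100) ≤
            w ^ 2 * (z0 + 101 / 100) :=
          (mul_le_mul_of_nonneg_right h1 (by positivity)).trans hlo
        have h4 : ((z0 : ℝ) + 4 * m + 5 / 100) * (z0 + 101 / 100) ≤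
            ((z0 : ℝ) + 45 / 100) * ((z0 : ℝ) + 4 * m + 101 / 100) := by
          nlinarith
        exact le_of_mul_le_mul_right (h4.trans h3) (by linarith)
      have hqor : q = ((z0 : ℝ) + 4 * m + 3) / ((z0 : ℝ) + 4 * m + 1) ∨
          q = ((z0 : ℝ) + 4 * m + 4) / ((z0 : ℝ) + 4 * m + 2) := by
        by_cases hE : m ∈ E
        · left; rw [hq, if_pos hE]
        · right; rw [hq, if_neg hE]
      obtain ⟨hq0, hqu, hql⟩ := factor_bounds hz' hqor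
      have hup' : (w * q) ^ 2 * z0 ≤ x ^ 2 * (z0 + 4 * ((m + 1 : ℕ) : ℝ)) := by
        have : (w * q) ^ 2 * z0 = w ^ 2 * z0 * q ^ 2 := by ring
        rw [this]
        calc w ^ 2 * z0 * q ^ 2 ≤ x ^ 2 * (z0 + 4 * m) * q ^ 2 :=
              mul_le_mul_of_nonneg_right hup (by positivity)
          _ = x ^ 2 * (q ^ 2 * (z0 + 4 * m)) := by ring
          _ ≤ x ^ 2 * (z0 + 4 * m + 4) := mul_le_mul_of_nonneg_left hqu (by positivity)
          _ = x ^ 2 * (z0 + 4 * ((m + 1 : ℕ) : ℝ)) := by push_cast; ring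
      have hlo' : x ^ 2 * ((z0 : ℝ) + 4 * ((m + 1 : ℕ) : ℝ) + 101 / 100) ≤
          (w * q) ^ 2 * (z0 + 101 / 100) := by
        have : (w * q) ^ 2 * (z0 + 101 / 100) = w ^ 2 * (z0 + 101 / 100) * q ^ 2 := by ring
        rw [this]
        calc x ^ 2 * ((z0 : ℝ) + 4 * ((m + 1 : ℕ) : ℝ) + 101 / 100)
            = x ^ 2 * ((z0 : ℝ) + 4 * m + 4 + 101 / 100) := by push_cast; ring
          _ ≤ x ^ 2 * (q ^ 2 * (z0 + 4 * m + 101 / 100)) :=
              mul_le_mul_of_nonneg_left hql (by positivity)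
          _ = x ^ 2 * (z0 + 4 * m + 101 / 100) * q ^ 2 := by ring
          _ ≤ w ^ 2 * (z0 + 101 / 100) * q ^ 2 :=
              mul_le_mul_of_nonneg_right hlo (by positivity)
      have hcast : ((z0 + 4 * m : ℕ) : ℝ) = (z0 : ℝ) + 4 * m := by push_cast; ring
      by_cases hE : m ∈ E
      · have ha := rchD_alpha hr hpos (z0 + 4 * m) (by omega) hs (by rw [hcast]; exact hyl)
          (by rw [hcast]; exact hyu)
        rw [hcast] at ha
        refine ⟨z0 + 4 * m + 3, ?_, by omega, mul_pos hpos hq0, hup', hlo'⟩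
        rw [hq, if_pos hE]
        exact ha
      · have ha := rchD_beta hr hpos (z0 + 4 * m) (by omega) hs (by rw [hcast]; exact hyl)
          (by rw [hcast]; exact hyu)
        rw [hcast] at ha
        refine ⟨z0 + 4 * m + 4, ?_, by omega, mul_pos hpos hq0, hup', hlo'⟩
        rw [hq, if_neg hE]
        exact ha
  obtain ⟨σ', hr, hs, -⟩ := key nb le_rfl
  exact ⟨σ', hr, hs⟩

private theorem sum_gz (z0 nb : ℕ) (hz : 1 ≤ z0) :
    ∑ b ∈ Finset.range nb, gz (z0 + 4 * b) =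
      ∑ b ∈ Finset.range nb, Real.log (((z0 : ℝ) + 4 * b + 3) / (z0 + 4 * b + 1)) -
      ∑ b ∈ Finset.range nb, Real.log (((z0 : ℝ) + 4 * b + 4) / (z0 + 4 * b + 2)) := by
  have hz' : (1 : ℝ) ≤ z0 := by exact_mod_cast hz
  rw [← Finset.sum_sub_distrib]
  refine Finset.sum_congr rfl fun b _ => ?_
  have hb : (0 : ℝ) ≤ b := Nat.cast_nonneg b
  rw [gz, ← Real.log_div (by positivity) (by positivity)]
  congr 1
  field_simp

/-- the target lies well inside the range of the subset sums -/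
theorem target_rangeD (n j nb z0 : ℕ) (x0 : ℝ) (hz : z0 + 4 * nb + 2 * j = n)
    (hz0big : 1000000 ≤ z0) (hx0 : 0 < x0) (hy1 : (z0 : ℝ) + 45 / 100 ≤ x0 ^ 2)
    (hy2 : x0 ^ 2 ≤ (z0 : ℝ) + 55 / 100)
    (h3 : 45 * n ≤ 100 * j ^ 2) (h4 : 100 * j ^ 2 ≤ 55 * n)
    (h5 : 16 * z0 ≤ 10 * (z0 + 4 * nb))
    (h6 : 3 * (z0 + 4 * nb) ≤ 5 * z0) (τ : ℝ)
    (hτ : τ = Real.log (((n : ℝ) - j) / √n) - Real.log x0 -
      ∑ b ∈ Finset.range nb, Real.log (((z0 : ℝ) + 4 * b + 4) / (z0 + 4 * b + 2))) :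
    1 / 40 / (z0 : ℝ) ≤ τ ∧
      τ ≤ ∑ b ∈ Finset.range nb, gz (z0 + 4 * b) - 1 / 40 / (z0 : ℝ) := by
  have hz0R : (1000000 : ℝ) ≤ z0 := by exact_mod_cast hz0big
  have hnR : (n : ℝ) = z0 + 4 * nb + 2 * j := by rw [← hz]; push_cast; ring
  have hjnn : (0 : ℝ) ≤ j := Nat.cast_nonneg _
  have hnbnn : (0 : ℝ) ≤ nb := Nat.cast_nonneg _
  have h3R : 45 * (n : ℝ) ≤ 100 * (j : ℝ) ^ 2 := by exact_mod_cast h3
  have h4R : 100 * (j : ℝ) ^ 2 ≤ 55 * (n : ℝ) := by exact_mod_cast h4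
  have h5R : 16 * (z0 : ℝ) ≤ 10 * (z0 + 4 * nb) := by
    exact_mod_cast h5
  have h6R : 3 * ((z0 : ℝ) + 4 * nb) ≤ 5 * z0 := by
    exact_mod_cast h6
  set ze : ℝ := (z0 : ℝ) + 4 * nb with hze
  have hnpos : (0 : ℝ) < n := by rw [hnR]; linarith
  -- the end point
  have hnj : (0 : ℝ) < (n : ℝ) - j := by rw [hnR]; linarith
  have hY : 2 * Real.log (((n : ℝ) - j) / √n) = Real.log (ze + (j : ℝ) ^ 2 / n) := by
    have e : 2 * Real.log (((n : ℝ) - j) / √n) = Real.log ((((n : ℝ) - j) / √n) ^ 2) := by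
      rw [Real.log_pow]; norm_num
    rw [e, div_pow, Real.sq_sqrt hnpos.le]
    congr 1
    rw [div_eq_iff hnpos.ne', add_mul, div_mul_cancel₀ _ hnpos.ne']
    have : ze = n - 2 * j := by rw [hnR]; ring
    rw [this]; ring
  have hy0 : 2 * Real.log x0 = Real.log (x0 ^ 2) := by
    rw [Real.log_pow]; norm_num
  have hth1 : 45 / 100 ≤ (j : ℝ) ^ 2 / n := by
    rw [le_div_iff₀ hnpos]; linarith
  have hth2 : (j : ℝ) ^ 2 / n ≤ 55 / 100 := by
    rw [div_le_iff₀ hnpos]; linarith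
  set Y : ℝ := ze + (j : ℝ) ^ 2 / n with hYd
  set y0 : ℝ := x0 ^ 2 with hy0d
  have hzepos : 0 < ze := by linarith
  have hB := sumB_le z0 nb (by omega)
  have hA := sumA_ge z0 nb (by omega) (by omega)
  rw [sum_gz z0 nb (by omega)]
  set SB := ∑ b ∈ Finset.range nb, Real.log (((z0 : ℝ) + 4 * b + 4) / (z0 + 4 * b + 2)) with hSB
  set SA := ∑ b ∈ Finset.range nb, Real.log (((z0 : ℝ) + 4 * b + 3) / (z0 + 4 * b + 1)) with hSA
  have h2τ : 2 * τ = Real.log Y - Real.log y0 - 2 * SB := by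
    rw [hτ, ← hY, ← hy0]; ring
  have hY1 : ze + 45 / 100 ≤ Y := by rw [hYd]; linarith
  have hY2 : Y ≤ ze + 55 / 100 := by rw [hYd]; linarith
  have hzei : 1 / ze ≤ 10 / 16 / z0 := by
    rw [div_div, div_le_div_iff₀ hzepos (by positivity)]
    linarith
  have hzei' : 1 / (ze + 45 / 100) ≤ 1 / ze :=
    div_le_div_of_nonneg_left (by norm_num) hzepos (by linarith)
  have hz2 : 1 / (z0 : ℝ) ^ 2 ≤ 1 / 1000000 * (1 / z0) := by
    have : (1 : ℝ) / z0 ≤ 1 / 1000000 := by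
      apply div_le_div_of_nonneg_left (by norm_num) (by norm_num) hz0R
    have e : 1 / (z0 : ℝ) ^ 2 = 1 / z0 * (1 / z0) := by field_simp
    rw [e]
    exact mul_le_mul_of_nonneg_right this (by positivity)
  have hz1 : (1 - 1 / 1000000) * (1 / (z0 : ℝ)) ≤ 1 / (z0 + 1) := by
    rw [le_div_iff₀ (by positivity)]
    have : (1 : ℝ) / z0 ≤ 1 / 1000000 := by
      apply div_le_div_of_nonneg_left (by norm_num) (by norm_num) hz0R
    have e : (1 - 1 / 1000000) * (1 / (z0 : ℝ)) * (z0 + 1) =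
        (1 - 1 / 1000000) * (1 + 1 / z0) := by field_simp
    rw [e]
    nlinarith
  constructor
  · -- lower bound
    have hB' : 2 * SB ≤ Real.log (ze + 1) - Real.log (z0 + 1) := by
      rw [← Real.log_div (by positivity) (by positivity)]
      exact hB
    have l1 : Real.log (ze + 45 / 100) ≤ Real.log Y := Real.log_le_log (by positivity) hY1
    have l2 : Real.log y0 ≤ Real.log (z0 + 55 / 100) := Real.log_le_log (by positivity) hy2
    have l3 : Real.log (ze + 1) - Real.log (ze + 45 / 100) ≤ 55 / 100 * (1 / (ze + 45 / 100)) := by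
      rw [← Real.log_div (by positivity) (by positivity)]
      have := Real.log_le_sub_one_of_pos (x := (ze + 1) / (ze + 45 / 100)) (by positivity)
      have e : (ze + 1) / (ze + 45 / 100) - 1 = 55 / 100 * (1 / (ze + 45 / 100)) := by
        field_simp; ring
      linarith
    have l4 : 45 / 100 * (1 / ((z0 : ℝ) + 1)) ≤ Real.log (z0 + 1) - Real.log (z0 + 55 / 100) := by
      rw [← Real.log_div (by positivity) (by positivity)]
      have := Real.one_sub_inv_le_log_of_pos (x := ((z0 : ℝ) + 1) / (z0 + 55 / 100))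
        (by positivity)
      have e : 1 - (((z0 : ℝ) + 1) / (z0 + 55 / 100))⁻¹ = 45 / 100 * (1 / ((z0 : ℝ) + 1)) := by
        field_simp; ring
      linarith
    have e1 : 1 / 40 / (z0 : ℝ) = 1 / 40 * (1 / z0) := by ring
    have e2 : 10 / 16 / (z0 : ℝ) = 10 / 16 * (1 / z0) := by ring
    have hp : 0 < 1 / (z0 : ℝ) := by positivity
    rw [e1]
    rw [e2] at hzei
    nlinarith
  · -- upper bound
    have hA' : Real.log ze - Real.log z0 - 4 / (z0 : ℝ) ^ 2 ≤ 2 * SA := by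
      rw [← Real.log_div (by positivity) (by positivity)]
      exact hA
    have l1 : Real.log Y ≤ Real.log (ze + 55 / 100) := Real.log_le_log (by linarith) hY2
    have l2 : Real.log (z0 + 45 / 100) ≤ Real.log y0 := Real.log_le_log (by positivity) hy1
    have l3 : Real.log (ze + 55 / 100) - Real.log ze ≤ 55 / 100 * (1 / ze) := by
      rw [← Real.log_div (by positivity) (by positivity)]
      have := Real.log_le_sub_one_of_pos (x := (ze + 55 / 100) / ze) (by positivity)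
      have e : (ze + 55 / 100) / ze - 1 = 55 / 100 * (1 / ze) := by
        field_simp; ring
      linarith
    have l4 : 45 / 100 * (1 / ((z0 : ℝ) + 1)) ≤ Real.log (z0 + 45 / 100) - Real.log z0 := by
      rw [← Real.log_div (by positivity) (by positivity)]
      have := Real.one_sub_inv_le_log_of_pos (x := ((z0 : ℝ) + 45 / 100) / z0)
        (by positivity)
      have e : 1 - (((z0 : ℝ) + 45 / 100) / z0)⁻¹ = 45 / 100 * (1 / ((z0 : ℝ) + 45 / 100)) := by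
        field_simp; ring
      have e' : 1 / ((z0 : ℝ) + 1) ≤ 1 / ((z0 : ℝ) + 45 / 100) :=
        div_le_div_of_nonneg_left (by norm_num) (by positivity) (by linarith)
      linarith
    have e1 : 1 / 40 / (z0 : ℝ) = 1 / 40 * (1 / z0) := by ring
    have e2 : 10 / 16 / (z0 : ℝ) = 10 / 16 * (1 / z0) := by ring
    have e3 : 4 / (z0 : ℝ) ^ 2 = 4 * (1 / (z0 : ℝ) ^ 2) := by ring
    have hp : 0 < 1 / (z0 : ℝ) := by positivity
    rw [e1]
    rw [e2] at hzei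
    rw [e3] at hA'
    nlinarith


/-- choice of the integer parameters: `A = a ^ 2 * dl` -/
theorem paramsD (n dl : ℕ) (hdl : 1 ≤ dl) (hn : 2 ^ 101 * dl ≤ n) : ∃ a j0 e j nb : ℕ,
    a ^ 2 * dl + 2 * j0 + e + 4 * nb + 2 * j = n ∧ 2 ≤ a ∧
    45 * (a ^ 2 * dl) + 100 * e * (a ^ 2 * dl) ≤ 100 * j0 ^ 2 ∧
    100 * j0 ^ 2 ≤ 55 * (a ^ 2 * dl) + 100 * e * (a ^ 2 * dl) ∧ 45 * n ≤ 100 * j ^ 2 ∧
    100 * j ^ 2 ≤ 55 * n ∧
    16 * (a ^ 2 * dl + 2 * j0 + e) ≤ 10 * (a ^ 2 * dl + 2 * j0 + e + 4 * nb) ∧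
    3 * (a ^ 2 * dl + 2 * j0 + e + 4 * nb) ≤ 5 * (a ^ 2 * dl + 2 * j0 + e) ∧
    6 * n ≤ 10 * (a ^ 2 * dl) ∧ 10 * (a ^ 2 * dl) ≤ 7 * n := by
  have hn' : 2 ^ 101 ≤ n := le_trans (Nat.le_mul_of_pos_right _ hdl) hn
  have h101 : 10 ^ 30 ≤ 2 ^ 101 := by norm_num
  have hn30 : 10 ^ 30 * dl ≤ n := le_trans (Nat.mul_le_mul_right dl h101) hn
  have hn30' : 10 ^ 30 ≤ n := h101.trans hn'
  -- the number `a`
  obtain ⟨a, ha⟩ : ∃ a, a = Nat.sqrt (61 * n / (100 * dl)) := ⟨_, rfl⟩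
  have a1 : a ^ 2 ≤ 61 * n / (100 * dl) := by rw [ha]; exact Nat.sqrt_le' _
  have a2 : 61 * n / (100 * dl) < (a + 1) ^ 2 := by rw [ha]; exact Nat.lt_succ_sqrt' _
  have a3 : a ^ 2 * (100 * dl) ≤ 61 * n :=
    (Nat.mul_le_mul_right _ a1).trans (Nat.div_mul_le_self _ _)
  have a4 : 61 * n < (a + 1) ^ 2 * (100 * dl) := by
    rw [← Nat.div_lt_iff_lt_mul (by omega)]
    exact a2
  obtain ⟨A, hA⟩ : ∃ A, A = a ^ 2 * dl := ⟨_, rfl⟩
  have a5 : 100 * A ≤ 61 * n := by rw [hA]; linarith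
  have a6 : 10 ^ 6 * (a * dl) ≤ n := by
    by_contra h
    have h1 : n < 10 ^ 6 * (a * dl) := not_le.1 h
    have h2 : n * n < 10 ^ 6 * (a * dl) * (10 ^ 6 * (a * dl)) := Nat.mul_lt_mul'' h1 h1
    have h3 : 10 ^ 6 * (a * dl) * (10 ^ 6 * (a * dl)) = 10 ^ 12 * dl * A := by rw [hA]; ring
    have h4 : 10 ^ 12 * dl * A ≤ 10 ^ 12 * dl * n := Nat.mul_le_mul_left _ (by omega)
    have h5 : 10 ^ 12 * dl * n ≤ n * n := Nat.mul_le_mul_right n (by omega)
    omega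
  have a7 : 61 * n < 100 * A + 200 * (a * dl) + 100 * dl := by
    have : (a + 1) ^ 2 * (100 * dl) = 100 * A + 200 * (a * dl) + 100 * dl := by rw [hA]; ring
    omega
  have a8 : 1000 * A ≥ 609 * n := by omega
  have aA : 10 ^ 20 ≤ A := by omega
  have a9 : 2 ≤ a := by
    by_contra h
    have : a ≤ 1 := by omega
    have h1 : a ^ 2 ≤ 1 := by
      calc a ^ 2 ≤ 1 ^ 2 := Nat.pow_le_pow_left this 2
        _ = 1 := by norm_num
    have h2 : A ≤ 1 * dl := by rw [hA]; exact Nat.mul_le_mul_right dl h1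
    omega
  -- the numbers `e`, `j0`
  obtain ⟨e, he⟩ : ∃ e, e = (n - A) % 2 := ⟨_, rfl⟩
  have he1 : e ≤ 1 := by omega
  obtain ⟨j0, hj0⟩ : ∃ j0, j0 = Nat.sqrt ((49 + 100 * e) * A / 100) := ⟨_, rfl⟩
  have b1 : j0 ^ 2 ≤ (49 + 100 * e) * A / 100 := by rw [hj0]; exact Nat.sqrt_le' _
  have b2 : (49 + 100 * e) * A / 100 < (j0 + 1) ^ 2 := by rw [hj0]; exact Nat.lt_succ_sqrt' _
  have b3 : 100 * j0 ^ 2 ≤ (49 + 100 * e) * A := by omega
  have b4 : (49 + 100 * e) * A < 100 * (j0 + 1) ^ 2 := by omega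
  have b5 : (49 + 100 * e) * A = 49 * A + 100 * e * A := by ring
  have b6 : 100 * e * A ≤ 100 * A := by
    calc 100 * e * A = (100 * A) * e := by ring
      _ ≤ (100 * A) * 1 := Nat.mul_le_mul_left _ he1
      _ = 100 * A := by ring
  have b7 : 10 ^ 6 * j0 ≤ A := by
    by_contra h
    have h1 : A < 10 ^ 6 * j0 := not_le.1 h
    have h2 : A * A < 10 ^ 6 * j0 * (10 ^ 6 * j0) := Nat.mul_lt_mul'' h1 h1
    have h3 : 10 ^ 6 * j0 * (10 ^ 6 * j0) = 10 ^ 12 * j0 ^ 2 := by ring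
    have h4 : 10 ^ 20 * A ≤ A * A := Nat.mul_le_mul_right A aA
    omega
  have b8 : 100 * (j0 + 1) ^ 2 = 100 * j0 ^ 2 + 200 * j0 + 100 := by ring
  -- the number `j`
  obtain ⟨s, s1, s2, s3⟩ := params_sqrt n 49 (by omega) (by norm_num)
  have hs : (s + 1) ^ 2 = s ^ 2 + 2 * s + 1 := by ring
  obtain ⟨j, hj1, hj2, hj3⟩ : ∃ j : ℕ, s ≤ j ∧ j ≤ s + 1 ∧
      j % 2 = ((n - A - e) / 2 + j0) % 2 := by
    rcases Nat.mod_two_eq_zero_or_one ((n - A - e) / 2 + j0 + s) with h | h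
    · exact ⟨s, le_rfl, by omega, by omega⟩
    · exact ⟨s + 1, by omega, le_rfl, by omega⟩
  have d1 : s ^ 2 ≤ j ^ 2 := Nat.pow_le_pow_left hj1 2
  have d2 : j ^ 2 ≤ (s + 1) ^ 2 := Nat.pow_le_pow_left hj2 2
  have c1 : A + 2 * j0 + e + 2 * j ≤ n := by omega
  have c2 : (n - (A + 2 * j0 + e + 2 * j)) % 4 = 0 := by omega
  refine ⟨a, j0, e, j, (n - (A + 2 * j0 + e + 2 * j)) / 4, ?_⟩
  rw [← hA]
  refine ⟨by omega, a9, by omega, by omega, by omega, by omega, by omega, by omega, by omega,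
    by omega⟩

/-- **The chain.** -/
theorem chainD (n dl : ℕ) (hdl : 1 ≤ dl) (hn : 2 ^ 101 * dl ≤ n) : ∃ (s : ℕ) (x : ℝ),
    RchD dl s x ∧ s ≤ n ∧ √n ≤ x ∧ x ≤ √n * (1 + Real.exp (-(Real.log n) ^ 2 / 13)) := by
  have hn2 : 2 ^ 101 ≤ n := le_trans (Nat.le_mul_of_pos_right _ hdl) hn
  obtain ⟨a, j0, e, j, nb, q1, q2, q3, q4, q5, q6, q7, q8, q9, q10⟩ := paramsD n dl hdl hn
  obtain ⟨A, hA⟩ : ∃ A, A = a ^ 2 * dl := ⟨_, rfl⟩
  rw [← hA] at q1 q3 q4 q7 q8 q9 q10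
  obtain ⟨z0, hz0⟩ : ∃ z0, z0 = A + 2 * j0 + e := ⟨_, rfl⟩
  rw [← hz0] at q1 q7 q8
  obtain ⟨J, hJ⟩ : ∃ J, J = Nat.log 2 z0 / 4 := ⟨_, rfl⟩
  obtain ⟨D, hD⟩ : ∃ D, D = Nat.sqrt z0 + 1 := ⟨_, rfl⟩
  have h101 : 2 ^ 101 = 2 * 2 ^ 100 := by norm_num
  have hAbig : 2 ^ 100 ≤ A := by omega
  have hApos : 0 < A := lt_of_lt_of_le (by positivity) hAbig
  have hj0 : 1 ≤ j0 := by
    rcases Nat.eq_zero_or_pos j0 with h | h
    · rw [h] at q3
      norm_num at q3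
      omega
    · exact h
  have hj : 2 ≤ j := by
    by_contra h
    have h1 : j ≤ 1 := by omega
    have h2 : j ^ 2 ≤ 1 ^ 2 := Nat.pow_le_pow_left h1 2
    omega
  have hz100 : 2 ^ 100 ≤ z0 := by omega
  have hz6 : 6 * n ≤ 10 * z0 := by omega
  obtain ⟨mx, hmx⟩ : ∃ mx : ℕ → ℝ, mx = fun j => ((j + 1).factorial : ℝ) *
      (2 * (4 * (D : ℝ)) ^ j * 2 ^ (j * (j - 1) / 2)) / ((z0 : ℝ) + 1) ^ (j + 2) := ⟨_, rfl⟩
  obtain ⟨mn, hmn⟩ : ∃ mn : ℕ → ℝ, mn = fun j => ((j + 1).factorial : ℝ) *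
      (2 * (4 * (D : ℝ)) ^ j * 2 ^ (j * (j - 1) / 2)) / ((z0 : ℝ) + 4 * nb + 4) ^ (j + 2) :=
    ⟨_, rfl⟩
  obtain ⟨lev1, lev2, lev3⟩ := levels z0 nb J D hz100 hJ hD q7 q8 mx mn hmx hmn
  have hD1 : 1 ≤ D := by omega
  -- complete
  set h : ℕ → ℝ := fun b => gz ((z0 : ℝ) + 4 * b) with hh
  have hh0 : ∀ b, 0 ≤ h b := fun b => n8_gz_nonneg (by positivity)
  have hz0pos : (0 : ℝ) < z0 := by
    have : 0 < z0 := lt_of_lt_of_le (by positivity) hz100
    exact_mod_cast this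
  obtain ⟨lo, hi, hcomp, hlo, hhi⟩ := complete_all hh0 D J nb mx mn (by
      intro i b _ _
      refine (cub_bounds z0 D i b).2.trans ?_
      rw [hmx]
      apply div_le_div_of_nonneg_left (by positivity) (by positivity)
      apply pow_le_pow_left₀ (by positivity)
      have : (0 : ℝ) ≤ b := by positivity
      linarith) (by
      intro i b _ hb
      refine le_trans ?_ (cub_bounds z0 D i b).1
      rw [hmn]
      have hb' : (b : ℝ) + (2 ^ i - 1) * D < nb := by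
        have h1 : ((b + (2 ^ i - 1) * D : ℕ) : ℝ) < nb := by exact_mod_cast hb
        rw [Nat.cast_add, Nat.cast_mul, Nat.cast_sub (Nat.one_le_two_pow)] at h1
        push_cast at h1
        exact h1
      have h2 : (0 : ℝ) ≤ (2 : ℝ) ^ i - 1 := by
        have : (1 : ℝ) ≤ (2 : ℝ) ^ i := one_le_pow₀ (by norm_num)
        linarith
      have h3 : (0 : ℝ) ≤ D := by positivity
      apply div_le_div_of_nonneg_left (by positivity) (by positivity)
      apply pow_le_pow_left₀ (by positivity)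
      nlinarith) (by
      intro i
      rw [hmn]
      positivity) lev1 (by omega) hD1
  -- the start
  have hAR : (0 : ℝ) < A := by exact_mod_cast hApos
  have hdlR : (0 : ℝ) < dl := by exact_mod_cast hdl
  have haR : (0 : ℝ) < a := by
    have : 0 < a := by omega
    exact_mod_cast this
  have hsdl : 0 < √(dl : ℝ) := Real.sqrt_pos.2 hdlR
  have hsq0 : ((a : ℝ) * √(dl : ℝ)) ^ 2 = A := by
    rw [mul_pow, Real.sq_sqrt hdlR.le, hA]
    push_cast
    ring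
  obtain ⟨x0, hx0⟩ : ∃ x0 : ℝ, x0 = ((A + j0 : ℕ) : ℝ) / (a * √(dl : ℝ)) := ⟨_, rfl⟩
  have R1 : RchD dl (A + j0) x0 := by
    rw [hx0]
    apply RchD.step (A + j0) (RchD.start a q2)
    · have : a * dl ≤ A := by
        rw [hA]
        calc a * dl = 1 * (a * dl) := by ring
          _ ≤ a * (a * dl) := Nat.mul_le_mul_right _ (by omega)
          _ = a ^ 2 * dl := by ring
      omega
    · rw [hsq0]
      have : (1 : ℝ) ≤ j0 := by exact_mod_cast hj0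
      push_cast
      linarith
  have hx0pos : 0 < x0 := by
    rw [hx0]
    have : (0 : ℝ) < ((A + j0 : ℕ) : ℝ) := by
      have : 0 < A + j0 := by omega
      exact_mod_cast this
    positivity
  have hsq : x0 ^ 2 * A = ((A : ℝ) + j0) ^ 2 := by
    rw [hx0, div_pow, hsq0]
    push_cast
    field_simp
  have q3' : 45 * (A : ℝ) + 100 * e * A ≤ 100 * (j0 : ℝ) ^ 2 := by exact_mod_cast q3
  have q4' : 100 * (j0 : ℝ) ^ 2 ≤ 55 * (A : ℝ) + 100 * e * A := by exact_mod_cast q4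
  have hz0R : (z0 : ℝ) = A + 2 * j0 + e := by rw [hz0]; push_cast; ring
  have hy1 : (z0 : ℝ) + 45 / 100 ≤ x0 ^ 2 := by
    rw [← mul_le_mul_iff_left₀ hAR, hsq, hz0R]
    nlinarith
  have hy2 : x0 ^ 2 ≤ (z0 : ℝ) + 55 / 100 := by
    rw [← mul_le_mul_iff_left₀ hAR, hsq, hz0R]
    nlinarith
  -- the target
  obtain ⟨τ, hτ⟩ : ∃ τ : ℝ, τ = Real.log (((n : ℝ) - j) / √n) - Real.log x0 -
      ∑ b ∈ Finset.range nb, Real.log (((z0 : ℝ) + 4 * b + 4) / (z0 + 4 * b + 2)) := ⟨_, rfl⟩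
  have hz6' : 1000000 ≤ z0 := le_trans (by norm_num) hz100
  obtain ⟨tr1, tr2⟩ := target_rangeD n j nb z0 x0 q1 hz6' hx0pos hy1 hy2 q5 q6 q7 q8 τ hτ
  set W := (2 ^ (J + 1) - 2) * D with hW
  have hW1 : 100 * W ≤ z0 := by
    have : W ≤ 2 ^ (J + 1) * D := Nat.mul_le_mul_right D (Nat.sub_le _ _)
    omega
  have htop : ∑ b ∈ Finset.Ico (nb - W) nb, h b ≤ 1 / 40 / (z0 : ℝ) := by
    have e1 : ∑ b ∈ Finset.Ico (nb - W) nb, h b ≤
        ∑ b ∈ Finset.Ico (nb - W) nb, (2 / (z0 : ℝ) ^ 2) := by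
      apply Finset.sum_le_sum
      intro b _
      refine (n8_gz_le (by positivity)).trans ?_
      apply div_le_div_of_nonneg_left (by norm_num) (by positivity)
      apply pow_le_pow_left₀ (by positivity)
      have : (0 : ℝ) ≤ b := by positivity
      linarith
    rw [Finset.sum_const, Nat.card_Ico, nsmul_eq_mul] at e1
    have e2 : (((nb - (nb - W) : ℕ) : ℝ)) ≤ z0 / 100 := by
      have : nb - (nb - W) ≤ W := by omega
      have h3 : (((nb - (nb - W) : ℕ) : ℝ)) ≤ W := by exact_mod_cast this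
      have h4 : 100 * (W : ℝ) ≤ z0 := by exact_mod_cast hW1
      linarith
    have e3 : (((nb - (nb - W) : ℕ) : ℝ)) * (2 / (z0 : ℝ) ^ 2) ≤ z0 / 100 * (2 / (z0 : ℝ) ^ 2) :=
      mul_le_mul_of_nonneg_right e2 (by positivity)
    have e4 : (z0 : ℝ) / 100 * (2 / (z0 : ℝ) ^ 2) = 1 / 50 / z0 := by
      field_simp
      norm_num
    have e5 : 1 / 50 / (z0 : ℝ) ≤ 1 / 40 / z0 := by
      apply div_le_div_of_nonneg_right (by norm_num) hz0pos.le
    linarith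
  have hsplit : ∑ b ∈ Finset.range nb, h b =
      ∑ b ∈ Finset.range (nb - W), h b + ∑ b ∈ Finset.Ico (nb - W) nb, h b :=
    (Finset.sum_range_add_sum_Ico h (Nat.sub_le _ _)).symm
  obtain ⟨E, hE, he1, he2⟩ := hcomp τ (hlo.trans (htop.trans tr1)) (by linarith)
  -- the word
  have hnpos : (0 : ℝ) < n := by
    have : 0 < n := by omega
    exact_mod_cast this
  obtain ⟨σ', R2, hσ'⟩ := word_rchD R1 hx0pos z0 nb (by omega) (by omega) hy1 hy2 q8 E
  set x := x0 *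
    ∏ b ∈ Finset.range nb, (if b ∈ E then ((z0 : ℝ) + 4 * b + 3) / (z0 + 4 * b + 1)
        else ((z0 : ℝ) + 4 * b + 4) / (z0 + 4 * b + 2)) with hx
  have hPpos : 0 < ∏ b ∈ Finset.range nb, (if b ∈ E then ((z0 : ℝ) + 4 * b + 3) / (z0 + 4 * b + 1)
        else ((z0 : ℝ) + 4 * b + 4) / (z0 + 4 * b + 2)) := by
    apply Finset.prod_pos
    intro b _
    split_ifs <;> positivity
  have hxpos : 0 < x := mul_pos hx0pos hPpos
  have hlogx : Real.log x = Real.log x0 +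
      (∑ b ∈ Finset.range nb, Real.log (((z0 : ℝ) + 4 * b + 4) / (z0 + 4 * b + 2)) +
        ∑ b ∈ E, gz (z0 + 4 * b)) := by
    rw [hx, Real.log_mul hx0pos.ne' hPpos.ne', n8_log_prod nb E hE z0]
  have hjn : (j : ℝ) < n := by
    have : j < n := by omega
    exact_mod_cast this
  have hsn : 0 < √(n : ℝ) := Real.sqrt_pos.2 hnpos
  have htgt : 0 < ((n : ℝ) - j) / √n := div_pos (by linarith) hsn
  have hup : Real.log x ≤ Real.log (((n : ℝ) - j) / √n) := by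
    rw [hlogx]
    linarith
  have hdn : Real.log (((n : ℝ) - j) / √n) - mx J ≤ Real.log x := by
    rw [hlogx]
    linarith
  have hxle : x ≤ ((n : ℝ) - j) / √n := (Real.log_le_log_iff hxpos htgt).1 hup
  have hxge : ((n : ℝ) - j) / √n ≤ x * Real.exp (mx J) := by
    rw [← Real.log_le_log_iff htgt (by positivity), Real.log_mul hxpos.ne' (Real.exp_pos _).ne',
      Real.log_exp]
    linarith
  -- the last step
  have hlast : x ^ 2 + 1 / 100 ≤ ((n - j : ℕ) : ℝ) := by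
    have h1 : x ^ 2 ≤ (((n : ℝ) - j) / √n) ^ 2 := pow_le_pow_left₀ hxpos.le hxle 2
    rw [div_pow, Real.sq_sqrt hnpos.le] at h1
    have h2 : ((n : ℝ) - j) ^ 2 / n = n - 2 * j + (j : ℝ) ^ 2 / n := by
      field_simp
      ring
    have q6' : 100 * (j : ℝ) ^ 2 ≤ 55 * n := by exact_mod_cast q6
    have h3 : (j : ℝ) ^ 2 / n ≤ 55 / 100 := by
      rw [div_le_iff₀ hnpos]
      linarith
    have h4 : (2 : ℝ) ≤ j := by exact_mod_cast hj
    rw [Nat.cast_sub (by omega)]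
    linarith
  have R3 : RchD dl (n - j) (((n - j : ℕ) : ℝ) / x) :=
    RchD.step (n - j) R2 (by omega) hlast
  have hcast : ((n - j : ℕ) : ℝ) = (n : ℝ) - j := Nat.cast_sub (by omega)
  refine ⟨n - j, _, R3, Nat.sub_le _ _, ?_, ?_⟩
  · rw [hcast, le_div_iff₀ hxpos]
    rw [le_div_iff₀ hsn] at hxle
    linarith
  · rw [hcast, div_le_iff₀ hxpos]
    have hmx0 : 0 ≤ mx J := by
      rw [hmx]
      positivity
    have h1 := n8_final hn2 hz6 hmx0 lev3
    rw [div_le_iff₀ hsn] at hxge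
    calc (n : ℝ) - j ≤ x * Real.exp (mx J) * √n := hxge
      _ ≤ x * (1 + Real.exp (-(Real.log n) ^ 2 / 13)) * √n := by gcongr
      _ = √n * (1 + Real.exp (-(Real.log n) ^ 2 / 13)) * x := by ring

end Pool.Agent.Lib.MP_ed661f_ag.H
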