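import Pool.Agent.Lib.MP_ed661f_ag.H.QDefs

/-!
Noether normalisation of a graded quotient of a polynomial ring by linear forms.
-/

set_option autoImplicit false

open MvPolynomial Filter
open scoped ENNReal

namespace Pool.Agent.Lib.MP_ed661f_ag.H

variable {N : ℕ}

/-- homogeneous components commute with substitution of linear forms -/
theorem homogeneousComponent_aeval_linear {r : ℕ} {y : Fin r → Poly N}
    (hy : ∀ i, (y i).IsHomogeneous 1) (P : MvPolynomial (Fin r) ℂ) (k : ℕ) :
    homogeneousComponent k (aeval y P) = aeval y (homogeneousComponent k P) := by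
  classical
  have key : ∀ i, (aeval y (homogeneousComponent i P)).IsHomogeneous i := by
    intro i
    have h := (homogeneousComponent_isHomogeneous i P).aeval y hy
    simpa using h
  by_cases hk : k < P.totalDegree + 1
  · conv_lhs => rw [← sum_homogeneousComponent P, map_sum, map_sum]
    rw [Finset.sum_eq_single k]
    · exact homogeneousComponent_eq_self (key k)
    · intro i _ hik
      rw [homogeneousComponent_of_mem (key i), if_neg (fun h => hik h.symm)]
    · intro h
      exact absurd (Finset.mem_range.2 hk) h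
  · rw [homogeneousComponent_eq_zero k P (by omega), map_zero]
    conv_lhs => rw [← sum_homogeneousComponent P, map_sum, map_sum]
    refine Finset.sum_eq_zero fun i hi => ?_
    rw [homogeneousComponent_of_mem (key i), if_neg]
    have := Finset.mem_range.1 hi
    omega

theorem proj_apply {r : ℕ} (J : Ideal (Poly N)) (y : Fin r → Poly N)
    (P : MvPolynomial (Fin r) ℂ) : proj J y P = Ideal.Quotient.mk J (aeval y P) := by
  have : (proj J y) = (Ideal.Quotient.mkₐ ℂ J).comp (aeval y) := by
    apply MvPolynomial.algHom_ext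
    intro i
    simp [proj]
  rw [this]
  rfl

/-- the kernel of `proj J y` contains a nonzero form of positive degree, if it is not zero -/
theorem exists_form_of_not_injective {J : Ideal (Poly N)} (hJ : J ≠ ⊤) (hh : Homog J) {r : ℕ}
    {y : Fin r → Poly N} (hy : ∀ i, (y i).IsHomogeneous 1)
    (hni : ¬ Function.Injective (proj J y)) :
    ∃ (e : ℕ) (G : MvPolynomial (Fin r) ℂ), 1 ≤ e ∧ G ≠ 0 ∧ G.IsHomogeneous e ∧
      proj J y G = 0 := by
  classical
  rw [injective_iff_map_eq_zero] at hni
  push Not at hni
  obtain ⟨P, hP0, hP⟩ := hni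
  have hex : ∃ e, homogeneousComponent e P ≠ 0 := by
    by_contra hcon
    push Not at hcon
    apply hP
    rw [← sum_homogeneousComponent P]
    exact Finset.sum_eq_zero fun i _ => hcon i
  obtain ⟨e, he⟩ := hex
  have hG0 : proj J y (homogeneousComponent e P) = 0 := by
    rw [proj_apply, Ideal.Quotient.eq_zero_iff_mem, ← homogeneousComponent_aeval_linear hy]
    apply hh
    rw [← Ideal.Quotient.eq_zero_iff_mem, ← proj_apply, hP0]
  refine ⟨e, homogeneousComponent e P, ?_, he, homogeneousComponent_isHomogeneous e P, hG0⟩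
  rcases Nat.eq_zero_or_pos e with h0 | h0
  · exfalso
    subst h0
    rw [homogeneousComponent_zero] at he hG0
    have hc : coeff 0 P ≠ 0 := by
      intro h
      apply he
      rw [h, C_0]
    apply hJ
    rw [Ideal.eq_top_iff_one]
    rw [← Ideal.Quotient.eq_zero_iff_mem, map_one]
    have h2 : proj J y (C (coeff 0 P)⁻¹ * C (coeff 0 P)) = 0 := by
      rw [map_mul, hG0, mul_zero]
    rw [← C_mul, inv_mul_cancel₀ hc, C_1, map_one] at h2
    exact h2
  · exact h0

theorem natDegree_coeff_prod_le {R ι : Type*} [CommRing R] [DecidableEq ι] (s : Finset ι)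
    (f : ι → Polynomial R) (n : ι → ℕ) (h : ∀ i ∈ s, (f i).natDegree ≤ n i) :
    (∏ i ∈ s, f i).natDegree ≤ ∑ i ∈ s, n i ∧
    (∏ i ∈ s, f i).coeff (∑ i ∈ s, n i) = ∏ i ∈ s, (f i).coeff (n i) := by
  induction s using Finset.induction_on with
  | empty => simp
  | insert a s ha ih =>
    obtain ⟨h1, h2⟩ := ih fun i hi => h i (Finset.mem_insert_of_mem hi)
    have ha' := h a (Finset.mem_insert_self a s)
    rw [Finset.prod_insert ha, Finset.sum_insert ha, Finset.prod_insert ha]
    constructor
    · exact Polynomial.natDegree_mul_le.trans (Nat.add_le_add ha' h1)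
    · rw [Polynomial.coeff_mul_add_eq_of_natDegree_le ha' h1, h2]

/-- substitution of `z + c T` in a form: the leading coefficient in `T` -/
theorem natDegree_coeff_subst {R : Type*} [CommRing R] [Algebra ℂ R] {r : ℕ}
    (z : Fin r → R) (c : Fin r → ℂ) {G : MvPolynomial (Fin r) ℂ} {e : ℕ}
    (hG : G.IsHomogeneous e) :
    (aeval (fun i => Polynomial.C (z i) + Polynomial.C (algebraMap ℂ R (c i)) * Polynomial.X) G :
      Polynomial R).natDegree ≤ e ∧
    (aeval (fun i => Polynomial.C (z i) + Polynomial.C (algebraMap ℂ R (c i)) * Polynomial.X) G :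
      Polynomial R).coeff e = algebraMap ℂ R (eval c G) := by
  classical
  have hdeg1 : ∀ i, (Polynomial.C (z i) + Polynomial.C (algebraMap ℂ R (c i)) * Polynomial.X :
      Polynomial R).natDegree ≤ 1 := by
    intro i
    refine (Polynomial.natDegree_add_le _ _).trans ?_
    rw [max_le_iff]
    refine ⟨by simp, ?_⟩
    exact (Polynomial.natDegree_C_mul_le _ _).trans Polynomial.natDegree_X_le
  have hco1 : ∀ i, (Polynomial.C (z i) + Polynomial.C (algebraMap ℂ R (c i)) * Polynomial.X :
      Polynomial R).coeff 1 = algebraMap ℂ R (c i) := by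
    intro i
    simp [Polynomial.coeff_C]
  have hpow : ∀ (i : Fin r) (k : ℕ), ((Polynomial.C (z i) +
      Polynomial.C (algebraMap ℂ R (c i)) * Polynomial.X) ^ k : Polynomial R).natDegree ≤ k := by
    intro i k
    have := Polynomial.natDegree_pow_le_of_le k (hdeg1 i)
    simpa using this
  have hpowc : ∀ (i : Fin r) (k : ℕ), ((Polynomial.C (z i) +
      Polynomial.C (algebraMap ℂ R (c i)) * Polynomial.X) ^ k : Polynomial R).coeff k =
      algebraMap ℂ R (c i) ^ k := by
    intro i k
    have := Polynomial.coeff_pow_of_natDegree_le (m := k) (hdeg1 i)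
    rw [hco1, mul_one] at this
    exact this
  have hsum : ∀ d ∈ G.support, ∑ i, d i = e := by
    intro d hd
    have := hG.degree_eq_sum_deg_support hd
    rw [← Finsupp.degree_eq_sum]
    exact this.symm
  have hprod : ∀ d ∈ G.support, (∏ i, ((Polynomial.C (z i) +
      Polynomial.C (algebraMap ℂ R (c i)) * Polynomial.X) ^ d i : Polynomial R)).natDegree ≤ e := by
    intro d hd
    rw [← hsum d hd]
    exact (natDegree_coeff_prod_le Finset.univ _ (fun i => d i) fun i _ => hpow i (d i)).1
  have hprodc : ∀ d ∈ G.support, (∏ i, ((Polynomial.C (z i) +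
      Polynomial.C (algebraMap ℂ R (c i)) * Polynomial.X) ^ d i : Polynomial R)).coeff e =
      ∏ i, algebraMap ℂ R (c i) ^ d i := by
    intro d hd
    have := (natDegree_coeff_prod_le Finset.univ _ (fun i => d i) fun i _ => hpow i (d i)).2
    rw [hsum d hd] at this
    rw [this]
    exact Finset.prod_congr rfl fun i _ => hpowc i (d i)
  rw [MvPolynomial.aeval_def, MvPolynomial.eval₂_eq']
  constructor
  · refine Polynomial.natDegree_sum_le_of_forall_le _ _ fun d hd => ?_
    refine (Polynomial.natDegree_mul_le).trans ?_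
    have h1 := hprod d hd
    have h2 : (algebraMap ℂ (Polynomial R) (coeff d G)).natDegree = 0 := by
      rw [Polynomial.algebraMap_apply]
      exact Polynomial.natDegree_C _
    omega
  · rw [Polynomial.finsetSum_coeff, MvPolynomial.eval_eq', map_sum]
    refine Finset.sum_congr rfl fun d hd => ?_
    rw [Polynomial.algebraMap_apply, Polynomial.coeff_C_mul, hprodc d hd, map_mul, map_prod]
    simp

/-- transitivity of integrality for a homomorphism of a polynomial ring -/
theorem isIntegral_of_gens {R B σ k : Type*} [CommRing R] [CommRing B] [CommRing k]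
    (φ : R →+* B) (f : MvPolynomial σ k →+* B) (hf : f.IsIntegral)
    (hC : ∀ x, φ.IsIntegralElem (f (C x))) (hX : ∀ i, φ.IsIntegralElem (f (X i))) :
    φ.IsIntegral := by
  let _ := φ.toAlgebra
  have hr : ∀ P, f P ∈ integralClosure R B := by
    intro P
    induction P using MvPolynomial.induction_on with
    | C x => exact hC x
    | add p q hp hq => rw [map_add]; exact (integralClosure R B).add_mem hp hq
    | mul_X p i hp => rw [map_mul]; exact (integralClosure R B).mul_mem hp (hX i)
  intro b
  obtain ⟨p, hpm, hp⟩ := hf b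
  let f' : MvPolynomial σ k →+* integralClosure R B := f.codRestrict _ hr
  have h1 : IsIntegral (integralClosure R B) b := by
    refine ⟨p.map f', hpm.map f', ?_⟩
    rw [Polynomial.eval₂_map]
    exact hp
  have h2 : IsIntegral R b := isIntegral_trans b h1
  exact h2

/-- one step of the Noether normalisation -/
theorem noether_step {J : Ideal (Poly N)} {s : ℕ} {y : Fin (s + 1) → Poly N}
    (hy : ∀ i, (y i).IsHomogeneous 1) (hfin : (proj J y).toRingHom.Finite)
    {e : ℕ} {G : MvPolynomial (Fin (s + 1)) ℂ} (he : 1 ≤ e) (hG0 : G ≠ 0)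
    (hG : G.IsHomogeneous e) (hGJ : proj J y G = 0) :
    ∃ y' : Fin s → Poly N, (∀ i, (y' i).IsHomogeneous 1) ∧ (proj J y').toRingHom.Finite := by
  classical
  obtain ⟨a, ha⟩ : ∃ a, eval a G ≠ 0 := by
    by_contra hcon
    push Not at hcon
    exact hG0 (hG.eq_zero_of_forall_eval_eq_zero hcon)
  obtain ⟨m, hm⟩ : ∃ m, a m ≠ 0 := by
    by_contra hcon
    push Not at hcon
    apply ha
    have : a = 0 := funext hcon
    rw [this, MvPolynomial.eval_eq']
    refine Finset.sum_eq_zero fun d hd => ?_
    have hd' := hG.degree_eq_sum_deg_support hd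
    have : ∃ i, d i ≠ 0 := by
      by_contra hc
      push Not at hc
      have : d = 0 := Finsupp.ext hc
      rw [this] at hd'
      simp at hd'
      omega
    obtain ⟨i, hi⟩ := this
    rw [Finset.prod_eq_zero (Finset.mem_univ i) (by simp [hi]), mul_zero]
  set c : Fin (s + 1) → ℂ := fun i => a i / a m with hc
  have hcm : c m = 1 := div_self hm
  have hac : a = fun i => a m * c i := by
    funext i
    simp only [hc]
    field_simp
  have hGc : eval c G ≠ 0 := by
    intro h
    apply ha
    rw [hac]
    have h1 : eval (fun i => a m * c i) G = a m ^ e * eval c G := by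
      rw [MvPolynomial.eval_eq', MvPolynomial.eval_eq', Finset.mul_sum]
      refine Finset.sum_congr rfl fun d hd => ?_
      have hd' := hG.degree_eq_sum_deg_support hd
      have hd2 : ∑ i, d i = e := by
        rw [← Finsupp.degree_eq_sum]
        exact hd'.symm
      simp only [mul_pow, Finset.prod_mul_distrib]
      rw [Finset.prod_pow_eq_pow_sum, hd2]
      ring
    rw [h1, h, mul_zero]
  let y' : Fin s → Poly N := fun i => y (m.succAbove i) - C (c (m.succAbove i)) * y m
  have hy' : ∀ i, (y' i).IsHomogeneous 1 := by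
    intro i
    refine (hy _).sub ?_
    exact (hy m).C_mul _
  refine ⟨y', hy', ?_⟩
  -- `B` is an algebra over `R` by `proj J y'`
  let R := MvPolynomial (Fin s) ℂ
  let φ : R →ₐ[ℂ] Poly N ⧸ J := proj J y'
  let t : Poly N ⧸ J := Ideal.Quotient.mk J (y m)
  -- the elements `z`
  let z : Fin (s + 1) → R := Fin.insertNth m 0 (fun i => X i)
  have hz : ∀ i, Ideal.Quotient.mk J (y i) = φ (z i) + algebraMap ℂ _ (c i) * t := by
    intro i
    rcases Fin.eq_self_or_eq_succAbove m i with hi | ⟨j, hj⟩
    · subst hi
      simp only [z, Fin.insertNth_apply_same, map_zero, zero_add, hcm, map_one, one_mul]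
      rfl
    · subst hj
      simp only [z, Fin.insertNth_apply_succAbove]
      have h1 : φ (X j) = Ideal.Quotient.mk J (y' j) := by
        simp only [φ, proj]
        exact aeval_X _ _
      rw [h1]
      simp only [y', map_sub, map_mul, t]
      have : (algebraMap ℂ (Poly N ⧸ J)) (c (m.succAbove j)) =
          Ideal.Quotient.mk J (C (c (m.succAbove j))) := rfl
      rw [this]
      ring
  set p : Polynomial R := aeval (fun i => Polynomial.C (z i) +
    Polynomial.C (algebraMap ℂ R (c i)) * Polynomial.X) G with hp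
  obtain ⟨hpd, hpc⟩ := natDegree_coeff_subst (R := R) z c hG
  let ψ : Polynomial R →ₐ[ℂ] Poly N ⧸ J :=
    { Polynomial.eval₂RingHom φ.toRingHom t with
      commutes' := by
        intro x
        simp [Polynomial.algebraMap_apply] }
  have hψ : ∀ q, ψ q = Polynomial.eval₂ φ.toRingHom t q := fun q => rfl
  have hpt : Polynomial.eval₂ φ.toRingHom t p = 0 := by
    rw [← hψ, hp, comp_aeval_apply]
    have h2 : (fun i => ψ (Polynomial.C (z i) +
          Polynomial.C (algebraMap ℂ R (c i)) * Polynomial.X)) =
        fun i => Ideal.Quotient.mk J (y i) := by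
      funext i
      rw [hψ, hz]
      simp only [Polynomial.eval₂_add, Polynomial.eval₂_mul, Polynomial.eval₂_C,
        Polynomial.eval₂_X]
      congr 2
      exact φ.commutes (c i)
    rw [h2]
    exact hGJ
  -- `t` is integral
  have ht : φ.toRingHom.IsIntegralElem t := by
    refine ⟨Polynomial.C (algebraMap ℂ R (eval c G)⁻¹) * p, ?_, ?_⟩
    · have h1 : (Polynomial.C (algebraMap ℂ R (eval c G)⁻¹) * p).natDegree ≤ e :=
        (Polynomial.natDegree_C_mul_le _ _).trans hpd
      refine Polynomial.monic_of_natDegree_le_of_coeff_eq_one e h1 ?_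
      rw [Polynomial.coeff_C_mul, hpc, ← map_mul, inv_mul_cancel₀ hGc, map_one]
    · rw [Polynomial.eval₂_mul, hpt, mul_zero]
  have hC : ∀ x : ℂ, φ.toRingHom.IsIntegralElem (algebraMap ℂ (Poly N ⧸ J) x) := by
    intro x
    have : algebraMap ℂ (Poly N ⧸ J) x = φ.toRingHom (algebraMap ℂ R x) :=
      (φ.commutes x).symm
    rw [this]
    exact RingHom.isIntegralElem_map _
  have hI : φ.toRingHom.IsIntegral := by
    refine isIntegral_of_gens φ.toRingHom (proj J y).toRingHom hfin.to_isIntegral ?_ ?_
    · intro x
      have : (proj J y).toRingHom (C x) = algebraMap ℂ (Poly N ⧸ J) x :=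
        (proj J y).commutes x
      rw [this]
      exact hC x
    · intro i
      have : (proj J y).toRingHom (X i) = φ.toRingHom (z i) + algebraMap ℂ _ (c i) * t :=
        (aeval_X _ _).trans (hz i)
      rw [this]
      refine RingHom.IsIntegralElem.add _ (RingHom.isIntegralElem_map _) ?_
      exact RingHom.IsIntegralElem.mul _ (hC _) ht
  refine hI.to_finite ?_
  have h1 : (algebraMap ℂ (Poly N ⧸ J)).FiniteType :=
    RingHom.finiteType_algebraMap.2 inferInstance
  have h2 : φ.toRingHom.comp (algebraMap ℂ R) = algebraMap ℂ (Poly N ⧸ J) := φ.comp_algebraMap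
  rw [← h2] at h1
  exact RingHom.FiniteType.of_comp_finiteType h1

theorem exists_noether_aux {J : Ideal (Poly N)} (hJ : J ≠ ⊤) (hh : Homog J) :
    ∃ (r : ℕ) (y : Fin r → Poly N), (∀ i, (y i).IsHomogeneous 1) ∧
      Function.Injective (proj J y) ∧ (proj J y).toRingHom.Finite := by
  classical
  have hex : ∃ r : ℕ, ∃ y : Fin r → Poly N, (∀ i, (y i).IsHomogeneous 1) ∧
      (proj J y).toRingHom.Finite := by
    refine ⟨N + 1, fun i => X i, fun i => isHomogeneous_X _ _, ?_⟩
    apply RingHom.Finite.of_surjective
    intro b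
    obtain ⟨F, rfl⟩ := Ideal.Quotient.mk_surjective b
    refine ⟨F, ?_⟩
    change proj J (fun i => X i) F = _
    rw [proj_apply, aeval_X_left_apply]
  obtain ⟨y, hy, hfin⟩ := Nat.find_spec hex
  refine ⟨Nat.find hex, y, hy, ?_, hfin⟩
  by_contra hni
  obtain ⟨e, G, he, hG0, hG, hGJ⟩ := exists_form_of_not_injective hJ hh hy hni
  have hpos : Nat.find hex ≠ 0 := by
    intro h0
    have : IsEmpty (Fin (Nat.find hex)) := by rw [h0]; infer_instance
    have := hG.inj_right (isHomogeneous_of_isEmpty _ _ G) hG0
    omega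
  obtain ⟨s, hs⟩ := Nat.exists_eq_succ_of_ne_zero hpos
  have hlt : s < Nat.find hex := by omega
  apply Nat.find_min hex hlt
  revert y G hy hfin hni
  rw [hs]
  intro y hy hfin hni G hG0 hG hGJ
  exact noether_step hy hfin he hG0 hG hGJ

end Pool.Agent.Lib.MP_ed661f_ag.H
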