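import Pool.Agent.Lib.MP_ed661f_ag.H.QDefs

/-!
The affine piece `l = 1` of a projective variety with homogeneous prime ideal `I`.
-/

set_option autoImplicit false

open MvPolynomial Filter
open scoped ENNReal

namespace Pool.Agent.Lib.MP_ed661f_ag.H

variable {N : ℕ}

/-- dehomogenisation with values in the field of fractions -/
private noncomputable def psi (I : Ideal (Poly N)) [I.IsPrime] (l : Poly N) :
    Poly N →ₐ[ℂ] FractionRing (Poly N ⧸ I) :=
  aeval fun i => algebraMap (Poly N ⧸ I) (FractionRing (Poly N ⧸ I)) (Ideal.Quotient.mk I (X i)) *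
    (algebraMap (Poly N ⧸ I) (FractionRing (Poly N ⧸ I)) (Ideal.Quotient.mk I l))⁻¹

private theorem aeval_mul_pow {σ A : Type*} [CommRing A] [Algebra ℂ A] (x : σ → A) (c : A)
    {F : MvPolynomial σ ℂ} {k : ℕ} (hF : F.IsHomogeneous k) :
    aeval (fun i => x i * c) F = aeval x F * c ^ k := by
  rw [aeval_def, aeval_def, eval₂_eq, eval₂_eq, Finset.sum_mul]
  refine Finset.sum_congr rfl fun d hd => ?_
  have h1 : k = ∑ i ∈ d.support, d i := hF.degree_eq_sum_deg_support hd
  simp only [mul_pow, Finset.prod_mul_distrib, Finset.prod_pow_eq_pow_sum, ← h1]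
  ring

private theorem aeval_mk (I : Ideal (Poly N)) [I.IsPrime] (F : Poly N) :
    aeval (fun i => algebraMap (Poly N ⧸ I) (FractionRing (Poly N ⧸ I))
      (Ideal.Quotient.mk I (X i))) F =
    algebraMap (Poly N ⧸ I) (FractionRing (Poly N ⧸ I)) (Ideal.Quotient.mk I F) := by
  have h : (aeval (fun i => algebraMap (Poly N ⧸ I) (FractionRing (Poly N ⧸ I))
      (Ideal.Quotient.mk I (X i))) : Poly N →ₐ[ℂ] FractionRing (Poly N ⧸ I)) =
      ((Algebra.ofId (Poly N ⧸ I) (FractionRing (Poly N ⧸ I))).restrictScalars ℂ).comp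
        (Ideal.Quotient.mkₐ ℂ I) := by
    refine MvPolynomial.algHom_ext fun i => ?_
    simp [Algebra.ofId_apply]
  rw [h]
  simp [Algebra.ofId_apply]

private theorem psi_form (I : Ideal (Poly N)) [I.IsPrime] (l : Poly N) {F : Poly N} {k : ℕ}
    (hF : F.IsHomogeneous k) :
    psi I l F = algebraMap (Poly N ⧸ I) (FractionRing (Poly N ⧸ I)) (Ideal.Quotient.mk I F) *
      ((algebraMap (Poly N ⧸ I) (FractionRing (Poly N ⧸ I)) (Ideal.Quotient.mk I l))⁻¹) ^ k := by
  rw [psi, aeval_mul_pow _ _ hF, aeval_mk]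

private theorem mk_ne (I : Ideal (Poly N)) [I.IsPrime] {l : Poly N} (hlI : l ∉ I) :
    algebraMap (Poly N ⧸ I) (FractionRing (Poly N ⧸ I)) (Ideal.Quotient.mk I l) ≠ 0 := by
  intro h
  rw [← (algebraMap (Poly N ⧸ I) (FractionRing (Poly N ⧸ I))).map_zero] at h
  have h2 := IsFractionRing.injective (Poly N ⧸ I) (FractionRing (Poly N ⧸ I)) h
  exact hlI (Ideal.Quotient.eq_zero_iff_mem.mp h2)

private theorem psi_form_eq_zero (I : Ideal (Poly N)) [I.IsPrime] {l : Poly N} (hlI : l ∉ I)
    {F : Poly N} {k : ℕ} (hF : F.IsHomogeneous k) (h : psi I l F = 0) : F ∈ I := by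
  rw [psi_form I l hF] at h
  rcases mul_eq_zero.mp h with h | h
  · rw [← (algebraMap (Poly N ⧸ I) (FractionRing (Poly N ⧸ I))).map_zero] at h
    have h2 := IsFractionRing.injective (Poly N ⧸ I) (FractionRing (Poly N ⧸ I)) h
    exact Ideal.Quotient.eq_zero_iff_mem.mp h2
  · exact absurd h (pow_ne_zero _ (inv_ne_zero (mk_ne I hlI)))

private theorem psi_of_mem (I : Ideal (Poly N)) [I.IsPrime] (hh : Homog I) (l : Poly N)
    {F : Poly N} (hF : F ∈ I) : psi I l F = 0 := by
  rw [← sum_homogeneousComponent F, map_sum]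
  refine Finset.sum_eq_zero fun k _ => ?_
  rw [psi_form I l (homogeneousComponent_isHomogeneous k F),
    Ideal.Quotient.eq_zero_iff_mem.mpr (hh F hF k), map_zero, zero_mul]

private theorem psi_l (I : Ideal (Poly N)) [I.IsPrime] {l : Poly N} (hl : l.IsHomogeneous 1)
    (hlI : l ∉ I) : psi I l l = 1 := by
  rw [psi_form I l hl, pow_one, mul_inv_cancel₀ (mk_ne I hlI)]

private theorem ker_psi {I : Ideal (Poly N)} [I.IsPrime] (hh : Homog I) {l : Poly N}
    (hl : l.IsHomogeneous 1) (hlI : l ∉ I) :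
    RingHom.ker (psi I l) = I ⊔ Ideal.span {l - 1} := by
  apply le_antisymm
  · intro F hF
    rw [RingHom.mem_ker] at hF
    -- the homogenisation
    set k := F.totalDegree
    set G : Poly N := ∑ a ∈ Finset.range (k + 1), l ^ (k - a) * homogeneousComponent a F with hG
    have h1 : G.IsHomogeneous k := by
      refine IsHomogeneous.sum _ _ _ fun a ha => ?_
      have h2 := (hl.pow (k - a)).mul (homogeneousComponent_isHomogeneous a F)
      have h3 : 1 * (k - a) + a = k := by
        have := Finset.mem_range.mp ha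
        omega
      rwa [h3] at h2
    have h2 : F - G ∈ Ideal.span {l - 1} := by
      have h3 : F - G = ∑ a ∈ Finset.range (k + 1),
          (1 - l ^ (k - a)) * homogeneousComponent a F := by
        have h4 : ∑ a ∈ Finset.range (k + 1), homogeneousComponent a F = F :=
          sum_homogeneousComponent F
        calc F - G = (∑ a ∈ Finset.range (k + 1), homogeneousComponent a F) - G := by rw [h4]
          _ = _ := by
            rw [hG, ← Finset.sum_sub_distrib]
            refine Finset.sum_congr rfl fun a _ => ?_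
            ring
      rw [h3]
      refine Ideal.sum_mem _ fun a _ => Ideal.mul_mem_right _ _ ?_
      rw [Ideal.mem_span_singleton, ← neg_sub (l ^ (k - a)) 1]
      exact (dvd_neg.mpr (by simpa using sub_dvd_pow_sub_pow l 1 (k - a)))
    have h3 : psi I l G = 0 := by
      have h4 : psi I l (F - G) = 0 := by
        obtain ⟨g, hg⟩ := Ideal.mem_span_singleton.mp h2
        rw [hg, map_mul, map_sub, psi_l I hl hlI, map_one, sub_self, zero_mul]
      rw [map_sub, hF, zero_sub, neg_eq_zero] at h4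
      exact h4
    have h4 : F = G + (F - G) := by ring
    rw [h4]
    exact Ideal.add_mem _ (Ideal.mem_sup_left (psi_form_eq_zero I hlI h1 h3))
      (Ideal.mem_sup_right h2)
  · refine sup_le (fun F hF => psi_of_mem I hh l hF) ?_
    rw [Ideal.span_le, Set.singleton_subset_iff]
    change psi I l (l - 1) = 0
    rw [map_sub, psi_l I hl hlI, map_one, sub_self]

theorem affine_mem {I : Ideal (Poly N)} (hI : I.IsPrime) (hh : Homog I) {l : Poly N}
    (hl : l.IsHomogeneous 1) (hlI : l ∉ I) {F : Poly N} {k : ℕ} (hF : F.IsHomogeneous k)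
    (h : F ∈ I ⊔ Ideal.span {l - 1}) : F ∈ I := by
  rw [← ker_psi hh hl hlI] at h
  exact psi_form_eq_zero I hlI hF h

theorem affine_isPrime {I : Ideal (Poly N)} (hI : I.IsPrime) (hh : Homog I) {l : Poly N}
    (hl : l.IsHomogeneous 1) (hlI : l ∉ I) : (I ⊔ Ideal.span {l - 1}).IsPrime := by
  rw [← ker_psi hh hl hlI]
  exact RingHom.ker_isPrime _

/-- `X 0 ↦ 1`, `X 1 ↦ X 0`, `X 2 ↦ X 1` -/
private noncomputable def deh : MvPolynomial (Fin 3) ℂ →ₐ[ℂ] MvPolynomial (Fin 2) ℂ :=
  aeval ![1, X 0, X 1]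

private theorem proj_deh (I : Ideal (Poly N)) (y : Fin 3 → Poly N) (c : MvPolynomial (Fin 3) ℂ) :
    proj (I ⊔ Ideal.span {y 0 - 1}) ![y 1, y 2] (deh c) =
      Ideal.Quotient.factor (le_sup_left : I ≤ I ⊔ Ideal.span {y 0 - 1}) (proj I y c) := by
  have h : (proj (I ⊔ Ideal.span {y 0 - 1}) ![y 1, y 2]).comp deh =
      (Ideal.Quotient.factorₐ ℂ (le_sup_left : I ≤ I ⊔ Ideal.span {y 0 - 1})).comp (proj I y) := by
    refine MvPolynomial.algHom_ext fun i => ?_
    fin_cases i
    · simp only [deh, proj, AlgHom.comp_apply, aeval_X]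
      simp only [Fin.zero_eta, Fin.isValue, Matrix.cons_val_zero, map_one]
      change (1 : Poly N ⧸ _) = Ideal.Quotient.mk _ (y 0)
      rw [← (Ideal.Quotient.mk (I ⊔ Ideal.span {y 0 - 1})).map_one, eq_comm,
        Ideal.Quotient.mk_eq_mk_iff_sub_mem]
      exact Ideal.mem_sup_right (Ideal.mem_span_singleton_self _)
    · simp [deh, proj]
    · simp [deh, proj]
  exact DFunLike.congr_fun h c

theorem affine_finite {I : Ideal (Poly N)} {y : Fin 3 → Poly N}
    (hfin : (proj I y).toRingHom.Finite) :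
    (proj (I ⊔ Ideal.span {y 0 - 1}) ![y 1, y 2]).toRingHom.Finite := by
  have h1 : ((proj (I ⊔ Ideal.span {y 0 - 1}) ![y 1, y 2]).toRingHom.comp deh.toRingHom) =
      (Ideal.Quotient.factor (le_sup_left : I ≤ I ⊔ Ideal.span {y 0 - 1})).comp
        (proj I y).toRingHom := RingHom.ext fun c => proj_deh I y c
  have h2 : ((Ideal.Quotient.factor (le_sup_left : I ≤ I ⊔ Ideal.span {y 0 - 1})).comp
        (proj I y).toRingHom).Finite :=
    RingHom.Finite.comp (RingHom.Finite.of_surjective _
      (Ideal.Quotient.factor_surjective le_sup_left)) hfin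
  rw [← h1] at h2
  exact RingHom.Finite.of_comp_finite h2

/-- homogenisation of a polynomial in two variables -/
private noncomputable def hmg (K : ℕ) (c : MvPolynomial (Fin 2) ℂ) : MvPolynomial (Fin 3) ℂ :=
  ∑ j ∈ Finset.range (K + 1), X 0 ^ (K - j) * rename Fin.succ (homogeneousComponent j c)

private theorem hmg_isHomogeneous (K : ℕ) (c : MvPolynomial (Fin 2) ℂ) :
    (hmg K c).IsHomogeneous K := by
  refine IsHomogeneous.sum _ _ _ fun j hj => ?_
  have h2 := ((isHomogeneous_X ℂ (0 : Fin 3)).pow (K - j)).mul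
    ((homogeneousComponent_isHomogeneous j c).rename_isHomogeneous (f := Fin.succ))
  have h3 : 1 * (K - j) + j = K := by
    have := Finset.mem_range.mp hj
    omega
  rwa [h3] at h2

private theorem deh_rename (c : MvPolynomial (Fin 2) ℂ) : deh (rename Fin.succ c) = c := by
  have h : deh.comp (rename Fin.succ) = AlgHom.id ℂ (MvPolynomial (Fin 2) ℂ) := by
    refine MvPolynomial.algHom_ext fun i => ?_
    fin_cases i <;> simp [deh]
  exact DFunLike.congr_fun h c

private theorem deh_hmg {K : ℕ} {c : MvPolynomial (Fin 2) ℂ} (hc : c.totalDegree ≤ K) :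
    deh (hmg K c) = c := by
  rw [hmg, map_sum]
  have h1 : ∀ j ∈ Finset.range (K + 1),
      deh (X 0 ^ (K - j) * rename Fin.succ (homogeneousComponent j c)) =
        homogeneousComponent j c := by
    intro j _
    rw [map_mul, map_pow, deh_rename]
    simp [deh]
  rw [Finset.sum_congr rfl h1]
  conv_rhs => rw [← sum_homogeneousComponent c]
  refine (Finset.sum_subset (Finset.range_mono (by omega)) fun j _ hj => ?_).symm
  refine homogeneousComponent_eq_zero j c ?_
  have := Finset.mem_range.not.mp hj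
  omega

theorem affine_indep {I : Ideal (Poly N)} (hI : I.IsPrime) (hh : Homog I) {y : Fin 3 → Poly N}
    (hy : ∀ i, (y i).IsHomogeneous 1) (hinj : Function.Injective (proj I y)) {d : ℕ}
    {e : Fin d → Poly N} {a : Fin d → ℕ} (he : ∀ l, (e l).IsHomogeneous (a l))
    (hind : ∀ c : Fin d → MvPolynomial (Fin 3) ℂ,
      ∑ l, proj I y (c l) * Ideal.Quotient.mk I (e l) = 0 → c = 0) :
    ∀ c : Fin d → MvPolynomial (Fin 2) ℂ,
      ∑ l, proj (I ⊔ Ideal.span {y 0 - 1}) ![y 1, y 2] (c l) *
        Ideal.Quotient.mk (I ⊔ Ideal.span {y 0 - 1}) (e l) = 0 → c = 0 := by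
  intro c hc
  have hlI : y 0 ∉ I := by
    intro h
    have h1 : proj I y (X 0) = proj I y 0 := by
      rw [map_zero, proj, aeval_X]
      exact Ideal.Quotient.eq_zero_iff_mem.mpr h
    exact X_ne_zero _ (hinj h1)
  -- a common degree
  obtain ⟨K, hK⟩ : ∃ K : ℕ, ∀ l, a l + (c l).totalDegree ≤ K :=
    ⟨∑ l, (a l + (c l).totalDegree), fun l =>
      Finset.single_le_sum (f := fun l => a l + (c l).totalDegree) (fun _ _ => Nat.zero_le _)
        (Finset.mem_univ l)⟩
  set cc : Fin d → MvPolynomial (Fin 3) ℂ := fun l => hmg (K - a l) (c l) with hcc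
  set F : Poly N := ∑ l, aeval y (cc l) * e l with hF
  have h1 : F.IsHomogeneous K := by
    refine IsHomogeneous.sum _ _ _ fun l _ => ?_
    have h2 := ((hmg_isHomogeneous (K - a l) (c l)).aeval y hy).mul (he l)
    have h3 : 1 * (K - a l) + a l = K := by
      have := hK l
      omega
    rwa [h3] at h2
  have hmk : ∀ (J : Ideal (Poly N)) (p : MvPolynomial (Fin 3) ℂ),
      Ideal.Quotient.mk J (aeval y p) = proj J y p := by
    intro J p
    have h : (Ideal.Quotient.mkₐ ℂ J).comp (aeval y) = proj J y := by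
      refine MvPolynomial.algHom_ext fun i => ?_
      simp [proj]
    exact DFunLike.congr_fun h p
  have h2 : F ∈ I ⊔ Ideal.span {y 0 - 1} := by
    rw [← Ideal.Quotient.eq_zero_iff_mem, hF, map_sum, ← hc]
    refine Finset.sum_congr rfl fun l _ => ?_
    rw [map_mul]
    congr 1
    have h3 : deh (cc l) = c l := deh_hmg (by have := hK l; omega)
    rw [← h3, proj_deh, ← hmk]
    rfl
  have h3 := affine_mem hI hh (hy 0) hlI h1 h2
  rw [← Ideal.Quotient.eq_zero_iff_mem, hF, map_sum] at h3
  have h4 := hind cc (by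
    rw [← h3]
    refine Finset.sum_congr rfl fun l _ => ?_
    rw [map_mul, hmk])
  funext l
  have h5 : deh (cc l) = c l := deh_hmg (by have := hK l; omega)
  rw [← h5, h4]
  simp

end Pool.Agent.Lib.MP_ed661f_ag.H
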