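import Pool.Agent.Lib.MP_ed661f_ag.H.QDefs

/-!
A family of forms which is maximal linearly independent over the Noether parameters, with a
homogeneous common denominator (task Q2).
-/

set_option autoImplicit false

open MvPolynomial Filter
open scoped ENNReal

namespace Pool.Agent.Lib.MP_ed661f_ag.H

variable {N : ℕ}

/-- homogeneous components of a product with a form -/
theorem hc_mul {σ : Type*} (p e : MvPolynomial σ ℂ) {a : ℕ} (he : e.IsHomogeneous a) (n : ℕ) :
    homogeneousComponent n (p * e) =
      if a ≤ n then homogeneousComponent (n - a) p * e else 0 := by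
  have h1 : ∀ i, homogeneousComponent n (homogeneousComponent i p * e) =
      if n = i + a then homogeneousComponent i p * e else 0 := fun i =>
    homogeneousComponent_of_mem ((homogeneousComponent_isHomogeneous i p).mul he)
  conv_lhs => rw [← sum_homogeneousComponent p]
  rw [Finset.sum_mul, map_sum]
  simp only [h1]
  split_ifs with h
  · by_cases h2 : n - a ∈ Finset.range (p.totalDegree + 1)
    · rw [Finset.sum_eq_single (n - a)]
      · rw [if_pos (by omega)]
      · intro i _ hi
        rw [if_neg (by omega)]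
      · intro h3
        exact absurd h2 h3
    · rw [homogeneousComponent_eq_zero (n - a) p
        (by rw [Finset.mem_range] at h2; omega), zero_mul]
      refine Finset.sum_eq_zero fun i hi => ?_
      rw [if_neg]
      rintro rfl
      apply h2
      simpa using hi
  · refine Finset.sum_eq_zero fun i _ => ?_
    rw [if_neg (by omega)]

/-- homogeneous components commute with the substitution of linear forms -/
theorem hc_aeval {r : ℕ} {y : Fin r → Poly N} (hy : ∀ i, (y i).IsHomogeneous 1)
    (p : MvPolynomial (Fin r) ℂ) (n : ℕ) :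
    homogeneousComponent n (aeval y p) = aeval y (homogeneousComponent n p) := by
  have h1 : ∀ i, homogeneousComponent n (aeval y (homogeneousComponent i p)) =
      if n = i then aeval y (homogeneousComponent i p) else 0 := fun i => by
    have := (homogeneousComponent_isHomogeneous i p).aeval y hy
    rw [one_mul] at this
    exact homogeneousComponent_of_mem this
  conv_lhs => rw [← sum_homogeneousComponent p]
  rw [map_sum, map_sum]
  simp only [h1]
  by_cases h2 : n ∈ Finset.range (p.totalDegree + 1)
  · rw [Finset.sum_ite_eq, if_pos h2]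
  · rw [Finset.sum_ite_eq, if_neg h2,
      homogeneousComponent_eq_zero n p (by simpa using h2), map_zero]

theorem mk_aeval {r : ℕ} (J : Ideal (Poly N)) (y : Fin r → Poly N)
    (p : MvPolynomial (Fin r) ℂ) :
    Ideal.Quotient.mk J (aeval y p) = proj J y p := by
  have : (Ideal.Quotient.mkₐ ℂ J).comp (aeval y) = proj J y := by
    apply MvPolynomial.algHom_ext
    intro i
    simp [proj]
  exact DFunLike.congr_fun this p

/-- a common denominator for a finitely generated module -/
theorem exists_common {R M : Type*} [CommRing R] [IsDomain R] [AddCommGroup M] [Module R M]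
    (W : Submodule R M) (s : Set M) (hs : s.Finite)
    (h : ∀ x ∈ s, ∃ a : R, a ≠ 0 ∧ a • x ∈ W) :
    ∃ q : R, q ≠ 0 ∧ ∀ x ∈ s, q • x ∈ W := by
  induction s, hs using Set.Finite.induction_on with
  | empty => exact ⟨1, one_ne_zero, by simp⟩
  | @insert x s hx hs ih =>
    obtain ⟨q, hq, hq'⟩ := ih fun y hy => h y (Set.mem_insert_of_mem _ hy)
    obtain ⟨a, ha, ha'⟩ := h x (Set.mem_insert _ _)
    refine ⟨q * a, mul_ne_zero hq ha, ?_⟩
    rintro y (rfl | hy)
    · rw [mul_smul]
      exact W.smul_mem _ ha'
    · rw [mul_comm, mul_smul]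
      exact W.smul_mem _ (hq' y hy)

/-- a maximal linearly independent family chosen from a spanning family -/
theorem exists_rank_family {R M S : Type*} [CommRing R] [IsDomain R] [IsNoetherianRing R]
    [AddCommGroup M] [Module R M] [Module.Finite R M] (v : S → M)
    (hv : Submodule.span R (Set.range v) = ⊤) :
    ∃ (d : ℕ) (f : Fin d → S) (q : R), LinearIndependent R (v ∘ f) ∧ q ≠ 0 ∧
      ∀ x, q • x ∈ Submodule.span R (Set.range (v ∘ f)) := by
  classical
  obtain ⟨s, hs1, hs2⟩ := exists_maximal_linearIndepOn R v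
  have hN : IsNoetherian R M := isNoetherian_of_isNoetherianRing_of_finite R M
  have hsfin : Finite s := LinearIndependent.finite_of_isNoetherian hs1
  obtain ⟨d, ⟨g⟩⟩ := Finite.exists_equiv_fin s
  have hrange : Set.range (v ∘ fun i : Fin d => ((g.symm i : s) : S)) = v '' s := by
    ext x
    constructor
    · rintro ⟨i, rfl⟩
      exact ⟨_, (g.symm i).2, rfl⟩
    · rintro ⟨z, hz, rfl⟩
      exact ⟨g ⟨z, hz⟩, by simp⟩
  set W := Submodule.span R (v '' s) with hW
  -- every vector has a denominator
  have h1 : ∀ x : M, ∃ a : R, a ≠ 0 ∧ a • x ∈ W := by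
    intro x
    have hx : x ∈ Submodule.span R (Set.range v) := hv ▸ Submodule.mem_top
    induction hx using Submodule.span_induction with
    | mem x hx =>
      obtain ⟨i, rfl⟩ := hx
      by_cases hi : i ∈ s
      · exact ⟨1, one_ne_zero, by
          rw [one_smul]; exact Submodule.subset_span ⟨i, hi, rfl⟩⟩
      · exact hs2 i hi
    | zero => exact ⟨1, one_ne_zero, by simp⟩
    | add x y _ _ hx hy =>
      obtain ⟨a, ha, ha'⟩ := hx
      obtain ⟨b, hb, hb'⟩ := hy
      refine ⟨a * b, mul_ne_zero ha hb, ?_⟩
      rw [smul_add]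
      refine W.add_mem ?_ ?_
      · rw [mul_comm, mul_smul]
        exact W.smul_mem _ ha'
      · rw [mul_smul]
        exact W.smul_mem _ hb'
    | smul c x _ hx =>
      obtain ⟨a, ha, ha'⟩ := hx
      refine ⟨a, ha, ?_⟩
      rw [smul_comm]
      exact W.smul_mem _ ha'
  obtain ⟨t, ht⟩ := (Module.Finite.fg_top : (⊤ : Submodule R M).FG)
  obtain ⟨q, hq, hq'⟩ := exists_common W (t : Set M) t.finite_toSet fun x _ => h1 x
  refine ⟨d, fun i => ((g.symm i : s) : S), q, ?_, hq, ?_⟩
  · exact LinearIndependent.comp hs1 g.symm g.symm.injective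
  · rw [hrange, ← hW]
    intro x
    have hx : x ∈ Submodule.span R (t : Set M) := ht ▸ Submodule.mem_top
    induction hx using Submodule.span_induction with
    | mem x hx => exact hq' x hx
    | zero => simp
    | add x y _ _ hx hy =>
      rw [smul_add]
      exact W.add_mem hx hy
    | smul c x _ hx =>
      rw [smul_comm]
      exact W.smul_mem _ hx

theorem exists_basis {I : Ideal (Poly N)} (hI : I.IsPrime) (hh : Homog I) {r : ℕ}
    {y : Fin r → Poly N} (hy : ∀ i, (y i).IsHomogeneous 1) (hinj : Function.Injective (proj I y))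
    (hfin : (proj I y).toRingHom.Finite) :
    ∃ (d : ℕ) (e : Fin d → Poly N) (a : Fin d → ℕ) (q : MvPolynomial (Fin r) ℂ) (b : ℕ),
      1 ≤ d ∧ (∀ l, (e l).IsHomogeneous (a l)) ∧
      (∀ c : Fin d → MvPolynomial (Fin r) ℂ,
        ∑ l, proj I y (c l) * Ideal.Quotient.mk I (e l) = 0 → c = 0) ∧
      q ≠ 0 ∧ q.IsHomogeneous b ∧
      ∀ F : Poly N, ∃ c : Fin d → MvPolynomial (Fin r) ℂ,
        proj I y q * Ideal.Quotient.mk I F = ∑ l, proj I y (c l) * Ideal.Quotient.mk I (e l) := by
  classical
  let v : {F : Poly N // ∃ k, F.IsHomogeneous k} → Poly N ⧸ I := fun F => Ideal.Quotient.mk I F.1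
  obtain ⟨d, f, q', h1, hq', h2⟩ :
      ∃ (d : ℕ) (f : Fin d → {F : Poly N // ∃ k, F.IsHomogeneous k})
        (q : MvPolynomial (Fin r) ℂ),
        (∀ c : Fin d → MvPolynomial (Fin r) ℂ,
          ∑ l, proj I y (c l) * Ideal.Quotient.mk I (f l).1 = 0 → c = 0) ∧
        q ≠ 0 ∧ ∀ x : Poly N ⧸ I, ∃ c : Fin d → MvPolynomial (Fin r) ℂ,
          proj I y q * x = ∑ l, proj I y (c l) * Ideal.Quotient.mk I (f l).1 := by
    let inst : Module (MvPolynomial (Fin r) ℂ) (Poly N ⧸ I) :=
      @Algebra.toModule _ _ _ _ (proj I y).toRingHom.toAlgebra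
    have hf : Module.Finite (MvPolynomial (Fin r) ℂ) (Poly N ⧸ I) := hfin
    have hv : Submodule.span (MvPolynomial (Fin r) ℂ) (Set.range v) = ⊤ := by
      rw [eq_top_iff]
      rintro x -
      obtain ⟨F, rfl⟩ := Ideal.Quotient.mk_surjective x
      rw [← sum_homogeneousComponent F, map_sum]
      refine Submodule.sum_mem _ fun i _ => Submodule.subset_span
        ⟨⟨homogeneousComponent i F, i, homogeneousComponent_isHomogeneous i F⟩, rfl⟩
    obtain ⟨d, f, q, h1, hq, h2⟩ := exists_rank_family v hv
    refine ⟨d, f, q, ?_, hq, ?_⟩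
    · intro c hc
      funext l
      exact Fintype.linearIndependent_iff.1 h1 c hc l
    · intro x
      obtain ⟨c, hc⟩ := (Submodule.mem_span_range_iff_exists_fun _).1 (h2 x)
      exact ⟨c, hc.symm⟩
  -- a nonzero homogeneous component
  obtain ⟨b, hb⟩ : ∃ b, homogeneousComponent b q' ≠ 0 := by
    by_contra hcon
    push Not at hcon
    apply hq'
    rw [← sum_homogeneousComponent q']
    exact Finset.sum_eq_zero fun i _ => hcon i
  choose a ha using fun l => (f l).2
  have key : ∀ F : Poly N, ∃ c : Fin d → MvPolynomial (Fin r) ℂ,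
      proj I y (homogeneousComponent b q') * Ideal.Quotient.mk I F =
        ∑ l, proj I y (c l) * Ideal.Quotient.mk I (f l).1 := by
    have hform : ∀ (k : ℕ) (F : Poly N), F.IsHomogeneous k →
        ∃ c : Fin d → MvPolynomial (Fin r) ℂ,
        proj I y (homogeneousComponent b q') * Ideal.Quotient.mk I F =
          ∑ l, proj I y (c l) * Ideal.Quotient.mk I (f l).1 := by
      intro k F hF
      obtain ⟨c, hc⟩ := h2 (Ideal.Quotient.mk I F)
      have hc' : aeval y q' * F - ∑ l, aeval y (c l) * (f l).1 ∈ I := by
        rw [← Ideal.Quotient.eq_zero_iff_mem, map_sub, map_mul, mk_aeval, map_sum, hc, sub_eq_zero]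
        refine Finset.sum_congr rfl fun l _ => ?_
        rw [map_mul, mk_aeval]
      have hc'' := hh _ hc' (b + k)
      rw [map_sub, hc_mul _ _ hF, if_pos (by omega), map_sum, hc_aeval hy,
        show b + k - k = b by omega] at hc''
      simp only [fun l => hc_mul (aeval y (c l)) (f l).1 (ha l), hc_aeval hy] at hc''
      refine ⟨fun l => if a l ≤ b + k then homogeneousComponent (b + k - a l) (c l) else 0, ?_⟩
      rw [← Ideal.Quotient.eq_zero_iff_mem, map_sub, map_mul, mk_aeval, map_sum,
        sub_eq_zero] at hc''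
      rw [hc'']
      refine Finset.sum_congr rfl fun l _ => ?_
      by_cases hl : a l ≤ b + k
      · simp only [hl, if_true]
        rw [map_mul, mk_aeval]
      · simp only [hl, if_false, map_zero, zero_mul]
    intro F
    choose c hc using fun i => hform i (homogeneousComponent i F)
      (homogeneousComponent_isHomogeneous i F)
    refine ⟨fun l => ∑ i ∈ Finset.range (F.totalDegree + 1), c i l, ?_⟩
    conv_lhs => rw [← sum_homogeneousComponent F]
    rw [map_sum, Finset.mul_sum]
    simp only [hc, map_sum, Finset.sum_mul]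
    exact Finset.sum_comm
  refine ⟨d, fun l => (f l).1, a, homogeneousComponent b q', b, ?_, ha, h1, hb,
    homogeneousComponent_isHomogeneous b q', key⟩
  by_contra hd
  obtain rfl : d = 0 := by omega
  obtain ⟨c, hc⟩ := key 1
  rw [map_one, mul_one] at hc
  simp only [Finset.univ_eq_empty, Finset.sum_empty] at hc
  exact hb (hinj (by rw [hc, map_zero]))

end Pool.Agent.Lib.MP_ed661f_ag.H
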