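import Pool.Agent.Lib.MP_ed661f_ag.H.Defs

/-!
Forms of large degree separate finitely many jets.
-/

set_option autoImplicit false

open MvPolynomial Filter
open scoped ENNReal

namespace Pool.Agent.Lib.MP_ed661f_ag.H

variable {N : ℕ}

private theorem finite_forms' (j : ℕ) :
    Module.Finite ℂ (homogeneousSubmodule (Fin (N + 1)) ℂ j) :=
  Module.Finite.iff_fg.mpr (homogeneousSubmodule_fg (Fin (N + 1)) ℂ j)

/-- forms of large degree separate finitely many jets -/
theorem sum_finrank_le_hilb {n : ℕ} {J : Ideal (Poly N)} {K : Fin n → Ideal (Poly N)}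
    {l : Poly N} (hl : l.IsHomogeneous 1) (hlK : ∀ i, l - 1 ∈ K i) (hJK : ∀ i, J ≤ K i)
    (hfin : ∀ i, Module.Finite ℂ (Poly N ⧸ K i))
    (hcop : Pairwise fun i j => IsCoprime (K i) (K j)) :
    ∃ j0, ∀ j, j0 ≤ j → ∑ i, Module.finrank ℂ (Poly N ⧸ K i) ≤ hilb J j := by
  classical
  let T := ∀ i, Poly N ⧸ K i
  have : ∀ i, Module.Finite ℂ (Poly N ⧸ K i) := hfin
  have hT : Module.finrank ℂ T = ∑ i, Module.finrank ℂ (Poly N ⧸ K i) := by
    simpa [T] using Module.finrank_pi_fintype ℂ (M := fun i => Poly N ⧸ K i)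
  let b := Module.finBasis ℂ T
  have hsurj : ∀ x : T, ∃ r : Poly N, ∀ i, Ideal.Quotient.mk (K i) r = x i := fun x => by
    obtain ⟨r, hr⟩ := Ideal.pi_quotient_surjective hcop x
    exact ⟨r, hr⟩
  choose g hg using hsurj
  refine ⟨Finset.univ.sup fun m => (g (b m)).totalDegree, fun j hj => ?_⟩
  rw [← hT]
  unfold hilb
  set S := (homogeneousSubmodule (Fin (N + 1)) ℂ j).map
    (Ideal.Quotient.mkₐ ℂ J).toLinearMap with hS
  have : Module.Finite ℂ S := by
    have := finite_forms' (N := N) j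
    exact Module.Finite.map _ _
  let Ψ : (Poly N ⧸ J) →ₗ[ℂ] T :=
    LinearMap.pi fun i => (Ideal.Quotient.factorₐ ℂ (hJK i)).toLinearMap
  have hΨ : ∀ (x : Poly N) i, Ψ (Ideal.Quotient.mkₐ ℂ J x) i = Ideal.Quotient.mk (K i) x := by
    intro x i
    rfl
  let Φ : S →ₗ[ℂ] T := Ψ.comp S.subtype
  have hΦ : Function.Surjective Φ := by
    rw [← LinearMap.range_eq_top, eq_top_iff, ← b.span_eq, Submodule.span_le]
    rintro _ ⟨m, rfl⟩
    have hdeg : (g (b m)).totalDegree ≤ j :=
      le_trans (Finset.le_sup (f := fun m => (g (b m)).totalDegree) (Finset.mem_univ m)) hj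
    let h : Poly N := ∑ a ∈ Finset.range (j + 1), l ^ (j - a) * homogeneousComponent a (g (b m))
    have hh : h ∈ homogeneousSubmodule (Fin (N + 1)) ℂ j := by
      refine Submodule.sum_mem _ fun a ha => ?_
      rw [mem_homogeneousSubmodule]
      have ha' : a ≤ j := Nat.lt_succ_iff.mp (Finset.mem_range.mp ha)
      have := (hl.pow (j - a)).mul (homogeneousComponent_isHomogeneous a (g (b m)))
      simpa [Nat.sub_add_cancel ha'] using this
    refine ⟨⟨Ideal.Quotient.mkₐ ℂ J h, ⟨h, hh, rfl⟩⟩, ?_⟩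
    funext i
    change Ψ (Ideal.Quotient.mkₐ ℂ J h) i = b m i
    rw [hΨ, ← hg (b m) i]
    have hl1 : Ideal.Quotient.mk (K i) l = 1 := by
      have := Ideal.Quotient.eq_zero_iff_mem.mpr (hlK i)
      rw [map_sub, map_one, sub_eq_zero] at this
      exact this
    simp only [h, map_sum, map_mul, map_pow, hl1, one_pow, one_mul]
    rw [← map_sum]
    congr 1
    have hsum := sum_homogeneousComponent (g (b m))
    conv_rhs => rw [← hsum]
    symm
    refine Finset.sum_subset (Finset.range_mono (Nat.succ_le_succ hdeg)) fun a _ ha => ?_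
    apply homogeneousComponent_eq_zero
    simpa [Nat.lt_succ_iff] using ha
  exact LinearMap.finrank_le_finrank_of_surjective hΦ

end Pool.Agent.Lib.MP_ed661f_ag.H
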