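import Mathlib

/-!
Surfaces in projective space, curves on them, degrees, multiplicities and multipoint Seshadri
constants: definitions.
-/

set_option autoImplicit false

open MvPolynomial Filter
open scoped ENNReal

namespace Pool.Agent.Lib.MP_ed661f_ag.H

/-- the homogeneous coordinate ring of the projective space of dimension `N` -/
abbrev Poly (N : ℕ) : Type := MvPolynomial (Fin (N + 1)) ℂ

/-- the Hilbert function of the ideal `J`: the dimension of the space of the classes modulo `J` of
the forms of degree `k` -/
noncomputable def hilb {N : ℕ} (J : Ideal (Poly N)) (k : ℕ) : ℕ :=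
  Module.finrank ℂ ((homogeneousSubmodule (Fin (N + 1)) ℂ k).map
    (Ideal.Quotient.mkₐ ℂ J).toLinearMap)

/-- the ideal of the polynomials which vanish at the vector `v` -/
noncomputable def vecIdeal {N : ℕ} (v : Fin (N + 1) → ℂ) : Ideal (Poly N) :=
  RingHom.ker (MvPolynomial.eval v)

/-- the dimension of `ℂ[X] / (J + 𝔪 ^ s)`, where `𝔪` is the ideal of the vector `v` -/
noncomputable def jetDim {N : ℕ} (J : Ideal (Poly N)) (v : Fin (N + 1) → ℂ) (s : ℕ) : ℕ :=
  Module.finrank ℂ (Poly N ⧸ (J ⊔ vecIdeal v ^ s))

/-- the Hilbert-Samuel multiplicity at the vector `v` of the affine cone over the curve with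
homogeneous ideal `P`: the limit of `2 dim ℂ[X] / (P + 𝔪 ^ s) / s ^ 2`. For `v ≠ 0` it is the
multiplicity of the curve at the point of the projective space represented by `v`. -/
noncomputable def mult {N : ℕ} (P : Ideal (Poly N)) (v : Fin (N + 1) → ℂ) : ℝ≥0∞ :=
  liminf (fun s : ℕ => 2 * (jetDim P v s : ℝ≥0∞) / (s : ℝ≥0∞) ^ 2) atTop

/-- the degree of the curve with homogeneous ideal `P`: the limit of `hilb P k / k` -/
noncomputable def deg {N : ℕ} (P : Ideal (Poly N)) : ℝ≥0∞ :=
  liminf (fun k : ℕ => (hilb P k : ℝ≥0∞) / k) atTop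

/-- `I` is the homogeneous ideal of an irreducible surface: it is prime, it contains the
homogeneous components of its elements, and the quotient ring (the coordinate ring of the affine
cone over the surface) has dimension `3` -/
structure IsSurface {N : ℕ} (I : Ideal (Poly N)) : Prop where
  prime : I.IsPrime
  homogeneous : ∀ F ∈ I, ∀ k, homogeneousComponent k F ∈ I
  dim : ringKrullDim (Poly N ⧸ I) = 3

/-- `P` is the homogeneous ideal of an irreducible curve on the surface with ideal `I` -/
structure IsCurveOn {N : ℕ} (I P : Ideal (Poly N)) : Prop where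
  prime : P.IsPrime
  homogeneous : ∀ F ∈ P, ∀ k, homogeneousComponent k F ∈ P
  dim : ringKrullDim (Poly N ⧸ P) = 2
  le : I ≤ P

/-- the self-intersection of the hyperplane class, that is the degree of the surface: the limit of
`2 hilb I k / k ^ 2` -/
noncomputable def surfDeg {N : ℕ} (I : Ideal (Poly N)) : ℝ≥0∞ :=
  liminf (fun k : ℕ => 2 * (hilb I k : ℝ≥0∞) / (k : ℝ≥0∞) ^ 2) atTop

/-- the point `x` lies on the subvariety with homogeneous ideal `J` -/
def OnVar {N : ℕ} (J : Ideal (Poly N)) (x : Projectivization ℂ (Fin (N + 1) → ℂ)) : Prop :=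
  ∀ F ∈ J, MvPolynomial.eval x.rep F = 0

/-- the Seshadri constant of the hyperplane class at the points `x i` of the surface: the infimum
of `deg C / ∑ mult_{x i} C` over all irreducible curves `C` on the surface through at least one
`x i` -/
noncomputable def seshadri {N n : ℕ} (I : Ideal (Poly N))
    (x : Fin n → Projectivization ℂ (Fin (N + 1) → ℂ)) : ℝ≥0∞ :=
  ⨅ (P : Ideal (Poly N)) (_ : IsCurveOn I P) (_ : ∃ i, OnVar P (x i)),
    deg P / ∑ i, mult P (x i).rep

/-- the `n`-point Seshadri constant of the hyperplane class of the surface: the supremum over all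
`n`-tuples of distinct points of the surface -/
noncomputable def eps {N : ℕ} (I : Ideal (Poly N)) (n : ℕ) : ℝ≥0∞ :=
  ⨆ (x : Fin n → Projectivization ℂ (Fin (N + 1) → ℂ)) (_ : Function.Injective x)
    (_ : ∀ i, OnVar I (x i)), seshadri I x

/-! ### jets -/

/-- the forms of degree `κ` separate the jets of order `s` at the points `v i` of the affine piece
`l = 1` of the variety with ideal `I` -/
def JetSep {N n : ℕ} (I : Ideal (Poly N)) (l : Poly N) (v : Fin n → Fin (N + 1) → ℂ)
    (κ s : ℕ) : Prop :=
  ∀ G : Fin n → Poly N, ∃ F : Poly N, F.IsHomogeneous κ ∧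
    ∀ i, F - G i ∈ I ⊔ vecIdeal (v i) ^ (s + 1) ⊔ Ideal.span {l - 1}

end Pool.Agent.Lib.MP_ed661f_ag.H
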