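import Mathlib
import Pool.Agent.Lib.MP_ed661f_ag.H.Defs

/-!
# Finite-dimensionality of the rings of jets
-/

set_option autoImplicit false

open MvPolynomial Filter
open scoped ENNReal

namespace Pool.Agent.Lib.MP_ed661f_ag.H

variable {N : ℕ}

theorem finDim_isMaximal (v : Fin (N + 1) → ℂ) : (vecIdeal v).IsMaximal :=
  RingHom.ker_isMaximal_of_surjective _ fun c => ⟨C c, by simp⟩

/-- the ring of jets at a vector is finite-dimensional -/
theorem finite_quot {J : Ideal (Poly N)} {v : Fin (N + 1) → ℂ} {s : ℕ}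
    (h : vecIdeal v ^ s ≤ J) : Module.Finite ℂ (Poly N ⧸ J) := by
  have hM := finDim_isMaximal v
  have hdim : Ring.KrullDimLE 0 (Poly N ⧸ J) := by
    refine Ring.KrullDimLE.mk₀ fun Q hQ => ?_
    have hprime : (Q.comap (Ideal.Quotient.mk J)).IsPrime := hQ.comap _
    have hJQ : J ≤ Q.comap (Ideal.Quotient.mk J) := by
      intro x hx
      rw [Ideal.mem_comap, Ideal.Quotient.eq_zero_iff_mem.2 hx]
      exact Q.zero_mem
    have hle : vecIdeal v ≤ Q.comap (Ideal.Quotient.mk J) := by
      have h1 := h.trans hJQ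
      rcases Nat.eq_zero_or_pos s with rfl | hs
      · rw [pow_zero, Ideal.one_eq_top] at h1
        exact absurd (top_le_iff.1 h1) hprime.ne_top
      · exact (hprime.pow_le_iff hs.ne').1 h1
    have heq : vecIdeal v = Q.comap (Ideal.Quotient.mk J) :=
      hM.eq_of_le hprime.ne_top hle
    have hmax : (Q.comap (Ideal.Quotient.mk J)).IsMaximal := heq ▸ hM
    have h2 := Ideal.map_comap_of_surjective (Ideal.Quotient.mk J) Ideal.Quotient.mk_surjective Q
    rcases Ideal.map_eq_top_or_isMaximal_of_surjective (Ideal.Quotient.mk J)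
      Ideal.Quotient.mk_surjective hmax with h3 | h3
    · rw [h2] at h3
      exact absurd h3 hQ.ne_top
    · rwa [h2] at h3
  have hart : IsArtinianRing (Poly N ⧸ J) := by
    rw [isArtinianRing_iff_krullDimLE_zero]
    exact hdim
  exact Module.finite_of_isArtinianRing ℂ (Poly N ⧸ J)

/-- distinct vectors have coprime ideals -/
theorem isCoprime_of_ne {J J' : Ideal (Poly N)} {v v' : Fin (N + 1) → ℂ} (hv : v ≠ v') {s s' : ℕ}
    (h : vecIdeal v ^ s ≤ J) (h' : vecIdeal v' ^ s' ≤ J') : IsCoprime J J' := by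
  have hM := finDim_isMaximal v
  have hM' := finDim_isMaximal v'
  have hne : vecIdeal v ≠ vecIdeal v' := by
    intro he
    apply hv
    funext i
    have h1 : (X i - C (v i) : Poly N) ∈ vecIdeal v := by
      rw [vecIdeal, RingHom.mem_ker]; simp
    rw [he, vecIdeal, RingHom.mem_ker] at h1
    simp only [map_sub, eval_X, eval_C] at h1
    exact (sub_eq_zero.1 h1).symm
  have h1 : IsCoprime (vecIdeal v ^ s) (vecIdeal v' ^ s') :=
    (Ideal.isCoprime_of_isMaximal hne).pow
  rw [Ideal.isCoprime_iff_sup_eq] at h1 ⊢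
  exact top_le_iff.1 (h1 ▸ sup_le_sup h h')

end Pool.Agent.Lib.MP_ed661f_ag.H
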