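import Pool.Agent.Lib.MP_ed661f_ag.H.Defs

/-!
# Hilbert functions: multiplication by a form outside a prime ideal
-/

set_option autoImplicit false

open MvPolynomial Filter
open scoped ENNReal

namespace Pool.Agent.Lib.MP_ed661f_ag.H

variable {N : ℕ}

/-- the forms of degree `k` are a finite-dimensional space -/
theorem finite_formsN (k : ℕ) :
    Module.Finite ℂ (homogeneousSubmodule (Fin (N + 1)) ℂ k) := by
  have h : homogeneousSubmodule (Fin (N + 1)) ℂ k ≤
      Submodule.span ℂ ((fun d : Fin (N + 1) →₀ ℕ => monomial d (1 : ℂ)) ''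
        {d | d.degree = k}) := by
    intro F hF
    rw [mem_homogeneousSubmodule] at hF
    rw [F.as_sum]
    refine Submodule.sum_mem _ fun d hd => ?_
    have h1 : monomial d (coeff d F) = coeff d F • monomial d (1 : ℂ) := by
      rw [smul_monomial, smul_eq_mul, mul_one]
    rw [h1]
    refine Submodule.smul_mem _ _ (Submodule.subset_span ⟨d, ?_, rfl⟩)
    have := hF (mem_support_iff.1 hd)
    show d.degree = k
    rwa [Finsupp.degree_eq_weight_one]
  have hfin : Module.Finite ℂ (Submodule.span ℂ
      ((fun d : Fin (N + 1) →₀ ℕ => monomial d (1 : ℂ)) '' {d | d.degree = k})) := by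
    apply FiniteDimensional.span_of_finite
    apply Set.Finite.image
    exact Finsupp.finite_of_degree_le k |>.subset (by intro d hd; exact (le_of_eq hd))
  exact Submodule.finiteDimensional_of_le h

/-- the classes of the forms of degree `k` -/
private noncomputable def W (J : Ideal (Poly N)) (k : ℕ) : Submodule ℂ (Poly N ⧸ J) :=
  (homogeneousSubmodule (Fin (N + 1)) ℂ k).map (Ideal.Quotient.mkₐ ℂ J).toLinearMap

private theorem finite_W (J : Ideal (Poly N)) (k : ℕ) : Module.Finite ℂ (W J k) := by
  have := finite_formsN (N := N) k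
  unfold W
  infer_instance

private theorem map_W {J J' : Ideal (Poly N)} (h : J ≤ J') (k : ℕ) :
    (W J k).map (Ideal.Quotient.factorₐ ℂ h).toLinearMap = W J' k := by
  unfold W
  rw [← Submodule.map_comp]
  rfl

/-- multiplication by a form outside a prime ideal -/
theorem hilb_mul_le {P : Ideal (Poly N)} (hP : P.IsPrime) {F : Poly N} {κ : ℕ}
    (hF : F.IsHomogeneous κ) (hFP : F ∉ P) (j : ℕ) :
    hilb P j + hilb (P ⊔ Ideal.span {F}) (j + κ) ≤ hilb P (j + κ) := by
  have hle : P ≤ P ⊔ Ideal.span {F} := le_sup_left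
  set π := (Ideal.Quotient.factorₐ ℂ hle).toLinearMap with hπ
  have hfin := finite_W P (j + κ)
  have hfin' := finite_W P j
  have h1 := (π.domRestrict (W P (j + κ))).finrank_range_add_finrank_ker
  have h2 : LinearMap.range (π.domRestrict (W P (j + κ))) = W (P ⊔ Ideal.span {F}) (j + κ) := by
    rw [LinearMap.range_domRestrict, hπ, map_W hle]
  -- the kernel contains the multiples of `F`
  have hmem : ∀ x ∈ W P j, Ideal.Quotient.mk P F * x ∈ W P (j + κ) := by
    rintro x ⟨G, hG, rfl⟩
    refine ⟨F * G, ?_, ?_⟩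
    · have := hF.mul ((mem_homogeneousSubmodule _ _).1 hG)
      rw [add_comm κ j] at this
      exact this
    · exact map_mul (Ideal.Quotient.mk P) F G
  have hker : ∀ x : Poly N ⧸ P, π (Ideal.Quotient.mk P F * x) = 0 := by
    intro x
    obtain ⟨G, rfl⟩ := Ideal.Quotient.mk_surjective x
    rw [← map_mul]
    show Ideal.Quotient.mk (P ⊔ Ideal.span {F}) (F * G) = 0
    rw [Ideal.Quotient.eq_zero_iff_mem]
    exact Ideal.mul_mem_right _ _ (Ideal.mem_sup_right (Ideal.mem_span_singleton_self F))
  let f : W P j →ₗ[ℂ] LinearMap.ker (π.domRestrict (W P (j + κ))) :=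
    { toFun := fun x => ⟨⟨Ideal.Quotient.mk P F * x, hmem x x.2⟩, hker x⟩
      map_add' := by
        intro x y
        apply Subtype.ext
        apply Subtype.ext
        show Ideal.Quotient.mk P F * ((x : Poly N ⧸ P) + y) = _
        rw [mul_add]
        rfl
      map_smul' := by
        intro c x
        apply Subtype.ext
        apply Subtype.ext
        show Ideal.Quotient.mk P F * (c • (x : Poly N ⧸ P)) = _
        rw [mul_smul_comm]
        rfl }
  have hf : Function.Injective f := by
    intro x y hxy
    have h3 : Ideal.Quotient.mk P F * (x : Poly N ⧸ P) = Ideal.Quotient.mk P F * y :=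
      congrArg (fun z : LinearMap.ker (π.domRestrict (W P (j + κ))) =>
        ((z : W P (j + κ)) : Poly N ⧸ P)) hxy
    have hne : Ideal.Quotient.mk P F ≠ 0 := by
      rw [Ne, Ideal.Quotient.eq_zero_iff_mem]; exact hFP
    have : IsDomain (Poly N ⧸ P) := Ideal.Quotient.isDomain P
    exact Subtype.ext (mul_left_cancel₀ hne h3)
  have h3 := LinearMap.finrank_le_finrank_of_injective hf
  have e1 : hilb P j = Module.finrank ℂ (W P j) := rfl
  have e2 : hilb P (j + κ) = Module.finrank ℂ (W P (j + κ)) := rfl
  have e3 : hilb (P ⊔ Ideal.span {F}) (j + κ) =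
    Module.finrank ℂ (W (P ⊔ Ideal.span {F}) (j + κ)) := rfl
  rw [h2] at h1
  omega

theorem hilb_anti {J J' : Ideal (Poly N)} (h : J ≤ J') (k : ℕ) : hilb J' k ≤ hilb J k := by
  have hfin := finite_W J k
  have e1 : hilb J k = Module.finrank ℂ (W J k) := rfl
  have e2 : hilb J' k = Module.finrank ℂ (W J' k) := rfl
  rw [e1, e2, ← map_W h]
  exact Submodule.finrank_map_le _ _

/-- if some form of positive degree is not in the prime ideal `P`, then the Hilbert function is
nondecreasing -/
theorem hilb_mono {P : Ideal (Poly N)} (hP : P.IsPrime) {F : Poly N} {κ : ℕ}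
    (hF : F.IsHomogeneous κ) (hκ : 1 ≤ κ) (hFP : F ∉ P) : Monotone (hilb P) := by
  obtain ⟨i, hi⟩ : ∃ i, (X i : Poly N) ∉ P := by
    by_contra hcon
    push Not at hcon
    apply hFP
    have h1 : Ideal.span (X '' (Set.univ : Set (Fin (N + 1)))) ≤ P := by
      rw [Ideal.span_le]
      rintro _ ⟨i, _, rfl⟩
      exact hcon i
    apply h1
    rw [mem_ideal_span_X_image]
    intro m hm
    have h2 := hF (mem_support_iff.1 hm)
    by_contra hcon2
    push Not at hcon2
    have h3 : m = 0 := by
      ext i
      exact hcon2 i (Set.mem_univ i)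
    rw [h3, map_zero] at h2
    omega
  refine monotone_nat_of_le_succ fun j => ?_
  have := hilb_mul_le hP (isHomogeneous_X ℂ i) hi j
  omega

end Pool.Agent.Lib.MP_ed661f_ag.H
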