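import Pool.Agent.Lib.MP_ed661f_ag.H.Defs
import Pool.Agent.Lib.MP_ed661f_ag.H.FinDim

/-!
# Jets of a cone, filtered by the powers of `l - 1`
-/

set_option autoImplicit false

open MvPolynomial Filter
open scoped ENNReal

namespace Pool.Agent.Lib.MP_ed661f_ag.H

variable {N : ℕ}

/-- the dimension of the ring of jets of the curve, in the affine piece `l = 1` -/
noncomputable def lam (P : Ideal (Poly N)) (l : Poly N) (v : Fin (N + 1) → ℂ) (t : ℕ) : ℕ :=
  Module.finrank ℂ (Poly N ⧸ (P ⊔ vecIdeal v ^ t ⊔ Ideal.span {l - 1}))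

/-- finite-dimensional quotients shrink when the ideal grows -/
theorem slice_finrank_anti {J J' : Ideal (Poly N)} (h : J ≤ J')
    [Module.Finite ℂ (Poly N ⧸ J)] :
    Module.finrank ℂ (Poly N ⧸ J') ≤ Module.finrank ℂ (Poly N ⧸ J) :=
  LinearMap.finrank_le_finrank_of_surjective
    (f := (Ideal.Quotient.factorₐ ℂ h).toLinearMap) (Ideal.Quotient.factor_surjective h)

theorem lam_mono {P : Ideal (Poly N)} {l : Poly N} {v : Fin (N + 1) → ℂ} :
    Monotone (lam P l v) := by
  intro t t' htt'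
  have hfin : Module.Finite ℂ (Poly N ⧸ (P ⊔ vecIdeal v ^ t' ⊔ Ideal.span {l - 1})) :=
    finite_quot (v := v) (s := t') (le_sup_right.trans le_sup_left)
  exact slice_finrank_anti (sup_le_sup_right (sup_le_sup_left (Ideal.pow_le_pow_right htt') P) _)

theorem jetDim_succ_le {P : Ideal (Poly N)} {l : Poly N} {v : Fin (N + 1) → ℂ}
    (hlv : MvPolynomial.eval v l = 1) (r : ℕ) :
    jetDim P v (r + 1) ≤ jetDim P v r + lam P l v (r + 1) := by
  unfold jetDim lam
  set J := P ⊔ vecIdeal v ^ r with hJ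
  set J' := P ⊔ vecIdeal v ^ (r + 1) with hJ'
  have hf1 : Module.Finite ℂ (Poly N ⧸ J) := finite_quot (v := v) (s := r) le_sup_right
  have hf2 : Module.Finite ℂ (Poly N ⧸ J') := finite_quot (v := v) (s := r + 1) le_sup_right
  have hl : l - 1 ∈ vecIdeal v := by
    rw [vecIdeal, RingHom.mem_ker, map_sub, hlv, map_one, sub_self]
  have hmul : ∀ a ∈ J, (l - 1) * a ∈ J' := by
    intro a ha
    obtain ⟨p, hp, m, hm, rfl⟩ := Submodule.mem_sup.1 ha
    rw [mul_add]
    refine Submodule.add_mem_sup (P.mul_mem_left _ hp) ?_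
    rw [pow_succ']
    exact Ideal.mul_mem_mul hl hm
  -- multiplication by `l - 1`
  let f0 : Poly N →ₗ[ℂ] (Poly N ⧸ J') :=
    (Ideal.Quotient.mkₐ ℂ J').toLinearMap.comp (LinearMap.mulLeft ℂ (l - 1))
  let f : (Poly N ⧸ J) →ₗ[ℂ] (Poly N ⧸ J') :=
    (Submodule.liftQ (J.restrictScalars ℂ) f0 (by
      intro a ha
      rw [LinearMap.mem_ker]
      exact Ideal.Quotient.eq_zero_iff_mem.2 (hmul a ha)))
  have hfapp : ∀ a, f (Ideal.Quotient.mk J a) = Ideal.Quotient.mk J' ((l - 1) * a) := fun a => rfl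
  let g : (Poly N ⧸ J') →ₗ[ℂ] (Poly N ⧸ (J' ⊔ Ideal.span {l - 1})) :=
    (Ideal.Quotient.factorₐ ℂ (le_sup_left : J' ≤ J' ⊔ Ideal.span {l - 1})).toLinearMap
  have hgapp : ∀ a, g (Ideal.Quotient.mk J' a) =
      Ideal.Quotient.mk (J' ⊔ Ideal.span {l - 1}) a := fun a => rfl
  have hgs : Function.Surjective g :=
    Ideal.Quotient.factor_surjective (le_sup_left : J' ≤ J' ⊔ Ideal.span {l - 1})
  have hker : LinearMap.ker g ≤ LinearMap.range f := by
    intro x hx
    obtain ⟨a, rfl⟩ := Ideal.Quotient.mk_surjective x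
    rw [LinearMap.mem_ker, hgapp, Ideal.Quotient.eq_zero_iff_mem] at hx
    obtain ⟨b, hb, c, hc, rfl⟩ := Submodule.mem_sup.1 hx
    obtain ⟨d, rfl⟩ := Ideal.mem_span_singleton'.1 hc
    refine ⟨Ideal.Quotient.mk J d, ?_⟩
    rw [hfapp, map_add, Ideal.Quotient.eq_zero_iff_mem.2 hb, zero_add, mul_comm]
  have h1 := LinearMap.finrank_range_add_finrank_ker g
  rw [LinearMap.range_eq_top.2 hgs, finrank_top] at h1
  have h2 : Module.finrank ℂ (LinearMap.ker g) ≤ Module.finrank ℂ (LinearMap.range f) :=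
    Submodule.finrank_mono hker
  have h3 : Module.finrank ℂ (LinearMap.range f) ≤ Module.finrank ℂ (Poly N ⧸ J) :=
    LinearMap.finrank_range_le f
  omega

/-- the jets of the cone are filtered by the powers of `l - 1` -/
theorem jetDim_le {P : Ideal (Poly N)} {l : Poly N} {v : Fin (N + 1) → ℂ}
    (hlv : MvPolynomial.eval v l = 1) (r : ℕ) :
    jetDim P v r ≤ ∑ t ∈ Finset.range r, lam P l v (t + 1) := by
  induction r with
  | zero =>
    have h : P ⊔ vecIdeal v ^ 0 = ⊤ := by rw [pow_zero, Ideal.one_eq_top]; exact sup_top_eq _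
    unfold jetDim
    rw [h]
    have : Subsingleton (Poly N ⧸ (⊤ : Ideal (Poly N))) :=
      Ideal.Quotient.subsingleton_iff.2 rfl
    rw [Module.finrank_zero_of_subsingleton]
    exact Nat.zero_le _
  | succ r ih =>
    rw [Finset.sum_range_succ]
    exact (jetDim_succ_le hlv r).trans (Nat.add_le_add_right ih _)

end Pool.Agent.Lib.MP_ed661f_ag.H
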