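import Pool.Agent.Lib.MP_ed661f_ag.H.Defs
import Pool.Agent.Lib.MP_ed661f_ag.H.HilbMul
import Pool.Agent.Lib.MP_ed661f_ag.H.FinDim
import Pool.Agent.Lib.MP_ed661f_ag.H.BigDegree
import Pool.Agent.Lib.MP_ed661f_ag.H.Slice

/-!
# Counting jets by Hilbert functions
-/

set_option autoImplicit false

open MvPolynomial Filter
open scoped ENNReal

namespace Pool.Agent.Lib.MP_ed661f_ag.H

variable {N : ℕ}

/-- the power of an element of `R + M ^ s` lies in `R + M ^ (s t)` -/
theorem count_pow_mem {A : Type*} [CommRing A] {R M : Ideal A} {F : A} {s : ℕ}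
    (h : F ∈ R ⊔ M ^ s) (t : ℕ) : F ^ t ∈ R ⊔ M ^ (s * t) := by
  obtain ⟨p, hp, m, hm, rfl⟩ := Submodule.mem_sup.1 h
  have h1 : (p + m) ^ t - m ^ t ∈ R := by
    obtain ⟨c, hc⟩ := sub_dvd_pow_sub_pow (p + m) m t
    rw [hc, add_sub_cancel_right]
    exact R.mul_mem_right c hp
  have h2 : m ^ t ∈ M ^ (s * t) := by
    rw [pow_mul]
    exact Ideal.pow_mem_pow hm t
  have h3 : (p + m) ^ t = ((p + m) ^ t - m ^ t) + m ^ t := by ring
  rw [h3]
  exact Submodule.add_mem_sup h1 h2

/-- a linear lower bound for the Hilbert function bounds the degree from below -/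
theorem count_deg {P : Ideal (Poly N)} {S q j0 : ℕ} (hq : 1 ≤ q)
    (h : ∀ r, r * S ≤ hilb P (j0 + q * r)) (hm : Monotone (hilb P)) :
    (S : ℝ≥0∞) ≤ (q : ℕ) * deg P := by
  have hq0 : (0 : ℝ) < q := by exact_mod_cast hq
  -- the bound for all `k`
  have h1 : ∀ k : ℕ, (S : ℝ) / q * k - (S * (j0 + q) : ℕ) ≤ hilb P k := by
    intro k
    rcases Nat.lt_or_ge k j0 with hk | hk
    · have h2 : (S : ℝ) / q * k ≤ S * j0 := by
        have h3 : (k : ℝ) ≤ j0 := by exact_mod_cast hk.le
        have h4 : (S : ℝ) / q ≤ S := div_le_self (Nat.cast_nonneg _) (by exact_mod_cast hq)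
        exact mul_le_mul h4 h3 (Nat.cast_nonneg _) (Nat.cast_nonneg _)
      have h5 : (0 : ℝ) ≤ hilb P k := Nat.cast_nonneg _
      have h6 : (0 : ℝ) ≤ (S : ℝ) * q := by positivity
      push_cast
      nlinarith
    · set r := (k - j0) / q with hr
      have h2 : j0 + q * r ≤ k := by
        have := Nat.mul_div_le (k - j0) q
        rw [← hr] at this
        omega
      have h3 : r * S ≤ hilb P k := (h r).trans (hm h2)
      have h4 : k - j0 < q * r + q := by
        have := Nat.lt_mul_div_succ (k - j0) (Nat.lt_of_lt_of_le Nat.zero_lt_one hq)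
        rw [Nat.mul_add, Nat.mul_one] at this
        exact this
      have h5 : (k : ℝ) ≤ j0 + q * r + q := by
        have : k ≤ j0 + q * r + q := by omega
        exact_mod_cast this
      have h6 : (S : ℝ) / q * k ≤ S / q * (j0 + q * r + q) :=
        mul_le_mul_of_nonneg_left h5 (by positivity)
      have h7 : (S : ℝ) / q * (j0 + q * r + q) = S / q * j0 + r * S + S := by
        field_simp
      have h8 : (S : ℝ) / q * j0 ≤ S * j0 := by
        have h4 : (S : ℝ) / q ≤ S := div_le_self (Nat.cast_nonneg _) (by exact_mod_cast hq)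
        exact mul_le_mul_of_nonneg_right h4 (Nat.cast_nonneg _)
      have h9 : (r : ℝ) * S ≤ hilb P k := by exact_mod_cast h3
      have h10 : (S : ℝ) ≤ S * q := by
        have : (1 : ℝ) ≤ q := by exact_mod_cast hq
        nlinarith [(Nat.cast_nonneg S : (0 : ℝ) ≤ S)]
      push_cast
      linarith
  have h2 : ENNReal.ofReal ((S : ℝ) / q) ≤ deg P := by
    refine ENNReal.le_of_forall_pos_le_add fun ε hε _ => ?_
    have h3 : ∀ᶠ k : ℕ in atTop, ENNReal.ofReal ((S : ℝ) / q - ε) ≤ (hilb P k : ℝ≥0∞) / k := by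
      obtain ⟨k0, hk0⟩ := exists_nat_gt (((S * (j0 + q) : ℕ) : ℝ) / ε)
      filter_upwards [eventually_ge_atTop (k0 + 1)] with k hk
      have hkpos : (0 : ℝ) < k := by
        have : 0 < k := by omega
        exact_mod_cast this
      have h4 : ((S : ℝ) / q - ε) ≤ (hilb P k : ℝ) / k := by
        rw [le_div_iff₀ hkpos]
        have h5 := h1 k
        have h6 : ((S * (j0 + q) : ℕ) : ℝ) ≤ ε * k := by
          rw [div_lt_iff₀ (by exact_mod_cast hε)] at hk0
          have h7 : (k0 : ℝ) ≤ k := by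
            have : k0 ≤ k := by omega
            exact_mod_cast this
          have h8 : (0 : ℝ) < ε := by exact_mod_cast hε
          nlinarith
        linarith
      calc ENNReal.ofReal ((S : ℝ) / q - ε) ≤ ENNReal.ofReal ((hilb P k : ℝ) / k) :=
            ENNReal.ofReal_le_ofReal h4
        _ = (hilb P k : ℝ≥0∞) / k := by
            rw [ENNReal.ofReal_div_of_pos hkpos, ENNReal.ofReal_natCast, ENNReal.ofReal_natCast]
    have h4 : ENNReal.ofReal ((S : ℝ) / q - ε) ≤ deg P := le_liminf_of_le (by isBoundedDefault) h3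
    calc ENNReal.ofReal ((S : ℝ) / q) = ENNReal.ofReal ((S : ℝ) / q - ε + ε) := by
          rw [sub_add_cancel]
      _ ≤ ENNReal.ofReal ((S : ℝ) / q - ε) + ENNReal.ofReal ε := ENNReal.ofReal_add_le
      _ ≤ deg P + ε := by
          rw [ENNReal.ofReal_coe_nnreal]
          exact add_le_add_left h4 _
  calc (S : ℝ≥0∞) = (q : ℕ) * ENNReal.ofReal ((S : ℝ) / q) := by
        rw [ENNReal.ofReal_div_of_pos hq0, ENNReal.ofReal_natCast, ENNReal.ofReal_natCast]
        rw [ENNReal.mul_div_cancel (by simp; omega) (by simp)]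
    _ ≤ (q : ℕ) * deg P := mul_le_mul_right h2 _

theorem lam_sum_le {n : ℕ} {P : Ideal (Poly N)} (hP : P.IsPrime) {l : Poly N}
    (hl : l.IsHomogeneous 1) {v : Fin n → Fin (N + 1) → ℂ} (hv : Function.Injective v)
    {κ s : ℕ} (hκ : 1 ≤ κ) {F : Poly N} (hF : F.IsHomogeneous κ) (hFP : F ∉ P)
    (hFv : ∀ i, F ∈ P ⊔ vecIdeal (v i) ^ s ⊔ Ideal.span {l - 1}) (t : ℕ) (ht : 1 ≤ t) :
    ((∑ i, lam P l (v i) (s * t) : ℕ) : ℝ≥0∞) ≤ (κ * t : ℕ) * deg P := by
  have hFt : (F ^ t).IsHomogeneous (κ * t) := hF.pow t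
  have hFtP : F ^ t ∉ P := fun h => hFP (hP.mem_of_pow_mem t h)
  set K : Fin n → Ideal (Poly N) := fun i => P ⊔ vecIdeal (v i) ^ (s * t) ⊔ Ideal.span {l - 1}
    with hK
  have hMK : ∀ i, vecIdeal (v i) ^ (s * t) ≤ K i := fun i => le_sup_right.trans le_sup_left
  have hFK : ∀ i, F ^ t ∈ K i := by
    intro i
    have h1 : F ∈ (P ⊔ Ideal.span {l - 1}) ⊔ vecIdeal (v i) ^ s := by
      rw [sup_right_comm]; exact hFv i
    have h2 := count_pow_mem h1 t
    rw [sup_right_comm] at h2
    exact h2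
  obtain ⟨j0, hj0⟩ := sum_finrank_le_hilb (J := P ⊔ Ideal.span {F ^ t}) (K := K) hl
    (fun i => le_sup_right (a := P ⊔ vecIdeal (v i) ^ (s * t))
      (Ideal.subset_span (Set.mem_singleton _)))
    (fun i => sup_le (le_sup_left.trans le_sup_left)
      ((Ideal.span_singleton_le_iff_mem _).2 (hFK i)))
    (fun i => finite_quot (hMK i))
    (fun i j hij => isCoprime_of_ne (fun h => hij (hv h)) (hMK i) (hMK j))
  refine count_deg (j0 := j0) (Nat.mul_pos hκ ht) (fun r => ?_) (hilb_mono hP hF hκ hFP)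
  induction r with
  | zero => simp
  | succ r ih =>
    have h1 := hilb_mul_le hP hFt hFtP (j0 + κ * t * r)
    have h2 := hj0 (j0 + κ * t * r + κ * t) (by rw [add_assoc]; exact Nat.le_add_right _ _)
    have h3 : j0 + κ * t * (r + 1) = j0 + κ * t * r + κ * t := by ring
    rw [h3, Nat.succ_mul]
    exact (Nat.add_le_add ih h2).trans h1

end Pool.Agent.Lib.MP_ed661f_ag.H
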