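import Pool.Agent.Lib.MP_ed661f_ag.H.Growth

/-! Q2d: degrees from bounds for the Hilbert function. -/

set_option autoImplicit false

open MvPolynomial Filter Topology
open scoped ENNReal

namespace Pool.Agent.Lib.MP_ed661f_ag.H

variable {N : ℕ}

lemma liminf_le_ofReal {u : ℕ → ℝ≥0∞} {g : ℕ → ℝ} {c : ℝ}
    (h : ∀ᶠ k in atTop, u k ≤ ENNReal.ofReal (g k)) (hg : Tendsto g atTop (𝓝 c)) :
    liminf u atTop ≤ ENNReal.ofReal c := by
  have h1 : Tendsto (fun k => ENNReal.ofReal (g k)) atTop (𝓝 (ENNReal.ofReal c)) :=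
    ENNReal.tendsto_ofReal hg
  rw [← h1.liminf_eq]
  exact liminf_le_liminf h

lemma ofReal_le_liminf {u : ℕ → ℝ≥0∞} {g : ℕ → ℝ} {c : ℝ}
    (h : ∀ᶠ k in atTop, ENNReal.ofReal (g k) ≤ u k) (hg : Tendsto g atTop (𝓝 c)) :
    ENNReal.ofReal c ≤ liminf u atTop := by
  have h1 : Tendsto (fun k => ENNReal.ofReal (g k)) atTop (𝓝 (ENNReal.ofReal c)) :=
    ENNReal.tendsto_ofReal hg
  rw [← h1.liminf_eq]
  exact liminf_le_liminf h

lemma cast_div_eq {m k : ℕ} (hk : 1 ≤ k) :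
    (m : ℝ≥0∞) / (k : ℝ≥0∞) = ENNReal.ofReal ((m : ℝ) / k) := by
  have hk' : (0 : ℝ) < k := by exact_mod_cast hk
  rw [ENNReal.ofReal_div_of_pos hk', ENNReal.ofReal_natCast, ENNReal.ofReal_natCast]

lemma tendsto_add_div (c : ℝ) : Tendsto (fun k : ℕ => ((k : ℝ) + c) / k) atTop (𝓝 1) := by
  have h1 : Tendsto (fun k : ℕ => 1 + c / (k : ℝ)) atTop (𝓝 (1 + 0)) :=
    tendsto_const_nhds.add (tendsto_const_div_atTop_nhds_zero_nat c)
  rw [add_zero] at h1
  refine h1.congr' ?_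
  filter_upwards [eventually_ge_atTop 1] with k hk
  have hk' : (k : ℝ) ≠ 0 := by positivity
  field_simp

lemma tendsto_two (c c' : ℝ) :
    Tendsto (fun k : ℕ => ((k : ℝ) + c) * (k + c') / (k : ℝ) ^ 2) atTop (𝓝 1) := by
  have h1 := (tendsto_add_div c).mul (tendsto_add_div c')
  rw [mul_one] at h1
  refine h1.congr fun k => ?_
  rw [div_mul_div_comm, sq]

theorem surfDeg_le {I : Ideal (Poly N)} {d b : ℕ}
    (h : ∀ k, hilb I k ≤ ∑ l : Fin d, Module.finrank ℂ (homogeneousSubmodule (Fin 3) ℂ (k + b))) :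
    surfDeg I ≤ d := by
  have h1 : ∀ k, 2 * hilb I k ≤ d * ((k + b + 1) * (k + b + 2)) := by
    intro k
    have h2 := h k
    rw [Finset.sum_const, Finset.card_univ, Fintype.card_fin, smul_eq_mul] at h2
    have h3 := finrank_forms_three (k + b)
    calc 2 * hilb I k ≤ 2 * (d * Module.finrank ℂ (homogeneousSubmodule (Fin 3) ℂ (k + b))) :=
          Nat.mul_le_mul_left 2 h2
      _ = d * (2 * Module.finrank ℂ (homogeneousSubmodule (Fin 3) ℂ (k + b))) := by ring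
      _ = _ := by rw [h3]
  have h2 : Tendsto (fun k : ℕ => (d : ℝ) * (((k : ℝ) + (b + 1)) * (k + (b + 2)) / (k : ℝ) ^ 2))
      atTop (𝓝 ((d : ℝ) * 1)) := tendsto_const_nhds.mul (tendsto_two _ _)
  have h3 := liminf_le_ofReal (u := fun k : ℕ => 2 * (hilb I k : ℝ≥0∞) / (k : ℝ≥0∞) ^ 2) ?_ h2
  · rw [mul_one, ENNReal.ofReal_natCast] at h3
    exact h3
  · filter_upwards [eventually_ge_atTop 1] with k hk
    have e1 : 2 * (hilb I k : ℝ≥0∞) / (k : ℝ≥0∞) ^ 2 =
        ((2 * hilb I k : ℕ) : ℝ≥0∞) / ((k ^ 2 : ℕ) : ℝ≥0∞) := by push_cast; rfl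
    rw [e1, cast_div_eq (Nat.one_le_pow _ _ hk)]
    apply ENNReal.ofReal_le_ofReal
    have h4 : ((2 * hilb I k : ℕ) : ℝ) ≤ ((d * ((k + b + 1) * (k + b + 2)) : ℕ) : ℝ) := by
      exact_mod_cast h1 k
    have hk' : (0 : ℝ) < (k : ℝ) ^ 2 := by positivity
    have e2 : ((k ^ 2 : ℕ) : ℝ) = (k : ℝ) ^ 2 := by push_cast; rfl
    rw [e2, ← mul_div_assoc]
    apply div_le_div_of_nonneg_right _ hk'.le
    refine h4.trans (le_of_eq ?_)
    push_cast; ring

theorem deg_ne {P : Ideal (Poly N)} {d b : ℕ}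
    (h : ∀ k, hilb P k ≤ ∑ l : Fin d, Module.finrank ℂ (homogeneousSubmodule (Fin 2) ℂ (k + b)))
    (h' : ∀ k, Module.finrank ℂ (homogeneousSubmodule (Fin 2) ℂ k) ≤ hilb P k) :
    deg P ≠ 0 ∧ deg P ≠ ⊤ := by
  constructor
  · have h2 := ofReal_le_liminf (u := fun k : ℕ => (hilb P k : ℝ≥0∞) / k) (c := 1) ?_
      (tendsto_add_div 1)
    · have h3 : (0 : ℝ≥0∞) < deg P := by
        refine lt_of_lt_of_le ?_ h2
        simp
      exact h3.ne'
    · filter_upwards [eventually_ge_atTop 1] with k hk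
      rw [cast_div_eq hk]
      apply ENNReal.ofReal_le_ofReal
      have h4 := h' k
      rw [finrank_forms_two] at h4
      apply div_le_div_of_nonneg_right _ (Nat.cast_nonneg k)
      exact_mod_cast h4
  · have h2 : Tendsto (fun k : ℕ => (d : ℝ) * (((k : ℝ) + (b + 1)) / (k : ℝ)))
      atTop (𝓝 ((d : ℝ) * 1)) := tendsto_const_nhds.mul (tendsto_add_div _)
    have h3 := liminf_le_ofReal (u := fun k : ℕ => (hilb P k : ℝ≥0∞) / k) ?_ h2
    · exact (lt_of_le_of_lt h3 ENNReal.ofReal_lt_top).ne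
    · filter_upwards [eventually_ge_atTop 1] with k hk
      rw [cast_div_eq hk]
      apply ENNReal.ofReal_le_ofReal
      have h4 := h k
      rw [Finset.sum_const, Finset.card_univ, Fintype.card_fin, smul_eq_mul,
        finrank_forms_two] at h4
      rw [← mul_div_assoc]
      apply div_le_div_of_nonneg_right _ (Nat.cast_nonneg k)
      have h5 : (hilb P k : ℝ) ≤ ((d * (k + b + 1) : ℕ) : ℝ) := by exact_mod_cast h4
      refine h5.trans (le_of_eq ?_)
      push_cast; ring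

end Pool.Agent.Lib.MP_ed661f_ag.H
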