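import Mathlib

/-!
Orders of the elements of a finite dimensional space of power series.
-/

set_option autoImplicit false

namespace Pool.Agent.Lib.MP_ed661f_ag.H

theorem exists_echelon_aux : ∀ (M : ℕ) (V : Submodule ℂ (PowerSeries ℂ)),
    FiniteDimensional ℂ V → Module.finrank ℂ V = M → ∃ S : Finset ℕ, S.card = M ∧ ∀ α ∈ S,
      ∃ v ∈ V, PowerSeries.coeff α v = 1 ∧ ∀ β < α, PowerSeries.coeff β v = 0 := by
  intro M
  induction M with
  | zero =>
    intro V _ _
    exact ⟨∅, rfl, by simp⟩
  | succ M ih =>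
    intro V hfd hV
    have hex : ∃ k : ℕ, ∃ v ∈ V, PowerSeries.coeff k v ≠ 0 := by
      by_contra hcon
      push Not at hcon
      have hbot : V = ⊥ := by
        rw [eq_bot_iff]
        intro v hv
        rw [Submodule.mem_bot]
        ext k
        rw [hcon k v hv, map_zero]
      rw [hbot, finrank_bot] at hV
      omega
    classical
    obtain ⟨v, hv, hα⟩ := Nat.find_spec hex
    set α := Nat.find hex with hαdef
    have hmin : ∀ β < α, ∀ u ∈ V, PowerSeries.coeff β u = 0 := by
      intro β hβ u hu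
      by_contra h
      exact Nat.find_min hex hβ ⟨u, hu, h⟩
    set f : Module.Dual ℂ V := (PowerSeries.coeff α).comp V.subtype with hf
    have hf0 : f ≠ 0 := by
      intro h
      have := LinearMap.congr_fun h ⟨v, hv⟩
      exact hα this
    have hk := Module.Dual.finrank_ker_add_one_of_ne_zero hf0
    obtain ⟨S, hS, hS'⟩ := ih ((LinearMap.ker f).map V.subtype) inferInstance (by
      rw [Submodule.finrank_map_subtype_eq]
      omega)
    have hgt : ∀ β ∈ S, α < β := by
      intro β hβ
      obtain ⟨u, hu, h1, -⟩ := hS' β hβ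
      rw [Submodule.mem_map] at hu
      obtain ⟨u', hu', rfl⟩ := hu
      rcases lt_trichotomy α β with h | h | h
      · exact h
      · exfalso
        have : PowerSeries.coeff α (V.subtype u') = 0 := hu'
        rw [h, h1] at this
        exact one_ne_zero this
      · exfalso
        have := hmin β h _ u'.2
        rw [Submodule.subtype_apply, this] at h1
        exact zero_ne_one h1
    refine ⟨insert α S, ?_, ?_⟩
    · rw [Finset.card_insert_of_notMem (fun h => lt_irrefl _ (hgt α h)), hS]
    · intro β hβ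
      rw [Finset.mem_insert] at hβ
      rcases hβ with rfl | hβ
      · refine ⟨(PowerSeries.coeff α v)⁻¹ • v, V.smul_mem _ hv, ?_, ?_⟩
        · rw [map_smul, smul_eq_mul, inv_mul_cancel₀ hα]
        · intro β hβ
          rw [map_smul, hmin β hβ v hv, smul_zero]
      · obtain ⟨u, hu, h1, h2⟩ := hS' β hβ
        rw [Submodule.mem_map] at hu
        obtain ⟨u', hu', rfl⟩ := hu
        exact ⟨_, u'.2, h1, h2⟩

theorem exists_echelon {M : ℕ} (w : Fin M → PowerSeries ℂ) (hw : LinearIndependent ℂ w) :
    ∃ S : Finset ℕ, S.card = M ∧ ∀ α ∈ S, ∃ c : Fin M → ℂ,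
      PowerSeries.coeff α (∑ i, c i • w i) = 1 ∧
      ∀ β < α, PowerSeries.coeff β (∑ i, c i • w i) = 0 := by
  have h1 : Module.finrank ℂ (Submodule.span ℂ (Set.range w)) = M := by
    rw [finrank_span_eq_card hw, Fintype.card_fin]
  obtain ⟨S, hS, hS'⟩ := exists_echelon_aux M (Submodule.span ℂ (Set.range w))
    (FiniteDimensional.span_of_finite ℂ (Set.finite_range w)) h1
  refine ⟨S, hS, fun α hα => ?_⟩
  obtain ⟨v, hv, h2, h3⟩ := hS' α hα
  rw [Submodule.mem_span_range_iff_exists_fun] at hv
  obtain ⟨c, rfl⟩ := hv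
  exact ⟨c, h2, h3⟩

end Pool.Agent.Lib.MP_ed661f_ag.H
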