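import Pool.Agent.Lib.MP_ed661f_ag.H.Slice

/-!
Either some form with all jets outside `P`, or the rings of jets of `P` have bounded dimension.
-/

set_option autoImplicit false

open MvPolynomial Filter
open scoped ENNReal

namespace Pool.Agent.Lib.MP_ed661f_ag.H

variable {N : ℕ}

/-- either some form of degree `κ` with all jets of order `s` outside `P`, or the rings of jets of
`P` have bounded dimension -/
theorem exists_form_or_bounded {n : ℕ} {I P : Ideal (Poly N)} (hIP : I ≤ P) {l : Poly N}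
    {v : Fin n → Fin (N + 1) → ℂ} {κ s : ℕ} (h : JetSep I l v κ s) :
    (∃ F : Poly N, F.IsHomogeneous κ ∧ F ∉ P ∧
      ∀ i, F ∈ P ⊔ vecIdeal (v i) ^ s ⊔ Ideal.span {l - 1}) ∨
    ∀ i, ∃ c, ∀ t, lam P l (v i) t ≤ c := by
  classical
  by_cases hex : ∃ F : Poly N, F.IsHomogeneous κ ∧ F ∉ P ∧
      ∀ i, F ∈ P ⊔ vecIdeal (v i) ^ s ⊔ Ideal.span {l - 1}
  · exact Or.inl hex
  right
  push Not at hex
  intro i
  set Q : Ideal (Poly N) := P ⊔ Ideal.span {l - 1} with hQ
  set M : Ideal (Poly N) := vecIdeal (v i) with hM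
  have hPQ : P ≤ Q := le_sup_left
  have hlQ : Ideal.span {l - 1} ≤ Q := le_sup_right
  have hmono : ∀ j, I ⊔ vecIdeal (v j) ^ (s + 1) ⊔ Ideal.span {l - 1} ≤
      P ⊔ vecIdeal (v j) ^ s ⊔ Ideal.span {l - 1} := fun j =>
    sup_le_sup_right (sup_le_sup hIP (Ideal.pow_le_pow_right (Nat.le_succ s))) _
  -- the basic inclusion
  have h1 : M ^ s ≤ Q ⊔ M ^ (s + 1) := by
    intro G hG
    obtain ⟨F, hF, hFG⟩ := h fun j => if j = i then G else 0
    have hFP : F ∈ P := by
      by_contra hFP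
      obtain ⟨j, hj⟩ := hex F hF hFP
      apply hj
      have h2 := hmono j (hFG j)
      by_cases hji : j = i
      · subst hji
        rw [if_pos rfl] at h2
        have h3 : G ∈ P ⊔ vecIdeal (v j) ^ s ⊔ Ideal.span {l - 1} :=
          Ideal.mem_sup_left (Ideal.mem_sup_right hG)
        have h4 := Ideal.add_mem _ h2 h3
        rwa [sub_add_cancel] at h4
      · rw [if_neg hji, sub_zero] at h2
        exact h2
    have h2 := hFG i
    rw [if_pos rfl] at h2
    have h3 : I ⊔ vecIdeal (v i) ^ (s + 1) ⊔ Ideal.span {l - 1} ≤ Q ⊔ M ^ (s + 1) :=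
      sup_le (sup_le (hIP.trans (hPQ.trans le_sup_left)) le_sup_right) (hlQ.trans le_sup_left)
    have h4 : F ∈ Q ⊔ M ^ (s + 1) := Ideal.mem_sup_left (hPQ hFP)
    have h5 := Ideal.sub_mem _ h4 (h3 h2)
    rwa [sub_sub_cancel] at h5
  -- iterate
  have h2 : ∀ k, M ^ s ≤ Q ⊔ M ^ (s + k) := by
    intro k
    induction k with
    | zero => exact le_sup_right
    | succ k ih =>
      refine ih.trans (sup_le le_sup_left ?_)
      calc M ^ (s + k) = M ^ k * M ^ s := by rw [← pow_add, add_comm s k]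
        _ ≤ M ^ k * (Q ⊔ M ^ (s + 1)) := Ideal.mul_mono_right h1
        _ = M ^ k * Q ⊔ M ^ k * M ^ (s + 1) := Ideal.mul_sup _ _ _
        _ ≤ Q ⊔ M ^ (s + (k + 1)) := by
          refine sup_le_sup Ideal.mul_le_right ?_
          rw [← pow_add]
          exact le_of_eq (by congr 1; ring)
  have h3 : ∀ t, s ≤ t → P ⊔ M ^ t ⊔ Ideal.span {l - 1} = P ⊔ M ^ s ⊔ Ideal.span {l - 1} := by
    intro t ht
    apply le_antisymm
    · exact sup_le_sup_right (sup_le_sup_left (Ideal.pow_le_pow_right ht) _) _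
    · obtain ⟨k, rfl⟩ := Nat.exists_eq_add_of_le ht
      have h4 : Q ⊔ M ^ (s + k) = P ⊔ M ^ (s + k) ⊔ Ideal.span {l - 1} := by
        rw [hQ, sup_right_comm]
      rw [← h4]
      exact sup_le (sup_le (hPQ.trans le_sup_left) (h2 k)) (hlQ.trans le_sup_left)
  refine ⟨∑ t ∈ Finset.range (s + 1), lam P l (v i) t, fun t => ?_⟩
  rcases le_or_gt t s with hts | hts
  · exact Finset.single_le_sum (f := fun t => lam P l (v i) t) (fun _ _ => Nat.zero_le _)
      (Finset.mem_range.2 (by omega))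
  · have h4 : lam P l (v i) t = lam P l (v i) s := by
      unfold lam
      rw [h3 t hts.le]
    rw [h4]
    exact Finset.single_le_sum (f := fun t => lam P l (v i) t) (fun _ _ => Nat.zero_le _)
      (Finset.mem_range.2 (by omega))

end Pool.Agent.Lib.MP_ed661f_ag.H
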