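import Pool.Agent.Lib.MP_ed661f_ag.H.Primitive

/-!
Formal charts of finite extensions of the polynomial ring in two variables.
-/

set_option autoImplicit false

open MvPolynomial

namespace Pool.Agent.Lib.MP_ed661f_ag.H

/-- a power series without constant term is in the ideal of the variables -/
theorem mem_span_range_X {f : MvPowerSeries (Fin 2) ℂ}
    (hf : MvPowerSeries.constantCoeff f = 0) :
    f ∈ Ideal.span (Set.range (MvPowerSeries.X : Fin 2 → MvPowerSeries (Fin 2) ℂ)) := by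
  classical
  let g : MvPowerSeries (Fin 2) ℂ := fun e => if e 0 = 0 then MvPowerSeries.coeff e f else 0
  have hg : ∀ e, MvPowerSeries.coeff e g = if e 0 = 0 then MvPowerSeries.coeff e f else 0 :=
    fun e => rfl
  have h1 : MvPowerSeries.X 0 ∣ f - g := by
    rw [MvPowerSeries.X_dvd_iff]
    intro m hm
    rw [map_sub, hg, if_pos hm, sub_self]
  have h2 : MvPowerSeries.X 1 ∣ g := by
    rw [MvPowerSeries.X_dvd_iff]
    intro m hm
    rw [hg]
    split_ifs with h
    · have : m = 0 := by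
        ext i
        fin_cases i
        · exact h
        · exact hm
      rw [this, MvPowerSeries.coeff_zero_eq_constantCoeff_apply, hf]
    · rfl
  have h3 : f = (f - g) + g := by ring
  rw [h3]
  refine add_mem ?_ ?_
  · exact Ideal.mem_of_dvd _ h1 (Ideal.subset_span ⟨0, rfl⟩)
  · exact Ideal.mem_of_dvd _ h2 (Ideal.subset_span ⟨1, rfl⟩)

theorem constantCoeff_of_mem_span {f : MvPowerSeries (Fin 2) ℂ}
    (hf : f ∈ Ideal.span (Set.range (MvPowerSeries.X : Fin 2 → MvPowerSeries (Fin 2) ℂ))) :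
    MvPowerSeries.constantCoeff f = 0 := by
  have h1 : Ideal.span (Set.range (MvPowerSeries.X : Fin 2 → MvPowerSeries (Fin 2) ℂ)) ≤
      RingHom.ker (MvPowerSeries.constantCoeff (σ := Fin 2) (R := ℂ)) := by
    rw [Ideal.span_le]
    rintro _ ⟨i, rfl⟩
    simp [RingHom.mem_ker]
  exact h1 hf

/-- Hensel's lemma in two variables, for monic polynomials -/
theorem hensel_two (F : Polynomial (MvPowerSeries (Fin 2) ℂ)) (hF : F.Monic) (a : ℂ)
    (h0 : (F.map (MvPowerSeries.constantCoeff (σ := Fin 2) (R := ℂ))).eval a = 0)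
    (h1 : ((Polynomial.derivative F).map
      (MvPowerSeries.constantCoeff (σ := Fin 2) (R := ℂ))).eval a ≠ 0) :
    ∃ t : MvPowerSeries (Fin 2) ℂ, F.eval t = 0 ∧ MvPowerSeries.constantCoeff t = a := by
  have hH : HenselianRing (MvPowerSeries (Fin 2) ℂ)
    (Ideal.span (Set.range (MvPowerSeries.X : Fin 2 → MvPowerSeries (Fin 2) ℂ))) := inferInstance
  have hc : ∀ G : Polynomial (MvPowerSeries (Fin 2) ℂ),
      MvPowerSeries.constantCoeff (G.eval (MvPowerSeries.C a)) =
        (G.map (MvPowerSeries.constantCoeff (σ := Fin 2) (R := ℂ))).eval a := by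
    intro G
    rw [Polynomial.eval_map, ← Polynomial.eval₂_at_apply]
    simp
  obtain ⟨t, ht, hta⟩ := hH.is_henselian F hF (MvPowerSeries.C a)
    (mem_span_range_X (by rw [hc, h0])) (by
      apply IsUnit.map
      rw [MvPowerSeries.isUnit_iff_constantCoeff, hc]
      exact isUnit_iff_ne_zero.2 h1)
  refine ⟨t, ht, ?_⟩
  have := constantCoeff_of_mem_span hta
  rw [map_sub, sub_eq_zero] at this
  rw [this, MvPowerSeries.constantCoeff_C]

/-- a point where a given element does not vanish -/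
theorem exists_point {B : Type} [CommRing B] [IsDomain B] [Algebra ℂ B] [Algebra.FiniteType ℂ B]
    {x : B} (hx : x ≠ 0) : ∃ φ : B →ₐ[ℂ] ℂ, φ x ≠ 0 := by
  have hJ : IsJacobsonRing B := isJacobsonRing_of_finiteType (A := ℂ)
  have h1 : (⊥ : Ideal B).jacobson = ⊥ :=
    hJ.out ((Ideal.isPrime_bot (α := B)).isRadical)
  have h2 : x ∉ (⊥ : Ideal B).jacobson := by
    rw [h1]
    simpa using hx
  rw [Ideal.jacobson, Ideal.mem_sInf] at h2
  push Not at h2
  obtain ⟨m, ⟨_, hm⟩, hxm⟩ := h2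
  have hmax : m.IsMaximal := hm
  let _ : Field (B ⧸ m) := Ideal.Quotient.field m
  have hft : Algebra.FiniteType ℂ (B ⧸ m) :=
    Algebra.FiniteType.of_surjective (Ideal.Quotient.mkₐ ℂ m) (Ideal.Quotient.mkₐ_surjective ℂ m)
  have hfin : Module.Finite ℂ (B ⧸ m) := finite_of_finite_type_of_isJacobsonRing ℂ (B ⧸ m)
  have hbij : Function.Bijective (algebraMap ℂ (B ⧸ m)) :=
    IsAlgClosed.algebraMap_bijective_of_isIntegral
  let e : ℂ ≃ₐ[ℂ] (B ⧸ m) := AlgEquiv.ofBijective (Algebra.ofId ℂ (B ⧸ m)) hbij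
  refine ⟨e.symm.toAlgHom.comp (Ideal.Quotient.mkₐ ℂ m), ?_⟩
  intro h
  apply hxm
  have h3 : e.symm (Ideal.Quotient.mk m x) = 0 := h
  have h4 : Ideal.Quotient.mk m x = 0 := by simpa using h3
  exact Ideal.Quotient.eq_zero_iff_mem.1 h4

/-- expansion of polynomials at the point `p` -/
noncomputable def expand (p : Fin 2 → ℂ) : MvPolynomial (Fin 2) ℂ →ₐ[ℂ] MvPowerSeries (Fin 2) ℂ :=
  aeval fun i => MvPowerSeries.C (p i) + MvPowerSeries.X i

theorem expand_X (p : Fin 2 → ℂ) (i : Fin 2) :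
    expand p (X i) = MvPowerSeries.C (p i) + MvPowerSeries.X i := by
  simp [expand]

theorem expand_injective (p : Fin 2 → ℂ) : Function.Injective (expand p) := by
  let s : MvPolynomial (Fin 2) ℂ →ₐ[ℂ] MvPolynomial (Fin 2) ℂ := aeval fun i => C (p i) + X i
  let s' : MvPolynomial (Fin 2) ℂ →ₐ[ℂ] MvPolynomial (Fin 2) ℂ := aeval fun i => X i - C (p i)
  have hs : ∀ f, s' (s f) = f := by
    intro f
    have : s'.comp s = AlgHom.id ℂ _ := by
      apply MvPolynomial.algHom_ext
      intro i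
      simp [s, s']
    exact congrArg (fun g => g f) this
  have h1 : ∀ f, expand p f = ((s f : MvPolynomial (Fin 2) ℂ) : MvPowerSeries (Fin 2) ℂ) := by
    intro f
    have : expand p = (MvPolynomial.coeToMvPowerSeries.algHom ℂ).comp s := by
      apply MvPolynomial.algHom_ext
      intro i
      simp [s, expand, MvPolynomial.coeToMvPowerSeries.algHom_apply]
    rw [this]
    simp [MvPolynomial.coeToMvPowerSeries.algHom_apply]
  intro f g hfg
  rw [h1, h1] at hfg
  have := MvPolynomial.coe_injective _ _ hfg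
  rw [← hs f, ← hs g, this]

theorem constantCoeff_expand (p : Fin 2 → ℂ) (f : MvPolynomial (Fin 2) ℂ) :
    MvPowerSeries.constantCoeff (expand p f) = eval p f := by
  induction f using MvPolynomial.induction_on with
  | C a =>
    have : expand p (C a) = MvPowerSeries.C a := by
      rw [← MvPolynomial.algebraMap_eq, AlgHom.commutes]; rfl
    rw [this]; simp
  | add f g hf hg => rw [map_add, map_add, hf, hg, map_add]
  | mul_X f i hf => rw [map_mul, map_mul, hf, map_mul, expand_X]; simp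

theorem exists_formal_chart {B : Type} [CommRing B] [IsDomain B] [Algebra ℂ B]
    (ρ : MvPolynomial (Fin 2) ℂ →ₐ[ℂ] B) (hinj : Function.Injective ρ)
    (hfin : ρ.toRingHom.Finite) :
    ∃ (h : B) (p : Fin 2 → ℂ) (Θ : B →ₐ[ℂ] MvPowerSeries (Fin 2) ℂ), Function.Injective Θ ∧
      (∀ i, Θ (ρ (X i)) = MvPowerSeries.C (p i) + MvPowerSeries.X i) ∧
      MvPowerSeries.constantCoeff (Θ h) ≠ 0 ∧
      ∀ φ : B →ₐ[ℂ] ℂ, φ h ≠ 0 → RingHom.ker φ ≤
        Ideal.span {ρ (X 0 - C (φ (ρ (X 0)))), ρ (X 1 - C (φ (ρ (X 1))))} ⊔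
          RingHom.ker φ ^ 2 := by
  classical
  obtain ⟨θ, q, Φ, hq, hΦm, hΦ0, hΦ1, hP, hdvd⟩ := exists_primitive_monic ρ hinj hfin
  have hft : Algebra.FiniteType ℂ B := by
    let _ : Algebra (MvPolynomial (Fin 2) ℂ) B := ρ.toRingHom.toAlgebra
    have : Module.Finite (MvPolynomial (Fin 2) ℂ) B := hfin
    have : IsScalarTower ℂ (MvPolynomial (Fin 2) ℂ) B :=
      IsScalarTower.of_algebraMap_eq' (by
        ext z
        exact (ρ.commutes z).symm)
    have h2 : Algebra.FiniteType (MvPolynomial (Fin 2) ℂ) B := inferInstance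
    exact Algebra.FiniteType.trans (S := MvPolynomial (Fin 2) ℂ) inferInstance h2
  have hh0 : ρ q * (Polynomial.derivative Φ).eval₂ ρ.toRingHom θ ≠ 0 :=
    mul_ne_zero (fun h => hq (hinj (by rw [h, map_zero]))) hΦ1
  obtain ⟨φ0, hφ0⟩ := exists_point hh0
  rw [map_mul] at hφ0
  set p : Fin 2 → ℂ := fun i => φ0 (ρ (X i)) with hp
  set ι := expand p with hι
  -- constant coefficients of expansions
  have hcc : (MvPowerSeries.constantCoeff (σ := Fin 2) (R := ℂ)).comp ι.toRingHom =
      φ0.toRingHom.comp ρ.toRingHom := by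
    apply MvPolynomial.ringHom_ext
    · intro z
      have h1 : ι (C z) = MvPowerSeries.C z := by
        rw [← MvPolynomial.algebraMap_eq, AlgHom.commutes]; rfl
      have h2 : φ0 (ρ (C z)) = z := by
        rw [← MvPolynomial.algebraMap_eq, AlgHom.commutes, AlgHom.commutes]; rfl
      change MvPowerSeries.constantCoeff (ι (C z)) = φ0 (ρ (C z))
      rw [h1, h2, MvPowerSeries.constantCoeff_C]
    · intro i
      change MvPowerSeries.constantCoeff (ι (X i)) = φ0 (ρ (X i))
      rw [hι, expand_X]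
      simp [hp]
  have hcc' : ∀ P : Polynomial (MvPolynomial (Fin 2) ℂ),
      ((P.map ι.toRingHom).map (MvPowerSeries.constantCoeff (σ := Fin 2) (R := ℂ))).eval (φ0 θ) =
        φ0 (P.eval₂ ρ.toRingHom θ) := by
    intro P
    rw [Polynomial.map_map, hcc, Polynomial.eval_map]
    exact (Polynomial.hom_eval₂ P ρ.toRingHom φ0.toRingHom θ).symm
  obtain ⟨t, ht0, htc⟩ := hensel_two (Φ.map ι.toRingHom) (hΦm.map _) (φ0 θ)
    (by rw [hcc', hΦ0, map_zero])
    (by
      rw [Polynomial.derivative_map, hcc']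
      exact right_ne_zero_of_mul hφ0)
  rw [Polynomial.eval_map] at ht0
  -- evaluation at `t` of polynomials vanishing at `θ`
  have hvan : ∀ P : Polynomial (MvPolynomial (Fin 2) ℂ), P.eval₂ ρ.toRingHom θ = 0 →
      P.eval₂ ι.toRingHom t = 0 := by
    intro P hP0
    obtain ⟨Q, rfl⟩ := hdvd P hP0
    rw [Polynomial.eval₂_mul, ht0, zero_mul]
  have hιq : MvPowerSeries.constantCoeff (ι q) = φ0 (ρ q) := congrArg (fun g => g q) hcc
  have hφq : φ0 (ρ q) ≠ 0 := left_ne_zero_of_mul hφ0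
  have hunit : IsUnit (ι q) := by
    rw [MvPowerSeries.isUnit_iff_constantCoeff, hιq]
    exact isUnit_iff_ne_zero.2 hφq
  obtain ⟨u, hu⟩ := hunit.exists_left_inv
  have hιq0 : ι q ≠ 0 := hunit.ne_zero
  choose P hP using hP
  -- the key identity
  have key : ∀ (b : B) (Q : Polynomial (MvPolynomial (Fin 2) ℂ)) (r : MvPolynomial (Fin 2) ℂ),
      ρ r * b = Q.eval₂ ρ.toRingHom θ →
      ι r * (u * (P b).eval₂ ι.toRingHom t) = Q.eval₂ ι.toRingHom t := by
    intro b Q r hQ
    have h1 := hvan (Polynomial.C q * Q - Polynomial.C r * P b) (by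
      rw [Polynomial.eval₂_sub, Polynomial.eval₂_mul, Polynomial.eval₂_mul, Polynomial.eval₂_C,
        Polynomial.eval₂_C, ← hQ, ← hP b]
      change ρ q * (ρ r * b) - ρ r * (ρ q * b) = 0
      ring)
    rw [Polynomial.eval₂_sub, Polynomial.eval₂_mul, Polynomial.eval₂_mul, Polynomial.eval₂_C,
        Polynomial.eval₂_C, sub_eq_zero] at h1
    change ι q * _ = ι r * _ at h1
    have h2 : ι r * (u * (P b).eval₂ ι.toRingHom t) = u * (ι r * (P b).eval₂ ι.toRingHom t) := by
      ring
    rw [h2, ← h1, ← mul_assoc, hu, one_mul]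
  have key1 : ∀ (b : B) (Q : Polynomial (MvPolynomial (Fin 2) ℂ)),
      b = Q.eval₂ ρ.toRingHom θ →
      u * (P b).eval₂ ι.toRingHom t = Q.eval₂ ι.toRingHom t := by
    intro b Q hQ
    have := key b Q 1 (by rw [map_one, one_mul]; exact hQ)
    rwa [map_one, one_mul] at this
  have hmulq : ∀ b : B, ι q * (u * (P b).eval₂ ι.toRingHom t) = (P b).eval₂ ι.toRingHom t :=
    fun b => key b (P b) q (hP b)
  let Θ : B →ₐ[ℂ] MvPowerSeries (Fin 2) ℂ :=
    { toFun := fun b => u * (P b).eval₂ ι.toRingHom t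
      map_one' := by
        rw [key1 1 1 (by rw [Polynomial.eval₂_one]), Polynomial.eval₂_one]
      map_mul' := by
        intro b c
        have h1 := key (b * c) (P b * P c) (q * q) (by
          rw [Polynomial.eval₂_mul, ← hP b, ← hP c, map_mul]; ring)
        rw [Polynomial.eval₂_mul, ← hmulq b, ← hmulq c, map_mul] at h1
        have h2 : (ι q * ι q) * (u * (P (b * c)).eval₂ ι.toRingHom t) = (ι q * ι q) *
            ((u * (P b).eval₂ ι.toRingHom t) * (u * (P c).eval₂ ι.toRingHom t)) := by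
          rw [h1]; ring
        exact mul_left_cancel₀ (mul_ne_zero hιq0 hιq0) h2
      map_zero' := by
        rw [key1 0 0 (by rw [Polynomial.eval₂_zero]), Polynomial.eval₂_zero]
      map_add' := by
        intro b c
        have h1 := key (b + c) (P b + P c) q (by
          rw [Polynomial.eval₂_add, ← hP b, ← hP c]; ring)
        rw [Polynomial.eval₂_add, ← hmulq b, ← hmulq c, ← mul_add] at h1
        exact mul_left_cancel₀ hιq0 h1
      commutes' := by
        intro z
        rw [key1 (algebraMap ℂ B z) (Polynomial.C (C z)) (by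
          rw [Polynomial.eval₂_C]
          change _ = ρ (C z)
          rw [← MvPolynomial.algebraMap_eq, AlgHom.commutes])]
        rw [Polynomial.eval₂_C]
        change ι (C z) = _
        rw [← MvPolynomial.algebraMap_eq, AlgHom.commutes] }
  have hΘ : ∀ b, Θ b = u * (P b).eval₂ ι.toRingHom t := fun b => rfl
  have hΘρ : ∀ r, Θ (ρ r) = ι r := by
    intro r
    rw [hΘ, key1 (ρ r) (Polynomial.C r) (by rw [Polynomial.eval₂_C]; rfl), Polynomial.eval₂_C]
    rfl
  have hΘP : ∀ Q : Polynomial (MvPolynomial (Fin 2) ℂ),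
      Θ (Q.eval₂ ρ.toRingHom θ) = Q.eval₂ ι.toRingHom t := by
    intro Q
    rw [hΘ, key1 _ Q rfl]
  refine ⟨ρ q * (Polynomial.derivative Φ).eval₂ ρ.toRingHom θ, p, Θ, ?_, ?_, ?_, ?_⟩
  · -- injectivity
    let _ : Algebra (MvPolynomial (Fin 2) ℂ) B := ρ.toRingHom.toAlgebra
    have : Module.Finite (MvPolynomial (Fin 2) ℂ) B := hfin
    have : Algebra.IsIntegral (MvPolynomial (Fin 2) ℂ) B := inferInstance
    have h1 : (RingHom.ker Θ).comap (algebraMap (MvPolynomial (Fin 2) ℂ) B) = ⊥ := by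
      rw [eq_bot_iff]
      intro r hr
      rw [Ideal.mem_comap, RingHom.mem_ker] at hr
      have hr' : Θ (ρ r) = 0 := hr
      rw [hΘρ] at hr'
      have := expand_injective p (hr'.trans (map_zero _).symm)
      rw [this]
      exact zero_mem _
    have h2 := Ideal.eq_bot_of_comap_eq_bot h1
    exact (RingHom.injective_iff_ker_eq_bot Θ.toRingHom).2 h2
  · intro i
    rw [hΘρ, hι, expand_X]
  · rw [map_mul, hΘρ, hΘP, map_mul, hιq]
    refine mul_ne_zero hφq ?_
    have h1 := hcc' (Polynomial.derivative Φ)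
    rw [Polynomial.map_map, Polynomial.eval_map, ← htc] at h1
    rw [Polynomial.hom_eval₂, h1]
    exact right_ne_zero_of_mul hφ0
  · intro φ hφ
    rw [map_mul] at hφ
    have hφq' : φ (ρ q) ≠ 0 := left_ne_zero_of_mul hφ
    have hφΦ : φ ((Polynomial.derivative Φ).eval₂ ρ.toRingHom θ) ≠ 0 := right_ne_zero_of_mul hφ
    set J : Ideal B := Ideal.span {ρ (X 0 - C (φ (ρ (X 0)))), ρ (X 1 - C (φ (ρ (X 1))))} ⊔
          RingHom.ker φ ^ 2 with hJ
    let π : B →ₐ[ℂ] B ⧸ J := Ideal.Quotient.mkₐ ℂ J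
    have hπ : ∀ b, π b = 0 ↔ b ∈ J := fun b => Ideal.Quotient.eq_zero_iff_mem
    have hψ : π.comp ρ = (Algebra.ofId ℂ (B ⧸ J)).comp (φ.comp ρ) := by
      apply MvPolynomial.algHom_ext
      intro i
      have hi : ρ (X i - C (φ (ρ (X i)))) ∈ J := by
        apply Ideal.mem_sup_left
        apply Ideal.subset_span
        fin_cases i
        · left; rfl
        · right; rfl
      have h1 := (hπ _).2 hi
      rw [map_sub, map_sub, sub_eq_zero] at h1
      have h2 : π (ρ (C (φ (ρ (X i))))) = algebraMap ℂ (B ⧸ J) (φ (ρ (X i))) := by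
        rw [← MvPolynomial.algebraMap_eq, AlgHom.commutes, AlgHom.commutes]
      rw [h2] at h1
      exact h1
    have hψ' : ∀ r, π (ρ r) = algebraMap ℂ (B ⧸ J) (φ (ρ r)) := fun r => congrArg (fun g => g r) hψ
    -- evaluation at `θ` and at its value
    have hev1 : ∀ Q : Polynomial (MvPolynomial (Fin 2) ℂ),
        (Q.map (π.comp ρ).toRingHom).eval (π θ) = π (Q.eval₂ ρ.toRingHom θ) := by
      intro Q
      rw [Polynomial.eval_map]
      exact (Polynomial.hom_eval₂ Q ρ.toRingHom π.toRingHom θ).symm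
    have hev2 : ∀ Q : Polynomial (MvPolynomial (Fin 2) ℂ),
        (Q.map (π.comp ρ).toRingHom).eval (algebraMap ℂ (B ⧸ J) (φ θ)) =
          algebraMap ℂ (B ⧸ J) (φ (Q.eval₂ ρ.toRingHom θ)) := by
      intro Q
      rw [Polynomial.eval_map, hψ]
      have h1 : φ (Q.eval₂ ρ.toRingHom θ) = Q.eval₂ (φ.toRingHom.comp ρ.toRingHom) (φ θ) :=
        Polynomial.hom_eval₂ Q ρ.toRingHom φ.toRingHom θ
      rw [h1, Polynomial.hom_eval₂]
      rfl
    set y : B ⧸ J := π θ - algebraMap ℂ (B ⧸ J) (φ θ) with hy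
    have hyπ : y = π (θ - algebraMap ℂ B (φ θ)) := by
      rw [map_sub, AlgHom.commutes]
    have hy2 : y ^ 2 = 0 := by
      rw [hyπ, ← map_pow, hπ]
      apply Ideal.mem_sup_right
      apply Ideal.pow_mem_pow
      rw [RingHom.mem_ker, map_sub, AlgHom.commutes]
      simp
    have hπθ : π θ = algebraMap ℂ (B ⧸ J) (φ θ) + y := by rw [hy]; ring
    have hy0 : y = 0 := by
      have h1 := Polynomial.eval_add_of_sq_eq_zero (Φ.map (π.comp ρ).toRingHom)
        (algebraMap ℂ (B ⧸ J) (φ θ)) y hy2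
      rw [← hπθ, hev1, hev2, hΦ0, map_zero, map_zero, map_zero, zero_add,
        Polynomial.derivative_map, hev2] at h1
      have h2 : IsUnit (algebraMap ℂ (B ⧸ J)
          (φ ((Polynomial.derivative Φ).eval₂ ρ.toRingHom θ))) :=
        (isUnit_iff_ne_zero.2 hφΦ).map _
      exact (h2.mul_right_eq_zero).1 h1.symm
    intro b hb
    rw [RingHom.mem_ker] at hb
    rw [← hπ]
    have h1 : π (ρ q * b) = 0 := by
      rw [hP b, ← hev1, hπθ, hy0, add_zero, hev2, ← hP b, map_mul φ, hb, mul_zero, map_zero]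
    rw [map_mul, hψ'] at h1
    have h2 : IsUnit (algebraMap ℂ (B ⧸ J) (φ (ρ q))) := (isUnit_iff_ne_zero.2 hφq').map _
    exact (h2.mul_right_eq_zero).1 h1

end Pool.Agent.Lib.MP_ed661f_ag.H
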