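import Pool.Agent.Lib.MP_ed661f_ag.H.FormsDim

/-! Q2b: bounds for the Hilbert function. -/

set_option autoImplicit false

open MvPolynomial

namespace Pool.Agent.Lib.MP_ed661f_ag.H

variable {N : ℕ}

lemma proj_eq {r : ℕ} (J : Ideal (Poly N)) (y : Fin r → Poly N) (c : MvPolynomial (Fin r) ℂ) :
    proj J y c = Ideal.Quotient.mk J (aeval y c) := by
  have h : proj J y = (Ideal.Quotient.mkₐ ℂ J).comp (aeval y) := by
    apply MvPolynomial.algHom_ext
    intro i
    simp [proj]
  rw [h]
  rfl

lemma aeval_hom {r : ℕ} {y : Fin r → Poly N} (hy : ∀ i, (y i).IsHomogeneous 1)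
    {c : MvPolynomial (Fin r) ℂ} {k : ℕ} (hc : c.IsHomogeneous k) :
    (aeval y c : Poly N).IsHomogeneous k := by
  have := hc.aeval (n := 1) y hy
  rwa [one_mul] at this

/-- homogeneous components of the products -/
lemma comp_mul {r : ℕ} {y : Fin r → Poly N} (hy : ∀ i, (y i).IsHomogeneous 1)
    {e : Poly N} {a : ℕ} (he : e.IsHomogeneous a) (n : ℕ) (c : MvPolynomial (Fin r) ℂ) :
    homogeneousComponent n (aeval y c * e) =
      if a ≤ n then aeval y (homogeneousComponent (n - a) c) * e else 0 := by
  induction c using MvPolynomial.induction_on' with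
  | monomial u t =>
    have h1 : (monomial u t : MvPolynomial (Fin r) ℂ) ∈ homogeneousSubmodule (Fin r) ℂ u.degree :=
      isHomogeneous_monomial _ rfl
    have h2 : aeval y (monomial u t) * e ∈ homogeneousSubmodule (Fin (N + 1)) ℂ (u.degree + a) :=
      (aeval_hom hy h1).mul he
    rw [homogeneousComponent_of_mem h2, homogeneousComponent_of_mem h1]
    by_cases h : a ≤ n
    · rw [if_pos h]
      by_cases h3 : u.degree + a = n
      · rw [if_pos h3.symm, if_pos (by omega)]
      · rw [if_neg (Ne.symm h3), if_neg (by omega)]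
        simp
    · rw [if_neg h, if_neg (by omega)]
  | add p q hp hq =>
    rw [map_add, add_mul, map_add, hp, hq]
    split_ifs
    · rw [map_add, map_add, add_mul]
    · simp

/-- lower bound of the Hilbert function -/
theorem le_hilb {J : Ideal (Poly N)} {r : ℕ} {y : Fin r → Poly N}
    (hy : ∀ i, (y i).IsHomogeneous 1) (hinj : Function.Injective (proj J y)) (k : ℕ) :
    Module.finrank ℂ (homogeneousSubmodule (Fin r) ℂ k) ≤ hilb J k := by
  let f : homogeneousSubmodule (Fin r) ℂ k →ₗ[ℂ] ((homogeneousSubmodule (Fin (N + 1)) ℂ k).map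
      (Ideal.Quotient.mkₐ ℂ J).toLinearMap) :=
    LinearMap.codRestrict _ ((proj J y).toLinearMap.comp (Submodule.subtype _)) (by
      intro c
      refine ⟨aeval y c.1, aeval_hom hy c.2, ?_⟩
      exact (proj_eq J y c.1).symm)
  apply LinearMap.finrank_le_finrank_of_injective (f := f)
  intro a b hab
  apply Subtype.ext
  apply hinj
  exact congrArg Subtype.val hab

lemma finrank_forms_mono {r k m : ℕ} (hr : 1 ≤ r) (hkm : k ≤ m) :
    Module.finrank ℂ (homogeneousSubmodule (Fin r) ℂ k) ≤
      Module.finrank ℂ (homogeneousSubmodule (Fin r) ℂ m) := by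
  let x : MvPolynomial (Fin r) ℂ := X ⟨0, hr⟩
  have hx : (x ^ (m - k)).IsHomogeneous (m - k) := by
    have := (isHomogeneous_X ℂ (⟨0, hr⟩ : Fin r)).pow (m - k)
    rwa [one_mul] at this
  let f : homogeneousSubmodule (Fin r) ℂ k →ₗ[ℂ] homogeneousSubmodule (Fin r) ℂ m :=
    LinearMap.codRestrict _ ((LinearMap.mulLeft ℂ (x ^ (m - k))).comp (Submodule.subtype _)) (by
      intro c
      have := hx.mul (show (c.1).IsHomogeneous k from c.2)
      rw [Nat.sub_add_cancel hkm] at this
      exact this)
  apply LinearMap.finrank_le_finrank_of_injective (f := f)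
  intro a b hab
  apply Subtype.ext
  have h : x ^ (m - k) * a.1 = x ^ (m - k) * b.1 := congrArg Subtype.val hab
  exact mul_left_cancel₀ (pow_ne_zero _ (X_ne_zero _)) h

/-- upper bound of the Hilbert function -/
theorem hilb_le {I : Ideal (Poly N)} (hI : I.IsPrime) (hh : Homog I) {r d b : ℕ} (hr : 1 ≤ r)
    {y : Fin r → Poly N} (hy : ∀ i, (y i).IsHomogeneous 1)
    (hinj : Function.Injective (proj I y)) {e : Fin d → Poly N} {a : Fin d → ℕ}
    {q : MvPolynomial (Fin r) ℂ} (he : ∀ l, (e l).IsHomogeneous (a l)) (hq : q ≠ 0)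
    (hqb : q.IsHomogeneous b)
    (hF : ∀ F : Poly N, ∃ c : Fin d → MvPolynomial (Fin r) ℂ,
      proj I y q * Ideal.Quotient.mk I F = ∑ l, proj I y (c l) * Ideal.Quotient.mk I (e l))
    (k : ℕ) :
    hilb I k ≤ ∑ l : Fin d, Module.finrank ℂ (homogeneousSubmodule (Fin r) ℂ (k + b)) := by
  classical
  let M : Fin d → Submodule ℂ (MvPolynomial (Fin r) ℂ) := fun l =>
    if a l ≤ k + b then homogeneousSubmodule (Fin r) ℂ (k + b - a l) else ⊥
  have hMfin : ∀ l, Module.Finite ℂ (M l) := by
    intro l
    by_cases h : a l ≤ k + b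
    · have hM : M l = homogeneousSubmodule (Fin r) ℂ (k + b - a l) := if_pos h
      rw [hM]; infer_instance
    · have hM : M l = ⊥ := if_neg h
      rw [hM]; infer_instance
  have hMrank : ∀ l, Module.finrank ℂ (M l) ≤
      Module.finrank ℂ (homogeneousSubmodule (Fin r) ℂ (k + b)) := by
    intro l
    by_cases h : a l ≤ k + b
    · have hM : M l = homogeneousSubmodule (Fin r) ℂ (k + b - a l) := if_pos h
      rw [hM]
      exact finrank_forms_mono hr (Nat.sub_le _ _)
    · have hM : M l = ⊥ := if_neg h
      rw [hM, finrank_bot]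
      exact Nat.zero_le _
  let Φ : (∀ l, M l) →ₗ[ℂ] Poly N ⧸ I :=
    { toFun := fun c => ∑ l, proj I y (c l).1 * Ideal.Quotient.mk I (e l)
      map_add' := fun c c' => by
        rw [← Finset.sum_add_distrib]
        refine Finset.sum_congr rfl fun l _ => ?_
        rw [Pi.add_apply, Submodule.coe_add, map_add, add_mul]
      map_smul' := fun t c => by
        rw [RingHom.id_apply, Finset.smul_sum]
        refine Finset.sum_congr rfl fun l _ => ?_
        rw [Pi.smul_apply, Submodule.coe_smul, map_smul, smul_mul_assoc] }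
  let W := (homogeneousSubmodule (Fin (N + 1)) ℂ k).map (Ideal.Quotient.mkₐ ℂ I).toLinearMap
  let g : W →ₗ[ℂ] LinearMap.range Φ :=
    LinearMap.codRestrict _ ((LinearMap.mulLeft ℂ (proj I y q)).comp W.subtype) (by
      rintro ⟨_, F, hFk, rfl⟩
      obtain ⟨c, hc⟩ := hF F
      have h1 : aeval y q * F - ∑ l, aeval y (c l) * e l ∈ I := by
        rw [← Ideal.Quotient.eq_zero_iff_mem, map_sub, map_mul, ← proj_eq, map_sum, hc, sub_eq_zero]
        refine Finset.sum_congr rfl fun l _ => ?_
        rw [map_mul, ← proj_eq]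
      have h2 := hh _ h1 (k + b)
      have h3 : aeval y q * F ∈ homogeneousSubmodule (Fin (N + 1)) ℂ (k + b) := by
        have h5 := (aeval_hom hy hqb).mul (show F.IsHomogeneous k from hFk)
        rwa [add_comm b k] at h5
      rw [map_sub, map_sum, homogeneousComponent_of_mem h3, if_pos rfl] at h2
      have h4 : Ideal.Quotient.mk I (aeval y q * F) =
          ∑ l, Ideal.Quotient.mk I (homogeneousComponent (k + b) (aeval y (c l) * e l)) := by
        rw [← map_sum]
        rwa [← Ideal.Quotient.eq_zero_iff_mem, map_sub, sub_eq_zero] at h2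
      refine ⟨fun l => ⟨if a l ≤ k + b then homogeneousComponent (k + b - a l) (c l) else 0, ?_⟩, ?_⟩
      · by_cases h : a l ≤ k + b
        · simp only [M, if_pos h]
          exact homogeneousComponent_isHomogeneous _ _
        · simp only [M, if_neg h]
          exact Submodule.zero_mem _
      · change ∑ l, proj I y (if a l ≤ k + b then homogeneousComponent (k + b - a l) (c l) else 0) *
          Ideal.Quotient.mk I (e l) = proj I y q * Ideal.Quotient.mk I F
        rw [proj_eq I y q, ← map_mul, h4]
        refine Finset.sum_congr rfl fun l _ => ?_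
        rw [comp_mul hy (he l)]
        by_cases h : a l ≤ k + b
        · rw [if_pos h, if_pos h, proj_eq, map_mul]
        · rw [if_neg h, if_neg h]; simp)
  have hdom : IsDomain (Poly N ⧸ I) := Ideal.Quotient.isDomain I
  have hq' : proj I y q ≠ 0 := fun h => hq (hinj (by rw [h, map_zero]))
  have hg : Function.Injective g := by
    intro u v huv
    apply Subtype.ext
    have h : proj I y q * u.1 = proj I y q * v.1 := congrArg Subtype.val huv
    exact mul_left_cancel₀ hq' h
  calc hilb I k = Module.finrank ℂ W := rfl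
    _ ≤ Module.finrank ℂ (LinearMap.range Φ) := LinearMap.finrank_le_finrank_of_injective hg
    _ ≤ Module.finrank ℂ (∀ l, M l) := LinearMap.finrank_range_le Φ
    _ = ∑ l, Module.finrank ℂ (M l) := Module.finrank_pi_fintype ℂ
    _ ≤ _ := Finset.sum_le_sum fun l _ => hMrank l

end Pool.Agent.Lib.MP_ed661f_ag.H
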