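import Pool.Agent.Lib.MP_ed661f_ag.H.Degrees

/-! Q2e: lower bound for the degree. -/

set_option autoImplicit false

open MvPolynomial Filter Topology
open scoped ENNReal

namespace Pool.Agent.Lib.MP_ed661f_ag.H

lemma sum_le_hilb {N d : ℕ} {I : Ideal (Poly N)} {y : Fin 3 → Poly N}
    (hy : ∀ i, (y i).IsHomogeneous 1) {e : Fin d → Poly N} {a : Fin d → ℕ}
    (he : ∀ l, (e l).IsHomogeneous (a l))
    (hind : ∀ c : Fin d → MvPolynomial (Fin 3) ℂ,
      (∑ l, proj I y (c l) * Ideal.Quotient.mk I (e l)) = 0 → c = 0) {k : ℕ}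
    (hk : ∀ l, a l ≤ k) :
    ∑ l, Module.finrank ℂ (homogeneousSubmodule (Fin 3) ℂ (k - a l)) ≤ hilb I k := by
  classical
  let Φ : (∀ l, homogeneousSubmodule (Fin 3) ℂ (k - a l)) →ₗ[ℂ] Poly N ⧸ I :=
    { toFun := fun c => ∑ l, proj I y (c l).1 * Ideal.Quotient.mk I (e l)
      map_add' := fun c c' => by
        rw [← Finset.sum_add_distrib]
        refine Finset.sum_congr rfl fun l _ => ?_
        rw [Pi.add_apply, Submodule.coe_add, map_add, add_mul]
      map_smul' := fun t c => by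
        rw [RingHom.id_apply, Finset.smul_sum]
        refine Finset.sum_congr rfl fun l _ => ?_
        rw [Pi.smul_apply, Submodule.coe_smul, map_smul, smul_mul_assoc] }
  let W := (homogeneousSubmodule (Fin (N + 1)) ℂ k).map (Ideal.Quotient.mkₐ ℂ I).toLinearMap
  let g : (∀ l, homogeneousSubmodule (Fin 3) ℂ (k - a l)) →ₗ[ℂ] W :=
    LinearMap.codRestrict _ Φ (by
      intro c
      refine ⟨∑ l, aeval y (c l).1 * e l, Submodule.sum_mem _ fun l _ => ?_, ?_⟩
      · have h := (aeval_hom hy (show (c l).1.IsHomogeneous (k - a l) from (c l).2)).mul (he l)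
        rw [Nat.sub_add_cancel (hk l)] at h
        exact h
      · change Ideal.Quotient.mk I (∑ l, aeval y (c l).1 * e l) =
          ∑ l, proj I y (c l).1 * Ideal.Quotient.mk I (e l)
        rw [map_sum]
        refine Finset.sum_congr rfl fun l _ => ?_
        rw [map_mul, ← proj_eq])
  have hg : Function.Injective g := by
    rw [← LinearMap.ker_eq_bot, LinearMap.ker_eq_bot']
    intro c hc
    have h1 : (∑ l, proj I y (c l).1 * Ideal.Quotient.mk I (e l)) = 0 := congrArg Subtype.val hc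
    have h2 := hind (fun l => (c l).1) h1
    ext l : 1
    exact Subtype.ext (congrFun h2 l)
  calc ∑ l, Module.finrank ℂ (homogeneousSubmodule (Fin 3) ℂ (k - a l)) =
      Module.finrank ℂ (∀ l, homogeneousSubmodule (Fin 3) ℂ (k - a l)) :=
        (Module.finrank_pi_fintype ℂ).symm
    _ ≤ Module.finrank ℂ W := LinearMap.finrank_le_finrank_of_injective hg

theorem le_surfDeg {N d : ℕ} {I : Ideal (Poly N)} {y : Fin 3 → Poly N}
    (hy : ∀ i, (y i).IsHomogeneous 1) {e : Fin d → Poly N} {a : Fin d → ℕ}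
    (he : ∀ l, (e l).IsHomogeneous (a l))
    (hind : ∀ c : Fin d → MvPolynomial (Fin 3) ℂ,
      (∑ l, proj I y (c l) * Ideal.Quotient.mk I (e l)) = 0 → c = 0) :
    (d : ℝ≥0∞) ≤ surfDeg I := by
  set A : ℕ := Finset.univ.sup a with hA
  have hAl : ∀ l, a l ≤ A := fun l => Finset.le_sup (Finset.mem_univ l)
  have h1 : ∀ k, A ≤ k → d * ((k - A + 1) * (k - A + 2)) ≤ 2 * hilb I k := by
    intro k hk
    have h2 := sum_le_hilb hy he hind (k := k) fun l => (hAl l).trans hk
    calc d * ((k - A + 1) * (k - A + 2)) =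
        ∑ _l : Fin d, 2 * Module.finrank ℂ (homogeneousSubmodule (Fin 3) ℂ (k - A)) := by
          rw [Finset.sum_const, Finset.card_univ, Fintype.card_fin, smul_eq_mul,
            finrank_forms_three]
      _ ≤ ∑ l : Fin d, 2 * Module.finrank ℂ (homogeneousSubmodule (Fin 3) ℂ (k - a l)) := by
          refine Finset.sum_le_sum fun l _ => Nat.mul_le_mul_left 2 (finrank_forms_mono (by norm_num) ?_)
          have := hAl l
          omega
      _ = 2 * ∑ l : Fin d, Module.finrank ℂ (homogeneousSubmodule (Fin 3) ℂ (k - a l)) := by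
          rw [Finset.mul_sum]
      _ ≤ 2 * hilb I k := Nat.mul_le_mul_left 2 h2
  have h2 : Tendsto (fun k : ℕ => (d : ℝ) *
      (((k : ℝ) + (1 - A)) * (k + (2 - A)) / (k : ℝ) ^ 2))
      atTop (𝓝 ((d : ℝ) * 1)) := tendsto_const_nhds.mul (tendsto_two _ _)
  have h3 := ofReal_le_liminf (u := fun k : ℕ => 2 * (hilb I k : ℝ≥0∞) / (k : ℝ≥0∞) ^ 2) ?_ h2
  · rw [mul_one, ENNReal.ofReal_natCast] at h3
    exact h3
  · filter_upwards [eventually_ge_atTop 1, eventually_ge_atTop A] with k hk hkA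
    have e1 : 2 * (hilb I k : ℝ≥0∞) / (k : ℝ≥0∞) ^ 2 =
        ((2 * hilb I k : ℕ) : ℝ≥0∞) / ((k ^ 2 : ℕ) : ℝ≥0∞) := by push_cast; rfl
    rw [e1, cast_div_eq (Nat.one_le_pow _ _ hk)]
    apply ENNReal.ofReal_le_ofReal
    have h4 : ((d * ((k - A + 1) * (k - A + 2)) : ℕ) : ℝ) ≤ ((2 * hilb I k : ℕ) : ℝ) := by
      exact_mod_cast h1 k hkA
    have hk' : (0 : ℝ) < (k : ℝ) ^ 2 := by positivity
    have e2 : ((k ^ 2 : ℕ) : ℝ) = (k : ℝ) ^ 2 := by push_cast; rfl
    rw [e2, ← mul_div_assoc]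
    apply div_le_div_of_nonneg_right _ hk'.le
    refine (le_of_eq ?_).trans h4
    push_cast [Nat.cast_sub hkA]; ring

end Pool.Agent.Lib.MP_ed661f_ag.H
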