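import Pool.Agent.Lib.MP_ed661f_ag.H.Krull
import Pool.Agent.Lib.MP_ed661f_ag.H.Basis
import Pool.Agent.Lib.MP_ed661f_ag.H.Growth
import Pool.Agent.Lib.MP_ed661f_ag.H.Degrees
import Pool.Agent.Lib.MP_ed661f_ag.H.LowerDeg
import Pool.Agent.Lib.MP_ed661f_ag.H.Affine
import Pool.Agent.Lib.MP_ed661f_ag.H.Formal

/-!
Part H, task Q3d: existence of charts.
-/

set_option autoImplicit false

open MvPolynomial Filter
open scoped ENNReal

namespace Pool.Agent.Lib.MP_ed661f_ag.H

variable {N : ℕ}

/-- translation of the variables is injective -/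
theorem translate_injective (p : Fin 2 → ℂ) : Function.Injective
    (aeval (fun i => X i - C (p i)) : MvPolynomial (Fin 2) ℂ →ₐ[ℂ] MvPolynomial (Fin 2) ℂ) := by
  intro f g h
  have h1 : ∀ f : MvPolynomial (Fin 2) ℂ, aeval (fun i => X i + C (p i))
      (aeval (fun i => X i - C (p i)) f : MvPolynomial (Fin 2) ℂ) = f := by
    intro f
    have h2 : ((aeval (fun i => X i + C (p i)) :
        MvPolynomial (Fin 2) ℂ →ₐ[ℂ] MvPolynomial (Fin 2) ℂ).comp
        (aeval (fun i => X i - C (p i)))) = AlgHom.id ℂ _ := by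
      apply MvPolynomial.algHom_ext
      intro i
      rw [AlgHom.comp_apply, aeval_X, map_sub, aeval_X]
      have h3 : (aeval (fun i => X i + C (p i)) : MvPolynomial (Fin 2) ℂ →ₐ[ℂ] _) (C (p i)) =
          C (p i) := AlgHom.commutes _ _
      rw [h3, AlgHom.id_apply]
      ring
    exact DFunLike.congr_fun h2 f
  rw [← h1 f, ← h1 g, h]

/-- the linear forms of the chart are independent -/
theorem affine_injective {I : Ideal (Poly N)} (hI : I.IsPrime) (hh : Homog I)
    {y : Fin 3 → Poly N} (hy : ∀ i, (y i).IsHomogeneous 1)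
    (hinj : Function.Injective (proj I y)) :
    Function.Injective (proj (I ⊔ Ideal.span {y 0 - 1}) ![y 1, y 2]) := by
  have h1 := affine_indep (d := 1) hI hh hy hinj (e := fun _ => 1) (a := fun _ => 0)
    (fun _ => isHomogeneous_one _ _) (by
      intro c hc
      rw [Fin.sum_univ_one, map_one, mul_one] at hc
      funext l
      rw [Fin.eq_zero l]
      exact hinj (hc.trans (map_zero _).symm))
  rw [injective_iff_map_eq_zero]
  intro f hf
  have h2 := h1 (fun _ => f) (by rw [Fin.sum_univ_one, map_one, mul_one, hf])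
  exact congrFun h2 0

theorem exists_chart {I : Ideal (Poly N)} (hI : IsSurface I) :
    ∃ d : ℕ, 1 ≤ d ∧ surfDeg I = d ∧ Nonempty (Chart I d) := by
  classical
  have hp := hI.prime
  have hh : Homog I := hI.homogeneous
  obtain ⟨y, hy, hinj, hfin⟩ := exists_noether (r := 3) hp.ne_top hh (by
    rw [hI.dim]; norm_num)
  obtain ⟨d, e, a, q, b, hd, he, hind, hq, hqb, hF⟩ := exists_basis hp hh hy hinj hfin
  refine ⟨d, hd, le_antisymm
    (surfDeg_le fun k => hilb_le hp hh (by norm_num) hy hinj he hq hqb hF k)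
    (le_surfDeg hy he hind), ?_⟩
  -- the affine piece
  have hy0 : y 0 ∉ I := by
    intro h
    have h1 : proj I y (X 0) = 0 := by
      rw [proj, aeval_X]
      exact Ideal.Quotient.eq_zero_iff_mem.2 h
    have h2 : (X 0 : MvPolynomial (Fin 3) ℂ) = 0 := hinj (h1.trans (map_zero _).symm)
    exact MvPolynomial.X_ne_zero 0 h2
  obtain ⟨I', hI'⟩ : ∃ I' : Ideal (Poly N), I' = I ⊔ Ideal.span {y 0 - 1} := ⟨_, rfl⟩
  have hprime : I'.IsPrime := by rw [hI']; exact affine_isPrime hp hh (hy 0) hy0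
  have : IsDomain (Poly N ⧸ I') := Ideal.Quotient.isDomain I'
  have hρinj : Function.Injective (proj I' ![y 1, y 2]) := by
    rw [hI']; exact affine_injective hp hh hy hinj
  have hρfin : (proj I' ![y 1, y 2]).toRingHom.Finite := by
    rw [hI']; exact affine_finite hfin
  obtain ⟨h, p, Θ, hΘ, hΘX, hΘh, hφ⟩ := exists_formal_chart _ hρinj hρfin
  have hρ0 : proj I' ![y 1, y 2] (X 0) = Ideal.Quotient.mk I' (y 1) := by
    rw [proj, aeval_X]; rfl
  have hρ1 : proj I' ![y 1, y 2] (X 1) = Ideal.Quotient.mk I' (y 2) := by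
    rw [proj, aeval_X]; rfl
  have hmk0 : Ideal.Quotient.mk I' (y 0) = 1 := by
    have h1 : Ideal.Quotient.mk I' (y 0 - 1) = 0 := by
      rw [Ideal.Quotient.eq_zero_iff_mem, hI']
      exact Ideal.mem_sup_right (Ideal.subset_span rfl)
    rw [map_sub, map_one, sub_eq_zero] at h1
    exact h1
  obtain ⟨h', hh'⟩ := Ideal.Quotient.mk_surjective h
  have hmkC : ∀ z : ℂ, Ideal.Quotient.mk I' (C z) = algebraMap ℂ (Poly N ⧸ I') z :=
    fun z => rfl
  have hTh : ∀ z : ℂ, Θ (algebraMap ℂ (Poly N ⧸ I') z) = MvPowerSeries.C z :=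
    fun z => AlgHom.commutes Θ z
  have hom1 : ∀ (z : ℂ) (i : Fin 3), (y i - C z * y 0).IsHomogeneous 1 := by
    intro z i
    refine (hy i).sub ?_
    have := (isHomogeneous_C (Fin (N + 1)) z).mul (hy 0)
    simpa using this
  refine ⟨{
    y0 := y 0
    y1 := y 1 - C (p 0) * y 0
    y2 := y 2 - C (p 1) * y 0
    hy0 := hy 0
    hy1 := hom1 _ _
    hy2 := hom1 _ _
    T := Θ.comp (Ideal.Quotient.mkₐ ℂ I')
    mem_iff := ?_
    T1 := ?_
    T2 := ?_
    h := h'
    hh := ?_
    smooth := ?_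
    e := e
    a := a
    he := he
    indep := ?_ }⟩
  · intro F
    rw [AlgHom.comp_apply, Ideal.Quotient.mkₐ_eq_mk, map_eq_zero_iff Θ hΘ,
      Ideal.Quotient.eq_zero_iff_mem, hI']
  · rw [AlgHom.comp_apply, Ideal.Quotient.mkₐ_eq_mk, map_sub, map_mul, hmk0, mul_one, ← hρ0,
      hmkC, map_sub, hΘX, hTh]
    ring
  · rw [AlgHom.comp_apply, Ideal.Quotient.mkₐ_eq_mk, map_sub, map_mul, hmk0, mul_one, ← hρ1,
      hmkC, map_sub, hΘX, hTh]
    ring
  · rw [AlgHom.comp_apply, Ideal.Quotient.mkₐ_eq_mk, hh']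
    exact hΘh
  · -- smoothness
    intro v hv hv0 hvh
    have hker : ∀ F ∈ I', (aeval v : Poly N →ₐ[ℂ] ℂ) F = 0 := by
      intro F hF'
      rw [hI', Submodule.mem_sup] at hF'
      obtain ⟨F1, hF1, F2, hF2, rfl⟩ := hF'
      obtain ⟨G, rfl⟩ := Ideal.mem_span_singleton'.1 hF2
      have h1 : eval v (F1 + G * (y 0 - 1)) = 0 := by
        rw [map_add, map_mul, map_sub, hv F1 hF1, hv0, map_one, sub_self, mul_zero, add_zero]
      rw [← h1]
      rfl
    obtain ⟨φ, hφdef⟩ : ∃ φ : (Poly N ⧸ I') →ₐ[ℂ] ℂ,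
        φ = Ideal.Quotient.liftₐ I' (aeval v) hker := ⟨_, rfl⟩
    have hφmk : ∀ F : Poly N, φ (Ideal.Quotient.mk I' F) = eval v F := by
      intro F
      rw [hφdef]
      exact Ideal.Quotient.liftₐ_apply I' (aeval v) hker _
    have hsm := hφ φ (by rw [← hh', hφmk]; exact hvh)
    intro F hFv
    have hFv' : eval v F = 0 := hFv
    have h1 : Ideal.Quotient.mk I' F ∈ RingHom.ker φ := by
      rw [RingHom.mem_ker, hφmk, hFv']
    have h2 := hsm h1
    -- the ideals in the quotient are images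
    have hkermap : RingHom.ker φ = (vecIdeal v).map (Ideal.Quotient.mk I') := by
      ext x
      obtain ⟨G, rfl⟩ := Ideal.Quotient.mk_surjective x
      constructor
      · intro hx
        rw [RingHom.mem_ker, hφmk] at hx
        exact Ideal.mem_map_of_mem _ hx
      · intro hx
        obtain ⟨G', hG', hGG⟩ := (Ideal.mem_map_iff_of_surjective _
          Ideal.Quotient.mk_surjective).1 hx
        rw [RingHom.mem_ker, ← hGG, hφmk]
        exact hG'
    have hρC : ∀ z : ℂ, proj I' ![y 1, y 2] (C z) = Ideal.Quotient.mk I' (C z) :=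
      fun z => AlgHom.commutes _ z
    have hρC0 : proj I' ![y 1, y 2] (X 0 - C (φ (proj I' ![y 1, y 2] (X 0)))) =
        Ideal.Quotient.mk I' (y 1 - C (eval v (y 1))) := by
      rw [map_sub, hρ0, hφmk, map_sub, hρC]
    have hρC1 : proj I' ![y 1, y 2] (X 1 - C (φ (proj I' ![y 1, y 2] (X 1)))) =
        Ideal.Quotient.mk I' (y 2 - C (eval v (y 2))) := by
      rw [map_sub, hρ1, hφmk, map_sub, hρC]
    rw [hρC0, hρC1, hkermap, ← Ideal.map_pow] at h2
    have hspan : Ideal.span {Ideal.Quotient.mk I' (y 1 - C (eval v (y 1))),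
        Ideal.Quotient.mk I' (y 2 - C (eval v (y 2)))} =
        (Ideal.span {y 1 - C (eval v (y 1)), y 2 - C (eval v (y 2))}).map
          (Ideal.Quotient.mk I') := by
      rw [Ideal.map_span]
      congr 1
      rw [Set.image_pair]
    rw [hspan, ← Ideal.map_sup] at h2
    obtain ⟨G, hG, hGF⟩ := (Ideal.mem_map_iff_of_surjective _
      Ideal.Quotient.mk_surjective).1 h2
    have h3 : F - G ∈ I' := by
      rw [← Ideal.Quotient.eq_zero_iff_mem, map_sub, hGF, sub_self]
    have h4 : F = (F - G) + G := by ring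
    rw [h4]
    have hbig : I' ≤ I ⊔ Ideal.span {y 0 - 1} ⊔
        Ideal.span {y 1 - C (p 0) * y 0 - C (eval v (y 1 - C (p 0) * y 0)),
          y 2 - C (p 1) * y 0 - C (eval v (y 2 - C (p 1) * y 0))} ⊔ vecIdeal v ^ 2 := by
      rw [hI']
      exact le_sup_left.trans le_sup_left
    refine Ideal.add_mem _ (hbig h3) ?_
    have hy0m : y 0 - 1 ∈ I ⊔ Ideal.span {y 0 - 1} ⊔
        Ideal.span {y 1 - C (p 0) * y 0 - C (eval v (y 1 - C (p 0) * y 0)),
          y 2 - C (p 1) * y 0 - C (eval v (y 2 - C (p 1) * y 0))} ⊔ vecIdeal v ^ 2 := by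
      apply hbig
      rw [hI']
      exact Ideal.mem_sup_right (Ideal.subset_span rfl)
    refine (sup_le ?_ le_sup_right : Ideal.span {y 1 - C (eval v (y 1)), y 2 - C (eval v (y 2))} ⊔
      vecIdeal v ^ 2 ≤ _) hG
    rw [Ideal.span_le]
    intro x hx
    rcases hx with rfl | hx
    · have h5 : y 1 - C (eval v (y 1)) =
          (y 1 - C (p 0) * y 0 - C (eval v (y 1 - C (p 0) * y 0))) + C (p 0) * (y 0 - 1) := by
        rw [map_sub, map_mul, hv0, eval_C, mul_one, map_sub]
        ring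
      rw [h5]
      refine Ideal.add_mem _ ?_ (Ideal.mul_mem_left _ _ hy0m)
      apply Ideal.mem_sup_left
      apply Ideal.mem_sup_right
      exact Ideal.subset_span (Or.inl rfl)
    · rw [Set.mem_singleton_iff] at hx
      rw [hx]
      have h5 : y 2 - C (eval v (y 2)) =
          (y 2 - C (p 1) * y 0 - C (eval v (y 2 - C (p 1) * y 0))) + C (p 1) * (y 0 - 1) := by
        rw [map_sub, map_mul, hv0, eval_C, mul_one, map_sub]
        ring
      rw [h5]
      refine Ideal.add_mem _ ?_ (Ideal.mul_mem_left _ _ hy0m)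
      apply Ideal.mem_sup_left
      apply Ideal.mem_sup_right
      exact Ideal.subset_span (Or.inr rfl)
  · -- independence
    intro c hc
    have hΘρ : ∀ f : MvPolynomial (Fin 2) ℂ,
        Θ (proj I' ![y 1, y 2] (aeval (fun i => X i - C (p i)) f)) =
          (f : MvPowerSeries (Fin 2) ℂ) := by
      intro f
      have h1 : (Θ.comp ((proj I' ![y 1, y 2]).comp (aeval (fun i => X i - C (p i))))) =
          (MvPolynomial.coeToMvPowerSeries.algHom ℂ :
            MvPolynomial (Fin 2) ℂ →ₐ[ℂ] MvPowerSeries (Fin 2) ℂ) := by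
        apply MvPolynomial.algHom_ext
        intro i
        rw [AlgHom.comp_apply, AlgHom.comp_apply, aeval_X, map_sub, map_sub, hΘX]
        have h2 : proj I' ![y 1, y 2] (C (p i)) = algebraMap ℂ _ (p i) := AlgHom.commutes _ _
        rw [h2, hTh]
        simp
      have h3 := DFunLike.congr_fun h1 f
      rw [AlgHom.comp_apply, AlgHom.comp_apply] at h3
      rw [h3]
      simp
    have h1 : ∑ l, proj I' ![y 1, y 2] (aeval (fun i => X i - C (p i)) (c l)) *
        Ideal.Quotient.mk I' (e l) = 0 := by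
      apply hΘ
      rw [map_zero, map_sum, ← hc]
      refine Finset.sum_congr rfl fun l _ => ?_
      rw [map_mul, hΘρ]
      rfl
    have h2 := affine_indep hp hh hy hinj he hind
      (fun l => aeval (fun i => X i - C (p i)) (c l)) (by rw [hI'] at h1; exact h1)
    funext l
    exact translate_injective p ((congrFun h2 l).trans (map_zero _).symm)

end Pool.Agent.Lib.MP_ed661f_ag.H
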