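import Pool.Agent.Lib.MP_ed661f_ag.H.QDefs

/-! Q2c: dimension of the space of forms of degree `k` in two and three variables. -/

set_option autoImplicit false

open MvPolynomial

namespace Pool.Agent.Lib.MP_ed661f_ag.H

/-- the coefficients of a form of degree `k` -/
noncomputable def formCoeffs (r k : ℕ) : homogeneousSubmodule (Fin r) ℂ k →ₗ[ℂ]
    (((Finset.univ : Finset (Fin r)).finsuppAntidiag k) → ℂ) where
  toFun F d := MvPolynomial.coeff d.1 F.1
  map_add' F G := by ext d; simp
  map_smul' c F := by ext d; simp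

lemma mem_antidiag_univ {r k : ℕ} {d : Fin r →₀ ℕ} :
    d ∈ (Finset.univ : Finset (Fin r)).finsuppAntidiag k ↔ d.degree = k := by
  rw [Finset.mem_finsuppAntidiag]
  have : (Finset.univ : Finset (Fin r)).sum (⇑d) = d.degree := by
    rw [Finsupp.degree_eq_sum]
  rw [this]
  simp

lemma formCoeffs_bijective (r k : ℕ) : Function.Bijective (formCoeffs r k) := by
  constructor
  · rw [← LinearMap.ker_eq_bot, LinearMap.ker_eq_bot']
    intro F hF
    apply Subtype.ext
    apply MvPolynomial.ext
    intro d
    by_cases hd : d.degree = k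
    · exact congrFun hF ⟨d, mem_antidiag_univ.2 hd⟩
    · exact F.2.coeff_eq_zero hd
  · intro f
    refine ⟨⟨∑ d, monomial d.1 (f d), ?_⟩, ?_⟩
    · refine Submodule.sum_mem _ fun d _ => ?_
      exact isHomogeneous_monomial _ (mem_antidiag_univ.1 d.2)
    · ext d
      change MvPolynomial.coeff d.1 (∑ d, monomial d.1 (f d)) = f d
      rw [MvPolynomial.coeff_sum, Finset.sum_eq_single d]
      · simp
      · intro b _ hb
        rw [MvPolynomial.coeff_monomial, if_neg]
        exact fun h => hb (Subtype.ext h)
      · simp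

theorem finrank_forms (r k : ℕ) :
    Module.finrank ℂ (homogeneousSubmodule (Fin r) ℂ k) = (r + k - 1).choose k := by
  rw [(LinearEquiv.ofBijective _ (formCoeffs_bijective r k)).finrank_eq, Module.finrank_pi,
    Fintype.card_coe, Finset.card_finsuppAntidiag_nat_eq_choose]
  simp

instance finite_forms (r k : ℕ) : Module.Finite ℂ (homogeneousSubmodule (Fin r) ℂ k) :=
  Module.Finite.equiv (LinearEquiv.ofBijective _ (formCoeffs_bijective r k)).symm

theorem finrank_forms_two (k : ℕ) :
    Module.finrank ℂ (homogeneousSubmodule (Fin 2) ℂ k) = k + 1 := by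
  rw [finrank_forms]
  have : 2 + k - 1 = k + 1 := by omega
  rw [this, Nat.choose_succ_self_right]

theorem finrank_forms_three (k : ℕ) :
    2 * Module.finrank ℂ (homogeneousSubmodule (Fin 3) ℂ k) = (k + 1) * (k + 2) := by
  rw [finrank_forms]
  have : 3 + k - 1 = k + 2 := by omega
  rw [this, Nat.choose_symm_add, Nat.choose_two_right]
  have h : 2 ∣ (k + 2) * (k + 2 - 1) := by
    have := Nat.even_mul_pred_self (k + 2)
    exact this.two_dvd
  rw [Nat.mul_div_cancel' h]
  have : k + 2 - 1 = k + 1 := by omega
  rw [this]; ring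

end Pool.Agent.Lib.MP_ed661f_ag.H
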