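import Pool.Agent.Lib.MP_ed661f_ag.H.Slice

/-!
The multiplicities are bounded by the degree: the passage to the limit.
-/

set_option autoImplicit false

open MvPolynomial Filter
open scoped ENNReal

namespace Pool.Agent.Lib.MP_ed661f_ag.H

variable {N : ℕ}

private theorem limit_tendsto (a : ℝ≥0∞) (ha : a ≠ ∞) :
    Tendsto (fun r : ℕ => a / (r : ℝ≥0∞)) atTop (nhds 0) := by
  have h := ENNReal.Tendsto.const_div (a := a) ENNReal.tendsto_nat_nhds_top (Or.inr ha)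
  rwa [ENNReal.div_top] at h

/-- multiplicity zero if the slices are bounded -/
theorem mult_eq_zero_of_bounded {P : Ideal (Poly N)} {l : Poly N} {v : Fin (N + 1) → ℂ}
    (hlv : MvPolynomial.eval v l = 1) (h : ∃ c, ∀ t, lam P l v t ≤ c) : mult P v = 0 := by
  obtain ⟨c, hc⟩ := h
  have hj : ∀ r, jetDim P v r ≤ c * r := by
    intro r
    refine (jetDim_le hlv r).trans ?_
    refine (Finset.sum_le_sum fun t _ => hc (t + 1)).trans (le_of_eq ?_)
    rw [Finset.sum_const, Finset.card_range, smul_eq_mul, mul_comm]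
  have hle : ∀ᶠ r : ℕ in atTop, 2 * (jetDim P v r : ℝ≥0∞) / (r : ℝ≥0∞) ^ 2 ≤
      (2 * c : ℝ≥0∞) / (r : ℝ≥0∞) := by
    filter_upwards [eventually_ge_atTop 1] with r hr
    have hr0 : (r : ℝ≥0∞) ≠ 0 := by
      simp only [ne_eq, Nat.cast_eq_zero]
      omega
    apply ENNReal.div_le_of_le_mul
    rw [pow_two, ← mul_assoc, ENNReal.div_mul_cancel hr0 (ENNReal.natCast_ne_top r), mul_assoc]
    gcongr
    exact_mod_cast hj r
  have h2 : mult P v ≤ liminf (fun r : ℕ => (2 * c : ℝ≥0∞) / (r : ℝ≥0∞)) atTop :=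
    liminf_le_liminf hle
  rw [(limit_tendsto (2 * c) (ENNReal.mul_ne_top (by simp) (ENNReal.natCast_ne_top c))).liminf_eq]
    at h2
  exact le_antisymm h2 zero_le

private theorem limit_sum_liminf {n : ℕ} (f : Fin n → ℕ → ℝ≥0∞) :
    ∑ i, liminf (f i) atTop ≤ liminf (fun r => ∑ i, f i r) atTop := by
  have h := MeasureTheory.lintegral_liminf_le (μ := MeasureTheory.Measure.count)
    (u := (atTop : Filter ℕ)) (f := fun r (i : Fin n) => f i r) (fun r => measurable_of_finite _)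
  simp only [MeasureTheory.lintegral_count, tsum_fintype] at h
  exact h

theorem mult_sum_le {n : ℕ} {P : Ideal (Poly N)} {l : Poly N} {v : Fin n → Fin (N + 1) → ℂ}
    (hlv : ∀ i, MvPolynomial.eval (v i) l = 1) {κ s : ℕ} (hκ : 1 ≤ κ) (hs : 1 ≤ s)
    (h : ∀ t, 1 ≤ t → ((∑ i, lam P l (v i) (s * t) : ℕ) : ℝ≥0∞) ≤ (κ * t : ℕ) * deg P) :
    (s : ℝ≥0∞) * ∑ i, mult P (v i) ≤ κ * deg P := by
  rcases eq_or_ne (deg P) ∞ with hd | hd
  · rw [hd, ENNReal.mul_top (by simp only [ne_eq, Nat.cast_eq_zero]; omega)]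
    exact le_top
  -- the bound for the jets
  have hj : ∀ r : ℕ, (s : ℝ≥0∞) * ∑ i, 2 * (jetDim P (v i) r : ℝ≥0∞) ≤
      (κ * (r ^ 2 + 2 * s * r) : ℕ) * deg P := by
    intro r
    have h1 : (∑ i, jetDim P (v i) r) ≤
        ∑ u ∈ Finset.range r, ∑ i, lam P l (v i) (s * (u / s + 1)) := by
      rw [Finset.sum_comm]
      refine Finset.sum_le_sum fun i _ => (jetDim_le (hlv i) r).trans ?_
      refine Finset.sum_le_sum fun u _ => lam_mono ?_
      have := Nat.lt_mul_div_succ u (show 0 < s by omega)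
      omega
    have h2 : ((∑ i, jetDim P (v i) r : ℕ) : ℝ≥0∞) ≤
        ((∑ u ∈ Finset.range r, κ * (u / s + 1) : ℕ) : ℝ≥0∞) * deg P := by
      refine le_trans (Nat.cast_le.2 h1) ?_
      rw [Nat.cast_sum, Nat.cast_sum, Finset.sum_mul]
      exact Finset.sum_le_sum fun u _ => h (u / s + 1) (Nat.le_add_left 1 (u / s))
    have h3 : 2 * s * (∑ u ∈ Finset.range r, κ * (u / s + 1)) ≤ κ * (r ^ 2 + 2 * s * r) := by
      have h4 : s * (∑ u ∈ Finset.range r, κ * (u / s + 1)) ≤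
          ∑ u ∈ Finset.range r, κ * (u + s) := by
        rw [Finset.mul_sum]
        refine Finset.sum_le_sum fun u _ => ?_
        have := Nat.mul_div_le u s
        calc s * (κ * (u / s + 1)) = κ * (s * (u / s) + s) := by ring
          _ ≤ κ * (u + s) := by gcongr
      have h5 : (∑ u ∈ Finset.range r, κ * (u + s)) * 2 ≤ κ * (r ^ 2 + 2 * s * r) := by
        rw [← Finset.mul_sum, Finset.sum_add_distrib, Finset.sum_const, Finset.card_range,
          smul_eq_mul, mul_assoc, add_mul, Finset.sum_range_id_mul_two]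
        refine Nat.mul_le_mul_left κ ?_
        have : r * (r - 1) ≤ r ^ 2 := by
          rw [pow_two]; exact Nat.mul_le_mul_left r (Nat.sub_le r 1)
        nlinarith
      nlinarith
    calc (s : ℝ≥0∞) * ∑ i, 2 * (jetDim P (v i) r : ℝ≥0∞)
        = (2 * s : ℕ) * ((∑ i, jetDim P (v i) r : ℕ) : ℝ≥0∞) := by
          push_cast
          rw [← Finset.mul_sum]
          ring
      _ ≤ (2 * s : ℕ) * (((∑ u ∈ Finset.range r, κ * (u / s + 1) : ℕ) : ℝ≥0∞) * deg P) := by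
          gcongr
      _ = ((2 * s * (∑ u ∈ Finset.range r, κ * (u / s + 1)) : ℕ) : ℝ≥0∞) * deg P := by
          rw [Nat.cast_mul (2 * s), mul_assoc]
      _ ≤ (κ * (r ^ 2 + 2 * s * r) : ℕ) * deg P := by
          gcongr
  have hle : ∀ᶠ r : ℕ in atTop, (s : ℝ≥0∞) * (∑ i, 2 * (jetDim P (v i) r : ℝ≥0∞) /
      (r : ℝ≥0∞) ^ 2) ≤ κ * deg P * (1 + (2 * s : ℝ≥0∞) / (r : ℝ≥0∞)) := by
    filter_upwards [eventually_ge_atTop 1] with r hr
    have hr0 : (r : ℝ≥0∞) ≠ 0 := by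
      simp only [ne_eq, Nat.cast_eq_zero]
      omega
    have e1 : (s : ℝ≥0∞) * (∑ i, 2 * (jetDim P (v i) r : ℝ≥0∞) / (r : ℝ≥0∞) ^ 2) =
        (s * ∑ i, 2 * (jetDim P (v i) r : ℝ≥0∞)) / (r : ℝ≥0∞) ^ 2 := by
      simp only [div_eq_mul_inv, ← Finset.sum_mul]
      ring
    rw [e1]
    apply ENNReal.div_le_of_le_mul
    refine (hj r).trans (le_of_eq ?_)
    have e2 : (1 + (2 * s : ℝ≥0∞) / (r : ℝ≥0∞)) * (r : ℝ≥0∞) ^ 2 =
        (r : ℝ≥0∞) ^ 2 + 2 * s * r := by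
      rw [add_mul, one_mul, pow_two, ← mul_assoc (2 * (s : ℝ≥0∞) / (r : ℝ≥0∞)),
        ENNReal.div_mul_cancel hr0 (ENNReal.natCast_ne_top r)]
    rw [mul_assoc (κ * deg P : ℝ≥0∞), e2]
    push_cast
    ring
  have hlim : Tendsto (fun r : ℕ => κ * deg P * (1 + (2 * s : ℝ≥0∞) / (r : ℝ≥0∞))) atTop
      (nhds (κ * deg P * (1 + 0))) := by
    refine ENNReal.Tendsto.const_mul ?_ (Or.inl (by simp))
    exact tendsto_const_nhds.add (limit_tendsto (2 * s)
      (ENNReal.mul_ne_top (by simp) (ENNReal.natCast_ne_top s)))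
  calc (s : ℝ≥0∞) * ∑ i, mult P (v i)
      ≤ s * liminf (fun r : ℕ => ∑ i, 2 * (jetDim P (v i) r : ℝ≥0∞) / (r : ℝ≥0∞) ^ 2) atTop := by
        gcongr
        exact limit_sum_liminf fun i (r : ℕ) =>
          2 * (jetDim P (v i) r : ℝ≥0∞) / (r : ℝ≥0∞) ^ 2
    _ = liminf (fun r : ℕ => (s : ℝ≥0∞) * ∑ i, 2 * (jetDim P (v i) r : ℝ≥0∞) /
          (r : ℝ≥0∞) ^ 2) atTop :=
        (ENNReal.liminf_const_mul_of_ne_top (ENNReal.natCast_ne_top s)).symm
    _ ≤ liminf (fun r : ℕ => κ * deg P * (1 + (2 * s : ℝ≥0∞) / (r : ℝ≥0∞))) atTop :=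
        liminf_le_liminf hle
    _ = κ * deg P := by rw [hlim.liminf_eq, add_zero, mul_one]

end Pool.Agent.Lib.MP_ed661f_ag.H
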