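import Pool.Agent.Lib.MP_ed661f_ag.H.Exists
import Pool.Agent.Lib.MP_ed661f_ag.H.Count
import Pool.Agent.Lib.MP_ed661f_ag.H.Limit

/-!
Separation of jets bounds the multiplicities of all curves.
-/

set_option autoImplicit false

open MvPolynomial Filter
open scoped ENNReal

namespace Pool.Agent.Lib.MP_ed661f_ag.H

variable {N : ℕ}

/-- **jets and Seshadri constants** -/
theorem mult_le_of_jetSep {n : ℕ} {I P : Ideal (Poly N)} (hP : P.IsPrime) (hIP : I ≤ P)
    {l : Poly N} (hl : l.IsHomogeneous 1) {v : Fin n → Fin (N + 1) → ℂ}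
    (hv : Function.Injective v) (hlv : ∀ i, MvPolynomial.eval (v i) l = 1) {κ s : ℕ}
    (hκ : 1 ≤ κ) (hs : 1 ≤ s) (h : JetSep I l v κ s) :
    (s : ℝ≥0∞) * ∑ i, mult P (v i) ≤ κ * deg P := by
  rcases exists_form_or_bounded hIP h with ⟨F, hF, hFP, hFv⟩ | hb
  · exact mult_sum_le hlv hκ hs fun t ht => lam_sum_le hP hl hv hκ hF hFP hFv t ht
  · have h0 : ∀ i, mult P (v i) = 0 := fun i => mult_eq_zero_of_bounded (hlv i) (hb i)
    simp [h0]

end Pool.Agent.Lib.MP_ed661f_ag.H
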