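import Pool.Agent.Lib.MP_ed661f_ag.H.QDefs

/-!
Q7: jets at a smooth point.
-/

set_option autoImplicit false

open MvPolynomial Filter
open scoped ENNReal

namespace Pool.Agent.Lib.MP_ed661f_ag.H

variable {N : ℕ}

/-- the ideal of the polynomials without terms of degree at most `s` -/
private def tzIdeal (s : ℕ) : Ideal (MvPolynomial (Fin 2) ℂ) where
  carrier := {f | Tz s f}
  add_mem' := by
    intro f g hf hg e he
    rw [coeff_add, hf e he, hg e he, add_zero]
  zero_mem' := by
    intro e _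
    exact coeff_zero e
  smul_mem' := by
    intro c f hf e he
    rw [smul_eq_mul, coeff_mul]
    apply Finset.sum_eq_zero
    rintro ⟨a, b⟩ hab
    rw [Finset.HasAntidiagonal.mem_antidiagonal] at hab
    have hb : b.degree ≤ s := by
      have : (a + b).degree = a.degree + b.degree := map_add _ _ _
      have h2 : (a + b).degree = e.degree := by rw [← hab]
      omega
    rw [hf b hb, mul_zero]

private lemma mem_tzIdeal {s : ℕ} {f : MvPolynomial (Fin 2) ℂ} : f ∈ tzIdeal s ↔ Tz s f :=
  Iff.rfl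

private lemma tz_mul {a b : ℕ} {f g : MvPolynomial (Fin 2) ℂ} (hf : Tz a f) (hg : Tz b g) :
    Tz (a + b + 1) (f * g) := by
  intro e he
  rw [coeff_mul]
  apply Finset.sum_eq_zero
  rintro ⟨x, y⟩ hxy
  rw [Finset.HasAntidiagonal.mem_antidiagonal] at hxy
  have h1 : (x + y).degree = x.degree + y.degree := map_add _ _ _
  have h2 : (x + y).degree = e.degree := by rw [← hxy]
  rcases le_or_gt x.degree a with h | h
  · rw [hf x h, zero_mul]
  · rw [hg y (by omega), mul_zero]

private lemma tz_mono {a b : ℕ} (h : a ≤ b) {f : MvPolynomial (Fin 2) ℂ} (hf : Tz b f) :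
    Tz a f := fun e he => hf e (he.trans h)

private lemma tz_zero_iff {f : MvPolynomial (Fin 2) ℂ} : Tz 0 f ↔ constantCoeff f = 0 := by
  constructor
  · intro h
    exact h 0 (by simp)
  · intro h e he
    have : e = 0 := by
      rw [Nat.le_zero] at he
      exact (Finsupp.degree_eq_zero_iff e).1 he
    rw [this]
    exact h

private lemma tz_pow {f : MvPolynomial (Fin 2) ℂ} (hf : Tz 0 f) (n : ℕ) : Tz n (f ^ (n + 1)) := by
  induction n with
  | zero => simpa using hf
  | succ n ih =>
    have := tz_mul ih hf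
    rw [← pow_succ] at this
    exact this

/-- substitution of polynomials without constant term -/
private lemma tz_aeval {g : Fin 2 → MvPolynomial (Fin 2) ℂ} (hg : ∀ i, Tz 0 (g i)) {s : ℕ}
    {f : MvPolynomial (Fin 2) ℂ} (hf : Tz s f) : Tz s (aeval g f) := by
  rw [← mem_tzIdeal]
  rw [f.as_sum, map_sum]
  apply Ideal.sum_mem
  intro e he
  have hdeg : s + 1 ≤ e.degree := by
    by_contra hlt
    rw [mem_support_iff] at he
    exact he (hf e (by omega))
  rw [aeval_monomial]
  apply Ideal.mul_mem_left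
  rw [mem_tzIdeal]
  -- powers
  have hprod : e.prod (fun i k => g i ^ k) = g 0 ^ (e 0) * g 1 ^ (e 1) := by
    rw [Finsupp.prod_fintype _ _ (fun i => pow_zero _)]
    exact Fin.prod_univ_two _
  rw [hprod]
  have hd : e.degree = e 0 + e 1 := by
    rw [Finsupp.degree_eq_sum]
    exact Fin.sum_univ_two _
  rw [hd] at hdeg
  rcases Nat.eq_zero_or_pos (e 0) with h0 | h0
  · rw [h0, pow_zero, one_mul]
    obtain ⟨k, hk⟩ : ∃ k, e 1 = k + 1 := ⟨e 1 - 1, by omega⟩
    rw [hk]
    exact tz_mono (by omega) (tz_pow (hg 1) k)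
  · obtain ⟨j, hj⟩ : ∃ j, e 0 = j + 1 := ⟨e 0 - 1, by omega⟩
    rw [hj]
    rcases Nat.eq_zero_or_pos (e 1) with h1 | h1
    · rw [h1, pow_zero, mul_one]
      exact tz_mono (by omega) (tz_pow (hg 0) j)
    · obtain ⟨k, hk⟩ : ∃ k, e 1 = k + 1 := ⟨e 1 - 1, by omega⟩
      rw [hk]
      exact tz_mono (by omega) (tz_mul (tz_pow (hg 0) j) (tz_pow (hg 1) k))

/-- the image of powers of the ideal of the point -/
private lemma tz_of_mem_pow {v : Fin (N + 1) → ℂ} (τ : Poly N →ₐ[ℂ] MvPolynomial (Fin 2) ℂ)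
    (hτ : ∀ F, constantCoeff (τ F) = eval v F) (k : ℕ) :
    ∀ F ∈ vecIdeal v ^ (k + 1), Tz k (τ F) := by
  induction k with
  | zero =>
    intro F hF
    rw [zero_add, pow_one] at hF
    rw [tz_zero_iff, hτ]
    exact hF
  | succ k ih =>
    intro F hF
    rw [pow_succ] at hF
    refine Submodule.mul_induction_on hF ?_ ?_
    · intro m hm n hn
      rw [map_mul]
      have h0 : Tz 0 (τ n) := by
        rw [tz_zero_iff, hτ]
        exact hn
      have h1 := tz_mul (ih m hm) h0
      simpa using h1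
    · intro x y hx hy
      rw [map_add]
      exact (tzIdeal (k + 1)).add_mem hx hy

private lemma self_sub_mem {v : Fin (N + 1) → ℂ} (F : Poly N) : F - C (eval v F) ∈ vecIdeal v := by
  rw [vecIdeal, RingHom.mem_ker, map_sub, eval_C, sub_self]

private lemma span_le {v : Fin (N + 1) → ℂ} (u1 u2 : Poly N) :
    Ideal.span {u1 - C (eval v u1), u2 - C (eval v u2)} ≤ vecIdeal v := by
  rw [Ideal.span_le]
  rintro x (rfl | rfl)
  · exact self_sub_mem _
  · exact self_sub_mem _

/-- elements of a power of `(w1, w2)` are polynomials in `w1, w2` up to higher order -/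
private lemma exists_poly_of_mem {v : Fin (N + 1) → ℂ} {w1 w2 : Poly N} (hw1 : w1 ∈ vecIdeal v)
    (hw2 : w2 ∈ vecIdeal v) (k : ℕ) :
    ∀ x ∈ Ideal.span {w1, w2} ^ k, ∃ Q : MvPolynomial (Fin 2) ℂ, Q.totalDegree ≤ k ∧
      x - aeval ![w1, w2] Q ∈ vecIdeal v ^ (k + 1) := by
  have hUM : Ideal.span {w1, w2} ≤ vecIdeal v := by
    rw [Ideal.span_le]
    rintro x (rfl | rfl)
    · exact hw1
    · exact hw2
  induction k with
  | zero =>
    intro x _
    refine ⟨C (eval v x), by simp, ?_⟩
    rw [zero_add, pow_one, aeval_C]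
    exact self_sub_mem x
  | succ k ih =>
    intro x hx
    rw [pow_succ] at hx
    refine Submodule.mul_induction_on hx ?_ ?_
    · intro m hm n hn
      obtain ⟨Q, hQ, hQm⟩ := ih m hm
      obtain ⟨g1, g2, hg⟩ := Ideal.mem_span_pair.1 hn
      set L : MvPolynomial (Fin 2) ℂ := C (eval v g1) * X 0 + C (eval v g2) * X 1 with hL
      have hLd : L.totalDegree ≤ 1 := by
        refine (totalDegree_add _ _).trans (max_le ?_ ?_)
        · refine (totalDegree_mul _ _).trans ?_
          rw [totalDegree_C, totalDegree_X]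
        · refine (totalDegree_mul _ _).trans ?_
          rw [totalDegree_C, totalDegree_X]
      have haL : aeval ![w1, w2] L = C (eval v g1) * w1 + C (eval v g2) * w2 := by
        rw [hL]; simp [algebraMap_eq]
      have hnL : n - aeval ![w1, w2] L ∈ vecIdeal v ^ 2 := by
        have : n - aeval ![w1, w2] L = (g1 - C (eval v g1)) * w1 + (g2 - C (eval v g2)) * w2 := by
          rw [haL, ← hg]; ring
        rw [this, pow_two]
        exact Ideal.add_mem _ (Ideal.mul_mem_mul (self_sub_mem _) hw1)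
          (Ideal.mul_mem_mul (self_sub_mem _) hw2)
      refine ⟨Q * L, (totalDegree_mul _ _).trans (by omega), ?_⟩
      have hmM : m ∈ vecIdeal v ^ k := Ideal.pow_right_mono hUM k hm
      have hnM : n ∈ vecIdeal v := hUM hn
      have hLM : aeval ![w1, w2] L ∈ vecIdeal v := by
        have h2 : n - (n - aeval ![w1, w2] L) ∈ vecIdeal v :=
          Ideal.sub_mem _ hnM (Ideal.pow_le_self (by norm_num) hnL)
        simpa using h2
      have : m * n - aeval ![w1, w2] (Q * L) =
          (m - aeval ![w1, w2] Q) * aeval ![w1, w2] L + m * (n - aeval ![w1, w2] L) := by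
        rw [map_mul]; ring
      rw [this]
      refine Ideal.add_mem _ ?_ ?_
      · rw [pow_succ (vecIdeal v) (k + 1)]
        exact Ideal.mul_mem_mul hQm hLM
      · rw [show k + 1 + 1 = k + 2 by ring, pow_add]
        exact Ideal.mul_mem_mul hmM hnL
    · rintro x y ⟨Q1, h1, h1'⟩ ⟨Q2, h2, h2'⟩
      refine ⟨Q1 + Q2, (totalDegree_add _ _).trans (max_le h1 h2), ?_⟩
      have : x + y - aeval ![w1, w2] (Q1 + Q2) =
          (x - aeval ![w1, w2] Q1) + (y - aeval ![w1, w2] Q2) := by
        rw [map_add]; ring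
      rw [this]
      exact Ideal.add_mem _ h1' h2'

private lemma pow_le_sup {J M U : Ideal (Poly N)} (hUM : U ≤ M) (h : M ≤ J ⊔ U ⊔ M ^ 2) (k : ℕ) :
    M ^ k ≤ J ⊔ U ^ k ⊔ M ^ (k + 1) := by
  induction k with
  | zero =>
    rw [pow_zero, pow_zero]
    exact le_sup_of_le_left (le_sup_of_le_right le_rfl)
  | succ k ih =>
    calc M ^ (k + 1) = M ^ k * M := pow_succ _ _
      _ ≤ (J ⊔ U ^ k ⊔ M ^ (k + 1)) * (J ⊔ U ⊔ M ^ 2) := Ideal.mul_mono ih h
      _ ≤ J ⊔ U ^ (k + 1) ⊔ M ^ (k + 1 + 1) := by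
        have hJ : J ≤ J ⊔ U ^ (k + 1) ⊔ M ^ (k + 1 + 1) := le_sup_of_le_left le_sup_left
        have hU : U ^ (k + 1) ≤ J ⊔ U ^ (k + 1) ⊔ M ^ (k + 1 + 1) := le_sup_of_le_left le_sup_right
        have hM : M ^ (k + 1 + 1) ≤ J ⊔ U ^ (k + 1) ⊔ M ^ (k + 1 + 1) := le_sup_right
        have hUk : U ^ k ≤ M ^ k := Ideal.pow_right_mono hUM k
        rw [Ideal.sup_mul, Ideal.sup_mul, Ideal.mul_sup, Ideal.mul_sup, Ideal.mul_sup, Ideal.mul_sup,
          Ideal.mul_sup, Ideal.mul_sup]
        refine sup_le (sup_le (sup_le (sup_le ?_ ?_) ?_) (sup_le (sup_le ?_ ?_) ?_))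
          (sup_le (sup_le ?_ ?_) ?_)
        · exact Ideal.mul_le_left.trans hJ
        · exact Ideal.mul_le_left.trans hJ
        · exact Ideal.mul_le_left.trans hJ
        · exact Ideal.mul_le_right.trans hJ
        · rw [← pow_succ]; exact hU
        · refine le_trans (Ideal.mul_mono hUk le_rfl) ?_
          rw [← pow_add]; exact hM
        · exact Ideal.mul_le_right.trans hJ
        · refine le_trans (Ideal.mul_mono le_rfl hUM) ?_
          rw [← pow_succ]; exact hM
        · refine le_trans (Ideal.mul_mono le_rfl (Ideal.pow_le_self (by norm_num))) ?_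
          rw [← pow_succ]; exact hM

private lemma exists_poly {J : Ideal (Poly N)} {v : Fin (N + 1) → ℂ} {w1 w2 : Poly N}
    (hw1 : w1 ∈ vecIdeal v) (hw2 : w2 ∈ vecIdeal v)
    (h : vecIdeal v ≤ J ⊔ Ideal.span {w1, w2} ⊔ vecIdeal v ^ 2) (s : ℕ) (F : Poly N) :
    ∃ Q : MvPolynomial (Fin 2) ℂ, Q.totalDegree ≤ s ∧
      F - aeval ![w1, w2] Q ∈ J ⊔ vecIdeal v ^ (s + 1) := by
  have hUM : Ideal.span {w1, w2} ≤ vecIdeal v := by
    rw [Ideal.span_le]
    rintro x (rfl | rfl)
    · exact hw1
    · exact hw2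
  induction s with
  | zero =>
    refine ⟨C (eval v F), by simp, ?_⟩
    rw [zero_add, pow_one, aeval_C]
    exact le_sup_right (a := J) (self_sub_mem F)
  | succ s ih =>
    obtain ⟨Q, hQ, hQm⟩ := ih
    obtain ⟨j, hj, m, hm, hjm⟩ := Submodule.mem_sup.1 hQm
    obtain ⟨y, hy, m', hm', hym⟩ := Submodule.mem_sup.1 (pow_le_sup hUM h (s + 1) hm)
    obtain ⟨j', hj', u, hu, hju⟩ := Submodule.mem_sup.1 hy
    obtain ⟨Q', hQ', hQm'⟩ := exists_poly_of_mem hw1 hw2 (s + 1) u hu
    refine ⟨Q + Q', (totalDegree_add _ _).trans (max_le (by omega) hQ'), ?_⟩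
    have : F - aeval ![w1, w2] (Q + Q') = (j + j') + ((u - aeval ![w1, w2] Q') + m') := by
      rw [map_add]
      have e1 : F = aeval ![w1, w2] Q + (j + m) := by rw [hjm]; ring
      rw [← hym, ← hju] at e1
      rw [e1]; ring
    rw [this]
    refine Ideal.add_mem _ ?_ ?_
    · exact le_sup_left (a := J) (Ideal.add_mem _ hj hj')
    · exact le_sup_right (a := J) (Ideal.add_mem _ hQm' hm')

theorem mem_of_tz {J : Ideal (Poly N)} {v : Fin (N + 1) → ℂ} {u1 u2 : Poly N}
    (hsm : vecIdeal v ≤ J ⊔ Ideal.span {u1 - C (eval v u1), u2 - C (eval v u2)} ⊔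
      vecIdeal v ^ 2)
    (τ : Poly N →ₐ[ℂ] MvPolynomial (Fin 2) ℂ) {s : ℕ} (hJ : ∀ F ∈ J, Tz s (τ F))
    (hτ : ∀ F, constantCoeff (τ F) = eval v F) {α β γ δ : ℂ} (hdet : α * δ - β * γ ≠ 0)
    (h1 : Tz s (τ u1 - (C (eval v u1) + C α * X 0 + C β * X 1)))
    (h2 : Tz s (τ u2 - (C (eval v u2) + C γ * X 0 + C δ * X 1))) {F : Poly N}
    (hF : Tz s (τ F)) : F ∈ J ⊔ vecIdeal v ^ (s + 1) := by
  set w1 : Poly N := u1 - C (eval v u1) with hw1
  set w2 : Poly N := u2 - C (eval v u2) with hw2
  obtain ⟨P, hP, hPm⟩ := exists_poly (J := J) (self_sub_mem u1) (self_sub_mem u2) hsm s F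
  -- the polynomial `P` vanishes
  have hP0 : P = 0 := by
    have hCτ : ∀ c : ℂ, τ (C c) = C c := fun c => by
      have := τ.commutes c
      rwa [algebraMap_eq, algebraMap_eq] at this
    set L : Fin 2 → MvPolynomial (Fin 2) ℂ :=
      ![C α * X 0 + C β * X 1, C γ * X 0 + C δ * X 1] with hL
    -- τ (P (w1, w2)) has no small terms
    have hA : Tz s (τ (aeval ![w1, w2] P)) := by
      obtain ⟨j, hj, m, hm, hjm⟩ := Submodule.mem_sup.1 hPm
      have e1 : τ (aeval ![w1, w2] P) = τ F - (τ j + τ m) := by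
        rw [← map_add, hjm, map_sub]; ring
      rw [e1]
      exact (tzIdeal s).sub_mem hF ((tzIdeal s).add_mem (hJ j hj) (tz_of_mem_pow τ hτ s m hm))
    -- replace by the linear forms
    have hB : τ (aeval ![w1, w2] P) - aeval L P ∈ tzIdeal s := by
      rw [← Ideal.Quotient.eq_zero_iff_mem, map_sub, sub_eq_zero]
      have hext : ((Ideal.Quotient.mkₐ ℂ (tzIdeal s)).comp (τ.comp (aeval ![w1, w2]))) =
          ((Ideal.Quotient.mkₐ ℂ (tzIdeal s)).comp (aeval L)) := by
        apply MvPolynomial.algHom_ext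
        intro i
        simp only [AlgHom.comp_apply, aeval_X, Ideal.Quotient.mkₐ_eq_mk]
        rw [Ideal.Quotient.eq, mem_tzIdeal]
        fin_cases i
        · have : τ w1 - L 0 = τ u1 - (C (eval v u1) + C α * X 0 + C β * X 1) := by
            rw [hw1, map_sub, hCτ, hL]; simp; ring
          exact this ▸ h1
        · have : τ w2 - L 1 = τ u2 - (C (eval v u2) + C γ * X 0 + C δ * X 1) := by
            rw [hw2, map_sub, hCτ, hL]; simp; ring
          exact this ▸ h2
      exact DFunLike.congr_fun hext P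
    have hC : Tz s (aeval L P) := by
      have : aeval L P = τ (aeval ![w1, w2] P) - (τ (aeval ![w1, w2] P) - aeval L P) := by ring
      rw [this]
      exact (tzIdeal s).sub_mem hA hB
    -- invert the linear substitution
    set D : ℂ := α * δ - β * γ with hD
    set g : Fin 2 → MvPolynomial (Fin 2) ℂ :=
      ![C (δ / D) * X 0 - C (β / D) * X 1, C (α / D) * X 1 - C (γ / D) * X 0] with hg
    have hg0 : ∀ i, Tz 0 (g i) := by
      intro i
      rw [tz_zero_iff]
      fin_cases i <;> simp [hg]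
    have hinv : aeval g (aeval L P) = P := by
      have hext : (aeval g).comp (aeval L) = AlgHom.id ℂ (MvPolynomial (Fin 2) ℂ) := by
        apply MvPolynomial.algHom_ext
        intro i
        fin_cases i
        · simp only [AlgHom.comp_apply, aeval_X, AlgHom.id_apply, hL, hg]
          simp only [Fin.zero_eta, Fin.isValue, Matrix.cons_val_zero, map_add, map_mul, aeval_C,
            aeval_X, Matrix.cons_val_one, algebraMap_eq]
          have e1 : C α * (C (δ / D) * X 0 - C (β / D) * X 1) +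
              C β * (C (α / D) * X 1 - C (γ / D) * X 0) =
              C (α * (δ / D) - β * (γ / D)) * X 0 + C (β * (α / D) - α * (β / D)) * (X 1 :
                MvPolynomial (Fin 2) ℂ) := by
            simp only [map_sub, map_mul]; ring
          rw [e1]
          have e2 : α * (δ / D) - β * (γ / D) = 1 := by
            rw [← mul_div_assoc, ← mul_div_assoc, ← sub_div, div_self hdet]
          have e3 : β * (α / D) - α * (β / D) = 0 := by ring
          rw [e2, e3]; simp
        · simp only [AlgHom.comp_apply, aeval_X, AlgHom.id_apply, hL, hg]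
          simp only [Fin.mk_one, Fin.isValue, Matrix.cons_val_zero, map_add, map_mul, aeval_C,
            aeval_X, Matrix.cons_val_one, algebraMap_eq]
          have e1 : C γ * (C (δ / D) * X 0 - C (β / D) * X 1) +
              C δ * (C (α / D) * X 1 - C (γ / D) * X 0) =
              C (γ * (δ / D) - δ * (γ / D)) * X 0 + C (δ * (α / D) - γ * (β / D)) * (X 1 :
                MvPolynomial (Fin 2) ℂ) := by
            simp only [map_sub, map_mul]; ring
          rw [e1]
          have e2 : δ * (α / D) - γ * (β / D) = 1 := by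
            rw [← mul_div_assoc, ← mul_div_assoc, ← sub_div, mul_comm δ α, mul_comm γ β,
              div_self hdet]
          have e3 : γ * (δ / D) - δ * (γ / D) = 0 := by ring
          rw [e2, e3]; simp
      have := DFunLike.congr_fun hext P
      simpa using this
    have hPtz : Tz s P := by
      rw [← hinv]
      exact tz_aeval hg0 hC
    ext e
    rw [coeff_zero]
    rcases le_or_gt e.degree s with h | h
    · exact hPtz e h
    · by_contra hne
      have := le_totalDegree (mem_support_iff.2 hne)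
      have h3 : e.degree = e.sum fun _ k => k := rfl
      omega
  rw [hP0, map_zero, sub_zero] at hPm
  exact hPm

end Pool.Agent.Lib.MP_ed661f_ag.H
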