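import Pool.Agent.Lib.MP_ed661f_ag.H.Noether

/-! Q1b: Krull dimension of finite extensions. -/

set_option autoImplicit false

open MvPolynomial

namespace Pool.Agent.Lib.MP_ed661f_ag.H

variable {N : ℕ}

theorem ringKrullDim_eq_of_finite {A B : Type*} [CommRing A] [CommRing B] (f : A →+* B)
    (hf : Function.Injective f) (hfin : f.Finite) : ringKrullDim A = ringKrullDim B := by
  letI := f.toAlgebra
  have hfin' : Module.Finite A B := hfin
  have hint : Algebra.IsIntegral A B := Algebra.IsIntegral.of_finite A B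
  have hinj : Function.Injective (algebraMap A B) := hf
  have hker : RingHom.ker (algebraMap A B) = ⊥ := (RingHom.injective_iff_ker_eq_bot _).1 hinj
  apply le_antisymm
  · refine iSup_le fun l => ?_
    obtain ⟨Q, -, hQ, hQ'⟩ := Ideal.exists_ideal_over_prime_of_isIntegral l.head.asIdeal
      (⊥ : Ideal B) (by rw [← RingHom.ker_eq_comap_bot, hker]; exact bot_le)
    have : Q.LiesOver (RelSeries.head l).asIdeal := ⟨hQ'.symm⟩
    obtain ⟨L, hL, -, -⟩ := Ideal.exists_ltSeries_of_hasGoingUp l Q
    rw [← hL]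
    exact Order.LTSeries.length_le_krullDim L
  · refine Order.krullDim_le_of_strictMono (PrimeSpectrum.comap (algebraMap A B)) ?_
    intro I J hIJ
    exact Ideal.IsIntegral.comap_lt_comap hIJ

theorem ringKrullDim_mvPolynomial (r : ℕ) : ringKrullDim (MvPolynomial (Fin r) ℂ) = r := by
  rw [MvPolynomial.ringKrullDim_of_isNoetherianRing, ringKrullDim_eq_zero_of_field]
  simp

theorem exists_noether {J : Ideal (Poly N)} (hJ : J ≠ ⊤) (hh : Homog J) {r : ℕ}
    (hr : ringKrullDim (Poly N ⧸ J) = r) :
    ∃ y : Fin r → Poly N, (∀ i, (y i).IsHomogeneous 1) ∧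
      Function.Injective (proj J y) ∧ (proj J y).toRingHom.Finite := by
  obtain ⟨r', y, h1, h2, h3⟩ := exists_noether_aux hJ hh
  have h4 := ringKrullDim_eq_of_finite _ h2 h3
  rw [hr, ringKrullDim_mvPolynomial] at h4
  obtain rfl : r' = r := by exact_mod_cast h4
  exact ⟨y, h1, h2, h3⟩

end Pool.Agent.Lib.MP_ed661f_ag.H
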