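import Pool.Agent.Lib.MP_ed661f_ag.H.QDefs

/-! Leading terms. -/

set_option autoImplicit false

open MvPolynomial

namespace Pool.Agent.Lib.MP_ed661f_ag.H

/-- the leading term of the expansion -/
theorem coeff_pointJet {q : ℂ × ℂ} {w : ℕ}
    {Ψ : MvPowerSeries (Fin 2) ℂ →ₐ[ℂ] PowerSeries (MvPolynomial (Fin 2) ℂ)}
    (hΨ : ∀ f k, PowerSeries.coeff k (Ψ f) =
        ∑ j ∈ Finset.range (k + 1), if w * j ≤ k then
          C (cf f (k - w * j) j) * (C q.1 + X 0) ^ (k - w * j) * (C q.2 + X 1) ^ j else 0)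
    {f : MvPowerSeries (Fin 2) ℂ} {α β : ℕ} (hα : α < w) (h1 : cf f α β = 1)
    (h2 : ∀ i j, (j < β ∨ (j = β ∧ i < α)) → cf f i j = 0) :
    PowerSeries.coeff (α + w * β) (Ψ f) = (C q.1 + X 0) ^ α * (C q.2 + X 1) ^ β ∧
    ∀ k < α + w * β, PowerSeries.coeff k (Ψ f) = 0 := by
  constructor
  · rw [hΨ, Finset.sum_eq_single β]
    · rw [if_pos (by omega), show α + w * β - w * β = α by omega, h1, C_1, one_mul]
    · intro j _ hj
      rcases lt_or_gt_of_ne hj with h3 | h3
      · rw [h2 _ _ (Or.inl h3), C_0, zero_mul, zero_mul, ite_self]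
      · rw [if_neg]
        have h4 : w * (β + 1) ≤ w * j := Nat.mul_le_mul_left w h3
        rw [Nat.mul_add] at h4
        omega
    · intro h3
      rw [Finset.mem_range] at h3
      have h4 : β ≤ w * β := Nat.le_mul_of_pos_left _ (by omega)
      omega
  · intro k hk
    rw [hΨ]
    refine Finset.sum_eq_zero fun j _ => ?_
    by_cases h3 : w * j ≤ k
    · rw [if_pos h3]
      rcases lt_trichotomy j β with h4 | h4 | h4
      · rw [h2 _ _ (Or.inl h4), C_0, zero_mul, zero_mul]
      · rw [h2 _ _ (Or.inr ⟨h4, by rw [h4] at h3 ⊢; omega⟩), C_0, zero_mul, zero_mul]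
      · exfalso
        have h5 : w * (β + 1) ≤ w * j := Nat.mul_le_mul_left w h4
        rw [Nat.mul_add] at h5
        omega
    · rw [if_neg h3]

/-- a determinant of power series with given leading terms -/
theorem det_ne_zero_of_leading {ι : Type} [Fintype ι] [DecidableEq ι]
    (M : ι → ι → PowerSeries ℂ) (M0 : ι → ι → ℂ) (m : ι → ℕ)
    (h1 : ∀ i j, PowerSeries.coeff (m j) (M i j) = M0 i j)
    (h2 : ∀ i j, ∀ k < m j, PowerSeries.coeff k (M i j) = 0)
    (hdet : (Matrix.of M0).det ≠ 0) : (Matrix.of M).det ≠ 0 := by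
  have h3 : ∀ i j, ∃ g : PowerSeries ℂ, M i j = PowerSeries.X ^ m j * g :=
    fun i j => (PowerSeries.X_pow_dvd_iff).2 (h2 i j)
  choose g hg using h3
  have h4 : Matrix.of M = Matrix.of fun i j => PowerSeries.X ^ m j * g i j := by
    exact congrArg Matrix.of (funext fun i => funext fun j => hg i j)
  have h5 : (Matrix.of M).det = (∏ j, PowerSeries.X ^ m j) * (Matrix.of g).det := by
    rw [h4]
    exact Matrix.det_mul_row (fun j => PowerSeries.X ^ m j) (Matrix.of g)
  have h6 : (PowerSeries.constantCoeff (R := ℂ)).mapMatrix (Matrix.of g) = Matrix.of M0 := by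
    ext i j
    rw [RingHom.mapMatrix_apply, Matrix.map_apply, Matrix.of_apply, Matrix.of_apply, ← h1 i j,
      hg i j, PowerSeries.coeff_X_pow_mul', if_pos le_rfl, Nat.sub_self,
      PowerSeries.coeff_zero_eq_constantCoeff]
  have h7 : (Matrix.of g).det ≠ 0 := by
    intro h0
    apply hdet
    rw [← h6, ← RingHom.map_det, h0, map_zero]
  rw [h5]
  exact mul_ne_zero (Finset.prod_ne_zero_iff.2 fun j _ => pow_ne_zero _ PowerSeries.X_ne_zero) h7

end Pool.Agent.Lib.MP_ed661f_ag.H
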