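import Pool.Agent.Lib.MP_ed661f_ag.H.SlopeCoeff
import Pool.Agent.Lib.MP_6b2d39_ag.Transfer

/-!
Part H, task Q4a: a generic line keeps the linear independence of power series.
-/

set_option autoImplicit false

open MvPolynomial Filter
open scoped ENNReal

namespace Pool.Agent.Lib.MP_ed661f_ag.H

open Pool.Agent.Lib.MP_6b2d39_ag

/-- the coefficient of `u ^ m` in `u ^ a E (u, c u)`, a polynomial in `c` -/
noncomputable def ent (E : MvPowerSeries (Fin 2) ℂ) (a m : ℕ) : Polynomial ℂ :=
  if a ≤ m then ∑ p ∈ Finset.HasAntidiagonal.antidiagonal (m - a),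
    Polynomial.C (cf E p.1 p.2) * Polynomial.X ^ p.2 else 0

theorem eval_ent (E : MvPowerSeries (Fin 2) ℂ) (a m : ℕ) (c : ℂ) :
    (ent E a m).eval c = PowerSeries.coeff m (PowerSeries.X ^ a * restr c E) := by
  rw [PowerSeries.coeff_X_pow_mul', ent]
  split_ifs with h
  · rw [Polynomial.eval_finsetSum, restr, PowerSeries.coeff_mk]
    refine Finset.sum_congr rfl fun p _ => ?_
    simp
  · simp

/-- a power series whose restrictions to all lines vanish is zero -/
theorem eq_zero_of_restr {f : MvPowerSeries (Fin 2) ℂ} (h : ∀ c : ℂ, restr c f = 0) : f = 0 := by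
  ext d
  rw [eq_ex2 d]
  have h1 : (ent f 0 (d 0 + d 1)) = 0 := by
    apply Polynomial.funext
    intro c
    rw [eval_ent, h c, mul_zero, map_zero, Polynomial.eval_zero]
  rw [ent, if_pos (Nat.zero_le _), Nat.sub_zero] at h1
  have h2 := congrArg (fun q => Polynomial.coeff q (d 1)) h1
  simp only [Polynomial.finsetSum_coeff, Polynomial.coeff_C_mul, Polynomial.coeff_X_pow,
    Polynomial.coeff_zero, mul_ite, mul_one, mul_zero] at h2
  rw [Finset.sum_eq_single (d 0, d 1)] at h2
  · rw [if_pos rfl] at h2
    exact h2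
  · intro p hp hne
    rw [Finset.HasAntidiagonal.mem_antidiagonal] at hp
    rw [if_neg]
    intro h3
    apply hne
    ext
    · simp only; omega
    · simp only; omega
  · intro h3
    exact absurd (by simp) h3

/-- the form of degree `M` with the coefficients of `p` -/
noncomputable def homog (M : ℕ) (p : Polynomial ℂ) : MvPolynomial (Fin 2) ℂ :=
  ∑ t ∈ Finset.range (M + 1), C (p.coeff t) * X 0 ^ (M - t) * X 1 ^ t

theorem restr_sum {ι : Type*} (s : Finset ι) (c : ℂ) (f : ι → MvPowerSeries (Fin 2) ℂ) :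
    restr c (∑ i ∈ s, f i) = ∑ i ∈ s, restr c (f i) := by
  rw [restr_eq_subst, map_sum, map_sum]
  exact Finset.sum_congr rfl fun i _ => (restr_eq_subst c (f i)).symm

theorem restr_pow (c : ℂ) (f : MvPowerSeries (Fin 2) ℂ) (k : ℕ) :
    restr c (f ^ k) = restr c f ^ k := by
  rw [restr_eq_subst, restr_eq_subst, map_pow, map_pow]

theorem restr_homog (M : ℕ) (p : Polynomial ℂ) (hp : p.natDegree ≤ M) (c : ℂ) :
    restr c ((homog M p : MvPolynomial (Fin 2) ℂ) : MvPowerSeries (Fin 2) ℂ) =
      PowerSeries.C (p.eval c) * PowerSeries.X ^ M := by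
  have h1 : ((homog M p : MvPolynomial (Fin 2) ℂ) : MvPowerSeries (Fin 2) ℂ) =
      ∑ t ∈ Finset.range (M + 1), MvPowerSeries.C (p.coeff t) * MvPowerSeries.X 0 ^ (M - t) *
        MvPowerSeries.X 1 ^ t := by
    unfold homog
    change (MvPolynomial.coeToMvPowerSeries.ringHom : MvPolynomial (Fin 2) ℂ →+* _) _ = _
    rw [map_sum]
    refine Finset.sum_congr rfl fun t _ => ?_
    rw [map_mul, map_mul, map_pow, map_pow]
    simp
  rw [h1, restr_sum, Polynomial.eval_eq_sum_range' (Nat.lt_succ_of_le hp), map_sum,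
    Finset.sum_mul]
  refine Finset.sum_congr rfl fun t ht => ?_
  rw [Finset.mem_range] at ht
  rw [restr_mul, restr_mul, restr_pow, restr_pow, restr_X, restr_X1, restr_C, smul_pow,
    map_mul, map_pow]
  have h2 : M = (M - t) + t := by omega
  have h3 : (c ^ t • PowerSeries.X ^ t : PowerSeries ℂ) =
      PowerSeries.C c ^ t * PowerSeries.X ^ t := by
    rw [← map_pow, PowerSeries.smul_eq_C_mul]
  rw [h3]
  conv_rhs => rw [h2, pow_add]
  ring

theorem coeff_homog_mul (M : ℕ) (p : Polynomial ℂ) (a i t : ℕ) (ht : t ≤ M) :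
    (homog M p * X 0 ^ a).coeff (ex2 i t) = if i = M - t + a then p.coeff t else 0 := by
  classical
  have h1 : homog M p * X 0 ^ a = ∑ t ∈ Finset.range (M + 1),
      monomial (ex2 (M - t + a) t) (p.coeff t) := by
    unfold homog
    rw [Finset.sum_mul]
    refine Finset.sum_congr rfl fun t _ => ?_
    rw [monomial_eq, Finsupp.prod_fintype _ _ (fun i => pow_zero _), Fin.prod_univ_two, ex2_zero,
      ex2_one, pow_add]
    ring
  rw [h1, coeff_sum]
  rw [Finset.sum_eq_single t]
  · rw [coeff_monomial]
    by_cases h : i = M - t + a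
    · rw [if_pos h, if_pos (by rw [h])]
    · rw [if_neg h, if_neg]
      intro h2
      exact h (ex2_inj h2).1.symm
  · intro s _ hs
    rw [coeff_monomial, if_neg]
    intro h2
    exact hs (ex2_inj h2).2
  · intro h2
    exact absurd (Finset.mem_range.2 (by omega)) h2

theorem exists_slope {d : ℕ} (E : Fin d → MvPowerSeries (Fin 2) ℂ)
    (hE : ∀ c : Fin d → MvPolynomial (Fin 2) ℂ,
      ∑ l, (c l : MvPowerSeries (Fin 2) ℂ) * E l = 0 → c = 0) (K : ℕ) :
    ∃ c : ℂ, ∀ p : Fin d → Polynomial ℂ, (∀ l, (p l).natDegree ≤ K) →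
      ∑ l, (p l : PowerSeries ℂ) * restr c (E l) = 0 → p = 0 := by
  classical
  -- independence over the polynomials in the slope
  have key : ∀ P : Fin d × Fin (K + 1) → Polynomial ℂ,
      (∀ m, ∑ i : Fin d × Fin (K + 1), ent (E i.1) i.2 m * P i = 0) → P = 0 := by
    intro P hP
    obtain ⟨M, hM⟩ : ∃ M : ℕ, ∀ i, (P i).natDegree ≤ M :=
      ⟨∑ i, (P i).natDegree, fun i => Finset.single_le_sum
        (f := fun i => (P i).natDegree) (fun _ _ => Nat.zero_le _) (Finset.mem_univ i)⟩
    have hC := hE (fun l => ∑ a : Fin (K + 1), homog M (P (l, a)) * X 0 ^ (a : ℕ)) (by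
      apply eq_zero_of_restr
      intro c
      rw [restr_sum]
      have h1 : ∀ l : Fin d, restr c (((∑ a : Fin (K + 1), homog M (P (l, a)) * X 0 ^ (a : ℕ) :
          MvPolynomial (Fin 2) ℂ) : MvPowerSeries (Fin 2) ℂ) * E l) =
          PowerSeries.X ^ M * ∑ a : Fin (K + 1), PowerSeries.C ((P (l, a)).eval c) *
            (PowerSeries.X ^ (a : ℕ) * restr c (E l)) := by
        intro l
        have h2 : ((∑ a : Fin (K + 1), homog M (P (l, a)) * X 0 ^ (a : ℕ) :
            MvPolynomial (Fin 2) ℂ) : MvPowerSeries (Fin 2) ℂ) =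
            ∑ a : Fin (K + 1), (homog M (P (l, a)) : MvPowerSeries (Fin 2) ℂ) *
              MvPowerSeries.X 0 ^ (a : ℕ) := by
          change (MvPolynomial.coeToMvPowerSeries.ringHom : MvPolynomial (Fin 2) ℂ →+* _) _ = _
          rw [map_sum]
          refine Finset.sum_congr rfl fun a _ => ?_
          rw [map_mul, map_pow]
          simp
        rw [restr_mul, h2, restr_sum, Finset.mul_sum, Finset.sum_mul]
        refine Finset.sum_congr rfl fun a _ => ?_
        rw [restr_mul, restr_pow, restr_X, restr_homog M _ (hM _)]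
        ring
      rw [Finset.sum_congr rfl fun l _ => h1 l, ← Finset.mul_sum]
      have h3 : ∑ l : Fin d, ∑ a : Fin (K + 1), PowerSeries.C ((P (l, a)).eval c) *
            (PowerSeries.X ^ (a : ℕ) * restr c (E l)) = 0 := by
        ext m
        rw [map_zero, map_sum]
        have h4 := congrArg (Polynomial.eval c) (hP m)
        rw [Polynomial.eval_finsetSum, Polynomial.eval_zero, Fintype.sum_prod_type] at h4
        rw [← h4]
        refine Finset.sum_congr rfl fun l _ => ?_
        rw [map_sum]
        refine Finset.sum_congr rfl fun a _ => ?_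
        rw [PowerSeries.coeff_C_mul, Polynomial.eval_mul, eval_ent, mul_comm]
      rw [h3, mul_zero])
    funext i
    obtain ⟨l, a⟩ := i
    ext t
    rw [Pi.zero_apply, Polynomial.coeff_zero]
    by_cases ht : t ≤ M
    · have h5 := congrArg (fun q : MvPolynomial (Fin 2) ℂ => q.coeff (ex2 (M - t + a) t))
        (congrFun hC l)
      simp only [coeff_sum, Pi.zero_apply, coeff_zero] at h5
      rw [Finset.sum_eq_single a] at h5
      · rw [coeff_homog_mul _ _ _ _ _ ht, if_pos rfl] at h5
        exact h5
      · intro a' _ ha'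
        rw [coeff_homog_mul _ _ _ _ _ ht, if_neg]
        intro h6
        apply ha'
        ext
        omega
      · intro h6
        exact absurd (Finset.mem_univ a) h6
    · exact Polynomial.coeff_eq_zero_of_natDegree_lt (lt_of_le_of_lt (hM _) (by omega))
  -- a minor
  obtain ⟨am, ham⟩ := Transfer.exists_minor (K := FractionRing (Polynomial ℂ))
    (I := Fin d × Fin (K + 1)) (J := ℕ)
    (fun m i => algebraMap (Polynomial ℂ) _ (ent (E i.1) i.2 m)) (by
      intro v hv
      obtain ⟨b, hb⟩ := IsLocalization.exist_integer_multiples_of_finite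
        (nonZeroDivisors (Polynomial ℂ)) v
      choose P hP using hb
      have hb0 : (algebraMap (Polynomial ℂ) (FractionRing (Polynomial ℂ)) b) ≠ 0 := by
        intro h
        have := (IsFractionRing.injective (Polynomial ℂ) (FractionRing (Polynomial ℂ)))
          (h.trans (map_zero _).symm)
        exact nonZeroDivisors.coe_ne_zero b this
      have hP0 : P = 0 := by
        apply key
        intro m
        apply IsFractionRing.injective (Polynomial ℂ) (FractionRing (Polynomial ℂ))
        rw [map_zero, map_sum]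
        have h1 := congrArg (fun x => algebraMap (Polynomial ℂ) (FractionRing (Polynomial ℂ)) b * x)
          (hv m)
        simp only [mul_zero] at h1
        rw [← h1, Finset.mul_sum]
        refine Finset.sum_congr rfl fun i _ => ?_
        rw [map_mul, hP i, Algebra.smul_def]
        ring
      funext i
      have h2 := hP i
      rw [hP0, Pi.zero_apply, map_zero, Algebra.smul_def] at h2
      rcases mul_eq_zero.1 h2.symm with h3 | h3
      · exact absurd h3 hb0
      · exact h3)
  -- choice of the slope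
  obtain ⟨Δ, hΔ⟩ : ∃ Δ : Polynomial ℂ,
      Δ = (Matrix.of fun i i' : Fin d × Fin (K + 1) => ent (E i'.1) i'.2 (am i)).det := ⟨_, rfl⟩
  have hΔ0 : Δ ≠ 0 := by
    intro h
    apply ham
    have h1 : (Matrix.of fun i i' : Fin d × Fin (K + 1) =>
        algebraMap (Polynomial ℂ) (FractionRing (Polynomial ℂ)) (ent (E i'.1) i'.2 (am i))) =
        (algebraMap (Polynomial ℂ) (FractionRing (Polynomial ℂ))).mapMatrix
          (Matrix.of fun i i' : Fin d × Fin (K + 1) => ent (E i'.1) i'.2 (am i)) := by
      ext i i'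
      rfl
    rw [h1, ← RingHom.map_det, ← hΔ, h, map_zero]
  obtain ⟨c, hc⟩ : ∃ c : ℂ, Δ.eval c ≠ 0 := by
    by_contra h
    push Not at h
    exact hΔ0 (Polynomial.funext fun c => by rw [h c, Polynomial.eval_zero])
  refine ⟨c, fun p hp hsum => ?_⟩
  have hdet : (Matrix.of fun i i' : Fin d × Fin (K + 1) =>
      PowerSeries.coeff (am i) (PowerSeries.X ^ (i'.2 : ℕ) * restr c (E i'.1))).det ≠ 0 := by
    have h1 : (Matrix.of fun i i' : Fin d × Fin (K + 1) =>
        PowerSeries.coeff (am i) (PowerSeries.X ^ (i'.2 : ℕ) * restr c (E i'.1))) =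
        (Polynomial.evalRingHom c).mapMatrix
          (Matrix.of fun i i' : Fin d × Fin (K + 1) => ent (E i'.1) i'.2 (am i)) := by
      ext i i'
      rw [RingHom.mapMatrix_apply, Matrix.map_apply, Matrix.of_apply, Matrix.of_apply,
        Polynomial.coe_evalRingHom, eval_ent]
    rw [h1, ← RingHom.map_det, ← hΔ]
    exact hc
  have hz := Transfer.eq_zero_of_minor (K := ℂ)
    (fun m (i : Fin d × Fin (K + 1)) =>
      PowerSeries.coeff m (PowerSeries.X ^ (i.2 : ℕ) * restr c (E i.1))) am hdet
    (fun i => (p i.1).coeff i.2) (by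
      intro m
      have h1 := congrArg (PowerSeries.coeff m) hsum
      rw [map_zero, map_sum] at h1
      rw [← h1, Fintype.sum_prod_type]
      refine Finset.sum_congr rfl fun l _ => ?_
      have h2 : (p l : PowerSeries ℂ) = ∑ a : Fin (K + 1),
          PowerSeries.C ((p l).coeff a) * PowerSeries.X ^ (a : ℕ) := by
        have h3 : p l = ∑ a : Fin (K + 1),
            Polynomial.C ((p l).coeff a) * Polynomial.X ^ (a : ℕ) := by
          conv_lhs => rw [(p l).as_sum_range_C_mul_X_pow' (Nat.lt_succ_of_le (hp l))]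
          rw [Finset.sum_range]
        have h4 : (p l : PowerSeries ℂ) = Polynomial.coeToPowerSeries.ringHom (p l) := rfl
        have h5 : Polynomial.coeToPowerSeries.ringHom (p l) =
            Polynomial.coeToPowerSeries.ringHom (∑ a : Fin (K + 1),
              Polynomial.C ((p l).coeff a) * Polynomial.X ^ (a : ℕ)) := congrArg _ h3
        rw [h4, h5, map_sum]
        refine Finset.sum_congr rfl fun a _ => ?_
        rw [map_mul, map_pow]
        simp
      rw [h2, Finset.sum_mul, map_sum]
      refine Finset.sum_congr rfl fun a _ => ?_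
      rw [mul_assoc, PowerSeries.coeff_C_mul, mul_comm])
  funext l
  ext t
  rw [Pi.zero_apply, Polynomial.coeff_zero]
  by_cases ht : t < K + 1
  · exact congrFun hz (l, ⟨t, ht⟩)
  · exact Polynomial.coeff_eq_zero_of_natDegree_lt (lt_of_le_of_lt (hp l) (by omega))

end Pool.Agent.Lib.MP_ed661f_ag.H
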