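import Pool.Agent.Lib.MP_ed661f_ag.H.PFinal
import Pool.Agent.Lib.MP_ed661f_ag.H.Num

/-!
The polynomial half of the theorem on all surfaces.
-/

set_option autoImplicit false

open Polynomial

namespace Pool.Agent.Lib.MP_ed661f_ag.H

theorem theoremP {δ n : ℕ} (hδ : 1 ≤ δ) (hn : 2 ^ 101 * δ ≤ n) (C : ℕ) :
    ∃ κ s : ℕ, 1 ≤ s ∧ s ≤ κ ∧
      √(δ / n * (1 - Real.exp (-(Real.log n) ^ 2 / 14))) ≤ s / κ ∧
      ∀ S : Finset (ℕ × ℕ), (∀ b ≤ κ, δ * (κ - b) ≤ (S.filter fun s => s.2 = b).card + C) →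
        ∃ q : Fin n → ℂ × ℂ, Function.Injective q ∧ MonSep S q s := by
  obtain ⟨σ, x, h, -, hx, hx2⟩ := chainD n δ hδ hn
  have h1 : 2 ^ 101 ≤ n := by nlinarith
  have h2 : δ ≤ n := by nlinarith
  exact monSep_of_rch h hδ hx h2 C (final_ineq hδ h1 hx hx2)

end Pool.Agent.Lib.MP_ed661f_ag.H
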