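import Pool.Agent.Lib.MP_ed661f_ag.H.Line
import Pool.Agent.Lib.MP_ed661f_ag.H.Echelon

/-!
Part H, task Q4d: the sections of degree `κ` have leading exponents with long rows.
-/

set_option autoImplicit false

open MvPolynomial Filter
open scoped ENNReal

namespace Pool.Agent.Lib.MP_ed661f_ag.H

variable {N : ℕ}

/-- the powers of `u` times the restrictions to the line are linearly independent -/
theorem linearIndependent_row {d : ℕ} {R : Fin d → PowerSeries ℂ} {K : ℕ}
    (hc : ∀ p : Fin d → Polynomial ℂ, (∀ l, (p l).natDegree ≤ K) →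
      ∑ l, (p l : PowerSeries ℂ) * R l = 0 → p = 0) (m : Fin d → ℕ) (hm : ∀ l, m l ≤ K + 1) :
    LinearIndependent ℂ (fun x : (Σ l : Fin d, Fin (m l)) =>
      (PowerSeries.X ^ (x.2 : ℕ) * R x.1 : PowerSeries ℂ)) := by
  classical
  rw [Fintype.linearIndependent_iff]
  intro g hg x
  have hp := hc (fun l => ∑ t : Fin (m l), Polynomial.C (g ⟨l, t⟩) * Polynomial.X ^ (t : ℕ))
    (by
      intro l
      refine Polynomial.natDegree_sum_le_of_forall_le _ _ fun t _ => ?_
      refine (Polynomial.natDegree_C_mul_X_pow_le _ _).trans ?_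
      have := t.2
      have := hm l
      omega)
    (by
      rw [← hg, Fintype.sum_sigma]
      refine Finset.sum_congr rfl fun l _ => ?_
      have h1 : ((∑ t : Fin (m l), Polynomial.C (g ⟨l, t⟩) * Polynomial.X ^ (t : ℕ) :
          Polynomial ℂ) : PowerSeries ℂ) =
          Polynomial.coeToPowerSeries.ringHom
            (∑ t : Fin (m l), Polynomial.C (g ⟨l, t⟩) * Polynomial.X ^ (t : ℕ)) := rfl
      rw [h1, map_sum, Finset.sum_mul]
      refine Finset.sum_congr rfl fun t _ => ?_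
      rw [map_mul, map_pow, PowerSeries.smul_eq_C_mul]
      simp [mul_assoc])
  obtain ⟨l, t⟩ := x
  have h2 := congrArg (fun q : Polynomial ℂ => q.coeff t) (congrFun hp l)
  simp only [Polynomial.finsetSum_coeff, Pi.zero_apply, Polynomial.coeff_zero,
    Polynomial.coeff_C_mul, Polynomial.coeff_X_pow] at h2
  rw [Finset.sum_eq_single t] at h2
  · simpa using h2
  · intro s _ hs
    rw [if_neg, mul_zero]
    intro h3
    exact hs (Fin.ext h3.symm)
  · intro h3
    exact absurd (Finset.mem_univ t) h3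

theorem chart_T_y0 {I : Ideal (Poly N)} {d : ℕ} (ch : Chart I d) : ch.T ch.y0 = 1 := by
  have h : ch.T (ch.y0 - 1) = 0 :=
    (ch.mem_iff _).2 (Ideal.mem_sup_right (Ideal.subset_span rfl))
  rw [map_sub, map_one, sub_eq_zero] at h
  exact h

theorem exists_row {I : Ideal (Poly N)} {d : ℕ} (ch : Chart I d) (κ : ℕ) {c : ℂ}
    (hc : ∀ p : Fin d → Polynomial ℂ, (∀ l, (p l).natDegree ≤ κ) →
      ∑ l, (p l : PowerSeries ℂ) * restr c (ch.T (ch.e l)) = 0 → p = 0) (b : ℕ) :
    ∃ (S : Finset ℕ) (F : ℕ → Poly N),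
      d * (κ - b) ≤ S.card + ∑ l, ch.a l ∧ (b ≤ κ → ∀ α ∈ S, (F α).IsHomogeneous κ) ∧
      ∀ α ∈ S, cf (slope c (ch.T (F α))) α b = 1 ∧
        ∀ i j, (j < b ∨ (j = b ∧ i < α)) → cf (slope c (ch.T (F α))) i j = 0 := by
  classical
  have hli := linearIndependent_row hc (fun l => κ + 1 - b - ch.a l) (fun l => by omega)
  obtain ⟨M, hM⟩ : ∃ M, M = Fintype.card (Σ l : Fin d, Fin (κ + 1 - b - ch.a l)) := ⟨_, rfl⟩
  obtain ⟨e⟩ : Nonempty (Fin M ≃ (Σ l : Fin d, Fin (κ + 1 - b - ch.a l))) :=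
    ⟨(Fintype.equivFinOfCardEq hM.symm).symm⟩
  obtain ⟨S, hS, hα⟩ := exists_echelon _ (hli.comp e e.injective)
  have hα' : ∀ α : ℕ, ∃ g : Fin M → ℂ, α ∈ S →
      PowerSeries.coeff α (∑ i, g i • ((fun x : (Σ l : Fin d, Fin (κ + 1 - b - ch.a l)) =>
        (PowerSeries.X ^ (x.2 : ℕ) * restr c (ch.T (ch.e x.1)) : PowerSeries ℂ)) ∘ e) i) = 1 ∧
      ∀ β < α, PowerSeries.coeff β (∑ i, g i •
        ((fun x : (Σ l : Fin d, Fin (κ + 1 - b - ch.a l)) =>
        (PowerSeries.X ^ (x.2 : ℕ) * restr c (ch.T (ch.e x.1)) : PowerSeries ℂ)) ∘ e) i) = 0 := by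
    intro α
    by_cases h : α ∈ S
    · obtain ⟨g, hg⟩ := hα α h
      exact ⟨g, fun _ => hg⟩
    · exact ⟨0, fun h' => absurd h' h⟩
  choose g hg using hα'
  refine ⟨S, fun α => (ch.y2 - C c * ch.y1) ^ b * ∑ i : Fin M, C (g α i) *
    (ch.y1 ^ ((e i).2 : ℕ) * ch.y0 ^ (κ - b - ch.a (e i).1 - (e i).2) * ch.e (e i).1), ?_, ?_, ?_⟩
  · -- the number of orders
    have h1 : S.card = ∑ l : Fin d, (κ + 1 - b - ch.a l) := by
      rw [hS, hM, Fintype.card_sigma]
      simp
    rw [h1, ← Finset.sum_add_distrib]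
    calc d * (κ - b) = ∑ _l : Fin d, (κ - b) := by simp
      _ ≤ _ := Finset.sum_le_sum fun l _ => by omega
  · -- homogeneous
    intro hb α _
    have h1 : (ch.y2 - C c * ch.y1).IsHomogeneous 1 := by
      refine ch.hy2.sub ?_
      have := (isHomogeneous_C (Fin (N + 1)) c).mul ch.hy1
      simpa using this
    have h2 : (∑ i : Fin M, C (g α i) *
        (ch.y1 ^ ((e i).2 : ℕ) * ch.y0 ^ (κ - b - ch.a (e i).1 - (e i).2) *
          ch.e (e i).1)).IsHomogeneous (κ - b) := by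
      refine IsHomogeneous.sum _ _ _ fun i _ => ?_
      have h3 := (isHomogeneous_C (Fin (N + 1)) (g α i)).mul
        (((ch.hy1.pow ((e i).2 : ℕ)).mul
          (ch.hy0.pow (κ - b - ch.a (e i).1 - (e i).2))).mul (ch.he (e i).1))
      have h4 := (e i).2.2
      have h5 : 0 + (1 * ((e i).2 : ℕ) + 1 * (κ - b - ch.a (e i).1 - (e i).2) +
          ch.a (e i).1) = κ - b := by omega
      rw [h5] at h3
      exact h3
    have h3 := (h1.pow b).mul h2
    have h4 : 1 * b + (κ - b) = κ := by omega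
    rw [h4] at h3
    exact h3
  · -- the leading coefficient
    intro α hαS
    obtain ⟨hg1, hg2⟩ := hg α hαS
    obtain ⟨G, hG⟩ : ∃ G : MvPowerSeries (Fin 2) ℂ, G = ∑ i : Fin M, MvPowerSeries.C (g α i) *
      (MvPowerSeries.X 0 ^ ((e i).2 : ℕ) * ch.T (ch.e (e i).1)) := ⟨_, rfl⟩
    have hT : ch.T ((ch.y2 - C c * ch.y1) ^ b * ∑ i : Fin M, C (g α i) *
        (ch.y1 ^ ((e i).2 : ℕ) * ch.y0 ^ (κ - b - ch.a (e i).1 - (e i).2) *
          ch.e (e i).1)) = (MvPowerSeries.X 1 - MvPowerSeries.C c * MvPowerSeries.X 0) ^ b * G := by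
      have hC : ∀ z : ℂ, ch.T (C z) = MvPowerSeries.C z := fun z => AlgHom.commutes ch.T z
      rw [map_mul, map_pow, map_sub, map_mul, hC, ch.T1, ch.T2, map_sum, hG]
      congr 1
      refine Finset.sum_congr rfl fun i _ => ?_
      rw [map_mul, map_mul, map_mul, map_pow, map_pow, hC, ch.T1, chart_T_y0, one_pow, mul_one]
    have hslope : slope c (ch.T ((ch.y2 - C c * ch.y1) ^ b * ∑ i : Fin M, C (g α i) *
        (ch.y1 ^ ((e i).2 : ℕ) * ch.y0 ^ (κ - b - ch.a (e i).1 - (e i).2) *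
          ch.e (e i).1))) = MvPowerSeries.X 1 ^ b * slope c G := by
      have hC : ∀ z : ℂ, slope c (MvPowerSeries.C z) = MvPowerSeries.C z :=
        fun z => AlgHom.commutes (slope c) z
      rw [hT, map_mul, map_pow, map_sub, map_mul, hC, (slope_X c).1, (slope_X c).2]
      congr 2
      rw [MvPowerSeries.smul_eq_C_mul]
      ring
    have hrow : ∀ i, cf (slope c G) i 0 = PowerSeries.coeff i (∑ k, g α k •
        ((fun x : (Σ l : Fin d, Fin (κ + 1 - b - ch.a l)) =>
        (PowerSeries.X ^ (x.2 : ℕ) * restr c (ch.T (ch.e x.1)) : PowerSeries ℂ)) ∘ e) k) := by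
      intro i
      rw [cf_slope_zero, hG, restr_sum]
      congr 1
      refine Finset.sum_congr rfl fun k _ => ?_
      rw [restr_mul, restr_mul, restr_pow, restr_X, restr_C, Function.comp_apply,
        PowerSeries.smul_eq_C_mul]
    constructor
    · rw [hslope, cf_X_pow_mul, if_pos le_rfl, Nat.sub_self, hrow]
      exact hg1
    · intro i j hij
      rw [hslope, cf_X_pow_mul]
      rcases hij with h | ⟨h1, h2⟩
      · rw [if_neg (by omega)]
      · rw [if_pos h1.ge, h1, Nat.sub_self, hrow]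
        exact hg2 i h2

theorem exists_rows {I : Ideal (Poly N)} {d : ℕ} (ch : Chart I d) (κ : ℕ) :
    ∃ (c : ℂ) (S : Finset (ℕ × ℕ)) (F : ℕ × ℕ → Poly N),
      (∀ b ≤ κ, d * (κ - b) ≤ (S.filter fun σ => σ.2 = b).card + ∑ l, ch.a l) ∧
      (∀ σ ∈ S, (F σ).IsHomogeneous κ) ∧
      ∀ σ ∈ S, cf (slope c (ch.T (F σ))) σ.1 σ.2 = 1 ∧
        ∀ i j, (j < σ.2 ∨ (j = σ.2 ∧ i < σ.1)) → cf (slope c (ch.T (F σ))) i j = 0 := by
  classical
  obtain ⟨c, hc⟩ := exists_slope (fun l => ch.T (ch.e l)) ch.indep κ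
  have h := fun b => exists_row ch κ hc b
  choose S F h1 h2 h3 using h
  refine ⟨c, (Finset.range (κ + 1)).biUnion fun b => (S b).image fun α => (α, b),
    fun σ => F σ.2 σ.1, ?_, ?_, ?_⟩
  · intro b hb
    have h4 : (((Finset.range (κ + 1)).biUnion fun b => (S b).image fun α => (α, b)).filter
        fun σ => σ.2 = b) = (S b).image fun α => (α, b) := by
      ext σ
      simp only [Finset.mem_filter, Finset.mem_biUnion, Finset.mem_range, Finset.mem_image]
      constructor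
      · rintro ⟨⟨b', hb', α, hα, rfl⟩, h5⟩
        simp only at h5
        subst h5
        exact ⟨α, hα, rfl⟩
      · rintro ⟨α, hα, rfl⟩
        exact ⟨⟨b, by omega, α, hα, rfl⟩, rfl⟩
    rw [h4, Finset.card_image_of_injective _ (fun x y hxy => (Prod.ext_iff.1 hxy).1)]
    exact h1 b
  · intro σ hσ
    simp only [Finset.mem_biUnion, Finset.mem_range, Finset.mem_image] at hσ
    obtain ⟨b, hb, α, hα, rfl⟩ := hσ
    exact h2 b (by omega) α hα
  · intro σ hσ
    simp only [Finset.mem_biUnion, Finset.mem_range, Finset.mem_image] at hσ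
    obtain ⟨b, hb, α, hα, rfl⟩ := hσ
    exact h3 b α hα

end Pool.Agent.Lib.MP_ed661f_ag.H
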