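import Mathlib
import Pool.Agent.Lib.MP_ed661f_ag.H.Defs

/-!
# The multiplicity does not depend on the representative of a point
-/

set_option autoImplicit false

open MvPolynomial Filter
open scoped ENNReal

namespace Pool.Agent.Lib.MP_ed661f_ag.H

variable {N : ℕ}

/-- the scaling of the variables -/
noncomputable def scaleHom (c : ℂ) : Poly N →ₐ[ℂ] Poly N := aeval fun j => C c * X j

theorem scaleHom_comp {c d : ℂ} (h : c * d = 1) :
    (scaleHom c).comp (scaleHom d) = AlgHom.id ℂ (Poly N) := by
  apply MvPolynomial.algHom_ext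
  intro i
  simp only [scaleHom, AlgHom.comp_apply, aeval_X, map_mul, AlgHom.id_apply]
  rw [show (C d : Poly N) = algebraMap ℂ _ d from rfl, AlgHom.commutes]
  rw [show (algebraMap ℂ (Poly N) d) = C d from rfl, ← mul_assoc, ← C_mul, mul_comm d c, h, C_1,
    one_mul]

/-- the scaling automorphism -/
noncomputable def scaleEquiv {c : ℂ} (hc : c ≠ 0) : Poly N ≃ₐ[ℂ] Poly N :=
  AlgEquiv.ofAlgHom (scaleHom c) (scaleHom c⁻¹) (scaleHom_comp (mul_inv_cancel₀ hc))
    (scaleHom_comp (inv_mul_cancel₀ hc))

theorem eval_scaleHom (c : ℂ) (v : Fin (N + 1) → ℂ) (F : Poly N) :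
    eval v (scaleHom c F) = eval (c • v) F := by
  have h : (eval v).comp (scaleHom (N := N) c).toRingHom = eval (c • v) := by
    apply MvPolynomial.ringHom_ext
    · intro r
      simp [scaleHom]
    · intro i
      simp [scaleHom]
  exact congrArg (fun f : Poly N →+* ℂ => f F) h

theorem scaleHom_homogeneous (c : ℂ) {F : Poly N} {k : ℕ} (hF : F.IsHomogeneous k) :
    scaleHom c F = c ^ k • F := by
  conv_lhs => rw [F.as_sum]
  conv_rhs => rw [F.as_sum]
  rw [map_sum, Finset.smul_sum]
  refine Finset.sum_congr rfl fun d hd => ?_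
  have hdeg : d.degree = k := by
    have := hF (mem_support_iff.1 hd)
    rw [← this, Finsupp.degree_eq_weight_one (R := ℕ)]
    rfl
  rw [scaleHom, aeval_monomial]
  have h1 : (d.prod fun i k => (C c * X i : Poly N) ^ k) = C (c ^ k) * d.prod fun i k => X i ^ k := by
    simp only [mul_pow, Finsupp.prod_mul]
    congr 1
    rw [← hdeg, Finsupp.prod, Finset.prod_pow_eq_pow_sum, C_pow]
    rfl
  rw [h1, monomial_eq, smul_eq_C_mul, algebraMap_eq]
  ring

theorem scaleHom_mem {P : Ideal (Poly N)} (hP : ∀ F ∈ P, ∀ k, homogeneousComponent k F ∈ P)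
    (c : ℂ) {F : Poly N} (hF : F ∈ P) : scaleHom c F ∈ P := by
  rw [← sum_homogeneousComponent F, map_sum]
  refine Ideal.sum_mem _ fun k _ => ?_
  rw [scaleHom_homogeneous c (homogeneousComponent_isHomogeneous k F), smul_eq_C_mul]
  exact Ideal.mul_mem_left _ _ (hP F hF k)

theorem jetDim_smul {P : Ideal (Poly N)} (hP : ∀ F ∈ P, ∀ k, homogeneousComponent k F ∈ P)
    (v : Fin (N + 1) → ℂ) {c : ℂ} (hc : c ≠ 0) (s : ℕ) : jetDim P (c • v) s = jetDim P v s := by
  have h1 : P = P.map (scaleEquiv (N := N) hc : Poly N →+* Poly N) := by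
    apply le_antisymm
    · intro F hF
      have h2 : F = scaleEquiv hc (scaleHom c⁻¹ F) := by
        have := (scaleEquiv (N := N) hc).apply_symm_apply F
        exact this.symm
      rw [h2]
      exact Ideal.mem_map_of_mem (scaleEquiv (N := N) hc : Poly N →+* Poly N)
        (scaleHom_mem hP c⁻¹ hF)
    · rw [Ideal.map_le_iff_le_comap]
      intro F hF
      exact scaleHom_mem hP c hF
  have h2 : vecIdeal v = (vecIdeal (c • v)).map (scaleEquiv (N := N) hc : Poly N →+* Poly N) := by
    apply le_antisymm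
    · intro F hF
      have h3 : F = scaleEquiv hc (scaleHom c⁻¹ F) := by
        have := (scaleEquiv (N := N) hc).apply_symm_apply F
        exact this.symm
      rw [h3]
      apply Ideal.mem_map_of_mem (scaleEquiv (N := N) hc : Poly N →+* Poly N)
      rw [vecIdeal, RingHom.mem_ker, eval_scaleHom, smul_smul, inv_mul_cancel₀ hc, one_smul]
      exact hF
    · rw [Ideal.map_le_iff_le_comap]
      intro F hF
      rw [Ideal.mem_comap, vecIdeal, RingHom.mem_ker]
      have : eval v (scaleHom c F) = 0 := by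
        rw [eval_scaleHom]
        exact hF
      exact this
  have h3 : P ⊔ vecIdeal v ^ s =
      (P ⊔ vecIdeal (c • v) ^ s).map (scaleEquiv (N := N) hc : Poly N →+* Poly N) := by
    rw [Ideal.map_sup, Ideal.map_pow, ← h1, ← h2]
  unfold jetDim
  exact (Ideal.quotientEquivAlg _ _ (scaleEquiv (N := N) hc) h3).toLinearEquiv.finrank_eq

/-- the multiplicity does not depend on the representative of a point -/
theorem mult_smul {P : Ideal (Poly N)} (hP : ∀ F ∈ P, ∀ k, homogeneousComponent k F ∈ P)
    (v : Fin (N + 1) → ℂ) {c : ℂ} (hc : c ≠ 0) : mult P (c • v) = mult P v := by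
  unfold mult
  simp only [jetDim_smul hP v hc]

end Pool.Agent.Lib.MP_ed661f_ag.H
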