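import Pool.Agent.Lib.MP_ed661f_ag.H.QDefs

/-! Expansion of a power series in two variables at a point tending to the origin. -/

set_option autoImplicit false

open MvPolynomial

namespace Pool.Agent.Lib.MP_ed661f_ag.H

/-- the images of the two variables -/
private noncomputable def pjv (q : ℂ × ℂ) (w : ℕ) :
    Fin 2 → MvPowerSeries Unit (MvPolynomial (Fin 2) ℂ) :=
  ![(PowerSeries.X * PowerSeries.C (C q.1 + X 0) : PowerSeries (MvPolynomial (Fin 2) ℂ)),
    (PowerSeries.X ^ w * PowerSeries.C (C q.2 + X 1) : PowerSeries (MvPolynomial (Fin 2) ℂ))]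

private theorem pjv_hasSubst (q : ℂ × ℂ) (w : ℕ) (hw : 1 ≤ w) :
    MvPowerSeries.HasSubst (pjv q w) := by
  apply MvPowerSeries.hasSubst_of_constantCoeff_zero
  intro i
  fin_cases i
  · change PowerSeries.constantCoeff
      (PowerSeries.X * PowerSeries.C (C q.1 + X 0) : PowerSeries (MvPolynomial (Fin 2) ℂ)) = 0
    rw [map_mul, PowerSeries.constantCoeff_X, zero_mul]
  · change PowerSeries.constantCoeff
      (PowerSeries.X ^ w * PowerSeries.C (C q.2 + X 1) : PowerSeries (MvPolynomial (Fin 2) ℂ)) = 0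
    rw [map_mul, map_pow, PowerSeries.constantCoeff_X, zero_pow (by omega), zero_mul]

/-- expansion at the point `(λ q₀, λ ^ w q₁)` with scaled coordinates -/
theorem exists_pointJet (q : ℂ × ℂ) (w : ℕ) (hw : 1 ≤ w) :
    ∃ Ψ : MvPowerSeries (Fin 2) ℂ →ₐ[ℂ] PowerSeries (MvPolynomial (Fin 2) ℂ),
      (∀ f k, PowerSeries.coeff k (Ψ f) =
        ∑ j ∈ Finset.range (k + 1), if w * j ≤ k then
          C (cf f (k - w * j) j) * (C q.1 + X 0) ^ (k - w * j) * (C q.2 + X 1) ^ j else 0) ∧
      Ψ (MvPowerSeries.X 0) = PowerSeries.X * PowerSeries.C (C q.1 + X 0) ∧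
      Ψ (MvPowerSeries.X 1) = PowerSeries.X ^ w * PowerSeries.C (C q.2 + X 1) := by
  classical
  have ha := pjv_hasSubst q w hw
  refine ⟨MvPowerSeries.substAlgHom ha, ?_, MvPowerSeries.substAlgHom_X ha 0,
    MvPowerSeries.substAlgHom_X ha 1⟩
  intro f k
  have h1 : PowerSeries.coeff k (MvPowerSeries.substAlgHom ha f) =
      ∑ᶠ d : Fin 2 →₀ ℕ, MvPowerSeries.coeff d f •
        PowerSeries.coeff k (d.prod fun s e => pjv q w s ^ e) := by
    rw [PowerSeries.coeff, MvPowerSeries.coe_substAlgHom ha, MvPowerSeries.coeff_subst ha]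
  rw [h1]
  have hprod : ∀ d : Fin 2 →₀ ℕ, PowerSeries.coeff k (d.prod fun s e => pjv q w s ^ e) =
      if d 0 + w * d 1 = k then (C q.1 + X 0) ^ d 0 * (C q.2 + X 1) ^ d 1 else 0 := by
    intro d
    rw [Finsupp.prod_fintype _ _ (fun i => pow_zero _), Fin.prod_univ_two]
    have h2 : (pjv q w 0 ^ d 0 * pjv q w 1 ^ d 1 : PowerSeries (MvPolynomial (Fin 2) ℂ)) =
        PowerSeries.X ^ (d 0 + w * d 1) *
          PowerSeries.C ((C q.1 + X 0) ^ d 0 * (C q.2 + X 1) ^ d 1) := by
      change ((PowerSeries.X * PowerSeries.C (C q.1 + X 0)) ^ d 0 *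
        (PowerSeries.X ^ w * PowerSeries.C (C q.2 + X 1)) ^ d 1 :
          PowerSeries (MvPolynomial (Fin 2) ℂ)) = _
      rw [map_mul, map_pow, map_pow, pow_add, pow_mul, mul_pow, mul_pow]
      ring
    refine (congrArg (PowerSeries.coeff k) h2).trans ?_
    rw [PowerSeries.coeff_X_pow_mul']
    by_cases h3 : d 0 + w * d 1 = k
    · rw [if_pos h3.le, if_pos h3, h3, Nat.sub_self, PowerSeries.coeff_zero_C]
    · rw [if_neg h3]
      by_cases h4 : d 0 + w * d 1 ≤ k
      · rw [if_pos h4, PowerSeries.coeff_C, if_neg (by omega)]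
      · rw [if_neg h4]
  simp only [hprod]
  -- the support
  let g : ℕ → (Fin 2 →₀ ℕ) := fun j => Finsupp.single 0 (k - w * j) + Finsupp.single 1 j
  have hg0 : ∀ j, g j 0 = k - w * j := by
    intro j
    simp [g]
  have hg1 : ∀ j, g j 1 = j := by
    intro j
    simp [g]
  have hginj : Function.Injective g := by
    intro i j hij
    rw [← hg1 i, hij, hg1]
  rw [finsum_eq_sum_of_support_subset (s := ((Finset.range (k + 1)).filter
    fun j => w * j ≤ k).image g)]
  · rw [Finset.sum_image fun i _ j _ h => hginj h, Finset.sum_filter]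
    refine Finset.sum_congr rfl fun j _ => ?_
    by_cases hj : w * j ≤ k
    · rw [if_pos hj, if_pos hj, hg0, hg1, if_pos (by omega), cf, MvPolynomial.smul_eq_C_mul,
        mul_assoc]
    · rw [if_neg hj, if_neg hj]
  · intro d hd
    rw [Function.mem_support] at hd
    have hd2 : d 0 + w * d 1 = k := by
      by_contra hcon
      rw [if_neg hcon, smul_zero] at hd
      exact hd rfl
    rw [Finset.mem_coe, Finset.mem_image]
    refine ⟨d 1, ?_, ?_⟩
    · rw [Finset.mem_filter, Finset.mem_range]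
      have h5 : d 1 ≤ w * d 1 := Nat.le_mul_of_pos_left _ hw
      omega
    · ext i
      fin_cases i
      · change g (d 1) 0 = d 0
        rw [hg0]
        omega
      · change g (d 1) 1 = d 1
        rw [hg1]

end Pool.Agent.Lib.MP_ed661f_ag.H
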