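import Pool.Agent.Lib.MP_ed661f_ag.H.QDefs

/-!
Part H, task Q4b: coefficients after a linear change of coordinates, restriction to lines.
-/

set_option autoImplicit false

open MvPolynomial Filter
open scoped ENNReal

namespace Pool.Agent.Lib.MP_ed661f_ag.H

/-- the exponent `(i, j)` -/
noncomputable def ex2 (i j : ℕ) : Fin 2 →₀ ℕ := Finsupp.single 0 i + Finsupp.single 1 j

theorem ex2_zero (i j : ℕ) : ex2 i j 0 = i := by simp [ex2]

theorem ex2_one (i j : ℕ) : ex2 i j 1 = j := by simp [ex2]

theorem eq_ex2 (d : Fin 2 →₀ ℕ) : d = ex2 (d 0) (d 1) := by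
  ext i
  fin_cases i
  · simp [ex2]
  · simp [ex2]

theorem ex2_inj {i j i' j' : ℕ} (h : ex2 i j = ex2 i' j') : i = i' ∧ j = j' := by
  have h0 := DFunLike.congr_fun h 0
  have h1 := DFunLike.congr_fun h 1
  rw [ex2_zero, ex2_zero] at h0
  rw [ex2_one, ex2_one] at h1
  exact ⟨h0, h1⟩

theorem finsum_antidiagonal (c : ℂ) (f : MvPowerSeries (Fin 2) ℂ) (m : ℕ) :
    finsum (fun d : Fin 2 →₀ ℕ => MvPowerSeries.coeff d f •
      (if d 0 + d 1 = m then c ^ (d 1) else 0)) =
    ∑ p ∈ Finset.HasAntidiagonal.antidiagonal m, cf f p.1 p.2 * c ^ p.2 := by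
  classical
  rw [finsum_eq_sum_of_support_subset (s := (Finset.HasAntidiagonal.antidiagonal m).image
    fun p => ex2 p.1 p.2)]
  · rw [Finset.sum_image]
    · refine Finset.sum_congr rfl fun p hp => ?_
      rw [Finset.HasAntidiagonal.mem_antidiagonal] at hp
      rw [ex2_zero, ex2_one, if_pos hp, smul_eq_mul]
      rfl
    · intro p _ q _ h
      obtain ⟨h1, h2⟩ := ex2_inj h
      exact Prod.ext h1 h2
  · intro d hd
    rw [Function.mem_support] at hd
    have h1 : d 0 + d 1 = m := by
      by_contra h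
      exact hd (by rw [if_neg h, smul_zero])
    rw [Finset.coe_image]
    exact ⟨(d 0, d 1), by simpa using h1, (eq_ex2 d).symm⟩

/-- the row of the pure powers of `X 0` -/
noncomputable def row0 : MvPowerSeries (Fin 2) ℂ →+* PowerSeries ℂ where
  toFun f := PowerSeries.mk fun i => MvPowerSeries.coeff (Finsupp.single 0 i) f
  map_one' := by
    ext i
    rw [PowerSeries.coeff_mk, MvPowerSeries.coeff_one, PowerSeries.coeff_one]
    by_cases h : i = 0
    · simp [h]
    · rw [if_neg h, if_neg]
      simpa using h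
  map_zero' := by
    ext i
    simp
  map_mul' f g := by
    ext i
    rw [PowerSeries.coeff_mk, PowerSeries.coeff_mul, MvPowerSeries.coeff_mul,
      Finsupp.antidiagonal_single, Finset.sum_map]
    refine Finset.sum_congr rfl fun p _ => ?_
    rw [PowerSeries.coeff_mk, PowerSeries.coeff_mk]
    rfl
  map_add' f g := by
    ext i
    simp

theorem row0_X0 : row0 (MvPowerSeries.X 0) = PowerSeries.X := by
  classical
  ext i
  simp only [row0, RingHom.coe_mk, MonoidHom.coe_mk, OneHom.coe_mk, PowerSeries.coeff_mk]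
  rw [MvPowerSeries.coeff_X, PowerSeries.coeff_X]
  by_cases h : i = 1
  · simp [h]
  · rw [if_neg h, if_neg]
    intro h1
    exact h (Finsupp.single_injective _ h1)

theorem row0_X1 : row0 (MvPowerSeries.X 1) = 0 := by
  classical
  ext i
  simp only [row0, RingHom.coe_mk, MonoidHom.coe_mk, OneHom.coe_mk, PowerSeries.coeff_mk]
  rw [MvPowerSeries.coeff_X, if_neg, map_zero]
  intro h1
  have := DFunLike.congr_fun h1 1
  simp at this

theorem row0_smul (c : ℂ) (f : MvPowerSeries (Fin 2) ℂ) : row0 (c • f) = c • row0 f := by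
  ext i
  simp [row0]

theorem hasSubst_slope (c : ℂ) : MvPowerSeries.HasSubst (S := ℂ) (![MvPowerSeries.X 0,
    c • MvPowerSeries.X 0 + MvPowerSeries.X 1] : Fin 2 → MvPowerSeries (Fin 2) ℂ) := by
  refine ⟨?_, ?_⟩
  · intro i
    fin_cases i <;> simp
  · intro d
    exact Set.toFinite _

theorem slope_X (c : ℂ) : slope c (MvPowerSeries.X 0) = MvPowerSeries.X 0 ∧
    slope c (MvPowerSeries.X 1) = c • MvPowerSeries.X 0 + MvPowerSeries.X 1 := by
  unfold slope
  constructor
  · rw [MvPowerSeries.substAlgHom_X]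
    rfl
  · rw [MvPowerSeries.substAlgHom_X]
    rfl

/-- the first row of `slope c f` is the restriction to the line of slope `c` -/
theorem cf_slope_zero (c : ℂ) (f : MvPowerSeries (Fin 2) ℂ) (i : ℕ) :
    cf (slope c f) i 0 = PowerSeries.coeff i (restr c f) := by
  classical
  rw [restr, PowerSeries.coeff_mk, ← finsum_antidiagonal]
  unfold cf slope
  rw [Finsupp.single_zero, add_zero, MvPowerSeries.substAlgHom_apply,
    MvPowerSeries.coeff_subst (hasSubst_slope c)]
  refine finsum_congr fun d => ?_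
  congr 1
  rw [Finsupp.prod_fintype _ _ (fun i => pow_zero _), Fin.prod_univ_two]
  have h1 : MvPowerSeries.coeff (Finsupp.single 0 i)
      ((![MvPowerSeries.X 0, c • MvPowerSeries.X 0 + MvPowerSeries.X 1] :
        Fin 2 → MvPowerSeries (Fin 2) ℂ) 0 ^ (d 0) *
      (![MvPowerSeries.X 0, c • MvPowerSeries.X 0 + MvPowerSeries.X 1] :
        Fin 2 → MvPowerSeries (Fin 2) ℂ) 1 ^ (d 1)) =
      PowerSeries.coeff i (row0 ((MvPowerSeries.X 0) ^ (d 0) *
        (c • MvPowerSeries.X 0 + MvPowerSeries.X 1) ^ (d 1))) := by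
    simp only [row0, RingHom.coe_mk, MonoidHom.coe_mk, OneHom.coe_mk, PowerSeries.coeff_mk]
    rfl
  rw [h1, map_mul, map_pow, map_pow, map_add, row0_smul, row0_X0, row0_X1, add_zero, smul_pow,
    mul_smul_comm, ← pow_add, PowerSeries.coeff_smul, PowerSeries.coeff_X_pow]
  by_cases h : i = d 0 + d 1
  · rw [if_pos h, if_pos h.symm, smul_eq_mul, mul_one]
  · rw [if_neg h, if_neg (Ne.symm h), smul_zero]

theorem cf_X_pow_mul (f : MvPowerSeries (Fin 2) ℂ) (b i j : ℕ) :
    cf (MvPowerSeries.X 1 ^ b * f) i j = if b ≤ j then cf f i (j - b) else 0 := by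
  classical
  unfold cf
  rw [MvPowerSeries.X_pow_eq, MvPowerSeries.coeff_monomial_mul]
  have h1 : (Finsupp.single (1 : Fin 2) b ≤ Finsupp.single 0 i + Finsupp.single 1 j) ↔ b ≤ j := by
    constructor
    · intro h
      have := h 1
      simpa using this
    · intro h k
      fin_cases k
      · simp
      · simpa using h
  by_cases h : b ≤ j
  · rw [if_pos h, if_pos (h1.2 h), one_mul]
    congr 2
    ext k
    fin_cases k
    · simp
    · simp
  · rw [if_neg h, if_neg (fun h' => h (h1.1 h'))]

/-- restriction as a substitution -/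
theorem restr_eq_subst (c : ℂ) (f : MvPowerSeries (Fin 2) ℂ) :
    restr c f = (row0 (slope c f)) := by
  ext i
  rw [← cf_slope_zero]
  simp [row0, cf]

theorem restr_mul (c : ℂ) (f g : MvPowerSeries (Fin 2) ℂ) :
    restr c (f * g) = restr c f * restr c g := by
  rw [restr_eq_subst, restr_eq_subst, restr_eq_subst, map_mul, map_mul]

theorem restr_add (c : ℂ) (f g : MvPowerSeries (Fin 2) ℂ) :
    restr c (f + g) = restr c f + restr c g := by
  rw [restr_eq_subst, restr_eq_subst, restr_eq_subst, map_add, map_add]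

theorem restr_C (c a : ℂ) : restr c (MvPowerSeries.C a) = PowerSeries.C a := by
  have h : slope c (MvPowerSeries.C a) = MvPowerSeries.C a := AlgHom.commutes (slope c) a
  rw [restr_eq_subst, h]
  ext i
  simp only [row0, RingHom.coe_mk, MonoidHom.coe_mk, OneHom.coe_mk, PowerSeries.coeff_mk]
  rw [MvPowerSeries.coeff_C, PowerSeries.coeff_C]
  by_cases h : i = 0
  · simp [h]
  · rw [if_neg h, if_neg]
    simpa using h

theorem restr_X (c : ℂ) : restr c (MvPowerSeries.X 0) = PowerSeries.X := by
  rw [restr_eq_subst, (slope_X c).1, row0_X0]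

/-- the restriction of the second coordinate -/
theorem restr_X1 (c : ℂ) : restr c (MvPowerSeries.X 1) = c • PowerSeries.X := by
  rw [restr_eq_subst, (slope_X c).2, map_add, row0_smul, row0_X0, row0_X1, add_zero]

theorem constantCoeff_slope (c : ℂ) (f : MvPowerSeries (Fin 2) ℂ) :
    MvPowerSeries.constantCoeff (slope c f) = MvPowerSeries.constantCoeff f := by
  have h1 := cf_slope_zero c f 0
  have h2 : cf (slope c f) 0 0 = MvPowerSeries.constantCoeff (slope c f) := by
    simp [cf, MvPowerSeries.coeff_zero_eq_constantCoeff]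
  rw [h2] at h1
  rw [h1, restr, PowerSeries.coeff_mk]
  simp [cf, MvPowerSeries.coeff_zero_eq_constantCoeff]

end Pool.Agent.Lib.MP_ed661f_ag.H
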