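import Pool.Agent.Lib.MP_ed661f_ag.H.Nullst

/-! Specialisation of families of jets. -/

set_option autoImplicit false

open MvPolynomial Filter
open scoped ENNReal

namespace Pool.Agent.Lib.MP_ed661f_ag.H

variable {N : ℕ}

/-- the algebra generated by the coefficients of order at most `s` -/
noncomputable def coeffAlg {n : ℕ} (T : Fin n → Poly N →ₐ[ℂ] PowerSeries (MvPolynomial (Fin 2) ℂ))
    (s : ℕ) : Subalgebra ℂ (PowerSeries ℂ) :=
  Algebra.adjoin ℂ {x | ∃ (i : Fin n) (F : Poly N) (e : Fin 2 →₀ ℕ), e.degree ≤ s ∧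
    x = lc (T i F) e}

theorem lc_add (f g : PowerSeries (MvPolynomial (Fin 2) ℂ)) (e : Fin 2 →₀ ℕ) :
    lc (f + g) e = lc f e + lc g e := by
  ext k
  simp [lc]

theorem lc_mul (f g : PowerSeries (MvPolynomial (Fin 2) ℂ)) (e : Fin 2 →₀ ℕ) :
    lc (f * g) e = ∑ p ∈ Finset.HasAntidiagonal.antidiagonal e, lc f p.1 * lc g p.2 := by
  ext k
  simp only [lc, PowerSeries.coeff_mk, PowerSeries.coeff_mul, map_sum, coeff_sum]
  rw [Finset.sum_comm]
  apply Finset.sum_congr rfl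
  intro q _
  rw [MvPolynomial.coeff_mul]

theorem lc_algebraMap (a : ℂ) (e : Fin 2 →₀ ℕ) :
    lc (algebraMap ℂ (PowerSeries (MvPolynomial (Fin 2) ℂ)) a) e =
      if e = 0 then algebraMap ℂ (PowerSeries ℂ) a else 0 := by
  have h : algebraMap ℂ (PowerSeries (MvPolynomial (Fin 2) ℂ)) a =
      PowerSeries.C (MvPolynomial.C a) := by
    rw [PowerSeries.algebraMap_apply]; rfl
  have h' : algebraMap ℂ (PowerSeries ℂ) a = PowerSeries.C a := by
    rw [PowerSeries.algebraMap_apply]; rfl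
  rw [h, h']
  ext k
  simp only [lc, PowerSeries.coeff_mk, PowerSeries.coeff_C]
  by_cases hk : k = 0
  · simp only [hk, if_true, MvPolynomial.coeff_C]
    by_cases he : e = 0
    · simp [he]
    · simp [he, Ne.symm he]
  · simp only [hk, if_false]
    by_cases he : e = 0
    · simp [he, PowerSeries.coeff_C, hk]
    · simp [he]

/-- the finitely many generators -/
def gens {n : ℕ} (T : Fin n → Poly N →ₐ[ℂ] PowerSeries (MvPolynomial (Fin 2) ℂ))
    (s : ℕ) : Set (PowerSeries ℂ) :=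
  {x | ∃ (i : Fin n) (j : Fin (N + 1)) (e : Fin 2 →₀ ℕ), e.degree ≤ s ∧
    x = lc (T i (X j)) e}

theorem finite_degree_le (s : ℕ) : {e : Fin 2 →₀ ℕ | e.degree ≤ s}.Finite := by
  exact Finsupp.finite_of_degree_le s

theorem gens_finite {n : ℕ} (T : Fin n → Poly N →ₐ[ℂ] PowerSeries (MvPolynomial (Fin 2) ℂ))
    (s : ℕ) : (gens T s).Finite := by
  have h : gens T s = (fun p : Fin n × Fin (N + 1) × (Fin 2 →₀ ℕ) =>
      lc (T p.1 (X p.2.1)) p.2.2) '' (Set.univ ×ˢ Set.univ ×ˢ {e | e.degree ≤ s}) := by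
    ext x
    constructor
    · rintro ⟨i, j, e, he, rfl⟩
      exact ⟨(i, j, e), ⟨Set.mem_univ _, Set.mem_univ _, he⟩, rfl⟩
    · rintro ⟨⟨i, j, e⟩, ⟨-, -, he⟩, rfl⟩
      exact ⟨i, j, e, he, rfl⟩
  rw [h]
  exact (Set.finite_univ.prod (Set.finite_univ.prod (finite_degree_le s))).image _

theorem antidiag_degree {e : Fin 2 →₀ ℕ} {s : ℕ} (he : e.degree ≤ s)
    {p : (Fin 2 →₀ ℕ) × (Fin 2 →₀ ℕ)} (hp : p ∈ Finset.HasAntidiagonal.antidiagonal e) :
    p.1.degree ≤ s ∧ p.2.degree ≤ s := by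
  rw [Finset.HasAntidiagonal.mem_antidiagonal] at hp
  rw [← hp, map_add] at he
  omega

theorem lc_mem_adjoin {n : ℕ} (T : Fin n → Poly N →ₐ[ℂ] PowerSeries (MvPolynomial (Fin 2) ℂ))
    (s : ℕ) (i : Fin n) (F : Poly N) : ∀ e : Fin 2 →₀ ℕ, e.degree ≤ s →
      lc (T i F) e ∈ Algebra.adjoin ℂ (gens T s) := by
  induction F using MvPolynomial.induction_on with
  | C a =>
    intro e he
    have h : (C a : Poly N) = algebraMap ℂ (Poly N) a := rfl
    rw [h, AlgHom.commutes, lc_algebraMap]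
    split_ifs
    · exact Subalgebra.algebraMap_mem _ a
    · exact Subalgebra.zero_mem _
  | add p q hp hq =>
    intro e he
    rw [map_add, lc_add]
    exact Subalgebra.add_mem _ (hp e he) (hq e he)
  | mul_X p j hp =>
    intro e he
    rw [map_mul, lc_mul]
    apply Subalgebra.sum_mem
    intro q hq
    obtain ⟨h1, h2⟩ := antidiag_degree he hq
    exact Subalgebra.mul_mem _ (hp q.1 h1) (Algebra.subset_adjoin ⟨i, j, q.2, h2, rfl⟩)

theorem coeffAlg_eq {n : ℕ} (T : Fin n → Poly N →ₐ[ℂ] PowerSeries (MvPolynomial (Fin 2) ℂ))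
    (s : ℕ) : coeffAlg T s = Algebra.adjoin ℂ (gens T s) := by
  apply le_antisymm
  · apply Algebra.adjoin_le
    rintro x ⟨i, F, e, he, rfl⟩
    exact lc_mem_adjoin T s i F e he
  · apply Algebra.adjoin_mono
    rintro x ⟨i, j, e, he, rfl⟩
    exact ⟨i, X j, e, he, rfl⟩

theorem lc_mem {n : ℕ} (T : Fin n → Poly N →ₐ[ℂ] PowerSeries (MvPolynomial (Fin 2) ℂ))
    {s : ℕ} (i : Fin n) (F : Poly N) {e : Fin 2 →₀ ℕ} (he : e.degree ≤ s) :
    lc (T i F) e ∈ coeffAlg T s := Algebra.subset_adjoin ⟨i, F, e, he, rfl⟩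

theorem exists_spec {n : ℕ}
    (T : Fin n → Poly N →ₐ[ℂ] PowerSeries (MvPolynomial (Fin 2) ℂ)) (s : ℕ)
    (r : PowerSeries ℂ) (hr0 : r ≠ 0) (hr : r ∈ coeffAlg T s) :
    ∃ (ψ : coeffAlg T s →ₐ[ℂ] ℂ) (τ : Fin n → Poly N →ₐ[ℂ] MvPolynomial (Fin 2) ℂ),
      ψ ⟨r, hr⟩ ≠ 0 ∧ ∀ (i : Fin n) (F : Poly N) (e : Fin 2 →₀ ℕ), e.degree ≤ s →
        ∀ hx : lc (T i F) e ∈ coeffAlg T s, (τ i F).coeff e = ψ ⟨lc (T i F) e, hx⟩ := by
  obtain ⟨ψ, hψ⟩ := exists_algHom (coeffAlg T s) (coeffAlg_eq T s) (gens_finite T s) ⟨r, hr⟩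
    (by
      intro h
      apply hr0
      exact congrArg Subtype.val h)
  classical
  -- the images of the variables
  let c : Fin n → Fin (N + 1) → (Fin 2 →₀ ℕ) → ℂ := fun i j e =>
    if he : e.degree ≤ s then ψ ⟨lc (T i (X j)) e, lc_mem T i (X j) he⟩ else 0
  let D : Finset (Fin 2 →₀ ℕ) := (finite_degree_le s).toFinset
  let g : Fin n → Fin (N + 1) → MvPolynomial (Fin 2) ℂ := fun i j =>
    ∑ e ∈ D, monomial e (c i j e)
  have hg : ∀ i j e, e.degree ≤ s → (g i j).coeff e = c i j e := by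
    intro i j e he
    simp only [g, coeff_sum, coeff_monomial]
    rw [Finset.sum_ite_eq', if_pos]
    simpa [D] using he
  refine ⟨ψ, fun i => aeval (g i), hψ, ?_⟩
  intro i F
  induction F using MvPolynomial.induction_on with
  | C a =>
    intro e he hx
    have h : (C a : Poly N) = algebraMap ℂ (Poly N) a := rfl
    have h2 : (⟨lc (T i (C a)) e, hx⟩ : coeffAlg T s) =
        if e = 0 then algebraMap ℂ (coeffAlg T s) a else 0 := by
      apply Subtype.ext
      have h3 : lc (T i (C a)) e = if e = 0 then algebraMap ℂ (PowerSeries ℂ) a else 0 := by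
        rw [h, AlgHom.commutes, lc_algebraMap]
      rw [Subtype.coe_mk, h3]
      split_ifs <;> simp
    rw [h2]
    by_cases he0 : e = 0
    · rw [if_pos he0, AlgHom.commutes, he0]
      simp [algebraMap_eq]
    · rw [if_neg he0, map_zero]
      simp [algebraMap_eq, coeff_C, Ne.symm he0]
  | add p q hp hq =>
    intro e he hx
    have h2 : (⟨lc (T i (p + q)) e, hx⟩ : coeffAlg T s) =
        ⟨lc (T i p) e, lc_mem T i p he⟩ + ⟨lc (T i q) e, lc_mem T i q he⟩ := by
      apply Subtype.ext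
      simp [lc_add]
    rw [h2, map_add, map_add, coeff_add, hp e he, hq e he]
  | mul_X p j hp =>
    intro e he hx
    have h2 : (⟨lc (T i (p * X j)) e, hx⟩ : coeffAlg T s) =
        ∑ q ∈ (Finset.HasAntidiagonal.antidiagonal e).attach,
          ⟨lc (T i p) q.1.1, lc_mem T i p (antidiag_degree he q.2).1⟩ *
          ⟨lc (T i (X j)) q.1.2, lc_mem T i (X j) (antidiag_degree he q.2).2⟩ := by
      apply Subtype.ext
      rw [AddSubmonoidClass.coe_finsetSum]
      simp only [MulMemClass.coe_mul]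
      rw [Finset.sum_attach (Finset.HasAntidiagonal.antidiagonal e)
        (fun q => lc (T i p) q.1 * lc (T i (X j)) q.2), map_mul, lc_mul]
    rw [h2, map_mul, map_sum, MvPolynomial.coeff_mul, ← Finset.sum_attach]
    apply Finset.sum_congr rfl
    intro q _
    obtain ⟨h3, h4⟩ := antidiag_degree he q.2
    rw [map_mul, hp q.1.1 h3 (lc_mem T i p h3), aeval_X, hg i j q.1.2 h4]
    simp only [c, dif_pos h4]

end Pool.Agent.Lib.MP_ed661f_ag.H
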