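import Pool.Agent.Lib.MP_ed661f_ag.H.Points
import Pool.Agent.Lib.MP_ed661f_ag.H.SlopeCoeff
import Pool.Agent.Lib.MP_ed661f_ag.H.PointJet
import Pool.Agent.Lib.MP_ed661f_ag.H.Leading
import Pool.Agent.Lib.MP_ed661f_ag.H.Spec
import Pool.Agent.Lib.MP_ed661f_ag.H.Kernel

/-!
Separation of jets on a surface from separation of jets by monomials.
-/

set_option autoImplicit false

open MvPolynomial

namespace Pool.Agent.Lib.MP_ed661f_ag.H

variable {N : ℕ}

private theorem lc_C_mul_X (a b : ℂ) (i : Fin 2) (w : ℕ) (e : Fin 2 →₀ ℕ) :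
    lc (PowerSeries.X ^ w * PowerSeries.C (C a + C b * X i)) e =
      (coeff e (C a + C b * X i : MvPolynomial (Fin 2) ℂ)) • PowerSeries.X ^ w := by
  ext k
  simp only [lc, PowerSeries.coeff_mk, PowerSeries.coeff_X_pow_mul', PowerSeries.coeff_C,
    PowerSeries.coeff_smul, PowerSeries.coeff_X_pow, smul_eq_mul]
  split_ifs <;> first | omega | simp_all

private theorem lc_smul (a : ℂ) (f : PowerSeries (MvPolynomial (Fin 2) ℂ)) (e : Fin 2 →₀ ℕ) :
    lc (a • f) e = a • lc f e := by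
  ext k
  simp [lc]

private theorem lc_zero (e : Fin 2 →₀ ℕ) : lc 0 e = 0 := by
  ext k
  simp [lc]

private theorem lc_one (e : Fin 2 →₀ ℕ) : lc 1 e = if e = 0 then 1 else 0 := by
  ext k
  simp only [lc, PowerSeries.coeff_mk, PowerSeries.coeff_one]
  by_cases hk : k = 0
  · subst hk
    by_cases he : e = 0
    · simp [he]
    · simp [he, coeff_one, Ne.symm he]
  · by_cases he : e = 0
    · simp [he, hk, PowerSeries.coeff_one]
    · simp [he, hk]

/-- **points with separation of jets** -/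
theorem jetSep_of_monSep {I : Ideal (Poly N)} {d : ℕ} (ch : Chart I d) {κ n s : ℕ} (hs : 1 ≤ s)
    {c : ℂ} {S : Finset (ℕ × ℕ)} {F : ℕ × ℕ → Poly N}
    (hF : ∀ σ ∈ S, (F σ).IsHomogeneous κ)
    (hlead : ∀ σ ∈ S, cf (slope c (ch.T (F σ))) σ.1 σ.2 = 1 ∧
        ∀ i j, (j < σ.2 ∨ (j = σ.2 ∧ i < σ.1)) → cf (slope c (ch.T (F σ))) i j = 0)
    {q : Fin n → ℂ × ℂ} (hq : Function.Injective q) (hsep : MonSep S q s) :
    ∃ v : Fin n → Fin (N + 1) → ℂ, Function.Injective v ∧ (∀ i, eval (v i) ch.y0 = 1) ∧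
      (∀ i, ∀ G ∈ I, eval (v i) G = 0) ∧ JetSep I ch.y0 v κ s := by
  classical
  obtain ⟨a, haS, hdet⟩ := exists_minor_of_monSep hsep
  -- the weight
  obtain ⟨w, hw1, hw⟩ : ∃ w, 1 ≤ w ∧ ∀ σ ∈ S, σ.1 < w := by
    refine ⟨S.sup Prod.fst + 1, by omega, fun σ hσ => ?_⟩
    have : σ.1 ≤ S.sup Prod.fst := Finset.le_sup (f := Prod.fst) hσ
    omega
  choose Ψ hΨ hΨ0 hΨ1 using fun i => exists_pointJet (q i) w hw1
  obtain ⟨T, hT⟩ : ∃ T : Fin n → Poly N →ₐ[ℂ] PowerSeries (MvPolynomial (Fin 2) ℂ),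
      T = fun i => (Ψ i).comp ((slope c).comp ch.T) := ⟨_, rfl⟩
  have hTe : ∀ i G, T i G = Ψ i (slope c (ch.T G)) := fun i G => by rw [hT]; rfl
  have hT0 : ∀ i, ∀ G ∈ I ⊔ Ideal.span {ch.y0 - 1}, T i G = 0 := by
    intro i G hG
    rw [hTe, (ch.mem_iff G).2 hG, map_zero, map_zero]
  have hTy0 : ∀ i, T i ch.y0 = 1 := by
    intro i
    have := hT0 i (ch.y0 - 1) (Ideal.mem_sup_right (Ideal.mem_span_singleton_self _))
    rw [map_sub, map_one, sub_eq_zero] at this
    exact this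
  have hTy1 : ∀ i, T i ch.y1 = PowerSeries.X ^ 1 * PowerSeries.C (C (q i).1 + C 1 * X 0) := by
    intro i
    rw [hTe, ch.T1, (slope_X c).1, hΨ0, pow_one, C_1, one_mul]
  have hTy2 : ∀ i, T i ch.y2 = c • (PowerSeries.X ^ 1 * PowerSeries.C (C (q i).1 + C 1 * X 0)) +
      PowerSeries.X ^ w * PowerSeries.C (C (q i).2 + C 1 * X 1) := by
    intro i
    rw [hTe, ch.T2, (slope_X c).2, map_add, map_smul, hΨ0, hΨ1, pow_one, C_1, one_mul, one_mul]
  -- members of the algebra of coefficients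
  have hmem : ∀ i G e, e.degree ≤ s → lc (T i G) e ∈ coeffAlg T s := fun i G e he =>
    Algebra.subset_adjoin ⟨i, G, e, he, rfl⟩
  have hexpo : ∀ x : JInd n s, (expo x.2.1).degree ≤ s := by
    intro x
    have h1 := x.2.2
    rw [G.mem_simplex] at h1
    rw [expo_degree]
    omega
  obtain ⟨M, hM⟩ : ∃ M : JInd n s → JInd n s → coeffAlg T s,
      M = fun x y => ⟨lc (T x.1 (F (a y))) (expo x.2.1), hmem _ _ _ (hexpo x)⟩ := ⟨_, rfl⟩
  have hMv : ∀ x y, (M x y : PowerSeries ℂ) = lc (T x.1 (F (a y))) (expo x.2.1) := fun x y => by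
    rw [hM]
  have hdetM : (Matrix.of fun x y => (M x y : PowerSeries ℂ)).det ≠ 0 := by
    refine det_ne_zero_of_leading (fun x y => (M x y : PowerSeries ℂ)) _
      (fun y => (a y).1 + w * (a y).2) ?_ ?_ hdet
    · intro x y
      rw [hMv, lc, PowerSeries.coeff_mk, hTe]
      rw [(coeff_pointJet (hΨ x.1) (hw _ (haS y)) (hlead _ (haS y)).1
        (hlead _ (haS y)).2).1]
    · intro x y k hk
      rw [hMv, lc, PowerSeries.coeff_mk, hTe]
      rw [(coeff_pointJet (hΨ x.1) (hw _ (haS y)) (hlead _ (haS y)).1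
        (hlead _ (haS y)).2).2 k hk, coeff_zero]
  -- the element to be avoided
  obtain ⟨A, hA⟩ : ∃ A : Fin n → coeffAlg T s, A = fun i =>
      ⟨lc (T i ch.y1) (expo (1, 0)), hmem _ _ _ (by rw [expo_degree]; simpa using hs)⟩ := ⟨_, rfl⟩
  have hAv : ∀ i, (A i : PowerSeries ℂ) = PowerSeries.X := by
    intro i
    rw [hA]
    simp only
    rw [hTy1, lc_C_mul_X]
    have h1 : (0 : Fin 2 →₀ ℕ) ≠ Finsupp.single 0 1 := by
      intro h
      simpa using DFunLike.congr_fun h 0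
    simp [expo, coeff_X', coeff_C, h1]
  obtain ⟨B, hB⟩ : ∃ B : Fin n → coeffAlg T s, B = fun i =>
      ⟨lc (T i ch.h) (expo (0, 0)), hmem _ _ _ (by rw [expo_degree]; simp)⟩ := ⟨_, rfl⟩
  have hBv : ∀ i, (B i : PowerSeries ℂ) ≠ 0 := by
    intro i h0
    have h1 := congrArg (PowerSeries.coeff 0) h0
    rw [hB] at h1
    simp only [lc, PowerSeries.coeff_mk, map_zero] at h1
    rw [hTe, hΨ] at h1
    have h2 : constantCoeff (C (cf (slope c (ch.T ch.h)) 0 0) : MvPolynomial (Fin 2) ℂ) = 0 := by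
      have h3 : expo (0, 0) = 0 := by simp [expo]
      rw [h3] at h1
      simpa [constantCoeff_eq] using h1
    rw [constantCoeff_C] at h2
    have h3 : cf (slope c (ch.T ch.h)) 0 0 =
        MvPowerSeries.constantCoeff (slope c (ch.T ch.h)) := by
      simp [cf]
    rw [h3, constantCoeff_slope] at h2
    exact ch.hh h2
  obtain ⟨r, hr⟩ : ∃ r : coeffAlg T s, r = (∏ i, A i * B i) * (Matrix.of M).det := ⟨_, rfl⟩
  have hr0 : (r : PowerSeries ℂ) ≠ 0 := by
    rw [hr]
    push_cast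
    refine mul_ne_zero (Finset.prod_ne_zero_iff.2 fun i _ => mul_ne_zero ?_ (hBv i)) ?_
    · rw [hAv]
      exact PowerSeries.X_ne_zero
    · have h1 : (((Matrix.of M).det : coeffAlg T s) : PowerSeries ℂ) =
          (Matrix.of fun x y => (M x y : PowerSeries ℂ)).det :=
        RingHom.map_det (coeffAlg T s).val.toRingHom (Matrix.of M)
      rw [h1]
      exact hdetM
  obtain ⟨ψ, τ, hψ, hτ⟩ := exists_spec T s (r : PowerSeries ℂ) hr0 r.2
  have hψ' : ψ r ≠ 0 := hψ
  rw [hr, map_mul, map_prod] at hψ'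
  obtain ⟨hψ1, hψ2⟩ := mul_ne_zero_iff.1 hψ'
  rw [Finset.prod_ne_zero_iff] at hψ1
  have hdetψ : (Matrix.of fun x y => ψ (M x y)).det ≠ 0 := by
    have h1 : ψ (Matrix.of M).det = (Matrix.of fun x y => ψ (M x y)).det :=
      RingHom.map_det ψ.toRingHom (Matrix.of M)
    rwa [h1] at hψ2
  -- the coefficients of the specialised homomorphisms
  have hτ' : ∀ (i : Fin n) (G₁ : Poly N) (e : Fin 2 →₀ ℕ), e.degree ≤ s → ∀ y : coeffAlg T s,
      (y : PowerSeries ℂ) = lc (T i G₁) e → (τ i G₁).coeff e = ψ y := by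
    intro i G₁ e he y hy
    rw [hτ i G₁ e he (hmem i G₁ e he)]
    congr 1
    exact Subtype.ext hy.symm
  obtain ⟨v, hvdef⟩ : ∃ v : Fin n → Fin (N + 1) → ℂ,
      v = fun i j => constantCoeff (τ i (X j)) := ⟨_, rfl⟩
  have hv : ∀ i G₁, constantCoeff (τ i G₁) = eval (v i) G₁ := by
    intro i G₁
    have h1 : (constantCoeff : MvPolynomial (Fin 2) ℂ →+* ℂ).comp (τ i).toRingHom =
        eval (v i) := by
      apply MvPolynomial.ringHom_ext
      · intro z
        simp
      · intro j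
        rw [hvdef]
        simp
    rw [← h1]
    rfl
  have hv0 : ∀ i G₁, eval (v i) G₁ = (τ i G₁).coeff 0 := by
    intro i G₁
    rw [← hv, constantCoeff_eq]
  have hAA : ∀ i j, A i = A j := fun i j => Subtype.ext (by rw [hAv, hAv])
  have hl0 : ∀ i, ψ (A i) ≠ 0 := fun i => (mul_ne_zero_iff.1
    (by simpa using hψ1 i (Finset.mem_univ i))).1
  have hB0 : ∀ i, ψ (B i) ≠ 0 := fun i => (mul_ne_zero_iff.1
    (by simpa using hψ1 i (Finset.mem_univ i))).2
  -- the coordinates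
  have hc1 : ∀ i e, e.degree ≤ s → (τ i ch.y1).coeff e =
      (C (ψ (A i)) * (C (q i).1 + C 1 * X 0) : MvPolynomial (Fin 2) ℂ).coeff e := by
    intro i e he
    rw [hτ' i ch.y1 e he ((coeff e (C (q i).1 + C 1 * X 0 : MvPolynomial (Fin 2) ℂ)) • A i) (by
      rw [hTy1, lc_C_mul_X, pow_one]
      push_cast
      rw [hAv]), map_smul, coeff_C_mul, smul_eq_mul, mul_comm]
  have hc2 : ∀ i e, e.degree ≤ s → (τ i ch.y2).coeff e =
      (C c * (C (ψ (A i)) * (C (q i).1 + C 1 * X 0)) +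
        C (ψ (A i) ^ w) * (C (q i).2 + C 1 * X 1) : MvPolynomial (Fin 2) ℂ).coeff e := by
    intro i e he
    rw [hτ' i ch.y2 e he (c • ((coeff e (C (q i).1 + C 1 * X 0 : MvPolynomial (Fin 2) ℂ)) • A i) +
      (coeff e (C (q i).2 + C 1 * X 1 : MvPolynomial (Fin 2) ℂ)) • A i ^ w) (by
      rw [hTy2, lc_add, lc_smul, lc_C_mul_X, lc_C_mul_X, pow_one]
      push_cast
      rw [hAv])]
    rw [map_add ψ, map_smul ψ, map_smul ψ, map_smul ψ, map_pow ψ, coeff_add (R := ℂ) e (C c * _),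
      coeff_C_mul, coeff_C_mul, coeff_C_mul]
    simp only [smul_eq_mul]
    ring
  have hvI : ∀ i, ∀ G₁ ∈ I ⊔ Ideal.span {ch.y0 - 1}, ∀ e : Fin 2 →₀ ℕ, e.degree ≤ s →
      (τ i G₁).coeff e = 0 := by
    intro i G₁ hG e he
    rw [hτ' i G₁ e he 0 (by rw [hT0 i G₁ hG, lc_zero]; rfl), map_zero]
  have hvy0 : ∀ i, eval (v i) ch.y0 = 1 := by
    intro i
    have h1 := hvI i (ch.y0 - 1) (Ideal.mem_sup_right (Ideal.mem_span_singleton_self _)) 0
      (by simp)
    rw [← hv0, map_sub, map_one, sub_eq_zero] at h1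
    exact h1
  have hvI0 : ∀ i, ∀ G₁ ∈ I, eval (v i) G₁ = 0 := by
    intro i G₁ hG
    rw [hv0]
    exact hvI i G₁ (Ideal.mem_sup_left hG) 0 (by simp)
  have hvh : ∀ i, eval (v i) ch.h ≠ 0 := by
    intro i
    have h3 : expo (0, 0) = 0 := by simp [expo]
    have h4 : ((B i : coeffAlg T s) : PowerSeries ℂ) = lc (T i ch.h) 0 := by
      rw [hB]
      change lc (T i ch.h) (expo (0, 0)) = _
      rw [h3]
    rw [hv0, hτ' i ch.h 0 (by simp) (B i) h4]
    exact hB0 i
  have hvy1 : ∀ i, eval (v i) ch.y1 = ψ (A i) * (q i).1 := by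
    intro i
    rw [hv0, hc1 i 0 (by simp), coeff_C_mul]
    simp
  have hvy2 : ∀ i, eval (v i) ch.y2 = c * (ψ (A i) * (q i).1) + ψ (A i) ^ w * (q i).2 := by
    intro i
    rw [hv0, hc2 i 0 (by simp), coeff_add, coeff_C_mul, coeff_C_mul, coeff_C_mul]
    simp
  refine ⟨v, ?_, hvy0, hvI0, ?_⟩
  · intro i j hij
    apply hq
    have h1 : (q i).1 = (q j).1 := by
      have h2 := hvy1 i
      rw [hij, hvy1 j, hAA j i] at h2
      exact (mul_left_cancel₀ (hl0 i) h2).symm
    have h2 : (q i).2 = (q j).2 := by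
      have h3 := hvy2 i
      rw [hij, hvy2 j, hAA j i, h1] at h3
      exact (mul_left_cancel₀ (pow_ne_zero w (hl0 i)) (add_left_cancel h3)).symm
    exact Prod.ext h1 h2
  · intro G₁
    obtain ⟨b, hb⟩ : ∃ b : JInd n s → ℂ, b = fun x => (τ x.1 (G₁ x.1)).coeff (expo x.2.1) :=
      ⟨_, rfl⟩
    obtain ⟨z, hz⟩ : ∃ z : JInd n s → ℂ,
        (Matrix.of fun x y => ψ (M x y)).mulVec z = b := by
      refine ⟨(Matrix.of fun x y => ψ (M x y))⁻¹.mulVec b, ?_⟩
      rw [Matrix.mulVec_mulVec, Matrix.mul_nonsing_inv _ (isUnit_iff_ne_zero.2 hdetψ),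
        Matrix.one_mulVec]
    refine ⟨∑ y, C (z y) * F (a y), ?_, ?_⟩
    · refine IsHomogeneous.sum _ _ _ fun y _ => ?_
      exact (hF _ (haS y)).C_mul _
    · intro i
      have hsm := ch.smooth (v i) (hvI0 i) (hvy0 i) (hvh i)
      have hres := mem_of_tz (J := I ⊔ Ideal.span {ch.y0 - 1}) (u1 := ch.y1) (u2 := ch.y2) hsm
        (τ i) (s := s) (fun G₂ hG₂ e he => hvI i G₂ hG₂ e he) (hv i)
        (α := ψ (A i)) (β := 0) (γ := c * ψ (A i)) (δ := ψ (A i) ^ w)
        (by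
          rw [zero_mul, sub_zero]
          exact mul_ne_zero (hl0 i) (pow_ne_zero w (hl0 i)))
        (by
          intro e he
          rw [coeff_sub, hc1 i e he, hvy1, ← coeff_sub]
          have h1 : (C (ψ (A i)) * (C (q i).1 + C 1 * X 0) -
              (C (ψ (A i) * (q i).1) + C (ψ (A i)) * X 0 + C 0 * X 1) :
                MvPolynomial (Fin 2) ℂ) = 0 := by
            simp only [C_mul, C_1, C_0]
            ring
          rw [h1, coeff_zero])
        (by
          intro e he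
          rw [coeff_sub, hc2 i e he, hvy2, ← coeff_sub]
          have h1 : (C c * (C (ψ (A i)) * (C (q i).1 + C 1 * X 0)) +
              C (ψ (A i) ^ w) * (C (q i).2 + C 1 * X 1) -
              (C (c * (ψ (A i) * (q i).1) + ψ (A i) ^ w * (q i).2) + C (c * ψ (A i)) * X 0 +
                C (ψ (A i) ^ w) * X 1) : MvPolynomial (Fin 2) ℂ) = 0 := by
            simp only [C_mul, C_1, C_add]
            ring
          rw [h1, coeff_zero])
        (F := ∑ y, C (z y) * F (a y) - G₁ i) (by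
          intro e he
          have he' : (e 0, e 1) ∈ G.simplex (s + 1) := by
            rw [G.mem_simplex]
            have h1 : e.degree = e 0 + e 1 := by
              conv_lhs => rw [eq_expo e]
              rw [expo_degree]
            simp only
            omega
          have h1 := congrFun hz (i, ⟨(e 0, e 1), he'⟩)
          rw [hb] at h1
          simp only [Matrix.mulVec, dotProduct, Matrix.of_apply] at h1
          rw [← eq_expo e] at h1
          rw [map_sub, coeff_sub, sub_eq_zero, ← h1, map_sum, coeff_sum]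
          refine Finset.sum_congr rfl fun y _ => ?_
          have h2 : τ i (C (z y) * F (a y)) = C (z y) * τ i (F (a y)) := by
            rw [map_mul]
            congr 1
            exact (τ i).commutes (z y)
          rw [h2, coeff_C_mul, hτ' i (F (a y)) e he (M (i, ⟨(e 0, e 1), he'⟩) y) (by
            rw [hMv, ← eq_expo e]), mul_comm])
      rwa [sup_right_comm]

end Pool.Agent.Lib.MP_ed661f_ag.H
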