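import Pool.Agent.Lib.MP_ed661f_ag.H.ExistsChart
import Pool.Agent.Lib.MP_ed661f_ag.H.Krull
import Pool.Agent.Lib.MP_ed661f_ag.H.Basis
import Pool.Agent.Lib.MP_ed661f_ag.H.Growth
import Pool.Agent.Lib.MP_ed661f_ag.H.Degrees
import Pool.Agent.Lib.MP_ed661f_ag.H.Rows
import Pool.Agent.Lib.MP_ed661f_ag.H.Scale
import Pool.Agent.Lib.MP_ed661f_ag.H.JetMain
import Pool.Agent.Lib.MP_ed661f_ag.H.P
import Pool.Agent.Lib.MP_ed661f_ag.H.Sep

/-!
Multipoint Seshadri constants of surfaces: the main theorem.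
-/

set_option autoImplicit false

open MvPolynomial Filter
open scoped ENNReal

namespace Pool.Agent.Lib.MP_ed661f_ag.H

variable {N : ℕ}

/-- the degree of a curve is positive and finite -/
theorem deg_curve {I P : Ideal (Poly N)} (h : IsCurveOn I P) : deg P ≠ 0 ∧ deg P ≠ ⊤ := by
  obtain ⟨y, h1, h2, h3⟩ := exists_noether (J := P) h.prime.ne_top h.homogeneous (r := 2)
    (by rw [h.dim]; norm_num)
  obtain ⟨d, e, a, q, b, -, he, -, hq, hqb, hF⟩ := exists_basis h.prime h.homogeneous h1 h2 h3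
  exact deg_ne (d := d) (b := b)
    (fun k => hilb_le h.prime h.homogeneous (by norm_num) h1 h2 he hq hqb hF k)
    (fun k => le_hilb h1 h2 k)

/-- the value of a linear form at a multiple of a vector -/
theorem eval_smul_linear {l : Poly N} (hl : l.IsHomogeneous 1) (c : ℂ) (v : Fin (N + 1) → ℂ) :
    eval (c • v) l = c * eval v l := by
  rw [← eval_scaleHom, scaleHom_homogeneous c hl, pow_one, smul_eval]

/-- **multipoint Seshadri constants from separation of jets** -/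
theorem le_eps_of_jetSep {n κ s : ℕ} (hs : 1 ≤ s) (hsκ : s ≤ κ) {I : Ideal (Poly N)}
    (hI : IsSurface I) {l : Poly N} (hl : l.IsHomogeneous 1) {v : Fin n → Fin (N + 1) → ℂ}
    (hv : Function.Injective v) (hlv : ∀ i, eval (v i) l = 1)
    (hvI : ∀ i, ∀ G ∈ I, eval (v i) G = 0) (h : JetSep I l v κ s) :
    (s : ℝ≥0∞) / κ ≤ eps I n := by
  have hv0 : ∀ i, v i ≠ 0 := by
    intro i h0
    have h1 := hlv i
    have h2 := eval_smul_linear hl 0 (v i)
    rw [zero_smul, zero_mul] at h2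
    rw [h0, h2] at h1
    exact one_ne_zero h1.symm
  have hκ : (κ : ℝ≥0∞) ≠ 0 := by
    have : κ ≠ 0 := by omega
    exact_mod_cast this
  set x : Fin n → Projectivization ℂ (Fin (N + 1) → ℂ) := fun i =>
    Projectivization.mk ℂ (v i) (hv0 i) with hx
  have hrep : ∀ i, ∃ c : ℂ, c ≠ 0 ∧ (x i).rep = c • v i := by
    intro i
    obtain ⟨c, hc⟩ := Projectivization.exists_smul_eq_mk_rep ℂ (v i) (hv0 i)
    exact ⟨c, c.ne_zero, by rw [hx, ← hc]; rfl⟩
  have hxinj : Function.Injective x := by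
    intro i j hij
    rw [hx] at hij
    simp only at hij
    rw [Projectivization.mk_eq_mk_iff'] at hij
    obtain ⟨c, hc⟩ := hij
    apply hv
    have h1 := hlv i
    rw [← hc, eval_smul_linear hl, hlv j, mul_one] at h1
    rw [← hc, h1, one_smul]
  have hxI : ∀ i, OnVar I (x i) := by
    intro i F hF
    obtain ⟨c, -, hc⟩ := hrep i
    rw [hc, ← eval_scaleHom]
    exact hvI i _ (scaleHom_mem hI.homogeneous c hF)
  have hmain : (s : ℝ≥0∞) / κ ≤ seshadri I x := by
    unfold seshadri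
    refine le_iInf fun P => le_iInf fun hP => le_iInf fun _ => ?_
    obtain ⟨hd0, hd1⟩ := deg_curve hP
    rw [ENNReal.le_div_iff_mul_le (Or.inr hd0) (Or.inr hd1)]
    have h1 : ∀ i, mult P (x i).rep = mult P (v i) := by
      intro i
      obtain ⟨c, hc0, hc⟩ := hrep i
      rw [hc, mult_smul hP.homogeneous (v i) hc0]
    simp only [h1]
    have h2 := mult_le_of_jetSep hP.prime hP.le hl hv hlv (le_trans hs hsκ) hs h
    rw [mul_comm, ← mul_div_assoc, mul_comm]
    exact ENNReal.div_le_of_le_mul' h2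
  exact le_trans hmain (le_iSup_of_le x (le_iSup_of_le hxinj (le_iSup_of_le hxI le_rfl)))

/-- **the main theorem**: for every irreducible surface of degree `d` and all `n ≥ 2 ^ 101 d`,
`ε(n) ^ 2 ≥ (d / n) (1 - exp (- (log n) ^ 2 / 14))` -/
theorem surface_bound {I : Ideal (Poly N)} (hI : IsSurface I) {n : ℕ}
    (hn : 2 ^ 101 * surfDeg I ≤ n) :
    surfDeg I / n * ENNReal.ofReal (1 - Real.exp (-(Real.log n) ^ 2 / 14)) ≤ eps I n ^ 2 := by
  obtain ⟨d, hd, hdI, ⟨ch⟩⟩ := exists_chart hI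
  rw [hdI] at hn ⊢
  have hn' : 2 ^ 101 * d ≤ n := by exact_mod_cast hn
  have hn0 : 0 < n := lt_of_lt_of_le (by positivity) hn'
  obtain ⟨κ, s, hs, hsκ, hb, hS⟩ := theoremP hd hn' (∑ l, ch.a l)
  obtain ⟨c, S, F, hrow, hF, hlead⟩ := exists_rows ch κ
  obtain ⟨q, hq, hsep⟩ := hS S hrow
  obtain ⟨v, hv, hv1, hvI, hjet⟩ := jetSep_of_monSep ch hs hF hlead hq hsep
  have h1 := le_eps_of_jetSep hs hsκ hI ch.hy0 hv hv1 hvI hjet
  have hκ : 0 < κ := by omega
  have h2 : (d : ℝ≥0∞) / n * ENNReal.ofReal (1 - Real.exp (-(Real.log n) ^ 2 / 14)) =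
      ENNReal.ofReal (d / n * (1 - Real.exp (-(Real.log n) ^ 2 / 14))) := by
    rw [ENNReal.ofReal_mul (by positivity), ENNReal.ofReal_div_of_pos (by exact_mod_cast hn0),
      ENNReal.ofReal_natCast, ENNReal.ofReal_natCast]
  have h3 : (s : ℝ≥0∞) / κ = ENNReal.ofReal (s / κ) := by
    rw [ENNReal.ofReal_div_of_pos (by exact_mod_cast hκ), ENNReal.ofReal_natCast,
      ENNReal.ofReal_natCast]
  rw [h2]
  refine le_trans ?_ (pow_le_pow_left₀ (by positivity) h1 2)
  rw [h3, ← ENNReal.ofReal_pow (by positivity)]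
  refine ENNReal.ofReal_le_ofReal ?_
  exact (Real.sqrt_le_left (by positivity)).1 hb

end Pool.Agent.Lib.MP_ed661f_ag.H
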