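import Pool.Agent.Lib.MP_ed661f_ag.H.QDefs

/-! The Nullstellensatz for finitely generated subalgebras of a domain. -/

set_option autoImplicit false

open MvPolynomial Filter
open scoped ENNReal

namespace Pool.Agent.Lib.MP_ed661f_ag.H

theorem exists_algHom {Ω : Type} [CommRing Ω] [IsDomain Ω] [Algebra ℂ Ω]
    {s : Set Ω} (A : Subalgebra ℂ Ω) (hA : A = Algebra.adjoin ℂ s) (hs : s.Finite)
    (r : A) (hr : r ≠ 0) : ∃ ψ : A →ₐ[ℂ] ℂ, ψ r ≠ 0 := by
  have hft : Algebra.FiniteType ℂ A := by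
    have hfg : A.FG := by
      rw [hA]
      exact ⟨hs.toFinset, by simp⟩
    exact Subalgebra.fg_iff_finiteType A |>.1 hfg
  have hjac : IsJacobsonRing A := isJacobsonRing_of_finiteType (A := ℂ)
  have hbot : Ideal.jacobson (⊥ : Ideal A) = ⊥ :=
    IsJacobsonRing.out hjac (Ideal.isPrime_bot (α := A)).isRadical
  have hex : ∃ m : Ideal A, m.IsMaximal ∧ r ∉ m := by
    by_contra hcon
    push Not at hcon
    apply hr
    have : r ∈ Ideal.jacobson (⊥ : Ideal A) := by
      rw [Ideal.jacobson, Ideal.mem_sInf]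
      intro m hm
      exact hcon m hm.2
    rw [hbot] at this
    simpa using this
  obtain ⟨m, hm, hrm⟩ := hex
  let _ : Field (A ⧸ m) := Ideal.Quotient.field m
  have : Algebra.FiniteType ℂ (A ⧸ m) :=
    Algebra.FiniteType.of_surjective (Ideal.Quotient.mkₐ ℂ m) (Ideal.Quotient.mkₐ_surjective ℂ m)
  have : Module.Finite ℂ (A ⧸ m) := finite_of_finite_type_of_isJacobsonRing ℂ (A ⧸ m)
  have hbij : Function.Bijective (algebraMap ℂ (A ⧸ m)) :=
    IsAlgClosed.algebraMap_bijective_of_isIntegral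
  let e : ℂ ≃ₐ[ℂ] (A ⧸ m) := AlgEquiv.ofBijective (Algebra.ofId ℂ (A ⧸ m)) hbij
  refine ⟨e.symm.toAlgHom.comp (Ideal.Quotient.mkₐ ℂ m), ?_⟩
  intro h
  apply hrm
  have h2 : e.symm (Ideal.Quotient.mk m r) = 0 := h
  have h3 : Ideal.Quotient.mk m r = 0 := by
    have := congrArg e h2
    simpa using this
  exact Ideal.Quotient.eq_zero_iff_mem.1 h3

end Pool.Agent.Lib.MP_ed661f_ag.H
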