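import Pool.Agent.Lib.MP_ed661f_ag.H.PDefs
import Pool.Agent.Lib.MP_ed661f_ag.G.Abstract

/-! The abstract compression step, for independent conditions. -/

set_option autoImplicit false

open Polynomial

namespace Pool.Agent.Lib.MP_ed661f_ag.H

open Pool.Agent.Lib.MP_6b2d39_ag

/-- a combination of the first `card T` binomial functions which vanishes on `T` is trivial -/
theorem eq_zero_of_choose_sum {K : Type*} [Field K] [CharZero K] {α : Type*} (T : Finset α)
    (k : α → ℕ) (hk : ∀ s ∈ T, ∀ s' ∈ T, k s = k s' → s = s') (b : ℕ → K)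
    (h : ∀ s ∈ T, ∑ i ∈ Finset.range T.card, ((k s).choose i : K) * b i = 0) :
    ∀ i < T.card, b i = 0 := by
  classical
  let e : Fin T.card ≃ T := T.equivFin.symm
  let M : Matrix (Fin T.card) (Fin T.card) K := fun j i => ((k (e j)).choose i : K)
  have hM : M.det ≠ 0 := by
    intro h0
    obtain ⟨v, hv, hv0⟩ := Matrix.exists_vecMul_eq_zero_iff.2 h0
    apply hv
    have h1 := G.eq_zero_of_choose (K := K) T k hk
      (fun s => if hs : s ∈ T then v (e.symm ⟨s, hs⟩) else 0) (by
        intro a ha
        have h2 := congrFun hv0 ⟨a, ha⟩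
        rw [Matrix.vecMul, dotProduct] at h2
        rw [← Finset.sum_coe_sort, ← e.sum_comp]
        rw [Pi.zero_apply] at h2
        rw [← h2]
        refine Finset.sum_congr rfl fun j _ => ?_
        simp [M, mul_comm])
    ext j
    have h3 := h1 (e j) (e j).2
    simpa using h3
  have h4 : (fun i : Fin T.card => b i) = 0 := by
    apply Matrix.eq_zero_of_mulVec_eq_zero hM
    ext j
    have h5 := h (e j) (e j).2
    rw [Finset.sum_range] at h5
    rw [Matrix.mulVec, dotProduct, Pi.zero_apply, ← h5]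
  intro i hi
  exact congrFun h4 ⟨i, hi⟩

/-- abstract compression step, for independent conditions -/
theorem abstract_sur {K : Type*} [Field K] [CharZero K] {α β J : Type*} [DecidableEq β]
    [Fintype J] (S : Finset α) (g : α → β) (k : α → ℕ)
    (hk : ∀ s ∈ S, ∀ s' ∈ S, g s = g s' → k s = k s' → s = s') (ψ : J → β → ℕ → K)
    (h : ∀ d : J → K,
      (∀ E ∈ S.image g, ∀ i < (S.filter fun s => g s = E).card, ∑ j, d j * ψ j E i = 0) →
      d = 0) :
    ∃ l : K, l ≠ 0 ∧ ∀ d : J → K,
      (∀ s ∈ S, ∑ j, d j * ∑ i ∈ Finset.range (k s + 1),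
        ((k s).choose i : K) * l ^ i * ψ j (g s) i = 0) → d = 0 := by
  classical
  obtain ⟨n, hn⟩ : ∃ n : β → ℕ, n = fun E => (S.filter fun s => g s = E).card := ⟨_, rfl⟩
  have hn' : ∀ E, (S.filter fun s => g s = E).card = n E := fun E => by rw [hn]
  simp only [hn'] at h
  have hk' : ∀ E, ∀ s ∈ S.filter (fun s => g s = E), ∀ s' ∈ S.filter (fun s => g s = E),
      k s = k s' → s = s' := by
    intro E s hs s' hs' hss
    rw [Finset.mem_filter] at hs hs'
    exact hk s hs.1 s' hs'.1 (hs.2.trans hs'.2.symm) hss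
  -- the interpolation coefficients
  have hex : ∀ (E : β) (l : ℕ), ∃ u : ℕ → K, (∀ s ∈ S.filter (fun s => g s = E),
      ((k s).choose l : K) = ∑ i ∈ Finset.range (n E), u i * ((k s).choose i : K)) ∧
      (l < n E → ∀ i, u i = if i = l then 1 else 0) := by
    intro E l
    by_cases hl : l < n E
    · refine ⟨fun i => if i = l then 1 else 0, fun s _ => ?_, fun _ i => rfl⟩
      simp [hl]
    · obtain ⟨u, hu⟩ := G.exists_choose_comb (K := K) _ k (hk' E) l
      rw [hn'] at hu
      exact ⟨u, hu, fun h => absurd h hl⟩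
  choose u hu hu1 using hex
  obtain ⟨L, hL⟩ : ∃ L : ℕ, L = S.sup k + 1 + S.card := ⟨_, rfl⟩
  have hLk : ∀ s ∈ S, k s + 1 ≤ L := by
    intro s hs
    have := Finset.le_sup (f := k) hs
    omega
  have hLn : ∀ E, n E ≤ L := by
    intro E
    have : n E ≤ S.card := by
      rw [← hn']
      exact Finset.card_filter_le _ _
    omega
  let I : Finset (Σ _ : β, ℕ) := (S.image g).sigma fun E => Finset.range (n E)
  let P : J → β → ℕ → K[X] := fun j E i =>
    ∑ l ∈ Finset.range L, C (u E l i * ψ j E l) * X ^ (l - i)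
  have hmem : ∀ p : I, p.1.1 ∈ S.image g ∧ p.1.2 < n p.1.1 := by
    intro p
    have := p.2
    rw [Finset.mem_sigma, Finset.mem_range] at this
    exact this
  have hPe : ∀ (j : J) (E : β) (i : ℕ) (z : K), (P j E i).eval z =
      ∑ l ∈ Finset.range L, u E l i * ψ j E l * z ^ (l - i) := by
    intro j E i z
    simp only [P, eval_finsetSum, eval_mul, eval_C, eval_pow, eval_X]
  have hP0 : ∀ (j : J) (E : β) (i : ℕ), i < n E → (P j E i).eval 0 = ψ j E i := by
    intro j E i hi
    rw [hPe, Finset.sum_eq_single i]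
    · rw [hu1 _ _ hi, if_pos rfl, Nat.sub_self, pow_zero]
      ring
    · intro l _ hl
      rcases lt_or_gt_of_ne hl with h1 | h1
      · rw [hu1 _ _ (h1.trans hi), if_neg (Ne.symm hl)]
        ring
      · rw [zero_pow (by omega)]
        ring
    · intro h1
      exact absurd (Finset.mem_range.2 (lt_of_lt_of_le hi (hLn _))) h1
  -- a nonzero minor at `0`
  obtain ⟨a, ha⟩ := Transfer.exists_minor (K := K) (I := J) (J := I)
    (fun p j => (P j p.1.1 p.1.2).eval 0) (by
    intro c hc
    apply h
    intro E hE i hi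
    rw [← hc ⟨⟨E, i⟩, Finset.mem_sigma.2 ⟨hE, Finset.mem_range.2 hi⟩⟩]
    refine Finset.sum_congr rfl fun j _ => ?_
    rw [hP0 j E i hi, mul_comm])
  -- the minor as a polynomial
  let Δ : K[X] := (Matrix.of fun j j' => P j' (a j).1.1 (a j).1.2).det
  have hΔ : ∀ z : K, Δ.eval z = (Matrix.of fun j j' => (P j' (a j).1.1 (a j).1.2).eval z).det := by
    intro z
    have := RingHom.map_det (Polynomial.evalRingHom z)
      (Matrix.of fun j j' => P j' (a j).1.1 (a j).1.2)
    rw [Polynomial.coe_evalRingHom] at this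
    rw [this]
    rfl
  have hΔ0 : Δ ≠ 0 := by
    intro h0
    apply ha
    rw [← hΔ, h0, eval_zero]
  obtain ⟨z, hz⟩ : ∃ z, (X * Δ).eval z ≠ 0 := by
    by_contra hcon
    push Not at hcon
    exact mul_ne_zero X_ne_zero hΔ0 (Polynomial.funext fun z => by simpa using hcon z)
  rw [eval_mul, eval_X] at hz
  have hz0 : z ≠ 0 := left_ne_zero_of_mul hz
  have hz1 := right_ne_zero_of_mul hz
  rw [hΔ] at hz1
  refine ⟨z, hz0, fun d hd => ?_⟩
  refine Transfer.eq_zero_of_minor (K := K) (fun (p : I) j => (P j p.1.1 p.1.2).eval z) a hz1 d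
    fun p => ?_
  obtain ⟨hp1, hp2⟩ := hmem p
  generalize p.1.1 = E at hp1 hp2 ⊢
  generalize p.1.2 = i0 at hp1 hp2 ⊢
  have hb := eq_zero_of_choose_sum (K := K) (S.filter fun s => g s = E) k (hk' E)
    (fun i => z ^ i * ∑ j, (P j E i).eval z * d j) (by
      intro s hs
      rw [hn']
      have hs' := Finset.mem_filter.1 hs
      have h1 : ∑ i ∈ Finset.range (n E), ((k s).choose i : K) *
          (z ^ i * ∑ j, (P j E i).eval z * d j) =
          ∑ j, d j * ∑ l ∈ Finset.range L, ψ j E l * z ^ l *
            ∑ i ∈ Finset.range (n E), u E l i * ((k s).choose i : K) := by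
        simp only [Finset.mul_sum]
        rw [Finset.sum_comm]
        refine Finset.sum_congr rfl fun j _ => ?_
        rw [Finset.sum_comm (s := Finset.range L)]
        refine Finset.sum_congr rfl fun i hi => ?_
        rw [hPe, Finset.sum_mul, Finset.mul_sum, Finset.mul_sum]
        refine Finset.sum_congr rfl fun l _ => ?_
        rcases lt_or_ge l i with hl | hl
        · rw [hu1 _ _ (hl.trans (Finset.mem_range.1 hi)), if_neg (by omega)]
          ring
        · rw [show z ^ l = z ^ (l - i) * z ^ i by rw [← pow_add, Nat.sub_add_cancel hl]]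
          ring
      rw [h1, ← hd s hs'.1, hs'.2]
      refine Finset.sum_congr rfl fun j _ => ?_
      congr 1
      have h2 : ∑ l ∈ Finset.range L, ψ j E l * z ^ l *
          ∑ i ∈ Finset.range (n E), u E l i * ((k s).choose i : K) =
          ∑ l ∈ Finset.range L, ((k s).choose l : K) * z ^ l * ψ j E l := by
        refine Finset.sum_congr rfl fun l _ => ?_
        rw [← hu E l s hs]
        ring
      rw [h2]
      symm
      refine Finset.sum_subset (Finset.range_subset_range.2 (hLk s hs'.1)) fun i _ hi => ?_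
      rw [Finset.mem_range, not_lt] at hi
      rw [Nat.choose_eq_zero_of_lt (by omega)]
      simp)
  rw [hn'] at hb
  have h4 := hb i0 hp2
  simp only [mul_eq_zero] at h4
  rcases h4 with h4 | h4
  · exact absurd h4 (pow_ne_zero _ hz0)
  · exact h4

end Pool.Agent.Lib.MP_ed661f_ag.H
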