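import Pool.Agent.Lib.MP_ed661f_ag.H.PDefs

/-!
Triangular regions contained in sets of exponents, and the compression along lines.
-/

set_option autoImplicit false

namespace Pool.Agent.Lib.MP_ed661f_ag.H

/-- `S` contains the points of the triangle `(0, 0)`, `(σ h, h)`, `(w, 0)` at distance `M` from
the third side -/
def Low (σ w h M : ℝ) (S : Finset (ℕ × ℕ)) : Prop :=
  ∀ D κ : ℕ, σ * κ ≤ D → D + (w / h - σ) * κ ≤ w - M → (D, κ) ∈ S

theorem Low.phi {σ w h M : ℝ} {ρ : ℕ} {S : Finset (ℕ × ℕ)} (hS : Low σ w h M S) (hσ : 0 ≤ σ)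
    (hw : 0 < w) (hh : 0 < h) (hM : 0 ≤ M) (hlt : w < (σ + ρ) * h) :
    Low (σ + ρ) (h * (σ + ρ)) (w / (σ + ρ))
      (h * (σ + ρ) / w * (M + (σ + ρ - w / h))) (G.Phi ρ S) := by
  have _ := hM
  intro E i h1 h2
  rw [G.mem_Phi]
  simp only
  obtain ⟨σ', hσ'⟩ : ∃ σ', σ' = σ + ρ := ⟨_, rfl⟩
  rw [← hσ'] at h1 h2 hlt
  have hσ0 : 0 < σ' := by
    by_contra hcon
    have : σ' * h ≤ 0 := mul_nonpos_of_nonpos_of_nonneg (not_lt.1 hcon) hh.le
    linarith
  have hc : 0 < σ' - w / h := by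
    rw [sub_pos, div_lt_iff₀ hh]
    exact hlt
  have key : w / h * E + σ' * (M + (σ' - w / h) + (σ' - w / h) * i) ≤ σ' * w := by
    have h3 := mul_le_mul_of_nonneg_left h2 (show 0 ≤ w / h by positivity)
    have e1 : w / h * (E + (h * σ' / (w / σ') - σ') * i) =
        w / h * E + σ' * ((σ' - w / h) * i) := by
      field_simp
    have e2 : w / h * (h * σ' - h * σ' / w * (M + (σ' - w / h))) =
        σ' * w - σ' * (M + (σ' - w / h)) := by
      field_simp
    rw [e1, e2] at h3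
    linarith
  obtain ⟨k0, hk0⟩ : ∃ k0 : ℕ, k0 = ⌈((E : ℝ) - (w - M)) / (σ' - w / h)⌉₊ := ⟨_, rfl⟩
  have hk1 : (E : ℝ) - (w - M) ≤ (σ' - w / h) * k0 := by
    have h3 : ((E : ℝ) - (w - M)) / (σ' - w / h) ≤ k0 := by
      rw [hk0]
      exact Nat.le_ceil _
    rw [div_le_iff₀ hc] at h3
    linarith
  have hk2 : σ' * (k0 + i) ≤ E := by
    rcases le_or_gt ((E : ℝ) - (w - M)) 0 with h3 | h3
    · have h4 : k0 = 0 := by
        rw [hk0, Nat.ceil_eq_zero]
        exact div_nonpos_of_nonpos_of_nonneg h3 hc.le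
      rw [h4, Nat.cast_zero, zero_add]
      exact h1
    · have h4 : (k0 : ℝ) < ((E : ℝ) - (w - M)) / (σ' - w / h) + 1 := by
        rw [hk0]
        exact Nat.ceil_lt_add_one (by positivity)
      have h5 : (k0 : ℝ) * (σ' - w / h) ≤ (E : ℝ) - (w - M) + (σ' - w / h) := by
        have h6 := mul_le_mul_of_nonneg_right h4.le hc.le
        rw [add_mul, div_mul_cancel₀ _ hc.ne', one_mul] at h6
        exact h6
      have h7 : (σ' - w / h) * (σ' * (k0 + i)) ≤ (σ' - w / h) * E := by
        have h8 := mul_le_mul_of_nonneg_left h5 hσ0.le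
        nlinarith
      exact le_of_mul_le_mul_left h7 hc
  have hρ : ∀ j ≤ i, ρ * (k0 + j) ≤ E := by
    intro j hj
    have h3 : (ρ : ℝ) * (k0 + j) ≤ E := by
      have h4 : (ρ : ℝ) ≤ σ' := by
        rw [hσ']
        linarith
      have h5 : (j : ℝ) ≤ i := by exact_mod_cast hj
      calc (ρ : ℝ) * (k0 + j) ≤ σ' * (k0 + i) := by
            apply mul_le_mul h4 (by linarith) (by positivity) hσ0.le
        _ ≤ E := hk2
    exact_mod_cast h3
  have hmaps : ∀ j ∈ Finset.range (i + 1),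
      (E - ρ * (k0 + j), k0 + j) ∈ S.filter fun u => u.1 + ρ * u.2 = E := by
    intro j hj
    have hji : j ≤ i := by
      rw [Finset.mem_range] at hj
      omega
    have hjr : (j : ℝ) ≤ i := by exact_mod_cast hji
    have hj0 : (0 : ℝ) ≤ j := Nat.cast_nonneg j
    rw [Finset.mem_filter]
    refine ⟨hS _ _ ?_ ?_, ?_⟩
    · rw [Nat.cast_sub (hρ j hji)]
      push_cast
      have h3 : σ' * (k0 + j) ≤ E := by
        refine le_trans ?_ hk2
        apply mul_le_mul_of_nonneg_left _ hσ0.le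
        linarith
      rw [hσ'] at h3
      linarith
    · rw [Nat.cast_sub (hρ j hji)]
      push_cast
      have h3 : (σ' - w / h) * j ≥ 0 := mul_nonneg hc.le hj0
      have h4 : (E : ℝ) - ρ * (k0 + j) + (w / h - σ) * (k0 + j) =
          E - (σ' - w / h) * (k0 + j) := by
        rw [hσ']
        ring
      rw [h4]
      linarith
    · have := hρ j hji
      simp only
      omega
  have hcard := Finset.card_le_card_of_injOn (s := Finset.range (i + 1))
    (fun j => (E - ρ * (k0 + j), k0 + j)) hmaps (by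
      intro j _ j' _ hjj
      simp only [Prod.mk.injEq] at hjj
      omega)
  rw [Finset.card_range] at hcard
  omega

end Pool.Agent.Lib.MP_ed661f_ag.H
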