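import Pool.Agent.Lib.MP_ed661f_ag.H.PSteps
import Pool.Agent.Lib.MP_ed661f_ag.H.PRegion

/-!
Chains of contact orders: the conditions of multiplicity `m` are independent.
-/

set_option autoImplicit false

open Polynomial

namespace Pool.Agent.Lib.MP_ed661f_ag.H

/-- the conditions of contact order `n` are independent on the sections supported on `S`, after a
contact of order `σ` -/
def Ind (n m : ℕ) (S : Finset (ℕ × ℕ)) (σ : ℕ) : Prop :=
  ∃ ξ : ℂ[X], Sur S X ξ ((I0 n m).image fun p => (p.1 + σ * p.2, p.2))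

theorem Ind.back {n m σ ρ : ℕ} {S : Finset (ℕ × ℕ)} (h : Ind n m (G.Phi ρ S) (σ + ρ)) :
    Ind n m S σ := by
  classical
  obtain ⟨ξ, hξ⟩ := h
  obtain ⟨l, -, hl⟩ := Sur.stepA (K := ℂ) (S := S) (ξ := ξ) (ρ := ρ)
    (I := (I0 n m).image fun p => (p.1 + σ * p.2, p.2)) (by
      rw [Finset.image_image]
      have h1 : ((fun p : ℕ × ℕ => (p.1 + ρ * p.2, p.2)) ∘
          fun p : ℕ × ℕ => (p.1 + σ * p.2, p.2)) =
          fun p : ℕ × ℕ => (p.1 + (σ + ρ) * p.2, p.2) := by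
        funext p
        simp only [Function.comp]
        rw [Prod.mk.injEq]
        exact ⟨by ring, rfl⟩
      rw [h1]
      exact hξ)
  exact ⟨_, hl⟩

theorem Ind.back_zero {n m ρ : ℕ} {S : Finset (ℕ × ℕ)} (h : Ind n m (G.Phi ρ (G.Psi S)) ρ) :
    ∃ (μ : ℂ) (ξ : ℂ[X]), μ ≠ 0 ∧ Sur S (1 + C μ * X) ξ (I0 n m) := by
  classical
  have h1 : Ind n m (G.Psi S) 0 := by
    apply Ind.back (ρ := ρ)
    rw [Nat.zero_add]
    exact h
  obtain ⟨ξ, hξ⟩ := h1
  have h2 : ((I0 n m).image fun p => (p.1 + 0 * p.2, p.2)) = I0 n m := by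
    ext p
    simp
  rw [h2] at hξ
  obtain ⟨μ, hμ, h3⟩ := Sur.stepB hξ
  exact ⟨μ, ξ, hμ, h3⟩

theorem ind_final {n m σ : ℕ} {x Y M : ℝ} {S : Finset (ℕ × ℕ)} (hx : 0 < x) (hxn : (n : ℝ) ≤ x ^ 2)
    (hY : 0 < Y) (hn : 1 ≤ n) (h : x ^ 2 * m ≤ x * Y - M) (hS : Low σ (x * Y) (Y / x) M S) :
    Ind n m S σ := by
  classical
  refine ⟨0, sur_monomial ?_⟩
  intro q hq
  obtain ⟨p, hp, rfl⟩ := Finset.mem_image.1 hq
  rw [mem_I0] at hp
  have hnR : (1 : ℝ) ≤ n := by exact_mod_cast hn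
  have hpR : (p.1 : ℝ) + n * p.2 ≤ n * m := by exact_mod_cast hp.le
  apply hS
  · push_cast
    have : (0 : ℝ) ≤ p.1 := Nat.cast_nonneg _
    linarith
  · have e : x * Y / (Y / x) = x ^ 2 := by
      field_simp
    rw [e]
    push_cast
    have h1 : (p.1 : ℝ) + x ^ 2 * p.2 ≤ x ^ 2 * m := by
      have h2 : (n : ℝ) * (p.1 + x ^ 2 * p.2) ≤ n * (x ^ 2 * m) := by
        have h3 : (0 : ℝ) ≤ p.1 := Nat.cast_nonneg _
        have h4 := mul_le_mul_of_nonneg_left hpR (sq_nonneg x)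
        have h5 := mul_le_mul_of_nonneg_right hxn h3
        nlinarith
      exact le_of_mul_le_mul_left h2 (by linarith)
    linarith

theorem chain_aux {δ σ : ℕ} {x : ℝ} (h : RchD δ σ x) (hδ : 1 ≤ δ) (C : ℕ) :
    0 < x ∧ (0 : ℝ) < σ ∧ x ^ 2 * 0 < 1 ∧ ∃ M : ℝ, 0 < M ∧ ∀ (κ : ℕ), 1 ≤ κ → ∀ (n m : ℕ)
      (S₀ : Finset (ℕ × ℕ)),
      (∀ b ≤ κ, δ * (κ - b) ≤ (S₀.filter fun s => s.2 = b).card + C) →
      (∀ S, Low σ (x * (κ * √δ)) (κ * √δ / x) M S → Ind n m S σ) →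
      ∃ (μ : ℂ) (ξ : ℂ[X]), μ ≠ 0 ∧ Sur S₀ (1 + Polynomial.C μ * X) ξ (I0 n m) := by
  have hδR : (1 : ℝ) ≤ δ := by exact_mod_cast hδ
  have hs : 0 < √(δ : ℝ) := Real.sqrt_pos.2 (by linarith)
  have hss : √(δ : ℝ) * √δ = δ := Real.mul_self_sqrt (by linarith)
  induction h with
  | start a ha =>
    have haR : (2 : ℝ) ≤ a := by exact_mod_cast ha
    have hx : 0 < a * √(δ : ℝ) := by positivity
    refine ⟨hx, by push_cast; positivity, by norm_num, a * δ / δ * ((C + 1) + (a * δ - δ)), ?_, ?_⟩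
    · have h1 : (0 : ℝ) < a * δ - δ := by nlinarith
      have h2 : (0 : ℝ) ≤ C := Nat.cast_nonneg C
      positivity
    intro κ hκ n m S₀ hS₀ H
    have hκR : (1 : ℝ) ≤ κ := by exact_mod_cast hκ
    apply Ind.back_zero (ρ := a * δ)
    apply H
    have h0 : Low 0 (δ * κ) κ (C + 1) (G.Psi S₀) := by
      intro D b _ h2
      rw [mul_div_cancel_right₀ _ (by positivity : (κ : ℝ) ≠ 0), sub_zero] at h2
      have hD : (0 : ℝ) ≤ D := Nat.cast_nonneg D
      have hC : (0 : ℝ) ≤ C := Nat.cast_nonneg C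
      have hb : b ≤ κ := by
        have h3 : (δ : ℝ) * b ≤ δ * κ := by linarith
        have h4 : (b : ℝ) ≤ κ := le_of_mul_le_mul_left h3 (by linarith)
        exact_mod_cast h4
      rw [G.mem_Psi]
      simp only
      have h3 := hS₀ b hb
      have h4 : D + δ * b + C + 1 ≤ δ * κ := by
        have : (D : ℝ) + δ * b + C + 1 ≤ δ * κ := by linarith
        exact_mod_cast this
      have h5 : δ * (κ - b) = δ * κ - δ * b := Nat.mul_sub _ _ _
      omega
    have h1 := h0.phi (ρ := a * δ) le_rfl (by positivity) (by positivity) (by positivity) (by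
      rw [zero_add]
      push_cast
      nlinarith [mul_pos (show (0 : ℝ) < δ by linarith) (show (0 : ℝ) < κ by linarith)])
    rw [zero_add] at h1
    convert h1 using 1
    · push_cast
      linear_combination (a * κ : ℝ) * hss
    · push_cast
      field_simp
    · push_cast
      field_simp
  | @step σ x σ' hr h1 h2 ih =>
    obtain ⟨hx, hσ, -, M, hM, ih⟩ := ih
    have hσ' : (0 : ℝ) < σ' := by
      have : (σ : ℝ) < σ' := by exact_mod_cast h1
      linarith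
    have h3 : 0 < (σ' : ℝ) - x ^ 2 := by linarith
    refine ⟨by positivity, hσ', by norm_num, σ' / x ^ 2 * (M + (σ' - x ^ 2)), by positivity, ?_⟩
    intro κ hκ n m S₀ hS₀ H
    have hκR : (1 : ℝ) ≤ κ := by exact_mod_cast hκ
    refine ih κ hκ n m S₀ hS₀ fun S hS => ?_
    obtain ⟨ρ, rfl⟩ := Nat.exists_eq_add_of_le h1.le
    apply Ind.back (ρ := ρ)
    apply H
    have hY : (0 : ℝ) < κ * √δ := by positivity
    generalize (κ : ℝ) * √δ = Y at hS hY
    push_cast at hσ' h3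
    have h4 := hS.phi (ρ := ρ) hσ.le (by positivity) (by positivity) hM.le (by
      rw [mul_div_assoc', lt_div_iff₀ hx]
      nlinarith)
    have e1 : x * Y / (Y / x) = x ^ 2 := by
      field_simp
    rw [e1] at h4
    convert h4 using 1
    · push_cast; rfl
    · push_cast
      field_simp
    · push_cast
      field_simp
    · push_cast
      field_simp

theorem sur_of_rch {δ n σ : ℕ} {x : ℝ} (h : RchD δ σ x) (hδ : 1 ≤ δ) (hx : √n ≤ x) (hn : 1 ≤ n)
    (C : ℕ) : ∃ M : ℝ, ∀ κ m : ℕ, x ^ 2 * m ≤ x * (κ * √δ) - M → ∀ S : Finset (ℕ × ℕ),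
      (∀ b ≤ κ, δ * (κ - b) ≤ (S.filter fun s => s.2 = b).card + C) →
      ∃ (μ : ℂ) (ξ : ℂ[X]), μ ≠ 0 ∧ Sur S (1 + Polynomial.C μ * X) ξ (I0 n m) := by
  obtain ⟨hx0, -, -, M, hM, H⟩ := chain_aux h hδ C
  refine ⟨M, fun κ m hm S hS => ?_⟩
  have hδR : (1 : ℝ) ≤ δ := by exact_mod_cast hδ
  have hs : 0 < √(δ : ℝ) := Real.sqrt_pos.2 (by linarith)
  have hκ : 1 ≤ κ := by
    rcases Nat.eq_zero_or_pos κ with h0 | h0
    · rw [h0, Nat.cast_zero, zero_mul, mul_zero] at hm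
      have : (0 : ℝ) ≤ x ^ 2 * m := by positivity
      linarith
    · exact h0
  have hκR : (1 : ℝ) ≤ κ := by exact_mod_cast hκ
  refine H κ hκ n m S hS fun S' hS' => ?_
  have hxn : (n : ℝ) ≤ x ^ 2 := by
    have h1 := pow_le_pow_left₀ (Real.sqrt_nonneg _) hx 2
    rwa [Real.sq_sqrt (Nat.cast_nonneg n)] at h1
  exact ind_final hx0 hxn (by positivity) hn hm hS'

end Pool.Agent.Lib.MP_ed661f_ag.H
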