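import Pool.Agent.Lib.MP_ed661f_ag.H.PChain
import Pool.Agent.Lib.MP_ed661f_ag.H.PPoints

/-!
Monomials separate jets: the polynomial half of the theorem on all surfaces.
-/

set_option autoImplicit false

open Polynomial

namespace Pool.Agent.Lib.MP_ed661f_ag.H

/-- a chain gives separation of jets, with any ratio smaller than `√δ / x` -/
theorem monSep_of_rch {δ n σ : ℕ} {x : ℝ} (h : RchD δ σ x) (hδ : 1 ≤ δ) (hx : √n ≤ x)
    (hn : δ ≤ n) (C : ℕ) {r : ℝ} (hr : r < √δ / x) :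
    ∃ κ s : ℕ, 1 ≤ s ∧ s ≤ κ ∧ r ≤ s / κ ∧
      ∀ S : Finset (ℕ × ℕ), (∀ b ≤ κ, δ * (κ - b) ≤ (S.filter fun s => s.2 = b).card + C) →
        ∃ q : Fin n → ℂ × ℂ, Function.Injective q ∧ MonSep S q s := by
  obtain ⟨M, hM⟩ := sur_of_rch h hδ hx (hδ.trans hn) C
  have hδR : (1 : ℝ) ≤ δ := by exact_mod_cast hδ
  have hnR : (δ : ℝ) ≤ n := by exact_mod_cast hn
  have hs : 0 < √(δ : ℝ) := Real.sqrt_pos.2 (by linarith)
  have hsn : √(δ : ℝ) ≤ √n := Real.sqrt_le_sqrt hnR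
  have hx0 : 0 < x := lt_of_lt_of_le hs (hsn.trans hx)
  have hq1 : √δ / x ≤ 1 := by
    rw [div_le_one hx0]
    exact hsn.trans hx
  have hq0 : 0 < √δ / x := by positivity
  set q := √δ / x with hq
  -- the constants
  obtain ⟨B, hB⟩ : ∃ B : ℝ, B = |M| / x ^ 2 + 2 := ⟨_, rfl⟩
  have hB0 : 0 < B := by
    rw [hB]
    positivity
  obtain ⟨κ, hκ⟩ : ∃ κ : ℕ, B / (q - max r 0) + (B + 1) / q < κ := by
    exact exists_nat_gt _
  have hr' : max r 0 < q := max_lt hr hq0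
  have hκ1 : B / (q - max r 0) < κ := by
    have : 0 < (B + 1) / q := by positivity
    linarith
  have hκ2 : (B + 1) / q < κ := by
    have : 0 < B / (q - max r 0) := div_pos hB0 (by linarith)
    linarith
  rw [div_lt_iff₀ (by linarith)] at hκ1
  rw [div_lt_iff₀ hq0] at hκ2
  have hκ0 : (0 : ℝ) < κ := by
    by_contra hcon
    have h1 : (κ : ℝ) = 0 := le_antisymm (not_lt.1 hcon) (Nat.cast_nonneg _)
    rw [h1, zero_mul] at hκ2
    linarith
  -- the order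
  have hB2 : 2 ≤ B := by
    rw [hB]
    have : 0 ≤ |M| / x ^ 2 := by positivity
    linarith
  obtain ⟨s, hs1⟩ : ∃ s : ℕ, s = ⌊κ * q - B⌋₊ + 1 := ⟨_, rfl⟩
  have hs2 : κ * q - B < s := by
    rw [hs1]
    push_cast
    exact Nat.lt_floor_add_one _
  have hs3 : (s : ℝ) ≤ κ * q - B + 1 := by
    rw [hs1]
    push_cast
    have := Nat.floor_le (show 0 ≤ κ * q - B by linarith)
    linarith
  refine ⟨κ, s, by omega, ?_, ?_, fun S hS => ?_⟩
  · have h1 : (κ : ℝ) * q ≤ κ := by nlinarith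
    have h2 : (s : ℝ) ≤ κ := by linarith
    exact_mod_cast h2
  · rw [le_div_iff₀ hκ0]
    have h1 : r * κ ≤ max r 0 * κ := mul_le_mul_of_nonneg_right (le_max_left _ _) hκ0.le
    linarith
  · obtain ⟨μ, ξ, hμ, h1⟩ := hM κ (s + 1) (by
      push_cast
      have h2 : (s : ℝ) + 1 ≤ κ * q - |M| / x ^ 2 := by linarith
      have h3 : x ^ 2 * ((s : ℝ) + 1) ≤ x ^ 2 * (κ * q - |M| / x ^ 2) :=
        mul_le_mul_of_nonneg_left h2 (sq_nonneg x)
      have h4 : x ^ 2 * (κ * q - |M| / x ^ 2) = x * (κ * √δ) - |M| := by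
        rw [hq]
        field_simp
      have h5 := le_abs_self M
      linarith) S hS
    exact monSep_of_sur hμ h1

theorem final_ineq {δ n : ℕ} {x : ℝ} (hδ : 1 ≤ δ) (hn : 2 ^ 101 ≤ n) (hx : √n ≤ x)
    (hx2 : x ≤ √n * (1 + Real.exp (-(Real.log n) ^ 2 / 13))) :
    √(δ / n * (1 - Real.exp (-(Real.log n) ^ 2 / 14))) < √δ / x := by
  have hδR : (1 : ℝ) ≤ δ := by exact_mod_cast hδ
  have hn2 : 10 ^ 6 ≤ n := le_trans (by norm_num) hn
  have hnR : (10 : ℝ) ^ 6 ≤ n := by exact_mod_cast hn2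
  have hnpos : (0 : ℝ) < n := by linarith [show (0 : ℝ) < 10 ^ 6 by norm_num]
  set s := √(n : ℝ) with hs
  have hs0 : 0 < s := Real.sqrt_pos.2 hnpos
  have hss : s * s = n := Real.mul_self_sqrt hnpos.le
  have hx0 : 0 < x := lt_of_lt_of_le hs0 hx
  set L := Real.log n with hL
  have hLlb : 13 ≤ L := by
    rw [hL, Real.le_log_iff_exp_le hnpos]
    refine le_trans ?_ hnR
    have h1 : Real.exp 1 < 2.7182818286 := Real.exp_one_lt_d9
    have h2 : Real.exp 13 = Real.exp 1 ^ 13 := by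
      rw [← Real.exp_nat_mul]
      norm_num
    rw [h2]
    calc Real.exp 1 ^ 13 ≤ (2.7182818286 : ℝ) ^ 13 :=
          pow_le_pow_left₀ (Real.exp_pos _).le h1.le _
      _ ≤ 10 ^ 6 := by norm_num
  set e := Real.exp (-L ^ 2 / 13) with he
  have he0 : 0 < e := Real.exp_pos _
  have hE : 2 * e ≤ Real.exp (-L ^ 2 / 14) := by
    have h2 : Real.exp (-L ^ 2 / 14) = e * Real.exp (L ^ 2 / 182) := by
      rw [he, ← Real.exp_add]
      congr 1
      ring
    have h4 : (2 : ℝ) ≤ Real.exp (L ^ 2 / 182) := by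
      have h6 : Real.exp (L ^ 2 / 182) ≥ 1 + L ^ 2 / 182 + (L ^ 2 / 182) ^ 2 / 2 :=
        Real.quadratic_le_exp_of_nonneg (by positivity)
      have h7 : (169 / 182 : ℝ) ≤ L ^ 2 / 182 := by
        have : (169 : ℝ) ≤ L ^ 2 := by nlinarith
        linarith
      nlinarith
    rw [h2]
    nlinarith
  have h1 : (1 - 2 * e) * (1 + e) ^ 2 < 1 := by
    have : (1 - 2 * e) * (1 + e) ^ 2 = 1 - (3 * e ^ 2 + 2 * e ^ 3) := by ring
    have h3 : 0 < e ^ 2 := by positivity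
    have h4 : 0 < e ^ 3 := by positivity
    linarith
  have h2 : (1 - Real.exp (-L ^ 2 / 14)) * x ^ 2 < n := by
    have h3 : x ^ 2 ≤ (s * (1 + e)) ^ 2 := pow_le_pow_left₀ hx0.le hx2 2
    have h4 : (s * (1 + e)) ^ 2 = n * (1 + e) ^ 2 := by
      rw [mul_pow, sq s, hss]
    have h5 : (1 - Real.exp (-L ^ 2 / 14)) * x ^ 2 ≤ (1 - 2 * e) * x ^ 2 :=
      mul_le_mul_of_nonneg_right (by linarith) (by positivity)
    rcases le_or_gt (1 - 2 * e) 0 with h6 | h6
    · have : (1 - 2 * e) * x ^ 2 ≤ 0 := mul_nonpos_of_nonpos_of_nonneg h6 (by positivity)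
      linarith
    · calc (1 - Real.exp (-L ^ 2 / 14)) * x ^ 2 ≤ (1 - 2 * e) * x ^ 2 := h5
        _ ≤ (1 - 2 * e) * (n * (1 + e) ^ 2) := by
            rw [← h4]
            exact mul_le_mul_of_nonneg_left h3 h6.le
        _ = n * ((1 - 2 * e) * (1 + e) ^ 2) := by ring
        _ < n * 1 := mul_lt_mul_of_pos_left h1 hnpos
        _ = n := mul_one _
  rw [Real.sqrt_lt' (by positivity), div_pow, Real.sq_sqrt (by linarith), div_mul_eq_mul_div,
    div_lt_div_iff₀ hnpos (by positivity), mul_assoc]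
  exact mul_lt_mul_of_pos_left h2 (by linarith)

end Pool.Agent.Lib.MP_ed661f_ag.H
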