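import Pool.Agent.Lib.MP_ed661f_ag.H.PAbs

/-! The two compression steps for germs, for independent conditions. -/

set_option autoImplicit false

open Polynomial

namespace Pool.Agent.Lib.MP_ed661f_ag.H

/-- special position with respect to the curve `y = x ^ ρ` -/
theorem Sur.stepA {K : Type*} [Field K] [CharZero K] {S I : Finset (ℕ × ℕ)} {ξ : K[X]} {ρ : ℕ}
    (h : Sur (G.Phi ρ S) X ξ (I.image fun p => (p.1 + ρ * p.2, p.2))) :
    ∃ l : K, l ≠ 0 ∧ Sur S X (X ^ ρ * (1 + C l * ξ)) I := by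
  classical
  have hinj : Function.Injective fun p : ℕ × ℕ => (p.1 + ρ * p.2, p.2) := by
    intro p q hpq
    simp only [Prod.mk.injEq] at hpq
    obtain ⟨h1, h2⟩ := hpq
    rw [h2] at h1
    exact Prod.ext (by omega) h2
  obtain ⟨l, hl, hl2⟩ := abstract_sur (K := K) (J := I) S (fun s => s.1 + ρ * s.2) (fun s => s.2)
    (by
      intro s _ s' _ h1 h2
      replace h1 : s.1 + ρ * s.2 = s'.1 + ρ * s'.2 := h1
      replace h2 : s.2 = s'.2 := h2
      rw [h2] at h1
      exact Prod.ext (by omega) h2)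
    (fun p E i => ((C (X ^ E) * (C ξ + X) ^ i : K[X][X]).coeff p.1.2).coeff (p.1.1 + ρ * p.1.2))
    (by
      intro d hd
      -- transport to the image
      let d' : ℕ × ℕ → K := fun q => if hq : ∃ p : I, (p.1.1 + ρ * p.1.2, p.1.2) = q then
        d hq.choose else 0
      have hd' : ∀ p : I, d' (p.1.1 + ρ * p.1.2, p.1.2) = d p := by
        intro p
        have hq : ∃ p' : I, (p'.1.1 + ρ * p'.1.2, p'.1.2) = (p.1.1 + ρ * p.1.2, p.1.2) := ⟨p, rfl⟩
        simp only [d']
        rw [dif_pos hq]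
        congr 1
        exact Subtype.ext (hinj hq.choose_spec)
      have h1 := h d' (by
        rintro ⟨E, i⟩ hs
        rw [G.mem_Phi] at hs
        have hE : E ∈ S.image fun s => s.1 + ρ * s.2 := by
          obtain ⟨u, hu⟩ := Finset.card_pos.1 (lt_of_le_of_lt (Nat.zero_le _) hs)
          rw [Finset.mem_filter] at hu
          exact Finset.mem_image.2 ⟨u, hu.1, hu.2⟩
        rw [Finset.sum_image fun p _ q _ hpq => hinj hpq, ← Finset.sum_coe_sort]
        rw [← hd E hE i hs]
        refine Finset.sum_congr rfl fun p _ => ?_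
        rw [hd'])
      ext p
      rw [← hd' p]
      exact h1 _ (Finset.mem_image_of_mem _ p.2))
  refine ⟨l, hl, fun d hd p hp => ?_⟩
  have h3 : (fun p : I => d p.1 * (l ^ p.1.2)⁻¹) = 0 := by
    apply hl2
    intro s hs
    refine Eq.trans ?_ (hd s hs)
    rw [← Finset.sum_coe_sort I]
    refine Finset.sum_congr rfl fun p _ => ?_
    rw [mul_assoc]
    congr 1
    have hcomp : (C (X ^ s.1) * (C (X ^ ρ * (1 + C l * ξ)) + X) ^ s.2 : K[X][X]).comp
        (C (C l * X ^ ρ) * X) =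
        ∑ i ∈ Finset.range (s.2 + 1), C (C (((s.2).choose i : K) * l ^ i)) *
          (C (X ^ (s.1 + ρ * s.2)) * (C ξ + X) ^ i) := by
      rw [mul_comp, C_comp, pow_comp, add_comp, C_comp, X_comp]
      have h1 : (C (X ^ ρ * (1 + C l * ξ)) + C (C l * X ^ ρ) * X : K[X][X]) =
          C (X ^ ρ) * (C (C l) * (C ξ + X) + 1) := by
        simp only [C_mul, C_add, C_1]
        ring
      rw [h1, mul_pow, add_pow, Finset.mul_sum, Finset.mul_sum]
      refine Finset.sum_congr rfl fun i _ => ?_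
      rw [pow_add, pow_mul, mul_pow, one_pow]
      simp only [C_mul, C_pow, map_natCast]
      ring
    have h2 : ((C (X ^ s.1) * (C (X ^ ρ * (1 + C l * ξ)) + X) ^ s.2 : K[X][X]).comp
        (C (C l * X ^ ρ) * X)).coeff p.1.2 =
        (C (X ^ s.1) * (C (X ^ ρ * (1 + C l * ξ)) + X) ^ s.2 : K[X][X]).coeff p.1.2 *
          (C l * X ^ ρ) ^ p.1.2 := by
      rw [comp_C_mul_X_coeff]
    have h4 := congrArg (fun q : K[X] => q.coeff (p.1.1 + ρ * p.1.2)) h2
    rw [hcomp, mul_pow, ← C_pow, ← mul_assoc, mul_comm (coeff _ _) (C _), mul_assoc, coeff_C_mul,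
      ← pow_mul, coeff_mul_X_pow, finsetSum_coeff, finsetSum_coeff] at h4
    have h5 : (l ^ p.1.2)⁻¹ * ∑ i ∈ Finset.range (s.2 + 1), ((s.2).choose i : K) * l ^ i *
        ((C (X ^ (s.1 + ρ * s.2)) * (C ξ + X) ^ i : K[X][X]).coeff p.1.2).coeff
          (p.1.1 + ρ * p.1.2) =
        (l ^ p.1.2)⁻¹ * (l ^ p.1.2 *
          ((C (X ^ s.1) * (C (X ^ ρ * (1 + C l * ξ)) + X) ^ s.2 : K[X][X]).coeff
            p.1.2).coeff p.1.1) := by
      rw [← h4]
      congr 1
      refine Finset.sum_congr rfl fun i _ => ?_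
      simp only [coeff_C_mul]
    rw [h5, inv_mul_cancel_left₀ (pow_ne_zero _ hl)]
  have h4 := congrFun h3 ⟨p, hp⟩
  simp only [Pi.zero_apply, mul_eq_zero, inv_eq_zero] at h4
  rcases h4 with h4 | h4
  · exact h4
  · exact absurd h4 (pow_ne_zero _ hl)

/-- moving the centre to `x = 1` -/
theorem Sur.stepB {K : Type*} [Field K] [CharZero K] {S I : Finset (ℕ × ℕ)} {ξ : K[X]}
    (h : Sur (G.Psi S) X ξ I) :
    ∃ μ : K, μ ≠ 0 ∧ Sur S (1 + C μ * X) ξ I := by
  classical
  obtain ⟨l, hl, hl2⟩ := abstract_sur (K := K) (J := I) S (fun s => s.2) (fun s => s.1)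
    (by
      intro s _ s' _ h1 h2
      exact Prod.ext h2 h1)
    (fun p b i => ((C (X ^ i) * (C ξ + X) ^ b : K[X][X]).coeff p.1.2).coeff p.1.1)
    (by
      intro d hd
      have h1 := h (fun p => if hp : p ∈ I then d ⟨p, hp⟩ else 0) (by
        rintro ⟨i, b⟩ hs
        rw [G.mem_Psi] at hs
        have hb : b ∈ S.image fun s => s.2 := by
          obtain ⟨u, hu⟩ := Finset.card_pos.1 (lt_of_le_of_lt (Nat.zero_le _) hs)
          rw [Finset.mem_filter] at hu
          exact Finset.mem_image.2 ⟨u, hu.1, hu.2⟩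
        rw [← hd b hb i hs, ← Finset.sum_coe_sort]
        refine Finset.sum_congr rfl fun p _ => ?_
        rw [dif_pos p.2])
      ext p
      have h2 := h1 p.1 p.2
      rw [dif_pos p.2] at h2
      exact h2)
  refine ⟨l, hl, fun d hd p hp => ?_⟩
  have h3 : (fun p : I => d p.1) = 0 := by
    apply hl2
    intro s hs
    refine Eq.trans ?_ (hd s hs)
    rw [← Finset.sum_coe_sort I]
    refine Finset.sum_congr rfl fun p _ => ?_
    congr 1
    have hF : (C ((1 + C l * X) ^ s.1) * (C ξ + X) ^ s.2 : K[X][X]) =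
        ∑ i ∈ Finset.range (s.1 + 1),
          C (C (((s.1).choose i : K) * l ^ i)) * (C (X ^ i) * (C ξ + X) ^ s.2) := by
      rw [add_comm (1 : K[X]), add_pow, map_sum, Finset.sum_mul]
      refine Finset.sum_congr rfl fun i _ => ?_
      rw [mul_pow, one_pow]
      simp only [C_mul, C_pow, map_natCast, C_1]
      ring
    rw [hF, finsetSum_coeff, finsetSum_coeff]
    refine Finset.sum_congr rfl fun i _ => ?_
    simp only [coeff_C_mul]
  exact congrFun h3 ⟨p, hp⟩

theorem sur_monomial {K : Type*} [Field K] {S I : Finset (ℕ × ℕ)} (h : I ⊆ S) :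
    Sur S (X : K[X]) 0 I := by
  intro d hd p hp
  have h1 := hd p (h hp)
  rw [Finset.sum_eq_single p] at h1
  · rw [C_0, zero_add, coeff_C_mul, coeff_X_pow, if_pos rfl, mul_one, coeff_X_pow, if_pos rfl,
      mul_one] at h1
    exact h1
  · intro u _ hu
    rw [C_0, zero_add, coeff_C_mul, coeff_X_pow]
    by_cases h2 : u.2 = p.2
    · rw [if_pos h2, mul_one, coeff_X_pow, if_neg, mul_zero]
      intro h3
      exact hu (Prod.ext h3 h2)
    · rw [if_neg h2, mul_zero, coeff_zero, mul_zero]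
  · intro h2
    exact absurd hp h2

end Pool.Agent.Lib.MP_ed661f_ag.H
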