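import Pool.Agent.Lib.MP_ed661f_ag.H.QDefs
import Pool.Agent.Lib.MP_ed661f_ag.H.PDefs
import Pool.Agent.Lib.MP_6b2d39_ag.Transfer

/-!
Points on a surface at which the forms of degree `κ` separate jets.
-/

set_option autoImplicit false

open MvPolynomial

namespace Pool.Agent.Lib.MP_ed661f_ag.H

variable {N : ℕ}

/-- exponents -/
noncomputable def expo (p : ℕ × ℕ) : Fin 2 →₀ ℕ := Finsupp.single 0 p.1 + Finsupp.single 1 p.2

theorem expo_degree (p : ℕ × ℕ) : (expo p).degree = p.1 + p.2 := by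
  simp [expo, map_add]

theorem eq_expo (e : Fin 2 →₀ ℕ) : e = expo (e 0, e 1) := by
  ext i
  fin_cases i <;> simp [expo]

/-- Taylor coefficients of monomials -/
theorem coeff_expo (q : ℂ × ℂ) (α β : ℕ) (p : ℕ × ℕ) :
    ((C q.1 + X 0 : MvPolynomial (Fin 2) ℂ) ^ α * (C q.2 + X 1) ^ β).coeff (expo p) =
      (α.choose p.1 : ℂ) * q.1 ^ (α - p.1) * ((β.choose p.2 : ℂ) * q.2 ^ (β - p.2)) := by
  classical
  have h1 : ∀ (i : Fin 2) (a : ℂ) (m : ℕ), (C a + X i : MvPolynomial (Fin 2) ℂ) ^ m =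
      ∑ k ∈ Finset.range (m + 1), monomial (Finsupp.single i k) (a ^ (m - k) * (m.choose k : ℂ)) := by
    intro i a m
    rw [add_comm, add_pow]
    refine Finset.sum_congr rfl fun k _ => ?_
    rw [X_pow_eq_monomial, ← C_pow, ← C_eq_coe_nat, mul_assoc, ← C_mul, mul_comm, C_mul_monomial,
      mul_one]
  rw [h1, h1, Finset.sum_mul_sum, coeff_sum]
  have h2 : ∀ k ∈ Finset.range (α + 1), coeff (expo p) (∑ l ∈ Finset.range (β + 1),
      monomial (Finsupp.single 0 k) (q.1 ^ (α - k) * (α.choose k : ℂ)) *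
        monomial (Finsupp.single 1 l) (q.2 ^ (β - l) * (β.choose l : ℂ)) :
          MvPolynomial (Fin 2) ℂ) = ∑ l ∈ Finset.range (β + 1), if k = p.1 ∧ l = p.2 then
        q.1 ^ (α - k) * (α.choose k : ℂ) * (q.2 ^ (β - l) * (β.choose l : ℂ)) else 0 := by
    intro k _
    rw [coeff_sum]
    refine Finset.sum_congr rfl fun l _ => ?_
    rw [monomial_mul, coeff_monomial]
    refine if_congr ?_ rfl rfl
    constructor
    · intro h
      have h0 := DFunLike.congr_fun h 0
      have h1 := DFunLike.congr_fun h 1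
      simp [expo] at h0 h1
      exact ⟨h0, h1⟩
    · rintro ⟨rfl, rfl⟩
      rfl
  rw [Finset.sum_congr rfl h2]
  by_cases hα : p.1 ≤ α
  · by_cases hβ : p.2 ≤ β
    · rw [Finset.sum_eq_single_of_mem p.1 (Finset.mem_range.2 (by omega))]
      · rw [Finset.sum_eq_single_of_mem p.2 (Finset.mem_range.2 (by omega))]
        · rw [if_pos ⟨rfl, rfl⟩]
          ring
        · intro l _ hl
          rw [if_neg fun h => hl h.2]
      · intro k _ hk
        exact Finset.sum_eq_zero fun l _ => by rw [if_neg fun h => hk h.1]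
    · rw [Nat.choose_eq_zero_of_lt (not_le.1 hβ), Finset.sum_eq_zero]
      · simp
      · intro k _
        refine Finset.sum_eq_zero fun l hl => ?_
        rw [if_neg]
        rintro ⟨-, rfl⟩
        rw [Finset.mem_range] at hl
        omega
  · rw [Nat.choose_eq_zero_of_lt (not_le.1 hα), Finset.sum_eq_zero]
    · simp
    · intro k hk
      refine Finset.sum_eq_zero fun l _ => ?_
      rw [if_neg]
      rintro ⟨rfl, -⟩
      rw [Finset.mem_range] at hk
      omega

/-- the index set of the conditions -/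
abbrev JInd (n s : ℕ) : Type := Fin n × {p : ℕ × ℕ // p ∈ G.simplex (s + 1)}

/-- a square submatrix of the matrix of Taylor coefficients -/
theorem exists_minor_of_monSep {n : ℕ} {S : Finset (ℕ × ℕ)} {q : Fin n → ℂ × ℂ} {s : ℕ}
    (h : MonSep S q s) : ∃ a : JInd n s → ℕ × ℕ, (∀ x, a x ∈ S) ∧
      (Matrix.of fun x y : JInd n s =>
        ((C (q x.1).1 + X 0 : MvPolynomial (Fin 2) ℂ) ^ (a y).1 * (C (q x.1).2 + X 1) ^ (a y).2).coeff
          (expo x.2.1)).det ≠ 0 := by
  classical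
  obtain ⟨a, ha⟩ := MP_6b2d39_ag.Transfer.exists_minor (K := ℂ)
    (I := JInd n s) (J := {σ : ℕ × ℕ // σ ∈ S})
    (fun σ x => ((C (q x.1).1 + X 0 : MvPolynomial (Fin 2) ℂ) ^ σ.1.1 *
      (C (q x.1).2 + X 1) ^ σ.1.2).coeff (expo x.2.1)) (by
    intro c hc
    funext x₀
    obtain ⟨c', hc'⟩ := h fun l p => if l = x₀.1 ∧ p = x₀.2.1 then 1 else 0
    have h1 : ∑ x : JInd n s,
        (if x = x₀ then (1 : ℂ) else 0) * c x = 0 := by
      have h2 : ∀ x : JInd n s, (if x = x₀ then (1 : ℂ) else 0) =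
          ∑ σ ∈ S, c' σ * ((C (q x.1).1 + X 0 : MvPolynomial (Fin 2) ℂ) ^ σ.1 *
            (C (q x.1).2 + X 1) ^ σ.2).coeff (expo x.2.1) := by
        intro x
        have h3 := hc' x.1 x.2.1 x.2.2
        simp only [coeff_expo]
        rw [h3]
        refine if_congr ?_ rfl rfl
        rw [Prod.ext_iff, Subtype.ext_iff]
      simp only [h2, Finset.sum_mul]
      rw [Finset.sum_comm]
      refine Finset.sum_eq_zero fun σ hσ => ?_
      have h4 := hc ⟨σ, hσ⟩
      simp only at h4
      rw [← mul_zero (c' σ), ← h4, Finset.mul_sum]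
      exact Finset.sum_congr rfl fun x _ => by ring
    rw [Finset.sum_eq_single x₀] at h1
    · simpa using h1
    · intro x _ hx
      rw [if_neg hx, zero_mul]
    · intro hx
      exact absurd (Finset.mem_univ _) hx)
  refine ⟨fun x => (a x).1, fun x => (a x).2, ?_⟩
  rw [← Matrix.det_transpose]
  exact ha

end Pool.Agent.Lib.MP_ed661f_ag.H
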