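import Mathlib

/-!
Primitive elements of finite extensions of the polynomial ring in two variables, with cleared
denominators.
-/

set_option autoImplicit false

open MvPolynomial
open scoped nonZeroDivisors

namespace Pool.Agent.Lib.MP_ed661f_ag.H

/-- primitive element, with a monic equation (general form) -/
theorem exists_primitive_monic_aux {R B : Type} [CommRing R] [IsDomain R] [IsIntegrallyClosed R]
    [CharZero R] [CommRing B] [IsDomain B] [Algebra R B] [Module.Finite R B]
    [FaithfulSMul R B] :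
    ∃ (θ : B) (q : R) (Φ : Polynomial R), q ≠ 0 ∧ Φ.Monic ∧
      Polynomial.aeval θ Φ = 0 ∧ Polynomial.aeval θ (Polynomial.derivative Φ) ≠ 0 ∧
      (∀ b : B, ∃ P : Polynomial R, q • b = Polynomial.aeval θ P) ∧
      ∀ P : Polynomial R, Polynomial.aeval θ P = 0 → Φ ∣ P := by
  classical
  have : Module.IsTorsionFree R B := inferInstance
  let K := FractionRing R
  let L := FractionRing B
  let _ : Algebra K L := FractionRing.liftAlgebra R L
  have : IsScalarTower R K L := FractionRing.isScalarTower_liftAlgebra R L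
  have : Algebra.IsAlgebraic K L := isAlgebraic_of_isFractionRing R B K L
  have hloc : IsLocalization (Algebra.algebraMapSubmonoid B R⁰) L := inferInstance
  have : Module.Finite K L := Module.Finite.of_isLocalization R B R⁰
  have : CharZero K := charZero_of_injective_algebraMap (IsFractionRing.injective R K)
  obtain ⟨α, hα⟩ := Field.exists_primitive_element K L
  obtain ⟨⟨θ, s, r, hr, hrs⟩, hb⟩ := IsLocalization.surj (Algebra.algebraMapSubmonoid B R⁰) α
  simp only at hb
  have hr0 : r ≠ 0 := nonZeroDivisors.ne_zero hr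
  have hrL : algebraMap B L s = algebraMap K L (algebraMap R K r) := by
    rw [← hrs, ← IsScalarTower.algebraMap_apply R K L]
    exact (IsScalarTower.algebraMap_apply R B L r).symm
  have hrK : algebraMap R K r ≠ 0 := by
    simpa using hr0
  have hθ : IntermediateField.adjoin K {algebraMap B L θ} = ⊤ := by
    rw [eq_top_iff, ← hα, IntermediateField.adjoin_simple_le_iff]
    have h1 : α = algebraMap B L θ * algebraMap K L (algebraMap R K r)⁻¹ := by
      rw [← hb, hrL, mul_assoc, ← map_mul, mul_inv_cancel₀ hrK, map_one, mul_one]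
    rw [h1]
    exact mul_mem (IntermediateField.mem_adjoin_simple_self K _)
      (IntermediateField.algebraMap_mem _ _)
  have hint : IsIntegral R θ := Algebra.IsIntegral.isIntegral θ
  have hmon := minpoly.monic hint
  -- a multiple of every element is a polynomial in `θ`
  have key : ∀ b : B, ∃ (q : R) (P : Polynomial R), q ≠ 0 ∧ q • b = Polynomial.aeval θ P := by
    intro b
    have h1 : algebraMap B L b ∈ IntermediateField.adjoin K {algebraMap B L θ} := by
      rw [hθ]; trivial
    have h2 : IsIntegral K (algebraMap B L θ) := Algebra.IsIntegral.isIntegral _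
    rw [← IntermediateField.mem_toSubalgebra,
      IntermediateField.adjoin_simple_toSubalgebra_of_isAlgebraic h2.isAlgebraic,
      Algebra.adjoin_singleton_eq_range_aeval] at h1
    obtain ⟨p, hp⟩ := h1
    obtain ⟨m, hm0, hm⟩ := IsLocalization.integerNormalization_spec R⁰ p
    refine ⟨m, IsLocalization.integerNormalization R⁰ p, nonZeroDivisors.ne_zero hm0, ?_⟩
    apply IsFractionRing.injective B L
    have h3 : Polynomial.aeval (algebraMap B L θ)
        ((IsLocalization.integerNormalization R⁰ p).map (algebraMap R K)) =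
        algebraMap B L (Polynomial.aeval θ (IsLocalization.integerNormalization R⁰ p)) := by
      rw [Polynomial.aeval_map_algebraMap, Polynomial.aeval_algebraMap_apply]
    rw [← h3, hm]
    have h4 : Polynomial.aeval (algebraMap B L θ) p = algebraMap B L b := hp
    rw [Algebra.smul_def, map_mul, ← IsScalarTower.algebraMap_apply, ← h4]
    have h5 : (m • p : Polynomial K) = Polynomial.C (algebraMap R K m) * p := by
      rw [Algebra.smul_def]
      rfl
    rw [h5, map_mul, Polynomial.aeval_C, ← IsScalarTower.algebraMap_apply]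
  choose qq PP hqq hPP using key
  obtain ⟨S, hS⟩ := (Module.Finite.fg_top : (⊤ : Submodule R B).FG)
  refine ⟨θ, ∏ b ∈ S, qq b, minpoly R θ, Finset.prod_ne_zero_iff.2 fun b _ => hqq b, hmon,
    minpoly.aeval R θ, ?_, ?_, fun P hP => minpoly.isIntegrallyClosed_dvd hint hP⟩
  · intro h0
    have h1 := minpoly.isIntegrallyClosed_dvd hint h0
    have h2 : (minpoly R θ).natDegree ≠ 0 := by
      intro h
      have h3 : minpoly R θ = 1 := hmon.natDegree_eq_zero.1 h
      have h4 := minpoly.aeval R θ
      rw [h3, map_one] at h4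
      exact one_ne_zero h4
    have h3 : Polynomial.derivative (minpoly R θ) = 0 :=
      Polynomial.eq_zero_of_dvd_of_degree_lt h1 (Polynomial.degree_derivative_lt
        (fun h => h2 (by rw [h, Polynomial.natDegree_zero])))
    exact h2 (Polynomial.derivative_eq_zero.1 h3)
  · intro b
    have hb : b ∈ Submodule.span R (S : Set B) := by rw [hS]; trivial
    induction hb using Submodule.span_induction with
    | mem x hx =>
      refine ⟨Polynomial.C (∏ b ∈ S.erase x, qq b) * PP x, ?_⟩
      rw [map_mul, Polynomial.aeval_C, ← hPP, ← Algebra.smul_def, smul_smul,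
        Finset.prod_erase_mul _ _ hx]
    | zero => exact ⟨0, by simp⟩
    | add x y _ _ hx hy =>
      obtain ⟨P, hP⟩ := hx
      obtain ⟨Q, hQ⟩ := hy
      exact ⟨P + Q, by rw [smul_add, map_add, hP, hQ]⟩
    | smul a x _ hx =>
      obtain ⟨P, hP⟩ := hx
      exact ⟨Polynomial.C a * P, by
        rw [map_mul, Polynomial.aeval_C, ← hP, ← Algebra.smul_def, smul_comm]⟩

/-- primitive element, with a monic equation -/
theorem exists_primitive_monic {B : Type} [CommRing B] [IsDomain B] [Algebra ℂ B]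
    (ρ : MvPolynomial (Fin 2) ℂ →ₐ[ℂ] B) (hinj : Function.Injective ρ)
    (hfin : ρ.toRingHom.Finite) :
    ∃ (θ : B) (q : MvPolynomial (Fin 2) ℂ) (Φ : Polynomial (MvPolynomial (Fin 2) ℂ)), q ≠ 0 ∧
      Φ.Monic ∧
      Φ.eval₂ ρ.toRingHom θ = 0 ∧ (Polynomial.derivative Φ).eval₂ ρ.toRingHom θ ≠ 0 ∧
      (∀ b : B, ∃ P : Polynomial (MvPolynomial (Fin 2) ℂ), ρ q * b = P.eval₂ ρ.toRingHom θ) ∧
      ∀ P : Polynomial (MvPolynomial (Fin 2) ℂ), P.eval₂ ρ.toRingHom θ = 0 → Φ ∣ P := by
  let _ : Algebra (MvPolynomial (Fin 2) ℂ) B := ρ.toRingHom.toAlgebra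
  have : Module.Finite (MvPolynomial (Fin 2) ℂ) B := hfin
  have : FaithfulSMul (MvPolynomial (Fin 2) ℂ) B :=
    (faithfulSMul_iff_algebraMap_injective _ _).2 hinj
  obtain ⟨θ, q, Φ, h1, h2, h3, h4, h5, h6⟩ :=
    exists_primitive_monic_aux (R := MvPolynomial (Fin 2) ℂ) (B := B)
  refine ⟨θ, q, Φ, h1, h2, h3, h4, fun b => ?_, h6⟩
  obtain ⟨P, hP⟩ := h5 b
  exact ⟨P, by rw [Algebra.smul_def] at hP; exact hP⟩

theorem exists_primitive_elt {B : Type} [CommRing B] [IsDomain B] [Algebra ℂ B]
    (ρ : MvPolynomial (Fin 2) ℂ →ₐ[ℂ] B) (hinj : Function.Injective ρ)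
    (hfin : ρ.toRingHom.Finite) :
    ∃ (θ : B) (q : MvPolynomial (Fin 2) ℂ) (Φ : Polynomial (MvPolynomial (Fin 2) ℂ)), q ≠ 0 ∧
      Φ.eval₂ ρ.toRingHom θ = 0 ∧ (Polynomial.derivative Φ).eval₂ ρ.toRingHom θ ≠ 0 ∧
      (∀ b : B, ∃ P : Polynomial (MvPolynomial (Fin 2) ℂ), ρ q * b = P.eval₂ ρ.toRingHom θ) ∧
      ∀ P : Polynomial (MvPolynomial (Fin 2) ℂ), P.eval₂ ρ.toRingHom θ = 0 →
        ∃ r : MvPolynomial (Fin 2) ℂ, r ≠ 0 ∧ Φ ∣ Polynomial.C r * P := by
  obtain ⟨θ, q, Φ, h1, _, h3, h4, h5, h6⟩ := exists_primitive_monic ρ hinj hfin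
  exact ⟨θ, q, Φ, h1, h3, h4, h5, fun P hP => ⟨1, one_ne_zero, by simpa using h6 P hP⟩⟩

end Pool.Agent.Lib.MP_ed661f_ag.H
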