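import Pool.Agent.Lib.MP_ed661f_ag.H.Defs

/-!
Charts of surfaces, restriction of power series to lines: definitions.
-/

set_option autoImplicit false

open MvPolynomial Filter
open scoped ENNReal

namespace Pool.Agent.Lib.MP_ed661f_ag.H

variable {N : ℕ}

/-- the homomorphism of graded algebras given by linear forms -/
noncomputable def proj {r : ℕ} (J : Ideal (Poly N)) (y : Fin r → Poly N) :
    MvPolynomial (Fin r) ℂ →ₐ[ℂ] Poly N ⧸ J :=
  aeval fun i => Ideal.Quotient.mk J (y i)

/-- `J` contains the homogeneous components of its elements -/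
def Homog (J : Ideal (Poly N)) : Prop := ∀ F ∈ J, ∀ k, homogeneousComponent k F ∈ J

/-- a polynomial without terms of degree at most `s` -/
def Tz (s : ℕ) (f : MvPolynomial (Fin 2) ℂ) : Prop :=
  ∀ e : Fin 2 →₀ ℕ, e.degree ≤ s → f.coeff e = 0

/-- coefficient of a power series in two variables -/
noncomputable def cf (f : MvPowerSeries (Fin 2) ℂ) (i j : ℕ) : ℂ :=
  MvPowerSeries.coeff (Finsupp.single 0 i + Finsupp.single 1 j) f

/-- restriction of a power series to the line of slope `c` -/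
noncomputable def restr (c : ℂ) (f : MvPowerSeries (Fin 2) ℂ) : PowerSeries ℂ :=
  PowerSeries.mk fun m => ∑ p ∈ Finset.HasAntidiagonal.antidiagonal m, cf f p.1 p.2 * c ^ p.2

/-- the coordinates `(x, y) = (u, c u + g)` -/
noncomputable def slope (c : ℂ) : MvPowerSeries (Fin 2) ℂ →ₐ[ℂ] MvPowerSeries (Fin 2) ℂ :=
  MvPowerSeries.substAlgHom (a := ![MvPowerSeries.X 0,
    c • MvPowerSeries.X 0 + MvPowerSeries.X 1]) (by
    refine ⟨?_, ?_⟩
    · intro i
      fin_cases i <;> simp
    · intro d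
      exact Set.toFinite _)

/-- local coordinates on the surface with ideal `I` at a smooth point, and a family of `d` forms
which are linearly independent over the polynomials in the coordinates -/
structure Chart (I : Ideal (Poly N)) (d : ℕ) where
  y0 : Poly N
  y1 : Poly N
  y2 : Poly N
  hy0 : y0.IsHomogeneous 1
  hy1 : y1.IsHomogeneous 1
  hy2 : y2.IsHomogeneous 1
  T : Poly N →ₐ[ℂ] MvPowerSeries (Fin 2) ℂ
  mem_iff : ∀ F, T F = 0 ↔ F ∈ I ⊔ Ideal.span {y0 - 1}
  T1 : T y1 = MvPowerSeries.X 0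
  T2 : T y2 = MvPowerSeries.X 1
  h : Poly N
  hh : MvPowerSeries.constantCoeff (T h) ≠ 0
  smooth : ∀ v : Fin (N + 1) → ℂ, (∀ F ∈ I, eval v F = 0) → eval v y0 = 1 → eval v h ≠ 0 →
    vecIdeal v ≤ I ⊔ Ideal.span {y0 - 1} ⊔
      Ideal.span {y1 - C (eval v y1), y2 - C (eval v y2)} ⊔ vecIdeal v ^ 2
  e : Fin d → Poly N
  a : Fin d → ℕ
  he : ∀ l, (e l).IsHomogeneous (a l)
  indep : ∀ c : Fin d → MvPolynomial (Fin 2) ℂ,
    ∑ l, (c l : MvPowerSeries (Fin 2) ℂ) * T (e l) = 0 → c = 0

/-- the power series in `λ` formed by the coefficients of `X ^ e` -/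
noncomputable def lc (f : PowerSeries (MvPolynomial (Fin 2) ℂ)) (e : Fin 2 →₀ ℕ) :
    PowerSeries ℂ :=
  PowerSeries.mk fun k => (PowerSeries.coeff k f).coeff e

end Pool.Agent.Lib.MP_ed661f_ag.H
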